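import Pool.Agent.Lib.MP_d3a5e5_coK.S1

set_option autoImplicit false

namespace KPl

/-- The group of order 2. -/
abbrev Z2 : Type := Multiplicative (ZMod 2)

/-- `r k ↦ r 4k`, `sr k ↦ sr 4k`. -/
def io : DihedralGroup 4 →* DihedralGroup 16 where
  toFun d := match d with
    | .r k => .r ((4 * k.val : ℕ) : ZMod 16)
    | .sr k => .sr ((4 * k.val : ℕ) : ZMod 16)
  map_one' := by decide
  map_mul' := by decide

/-- Rotation or reflection. -/
def sg : DihedralGroup 4 →* Z2 where
  toFun d := match d with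
    | .r _ => 1
    | .sr _ => Multiplicative.ofAdd 1
  map_one' := by decide
  map_mul' := by decide

/-- A system: `H = ker q` is a group with four involutions `D (r k) t0 D (r k)⁻¹` permuted by the dihedral group `D`, and there is an automorphism `α` of order 2 which
fixes `D` and maps `t0` to `t0 * D (sr 0)`. -/
structure Sys0 (Q : Type) [Group Q] where
  D : DihedralGroup 4 →* Q
  q : Q →* DihedralGroup 4
  qD : ∀ δ, q (D δ) = δ
  t0 : Q
  qt0 : q t0 = 1
  sq : t0 * t0 = 1
  tD : D (.sr 0) * t0 = t0 * D (.sr 0)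
  α : Q →* Q
  αD : ∀ δ, α (D δ) = D δ
  αt0 : α t0 = t0 * D (.sr 0)
  αα : ∀ x, α (α x) = x
  par : Q →* Z2
  par_t0 : par t0 = Multiplicative.ofAdd 1
  par_D : ∀ δ, par (D δ) = 1
  par_α : ∀ x, par (α x) = par x
  sg_α : ∀ x, sg (q (α x)) = sg (q x) * par x

/-- The four involutions. -/
def Sys0.t {Q : Type} [Group Q] (S : Sys0 Q) (k : ZMod 4) : S.q.ker :=
  ⟨S.D (.r k) * S.t0 * (S.D (.r k))⁻¹, by
    rw [MonoidHom.mem_ker, map_mul, map_mul, S.qt0, mul_one, map_inv, mul_inv_cancel]⟩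

/-- The amalgamated product of `Q` and the dihedral group of order 32 over the dihedral group of order 8: `J` is the free product of four copies of `H`, a normal subgroup
with the dihedral group of order 32 as a complement. -/
structure Amal0 {Q : Type} [Group Q] (S : Sys0 Q) where
  G : Type
  [gG : Group G]
  E : Q →* G
  I : DihedralGroup 16 →* G
  J : F4 S.q.ker →* G
  ED : ∀ δ, E (S.D δ) = I (io δ)
  JE : ∀ (b : ZMod 4) (h : S.q.ker), J (ofb b h) = I (.r (b.val : ZMod 16)) * E h * (I (.r (b.val : ZMod 16)))⁻¹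
  inj : ∀ f f' d d', J f * I d = J f' * I d' → f = f' ∧ d = d'
  surj : ∀ x, ∃ f d, x = J f * I d
  lift : ∀ (K : Type) [Group K] (a : Q →* K) (c : DihedralGroup 16 →* K), (∀ δ, a (S.D δ) = c (io δ)) →
    ∃ g : G →* K, (∀ x, g (E x) = a x) ∧ ∀ d, g (I d) = c d

/-- The same with an involution `B` which acts by `α` on `Q` and commutes with the dihedral group of order 32. -/
structure Amal {Q : Type} [Group Q] (S : Sys0 Q) where
  G : Type
  [gG : Group G]
  E : Q →* G
  I : DihedralGroup 16 →* G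
  B : G
  J : F4 S.q.ker →* G
  B_sq : B * B = 1
  ED : ∀ δ, E (S.D δ) = I (io δ)
  BE : ∀ x, B * E x = E (S.α x) * B
  BI : ∀ d, B * I d = I d * B
  JE : ∀ (b : ZMod 4) (h : S.q.ker), J (ofb b h) = I (.r (b.val : ZMod 16)) * E h * (I (.r (b.val : ZMod 16)))⁻¹
  inj : ∀ f f' d d', J f * I d = J f' * I d' → f = f' ∧ d = d'
  injB : ∀ f f' d d', J f * I d ≠ J f' * I d' * B
  surj : ∀ x, ∃ f d, x = J f * I d ∨ x = J f * I d * B
  lift : ∀ (K : Type) [Group K] (a : Q →* K) (c : DihedralGroup 16 →* K) (β : K), β * β = 1 →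
    (∀ δ, a (S.D δ) = c (io δ)) → (∀ x, β * a x = a (S.α x) * β) → (∀ d, β * c d = c d * β) →
    ∃ g : G →* K, (∀ x, g (E x) = a x) ∧ (∀ d, g (I d) = c d) ∧ g B = β

attribute [instance] Amal0.gG Amal.gG

/-- The homomorphism `r i ↦ r 2i`, `sr i ↦ r (2i + 2)`. -/
def cq (d : DihedralGroup 16) : DihedralGroup 4 :=
  match d with
    | .r i => .r ((2 * i.val : ℕ) : ZMod 4)
    | .sr i => .r ((2 * i.val + 2 : ℕ) : ZMod 4)

/-- The homomorphism `r i ↦ i`, `sr i ↦ i` modulo 2. -/
def chi (d : DihedralGroup 16) : Z2 :=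
  match d with
    | .r i => Multiplicative.ofAdd ((i.val : ℕ) : ZMod 2)
    | .sr i => Multiplicative.ofAdd ((i.val : ℕ) : ZMod 2)

end KPl
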