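import Pool.Agent.Lib.MP_d3a5e5_coK.A0

set_option autoImplicit false

namespace KPl

/-- LEAF A1 (part 1, easy: `decide` or cases). Unique factorization in the dihedral group of order 32. -/
theorem dih_fac (d : DihedralGroup 16) : ∃ (b : ZMod 4) (δ : DihedralGroup 4), d = .r (b.val : ZMod 16) * io δ := by
  revert d
  decide

theorem dih_uniq (b b' : ZMod 4) (δ δ' : DihedralGroup 4)
    (e : (.r (b.val : ZMod 16) * io δ : DihedralGroup 16) = .r (b'.val : ZMod 16) * io δ') : b = b' ∧ δ = δ' := by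
  revert b b' δ δ'
  decide

/-- LEAF A1 (part 2, medium). For `d` and `b` write `d * r b = r b' * io δ` (`dih_fac`, choice; unique by `dih_uniq`): `bb d b = b'`, `dd d b = δ`. Put `act d = Monoid.CoprodI.lift (fun b => (ofb (bb d b)).comp (c (dd d b)).toMonoidHom)`. `act (d * e) = act d ∘ act e`: if
`e * r b = r b1 * io δ1` and `d * r b1 = r b2 * io δ2` then `d * e * r b = r b2 * io (δ2 * δ1)`. `act 1 = id`. So `act d` is an automorphism with inverse `act d⁻¹`. Values: `r b * r 0 = r b * io 1`; `io δ * r 0 = r 0 * io δ`. -/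
theorem exists_act {H : Type} [Group H] (c : DihedralGroup 4 →* MulAut H) :
    ∃ a : DihedralGroup 16 →* MulAut (F4 H), (∀ (b : ZMod 4) (h : H), a (.r (b.val : ZMod 16)) (ofb 0 h) = ofb b h) ∧
      ∀ (δ : DihedralGroup 4) (h : H), a (io δ) (ofb 0 h) = ofb 0 (c δ h) := by
  have hfac : ∀ (d : DihedralGroup 16) (b : ZMod 4), ∃ (b' : ZMod 4) (δ : DihedralGroup 4),
      d * .r (b.val : ZMod 16) = .r (b'.val : ZMod 16) * io δ := fun d b => dih_fac _
  choose bb dd hbd using hfac
  have huniq : ∀ (d : DihedralGroup 16) (b b' : ZMod 4) (δ : DihedralGroup 4),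
      d * .r (b.val : ZMod 16) = .r (b'.val : ZMod 16) * io δ → bb d b = b' ∧ dd d b = δ :=
    fun d b b' δ e => dih_uniq _ _ _ _ ((hbd d b).symm.trans e)
  obtain ⟨act, hact⟩ : ∃ act : DihedralGroup 16 → F4 H →* F4 H, ∀ d b (h : H),
      act d (ofb b h) = ofb (bb d b) (c (dd d b) h) := by
    refine ⟨fun d => Monoid.CoprodI.lift (fun b => (ofb (bb d b)).comp (c (dd d b)).toMonoidHom),
      fun d b h => ?_⟩
    exact Monoid.CoprodI.lift_of _ _
  have hext : ∀ f g : F4 H →* F4 H, (∀ b h, f (ofb b h) = g (ofb b h)) → f = g := by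
    intro f g hfg
    refine Monoid.CoprodI.ext_hom _ _ fun b => ?_
    ext h
    exact hfg b h
  have hmul : ∀ d e, (act d).comp (act e) = act (d * e) := by
    intro d e
    refine hext _ _ fun b h => ?_
    have h1 : d * e * .r (b.val : ZMod 16) =
        .r ((bb d (bb e b)).val : ZMod 16) * io (dd d (bb e b) * dd e b) := by
      rw [mul_assoc, hbd e b, ← mul_assoc, hbd d (bb e b), map_mul, mul_assoc]
    obtain ⟨h2, h3⟩ := huniq _ _ _ _ h1
    rw [MonoidHom.comp_apply, hact, hact, hact, h2, h3, map_mul]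
    rfl
  have hone : act 1 = MonoidHom.id _ := by
    refine hext _ _ fun b h => ?_
    obtain ⟨h2, h3⟩ := huniq 1 b b 1 (by rw [one_mul, map_one, mul_one])
    rw [hact, h2, h3, map_one]
    rfl
  refine ⟨{ toFun := fun d => MonoidHom.toMulEquiv (act d) (act d⁻¹)
              (by rw [hmul, inv_mul_cancel, hone]) (by rw [hmul, mul_inv_cancel, hone])
            map_one' := ?_
            map_mul' := ?_ }, ?_, ?_⟩
  · ext x
    show act 1 x = x
    rw [hone]
    rfl
  · intro d e
    ext x
    show act (d * e) x = act d (act e x)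
    rw [← hmul]
    rfl
  · intro b h
    show act (.r (b.val : ZMod 16)) (ofb 0 h) = ofb b h
    obtain ⟨h2, h3⟩ := huniq (.r (b.val : ZMod 16)) 0 b 1 (by
      rw [map_one, mul_one, ZMod.val_zero, Nat.cast_zero, ← DihedralGroup.one_def, mul_one])
    rw [hact, h2, h3, map_one]
    rfl
  · intro δ h
    show act (io δ) (ofb 0 h) = ofb 0 (c δ h)
    obtain ⟨h2, h3⟩ := huniq (io δ) 0 0 δ (by
      rw [ZMod.val_zero, Nat.cast_zero, ← DihedralGroup.one_def, mul_one, one_mul])
    rw [hact, h2, h3]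

end KPl
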