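import Pool.Agent.Lib.MP_d3a5e5_coK.A1

set_option autoImplicit false

namespace KPl

open SemidirectProduct

private lemma A2_r0 : (DihedralGroup.r (((0 : ZMod 4).val : ℕ) : ZMod 16) : DihedralGroup 16) = 1 := by
  decide

/-- The component in the kernel. -/
private def A2_k {Q : Type} [Group Q] (S : Sys0 Q) (x : Q) : S.q.ker :=
  ⟨x * (S.D (S.q x))⁻¹, by
    rw [MonoidHom.mem_ker, map_mul, map_inv, S.qD, mul_inv_cancel]⟩

/-- The action by conjugation. -/
private def A2_c {Q : Type} [Group Q] (S : Sys0 Q) : DihedralGroup 4 →* MulAut S.q.ker :=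
  MulAut.conjNormal.comp S.D

private lemma A2_c_coe {Q : Type} [Group Q] (S : Sys0 Q) (δ : DihedralGroup 4) (h : S.q.ker) :
    ((A2_c S δ h : S.q.ker) : Q) = S.D δ * h * (S.D δ)⁻¹ :=
  MulAut.conjNormal_apply (S.D δ) h

private lemma A2_k_mul {Q : Type} [Group Q] (S : Sys0 Q) (x y : Q) :
    A2_k S (x * y) = A2_k S x * A2_c S (S.q x) (A2_k S y) := by
  apply Subtype.ext
  rw [Subgroup.coe_mul, A2_c_coe]
  show x * y * (S.D (S.q (x * y)))⁻¹ = x * (S.D (S.q x))⁻¹ * (S.D (S.q x) * (y * (S.D (S.q y))⁻¹) *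
    (S.D (S.q x))⁻¹)
  rw [map_mul, map_mul]
  group

private lemma A2_k_D {Q : Type} [Group Q] (S : Sys0 Q) (δ : DihedralGroup 4) : A2_k S (S.D δ) = 1 := by
  apply Subtype.ext
  show S.D δ * (S.D (S.q (S.D δ)))⁻¹ = 1
  rw [S.qD, mul_inv_cancel]

private lemma A2_k_ker {Q : Type} [Group Q] (S : Sys0 Q) (h : S.q.ker) : A2_k S (h : Q) = h := by
  apply Subtype.ext
  show (h : Q) * (S.D (S.q (h : Q)))⁻¹ = h
  rw [MonoidHom.mem_ker.1 h.2, map_one, inv_one, mul_one]

/-- LEAF A2 (medium). `exists_act` with `c δ` = conjugation by `D δ` on `q.ker` (`MulAut.conjNormal`, composed with `D`). `G = F4 q.ker ⋊[a] DihedralGroup 16`, `I = inr`, `J = inl`, `E x = inl (ofb 0 ⟨x * (D (q x))⁻¹, _⟩) * inr (io (q x))`. `E` is a homomorphism: `x y (D (q x y))⁻¹ = x' * (D (q x) y' (D (q x))⁻¹)` with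
`x' = x (D (q x))⁻¹`, and `inr (io δ) * inl (ofb 0 h) = inl (ofb 0 (D δ h D δ⁻¹)) * inr (io δ)`. `JE`: `I (r b) * J (ofb 0 h) * (I (r b))⁻¹ = J (a (r b) (ofb 0 h))`. `lift`: on `F4` the homomorphism `f1 = CoprodI.lift (fun b => h ↦ c (r b) * a h * (c (r b))⁻¹)`, and `SemidirectProduct.lift f1 c`; the condition
`f1 (act d x) = c d * f1 x * (c d)⁻¹` for `x = ofb b h`: `d * r b = r b' * io δ` (`dih_fac`), `act d (ofb b h) = act (d * r b) (ofb 0 h) = ofb b' (D δ h D δ⁻¹)`, and `c (r b') a (D δ) = c (r b' * io δ) = c (d * r b)`. -/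
theorem exists_amal0 {Q : Type} [Group Q] (S : Sys0 Q) : Nonempty (Amal0 S) := by
  obtain ⟨a, ha1, ha2⟩ := exists_act (A2_c S)
  let E : Q →* F4 S.q.ker ⋊[a] DihedralGroup 16 :=
    { toFun := fun x => inl (ofb 0 (A2_k S x)) * inr (io (S.q x))
      map_one' := by
        have h1 : A2_k S 1 = 1 := by
          have h := A2_k_D S 1
          rwa [map_one] at h
        rw [h1, map_one, map_one, map_one, map_one, map_one, mul_one]
      map_mul' := by
        intro x y
        have e1 : (inr (io (S.q x)) : F4 S.q.ker ⋊[a] DihedralGroup 16) * inl (ofb 0 (A2_k S y)) =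
            inl (ofb 0 (A2_c S (S.q x) (A2_k S y))) * inr (io (S.q x)) := by
          rw [← ha2, inl_aut, map_inv, inv_mul_cancel_right]
        rw [A2_k_mul, map_mul (ofb 0), map_mul inl, map_mul S.q, map_mul io, map_mul inr]
        calc inl (ofb 0 (A2_k S x)) * inl (ofb 0 (A2_c S (S.q x) (A2_k S y))) *
              (inr (io (S.q x)) * inr (io (S.q y)))
            = inl (ofb 0 (A2_k S x)) * (inl (ofb 0 (A2_c S (S.q x) (A2_k S y))) * inr (io (S.q x))) *
              inr (io (S.q y)) := by simp only [mul_assoc]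
          _ = _ := by
              rw [← e1]
              simp only [mul_assoc] }
  have hE : ∀ x, E x = inl (ofb 0 (A2_k S x)) * inr (io (S.q x)) := fun x => rfl
  have hEk : ∀ h : S.q.ker, E (h : Q) = inl (ofb 0 h) := by
    intro h
    rw [hE, A2_k_ker, MonoidHom.mem_ker.1 h.2, map_one, map_one, mul_one]
  refine ⟨{
    G := F4 S.q.ker ⋊[a] DihedralGroup 16
    E := E
    I := inr
    J := inl
    ED := fun δ => ?_
    JE := fun b h => ?_
    inj := fun f f' d d' h => ?_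
    surj := fun x => ⟨x.left, x.right, (inl_left_mul_inr_right x).symm⟩
    lift := ?_ }⟩
  · rw [hE, A2_k_D, map_one, map_one, one_mul, S.qD]
  · rw [hEk, ← ha1 b h, inl_aut, map_inv]
  · rw [← mk_eq_inl_mul_inr, ← mk_eq_inl_mul_inr] at h
    exact ⟨congrArg SemidirectProduct.left h, congrArg SemidirectProduct.right h⟩
  · intro K _ α γ hαγ
    let f1 : F4 S.q.ker →* K := Monoid.CoprodI.lift fun b : ZMod 4 =>
      (MulAut.conj (γ (.r (b.val : ZMod 16)))).toMonoidHom.comp (α.comp S.q.ker.subtype)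
    have hf1 : ∀ (b : ZMod 4) (h : S.q.ker), f1 (ofb b h) =
        γ (.r (b.val : ZMod 16)) * α h * (γ (.r (b.val : ZMod 16)))⁻¹ := by
      intro b h
      exact Monoid.CoprodI.lift_of (M := fun _ : ZMod 4 => S.q.ker)
        (fun b : ZMod 4 => (MulAut.conj (γ (.r (b.val : ZMod 16)))).toMonoidHom.comp
          (α.comp S.q.ker.subtype)) h
    have hcond : ∀ d, f1.comp (a d).toMonoidHom = (MulAut.conj (γ d)).toMonoidHom.comp f1 := by
      intro d
      refine Monoid.CoprodI.ext_hom _ _ fun b => ?_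
      refine MonoidHom.ext fun h => ?_
      show f1 (a d (ofb b h)) = γ d * f1 (ofb b h) * (γ d)⁻¹
      obtain ⟨b', δ, hd⟩ := dih_fac (d * .r (b.val : ZMod 16))
      have e1 : a d (ofb b h) = ofb b' (A2_c S δ h) := by
        calc a d (ofb b h) = a d (a (.r (b.val : ZMod 16)) (ofb 0 h)) := by rw [ha1]
          _ = a (d * .r (b.val : ZMod 16)) (ofb 0 h) := by rw [map_mul]; rfl
          _ = a (.r (b'.val : ZMod 16)) (a (io δ) (ofb 0 h)) := by rw [hd, map_mul]; rfl
          _ = ofb b' (A2_c S δ h) := by rw [ha2, ha1]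
      have e2 : γ d * γ (.r (b.val : ZMod 16)) = γ (.r (b'.val : ZMod 16)) * α (S.D δ) := by
        rw [← map_mul, hd, map_mul, hαγ]
      rw [e1, hf1, hf1, A2_c_coe, map_mul, map_mul, map_inv]
      calc γ (.r (b'.val : ZMod 16)) * (α (S.D δ) * α h * (α (S.D δ))⁻¹) * (γ (.r (b'.val : ZMod 16)))⁻¹
          = (γ (.r (b'.val : ZMod 16)) * α (S.D δ)) * α h *
            (γ (.r (b'.val : ZMod 16)) * α (S.D δ))⁻¹ := by group
        _ = γ d * (γ (.r (b.val : ZMod 16)) * α h * (γ (.r (b.val : ZMod 16)))⁻¹) * (γ d)⁻¹ := by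
            rw [← e2]
            group
    refine ⟨SemidirectProduct.lift f1 γ hcond, fun x => ?_, fun d => ?_⟩
    · rw [hE, map_mul, lift_inl, lift_inr, hf1, A2_r0, map_one, one_mul, inv_one, mul_one, ← hαγ,
        ← map_mul]
      congr 1
      show x * (S.D (S.q x))⁻¹ * S.D (S.q x) = x
      rw [inv_mul_cancel_right]
    · exact lift_inr _ _ _ _

end KPl
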