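import Pool.Agent.Lib.MP_d3a5e5_coK.A0

set_option autoImplicit false

namespace KPl

/-- LEAF A3 (part 1, easy). Homomorphisms on `Amal0.G` are determined by their values on `E` and `I`: every element is `J f * I d`, and `J` is determined by `JE` (`Monoid.CoprodI.ext_hom`). -/
theorem amal0_ext {Q : Type} [Group Q] {S : Sys0 Q} (A : Amal0 S) {K : Type} [Group K] (g g' : A.G →* K)
    (hE : ∀ x, g (A.E x) = g' (A.E x)) (hI : ∀ d, g (A.I d) = g' (A.I d)) : g = g' := by
  have hJ : g.comp A.J = g'.comp A.J := by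
    refine Monoid.CoprodI.ext_hom _ _ fun b => MonoidHom.ext fun h => ?_
    change g (A.J (ofb b h)) = g' (A.J (ofb b h))
    rw [A.JE, map_mul, map_mul, map_mul, map_mul, map_inv, map_inv, hE, hI]
  refine MonoidHom.ext fun x => ?_
  obtain ⟨f, d, rfl⟩ := A.surj x
  rw [map_mul, map_mul, hI, DFunLike.congr_fun hJ f |> fun h => show g (A.J f) = g' (A.J f) from h]

private theorem A3_z2 (x : Z2) : x = 1 ∨ x = Multiplicative.ofAdd 1 := by
  revert x
  decide

/-- The homomorphism from the group of order two. -/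
private def A3_hom {M : Type} [Group M] (θ : M) (h : θ * θ = 1) : Z2 →* M where
  toFun z := if z = 1 then 1 else θ
  map_one' := if_pos rfl
  map_mul' x y := by
    have e0 : (Multiplicative.ofAdd (1 : ZMod 2)) ≠ 1 := by decide
    have e1 : (Multiplicative.ofAdd (1 : ZMod 2)) * Multiplicative.ofAdd (1 : ZMod 2) = 1 := by decide
    rcases A3_z2 x with rfl | rfl <;> rcases A3_z2 y with rfl | rfl
    · rw [one_mul, if_pos rfl, one_mul]
    · rw [one_mul, if_pos rfl, one_mul]
    · rw [mul_one, if_pos rfl, mul_one]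
    · rw [e1, if_pos rfl, if_neg e0, h]

private theorem A3_hom_s {M : Type} [Group M] (θ : M) (h : θ * θ = 1) :
    A3_hom θ h (Multiplicative.ofAdd 1) = θ := by
  have e0 : (Multiplicative.ofAdd (1 : ZMod 2)) ≠ 1 := by decide
  change (if (Multiplicative.ofAdd (1 : ZMod 2)) = 1 then (1 : M) else θ) = θ
  exact if_neg e0

private theorem A3_inv {Q : Type} [Group Q] {S : Sys0 Q} (A : Amal0 S) :
    ∃ θ : MulAut A.G, θ * θ = 1 ∧ (∀ x, θ (A.E x) = A.E (S.α x)) ∧ ∀ d, θ (A.I d) = A.I d := by
  obtain ⟨Θ, h1, h2⟩ := A.lift A.G (A.E.comp S.α) A.I fun δ => by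
    change A.E (S.α (S.D δ)) = A.I (io δ)
    rw [S.αD, A.ED]
  have h1' : ∀ x, Θ (A.E x) = A.E (S.α x) := h1
  have h3 : Θ.comp Θ = MonoidHom.id A.G := by
    refine amal0_ext A _ _ (fun x => ?_) fun d => ?_
    · change Θ (Θ (A.E x)) = A.E x
      rw [h1', h1', S.αα]
    · change Θ (Θ (A.I d)) = A.I d
      rw [h2, h2]
  have h4 : ∀ x, Θ (Θ x) = x := fun x => DFunLike.congr_fun h3 x
  refine ⟨{ toFun := Θ, invFun := Θ, left_inv := h4, right_inv := h4, map_mul' := map_mul Θ }, ?_, h1', h2⟩
  exact MulEquiv.ext fun x => h4 x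

/-- LEAF A3 (part 2, medium). `Θ : A.G →* A.G` with `Θ (E x) = E (α x)`, `Θ (I d) = I d` (`lift`, `αD`); `Θ ∘ Θ = id` by `amal0_ext`. `G' = A.G ⋊ Multiplicative (ZMod 2)` with `B = inr (ofAdd 1)` acting by `Θ`. `inj`, `injB`, `surj` clear (`B * J f * I d = Θ (..) * B`, every element is `inl x * inr ε`). `lift`: `g` from `A.lift` and `inr ε ↦ β ^ ε`; the condition
`β * g x * β⁻¹ = g (Θ x)` by `amal0_ext`. -/
theorem exists_amal {Q : Type} [Group Q] (S : Sys0 Q) (A : Amal0 S) : Nonempty (Amal S) := by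
  obtain ⟨θ, h0, h1, h2⟩ := A3_inv A
  have e1 : (Multiplicative.ofAdd (1 : ZMod 2)) * Multiplicative.ofAdd (1 : ZMod 2) = 1 := by decide
  have hs : ∀ n : A.G, (SemidirectProduct.inr (Multiplicative.ofAdd (1 : ZMod 2)) *
      SemidirectProduct.inl n : A.G ⋊[A3_hom θ h0] Z2) =
      SemidirectProduct.inl (θ n) * SemidirectProduct.inr (Multiplicative.ofAdd (1 : ZMod 2)) := by
    intro n
    have h3 := SemidirectProduct.inl_aut (φ := A3_hom θ h0) (Multiplicative.ofAdd (1 : ZMod 2)) n
    rw [A3_hom_s] at h3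
    rw [h3, map_inv, inv_mul_cancel_right]
  refine ⟨{
    G := A.G ⋊[A3_hom θ h0] Z2
    E := SemidirectProduct.inl.comp A.E
    I := SemidirectProduct.inl.comp A.I
    B := SemidirectProduct.inr (Multiplicative.ofAdd 1)
    J := SemidirectProduct.inl.comp A.J
    B_sq := ?_
    ED := ?_
    BE := ?_
    BI := ?_
    JE := ?_
    inj := ?_
    injB := ?_
    surj := ?_
    lift := ?_ }⟩
  · rw [← map_mul, e1, map_one]
  · intro δ
    change SemidirectProduct.inl (A.E (S.D δ)) = SemidirectProduct.inl (A.I (io δ))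
    rw [A.ED]
  · intro x
    change SemidirectProduct.inr _ * SemidirectProduct.inl (A.E x) = SemidirectProduct.inl (A.E (S.α x)) * _
    rw [hs, h1]
  · intro d
    change SemidirectProduct.inr _ * SemidirectProduct.inl (A.I d) = SemidirectProduct.inl (A.I d) * _
    rw [hs, h2]
  · intro b h
    change SemidirectProduct.inl (A.J (ofb b h)) = SemidirectProduct.inl _ * SemidirectProduct.inl (A.E h) *
      (SemidirectProduct.inl _)⁻¹
    rw [A.JE, map_mul, map_mul, map_inv]
  · intro f f' d d' h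
    have h' : (SemidirectProduct.inl (A.J f) * SemidirectProduct.inl (A.I d) : A.G ⋊[A3_hom θ h0] Z2) =
      SemidirectProduct.inl (A.J f') * SemidirectProduct.inl (A.I d') := h
    rw [← map_mul, ← map_mul] at h'
    exact A.inj _ _ _ _ (SemidirectProduct.inl_injective h')
  · intro f f' d d' h
    have h' : (SemidirectProduct.inl (A.J f) * SemidirectProduct.inl (A.I d) : A.G ⋊[A3_hom θ h0] Z2) =
      SemidirectProduct.inl (A.J f') * SemidirectProduct.inl (A.I d') *
        SemidirectProduct.inr (Multiplicative.ofAdd (1 : ZMod 2)) := h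
    have h3 := congrArg SemidirectProduct.right h'
    rw [SemidirectProduct.mul_right, SemidirectProduct.mul_right, SemidirectProduct.mul_right,
      SemidirectProduct.right_inl, SemidirectProduct.right_inl, SemidirectProduct.right_inl,
      SemidirectProduct.right_inl, SemidirectProduct.right_inr, one_mul, one_mul] at h3
    have e0 : (1 : Z2) ≠ Multiplicative.ofAdd (1 : ZMod 2) := by decide
    exact absurd h3 e0
  · intro x
    obtain ⟨f, d, hfd⟩ := A.surj x.left
    refine ⟨f, d, ?_⟩
    have h3 := SemidirectProduct.inl_left_mul_inr_right x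
    rw [hfd, map_mul] at h3
    rcases A3_z2 x.right with h4 | h4
    · left
      rw [h4, map_one, mul_one] at h3
      exact h3.symm
    · right
      rw [h4] at h3
      exact h3.symm
  · intro K _ a c β hβ a1 a2 a3
    obtain ⟨g, g1, g2⟩ := A.lift K a c a1
    have key : g.comp θ.toMonoidHom = (MulAut.conj β).toMonoidHom.comp g := by
      refine amal0_ext A _ _ (fun x => ?_) fun d => ?_
      · change g (θ (A.E x)) = β * g (A.E x) * β⁻¹
        rw [h1, g1, g1, a2, mul_inv_cancel_right]
      · change g (θ (A.I d)) = β * g (A.I d) * β⁻¹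
        rw [h2, g2, a3, mul_inv_cancel_right]
    refine ⟨SemidirectProduct.lift g (A3_hom β hβ) (fun z => ?_), fun x => ?_, fun d => ?_, ?_⟩
    · rcases A3_z2 z with rfl | rfl
      · rw [map_one, map_one, map_one]
        rfl
      · rw [A3_hom_s, A3_hom_s]
        exact key
    · change SemidirectProduct.lift g (A3_hom β hβ) _ (SemidirectProduct.inl (A.E x)) = _
      rw [SemidirectProduct.lift_inl, g1]
    · change SemidirectProduct.lift g (A3_hom β hβ) _ (SemidirectProduct.inl (A.I d)) = _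
      rw [SemidirectProduct.lift_inl, g2]
    · rw [SemidirectProduct.lift_inr, A3_hom_s]

/-- LEAF A3 (part 3, easy). -/
theorem amal_ext {Q : Type} [Group Q] {S : Sys0 Q} (A : Amal S) {K : Type} [Group K] (g g' : A.G →* K)
    (hE : ∀ x, g (A.E x) = g' (A.E x)) (hI : ∀ d, g (A.I d) = g' (A.I d)) (hB : g A.B = g' A.B) : g = g' := by
  have hJ : g.comp A.J = g'.comp A.J := by
    refine Monoid.CoprodI.ext_hom _ _ fun b => MonoidHom.ext fun h => ?_
    change g (A.J (ofb b h)) = g' (A.J (ofb b h))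
    rw [A.JE, map_mul, map_mul, map_mul, map_mul, map_inv, map_inv, hE, hI]
  have hJ' : ∀ f, g (A.J f) = g' (A.J f) := fun f => DFunLike.congr_fun hJ f
  refine MonoidHom.ext fun x => ?_
  obtain ⟨f, d, h⟩ := A.surj x
  rcases h with rfl | rfl
  · rw [map_mul, map_mul, hI, hJ']
  · rw [map_mul, map_mul, map_mul, map_mul, hI, hJ', hB]

end KPl
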