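import Pool.Agent.Lib.MP_d3a5e5_coK.A3

set_option autoImplicit false

namespace KPl

/-- LEAF A4a (part 1, easy-medium). `r i ↦ R ^ i.val`, `sr i ↦ X * R ^ i.val`. -/
theorem exists_dih {K : Type} [Group K] (R X : K) (hR : R ^ 4 = 1) (hX : X * X = 1) (hXR : X * R * X = R⁻¹) :
    ∃ g : DihedralGroup 4 →* K, g (.r 1) = R ∧ g (.sr 0) = X := by
  have hadd : ∀ i j : ZMod 4, R ^ (i + j).val = R ^ i.val * R ^ j.val := by
    intro i j
    rw [ZMod.val_add, ← pow_add]
    conv_rhs => rw [← Nat.mod_add_div (i.val + j.val) 4, pow_add, pow_mul, hR, one_pow, mul_one]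
  have hsub : ∀ i j : ZMod 4, R ^ (j - i).val = (R ^ i.val)⁻¹ * R ^ j.val := by
    intro i j
    rw [eq_inv_mul_iff_mul_eq, ← hadd, add_sub_cancel]
  have hRX : R * X = X * R⁻¹ := by
    rw [← hXR, ← mul_assoc, ← mul_assoc, hX, one_mul]
  have hpow : ∀ k : ℕ, R ^ k * X = X * (R ^ k)⁻¹ := by
    intro k
    induction k with
    | zero => simp
    | succ k ih =>
      rw [pow_succ, mul_assoc, hRX, ← mul_assoc, ih, mul_assoc, mul_inv_rev, ← mul_inv_rev,
        ← mul_inv_rev, (Commute.refl R).pow_right k]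
  refine ⟨MonoidHom.mk' (fun d => match d with
    | .r i => R ^ i.val
    | .sr i => X * R ^ i.val) ?_, ?_, ?_⟩
  · intro d e
    rcases d with i | i <;> rcases e with j | j
    · show R ^ (i + j).val = R ^ i.val * R ^ j.val
      exact hadd i j
    · show X * R ^ (j - i).val = R ^ i.val * (X * R ^ j.val)
      rw [hsub, ← mul_assoc (R ^ i.val), hpow, mul_assoc]
    · show X * R ^ (i + j).val = X * R ^ i.val * R ^ j.val
      rw [hadd, mul_assoc]
    · show R ^ (j - i).val = X * R ^ i.val * (X * R ^ j.val)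
      rw [hsub, mul_assoc X, ← mul_assoc (R ^ i.val), hpow, ← mul_assoc X, ← mul_assoc X, hX,
        one_mul]
  · show R ^ (1 : ZMod 4).val = R
    have h1 : (1 : ZMod 4).val = 1 := rfl
    rw [h1, pow_one]
  · show X * R ^ (0 : ZMod 4).val = X
    rw [ZMod.val_zero, pow_zero, mul_one]

/-- LEAF A4a (part 2, easy). -/
theorem dih_ext {K : Type} [Group K] (g g' : DihedralGroup 4 →* K) (h1 : g (.r 1) = g' (.r 1))
    (h2 : g (.sr 0) = g' (.sr 0)) : g = g' := by
  have hr : ∀ i : ZMod 4, g (.r i) = g' (.r i) := by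
    intro i
    have h3 : (DihedralGroup.r i : DihedralGroup 4) = (DihedralGroup.r 1) ^ i.val := by
      rw [DihedralGroup.r_one_pow, ZMod.natCast_zmod_val]
    rw [h3, map_pow, map_pow, h1]
  ext d
  rcases d with i | i
  · exact hr i
  · have h3 : (DihedralGroup.sr i : DihedralGroup 4) = DihedralGroup.sr 0 * DihedralGroup.r i := by
      rw [DihedralGroup.sr_mul_r, zero_add]
    rw [h3, map_mul, map_mul, h2, hr i]

/-- LEAF A4a (part 3, easy-medium). The maps `cq` and `chi` are homomorphisms (cases and arithmetic in `ZMod`, or `decide`). -/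
theorem cq_mul (d e : DihedralGroup 16) : cq (d * e) = cq d * cq e := by
  rcases d with i | i <;> rcases e with j | j
  · show DihedralGroup.r ((2 * (i + j).val : ℕ) : ZMod 4)
      = DihedralGroup.r (((2 * i.val : ℕ) : ZMod 4) + ((2 * j.val : ℕ) : ZMod 4))
    congr 1
    revert i j
    decide
  · show DihedralGroup.r ((2 * (j - i).val + 2 : ℕ) : ZMod 4)
      = DihedralGroup.r (((2 * i.val : ℕ) : ZMod 4) + ((2 * j.val + 2 : ℕ) : ZMod 4))
    congr 1
    revert i j
    decide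
  · show DihedralGroup.r ((2 * (i + j).val + 2 : ℕ) : ZMod 4)
      = DihedralGroup.r (((2 * i.val + 2 : ℕ) : ZMod 4) + ((2 * j.val : ℕ) : ZMod 4))
    congr 1
    revert i j
    decide
  · show DihedralGroup.r ((2 * (j - i).val : ℕ) : ZMod 4)
      = DihedralGroup.r (((2 * i.val + 2 : ℕ) : ZMod 4) + ((2 * j.val + 2 : ℕ) : ZMod 4))
    congr 1
    revert i j
    decide

theorem chi_mul (d e : DihedralGroup 16) : chi (d * e) = chi d * chi e := by
  rcases d with i | i <;> rcases e with j | j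
  · show (((i + j).val : ℕ) : ZMod 2) = ((i.val : ℕ) : ZMod 2) + ((j.val : ℕ) : ZMod 2)
    revert i j
    decide
  · show (((j - i).val : ℕ) : ZMod 2) = ((i.val : ℕ) : ZMod 2) + ((j.val : ℕ) : ZMod 2)
    revert i j
    decide
  · show (((i + j).val : ℕ) : ZMod 2) = ((i.val : ℕ) : ZMod 2) + ((j.val : ℕ) : ZMod 2)
    revert i j
    decide
  · show (((j - i).val : ℕ) : ZMod 2) = ((i.val : ℕ) : ZMod 2) + ((j.val : ℕ) : ZMod 2)
    revert i j
    decide

private theorem A4a_Z2 (z : Z2) : z = 1 ∨ z = Multiplicative.ofAdd 1 := by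
  revert z
  decide

private theorem A4a_ne : (Multiplicative.ofAdd 1 : Z2) ≠ 1 := by decide

private theorem A4a_sq : (Multiplicative.ofAdd 1 : Z2) * Multiplicative.ofAdd 1 = 1 := by decide

private theorem A4a_chi_io (δ : DihedralGroup 4) : chi (io δ) = 1 := by
  revert δ
  decide

variable {Q : Type} [Group Q] {S : Sys0 Q} (A : Amal S)

/-- `(E t0 * B) ^ 2 = I (sr 0)`. -/
theorem EB_sq : A.E S.t0 * A.B * (A.E S.t0 * A.B) = A.I (.sr 0) := by
  have h1 : io (.sr 0) = .sr 0 := by decide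
  calc A.E S.t0 * A.B * (A.E S.t0 * A.B) = A.E S.t0 * (A.B * A.E S.t0) * A.B := by
        simp only [mul_assoc]
    _ = A.E S.t0 * A.E (S.α S.t0) * (A.B * A.B) := by rw [A.BE]; simp only [mul_assoc]
    _ = A.E (S.t0 * (S.t0 * S.D (.sr 0))) := by rw [A.B_sq, mul_one, S.αt0, ← map_mul A.E]
    _ = A.E (S.D (.sr 0)) := by rw [← mul_assoc, S.sq, one_mul]
    _ = A.I (.sr 0) := by rw [A.ED, h1]

/-- LEAF A4a (part 4, easy-medium). The homomorphism `D'`. `(E t0 * B) ^ 2 = E t0 * E (α t0) * B * B = E (t0 * t0 * D (sr 0)) = E (D (sr 0)) = I (io (sr 0)) = I (sr 0)`; `B (E t0 B) B = B * E t0 = (E t0 * B)⁻¹`. -/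
theorem exists_D : ∃ D' : DihedralGroup 4 →* A.G, D' (.r 1) = A.E S.t0 * A.B ∧ D' (.sr 0) = A.B := by
  refine exists_dih (A.E S.t0 * A.B) A.B ?_ A.B_sq ?_
  · have h1 : (A.E S.t0 * A.B) ^ 4 = A.E S.t0 * A.B * (A.E S.t0 * A.B) *
        (A.E S.t0 * A.B * (A.E S.t0 * A.B)) := by
      simp only [pow_succ, pow_zero, one_mul, mul_assoc]
    have h2 : (DihedralGroup.sr 0 : DihedralGroup 16) * DihedralGroup.sr 0 = 1 := by decide
    rw [h1, EB_sq, ← map_mul, h2, map_one]
  · have h3 : A.E S.t0 * A.B * (A.B * A.E S.t0) = 1 := by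
      calc A.E S.t0 * A.B * (A.B * A.E S.t0) = A.E S.t0 * (A.B * A.B) * A.E S.t0 := by
            simp only [mul_assoc]
        _ = 1 := by rw [A.B_sq, mul_one, ← map_mul, S.sq, map_one]
    rw [← eq_inv_of_mul_eq_one_right h3]
    simp only [mul_assoc]
    rw [A.B_sq, mul_one]

/-- LEAF A4a (part 5, easy-medium). The homomorphism `α'`: `A.lift A.G E c B` with `c d = I d * B` if `chi d ≠ 1` and `I d` otherwise; `chi (io δ) = 1`; `B` commutes with `I d` and with `B`. -/
theorem exists_alpha : ∃ α' : A.G →* A.G, (∀ x, α' (A.E x) = A.E x) ∧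
    (∀ d, α' (A.I d) = if chi d = 1 then A.I d else A.I d * A.B) ∧ α' A.B = A.B := by
  obtain ⟨c, hc⟩ : ∃ c : DihedralGroup 16 →* A.G,
      ∀ d, c d = if chi d = 1 then A.I d else A.I d * A.B := by
    refine ⟨MonoidHom.mk' (fun d => if chi d = 1 then A.I d else A.I d * A.B) ?_, fun d => rfl⟩
    intro d e
    rw [chi_mul]
    rcases A4a_Z2 (chi d) with h1 | h1 <;> rcases A4a_Z2 (chi e) with h2 | h2
    · rw [h1, h2, mul_one, if_pos rfl, if_pos rfl, if_pos rfl, map_mul]
    · rw [h1, h2, one_mul, if_neg A4a_ne, if_pos rfl, if_neg A4a_ne, map_mul, mul_assoc]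
    · rw [h1, h2, mul_one, if_neg A4a_ne, if_neg A4a_ne, if_pos rfl, map_mul, mul_assoc, mul_assoc,
        A.BI]
    · rw [h1, h2, A4a_sq, if_pos rfl, if_neg A4a_ne, if_neg A4a_ne, map_mul]
      calc A.I d * A.I e = A.I d * A.I e * (A.B * A.B) := by rw [A.B_sq, mul_one]
        _ = A.I d * (A.B * A.I e) * A.B := by rw [A.BI]; simp only [mul_assoc]
        _ = _ := by simp only [mul_assoc]
  obtain ⟨g, h1, h2, h3⟩ := A.lift A.G A.E c A.B A.B_sq
    (fun δ => by rw [hc, A4a_chi_io, if_pos rfl, A.ED]) A.BE (fun d => by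
      rw [hc]
      split_ifs with h
      · exact A.BI d
      · rw [← mul_assoc, A.BI])
  exact ⟨g, h1, fun d => by rw [h2, hc], h3⟩

/-- LEAF A4a (part 6, medium). The homomorphism `q'`: `A.lift (DihedralGroup 4) a cq (sr 0)` with `a x = (sr 3) ^ (par x) * (r 2) ^ (sg (q x))`: a homomorphism because `r 2` is central and `sr 3 * sr 3 = 1`. `a (D δ) = cq (io δ)` (`decide` after `par_D`, `qD`). `sr 0 * a x = a (α x) * sr 0` by `par_α`, `sg_α`: four cases for
`par x`, `sg (q x)`. `sr 0 * cq d = cq d * sr 0` (`cq d` is `1` or `r 2`). -/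
theorem exists_q : ∃ q' : A.G →* DihedralGroup 4,
    (∀ x, q' (A.E x) = (if S.par x = 1 then 1 else .sr 3) * (if sg (S.q x) = 1 then 1 else .r 2)) ∧
    (∀ d, q' (A.I d) = cq d) ∧ q' A.B = .sr 0 := by
  obtain ⟨a, ha⟩ : ∃ a : Q →* DihedralGroup 4, ∀ x, a x =
      (if S.par x = 1 then 1 else .sr 3) * (if sg (S.q x) = 1 then 1 else .r 2) := by
    refine ⟨MonoidHom.mk' (fun x => (if S.par x = 1 then 1 else .sr 3) *
      (if sg (S.q x) = 1 then 1 else .r 2)) ?_, fun x => rfl⟩
    intro x y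
    rw [map_mul S.par, map_mul S.q, map_mul sg]
    have key : ∀ z w z' w' : Z2, ((if z * z' = 1 then 1 else .sr 3) *
        (if w * w' = 1 then 1 else .r 2) : DihedralGroup 4) =
        ((if z = 1 then 1 else .sr 3) * (if w = 1 then 1 else .r 2)) *
        ((if z' = 1 then 1 else .sr 3) * (if w' = 1 then 1 else .r 2)) := by decide
    exact key _ _ _ _
  obtain ⟨g, h1, h2, h3⟩ := A.lift (DihedralGroup 4) a (MonoidHom.mk' cq cq_mul) (.sr 0) (by decide)
    (fun δ => by
      rw [ha, S.par_D, S.qD, if_pos rfl, one_mul]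
      show _ = cq (io δ)
      revert δ
      decide)
    (fun x => by
      rw [ha, ha, S.par_α, S.sg_α]
      have key : ∀ z w : Z2, (DihedralGroup.sr 0 * ((if z = 1 then 1 else .sr 3) *
        (if w = 1 then 1 else .r 2)) : DihedralGroup 4) =
        ((if z = 1 then 1 else .sr 3) * (if w * z = 1 then 1 else .r 2)) * DihedralGroup.sr 0 := by
        decide
      exact key _ _)
    (fun d => by
      show DihedralGroup.sr 0 * cq d = cq d * DihedralGroup.sr 0
      revert d
      decide)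
  exact ⟨g, fun x => by rw [h1, ha], h2, h3⟩

/-- LEAF A4a (part 7, easy). The homomorphism `par'`: `A.lift Z2 1 chi 1`. -/
theorem exists_par : ∃ p' : A.G →* Z2, (∀ x, p' (A.E x) = 1) ∧ (∀ d, p' (A.I d) = chi d) ∧ p' A.B = 1 := by
  obtain ⟨g, h1, h2, h3⟩ := A.lift Z2 1 (MonoidHom.mk' chi chi_mul) 1 (by decide)
    (fun δ => by
      show _ = chi (io δ)
      rw [A4a_chi_io]
      rfl)
    (fun x => by rw [MonoidHom.one_apply, MonoidHom.one_apply])
    (fun d => mul_comm _ _)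
  exact ⟨g, fun x => by rw [h1]; rfl, h2, h3⟩

end KPl
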