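import Pool.Agent.Lib.MP_d3a5e5_coK.A4a

set_option autoImplicit false

namespace KPl

variable {Q : Type} [Group Q] {S : Sys0 Q} (A : Amal S)

/-- LEAF A4b (medium). The next system, from `exists_D`, `exists_alpha`, `exists_q`, `exists_par`, with `t0' = I (sr 15)`. All identities by `dih_ext`, `amal_ext` and the values on `E x`, `I d`, `B`:
`q' ∘ D' = id`: `q' (E t0 * B) = sr 3 * sr 0 = r 1` (`par t0 ≠ 1`, `q t0 = 1`), `q' B = sr 0`. `q' (I (sr 15)) = cq (sr 15) = r 32 = 1`. `t0' * t0' = I (sr 15 * sr 15) = 1`. `B * I (sr 15) = I (sr 15) * B`. `α' ∘ D' = D'`: `α' (E t0 * B) = E t0 * B`. `α' (I (sr 15)) = I (sr 15) * B` (`chi (sr 15) ≠ 1`).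
`α' ∘ α' = id`: on `I d`: `α' (I d * B) = I d * B * B`. `par' ∘ α' = par'`. `sg (q' (α' x)) = sg (q' x) * par' x`: both sides are homomorphisms in `x` (`Z2` is commutative), on `E x`: `α' (E x) = E x`, `par' = 1`; on `I d`: `sg (cq d) = 1`, `sg (sr 0) = ofAdd 1`, so both sides are `chi d`; on `B`: clear. `par' (I (sr 15)) = ofAdd 1`. -/
theorem next_sys : ∃ S' : Sys0 A.G, S'.D (.r 1) = A.E S.t0 * A.B ∧ S'.D (.sr 0) = A.B ∧ S'.t0 = A.I (.sr 15) ∧
    (∀ x, S'.q (A.E x) = (if S.par x = 1 then 1 else .sr 3) * (if sg (S.q x) = 1 then 1 else .r 2)) ∧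
    (∀ d, S'.q (A.I d) = cq d) ∧ S'.q A.B = .sr 0 := by
  obtain ⟨D', hD1, hD2⟩ := exists_D A
  obtain ⟨α', hαE, hαI, hαB⟩ := exists_alpha A
  obtain ⟨q', hqE, hqI, hqB⟩ := exists_q A
  obtain ⟨p', hpE, hpI, hpB⟩ := exists_par A
  have hchi : chi (.sr 15) = Multiplicative.ofAdd 1 := by decide
  have hne : (Multiplicative.ofAdd (1 : ZMod 2) : Z2) ≠ 1 := by decide
  have htwo : ∀ z : Z2, z ≠ 1 → z = Multiplicative.ofAdd 1 := by decide
  have hqD : ∀ δ, q' (D' δ) = δ := by
    intro δ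
    have h := dih_ext (q'.comp D') (MonoidHom.id _) ?_ ?_
    · exact DFunLike.congr_fun h δ
    · rw [MonoidHom.comp_apply, hD1, map_mul, hqE, hqB, S.par_t0, S.qt0, if_neg hne, map_one, if_pos rfl]
      decide
    · rw [MonoidHom.comp_apply, hD2, hqB]
      rfl
  have hαD : ∀ δ, α' (D' δ) = D' δ := by
    intro δ
    have h := dih_ext (α'.comp D') D' ?_ ?_
    · exact DFunLike.congr_fun h δ
    · rw [MonoidHom.comp_apply, hD1, map_mul, hαE, hαB]
    · rw [MonoidHom.comp_apply, hD2, hαB]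
  have hαα : ∀ x, α' (α' x) = x := by
    intro x
    have h := amal_ext A (α'.comp α') (MonoidHom.id _) ?_ ?_ ?_
    · exact DFunLike.congr_fun h x
    · intro x
      rw [MonoidHom.comp_apply, hαE, hαE]
      rfl
    · intro d
      rw [MonoidHom.comp_apply, hαI]
      by_cases hc : chi d = 1
      · rw [if_pos hc, hαI, if_pos hc]
        rfl
      · rw [if_neg hc, map_mul, hαI, if_neg hc, hαB, mul_assoc, A.B_sq, mul_one]
        rfl
    · rw [MonoidHom.comp_apply, hαB, hαB]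
      rfl
  have hpD : ∀ δ, p' (D' δ) = 1 := by
    intro δ
    have h := dih_ext (p'.comp D') 1 ?_ ?_
    · exact DFunLike.congr_fun h δ
    · rw [MonoidHom.comp_apply, hD1, map_mul, hpE, hpB, mul_one]
      rfl
    · rw [MonoidHom.comp_apply, hD2, hpB]
      rfl
  have hpα : ∀ x, p' (α' x) = p' x := by
    intro x
    have h := amal_ext A (p'.comp α') p' ?_ ?_ ?_
    · exact DFunLike.congr_fun h x
    · intro x
      rw [MonoidHom.comp_apply, hαE]
    · intro d
      rw [MonoidHom.comp_apply, hαI]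
      by_cases hc : chi d = 1
      · rw [if_pos hc]
      · rw [if_neg hc, map_mul, hpB, mul_one]
    · rw [MonoidHom.comp_apply, hαB]
  have hsg : ∀ x, sg (q' (α' x)) = sg (q' x) * p' x := by
    intro x
    have h := amal_ext A ((sg.comp q').comp α') ((sg.comp q') * p') ?_ ?_ ?_
    · exact DFunLike.congr_fun h x
    · intro x
      rw [MonoidHom.comp_apply, hαE, MonoidHom.mul_apply, hpE, mul_one]
    · intro d
      rw [MonoidHom.comp_apply, hαI, MonoidHom.mul_apply, hpI]
      by_cases hc : chi d = 1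
      · rw [if_pos hc, hc, mul_one]
      · rw [if_neg hc, map_mul, htwo _ hc]
        congr 1
        rw [MonoidHom.comp_apply, hqB]
        rfl
    · rw [MonoidHom.comp_apply, hαB, MonoidHom.mul_apply, hpB, mul_one]
  refine ⟨{ D := D', q := q', qD := hqD, t0 := A.I (.sr 15), qt0 := ?_, sq := ?_, tD := ?_, α := α', αD := hαD,
            αt0 := ?_, αα := hαα, par := p', par_t0 := ?_, par_D := hpD, par_α := hpα, sg_α := hsg },
    hD1, hD2, rfl, hqE, hqI, hqB⟩
  · rw [hqI]
    decide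
  · rw [← map_mul]
    have h1 : (.sr 15 * .sr 15 : DihedralGroup 16) = 1 := by decide
    rw [h1, map_one]
  · rw [hD2, A.BI]
  · rw [hαI, hchi, if_neg hne, hD2]
  · rw [hpI, hchi]

end KPl
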