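import Pool.Agent.Lib.MP_d3a5e5_coK.A4a

set_option autoImplicit false

namespace KPl

variable {Q : Type} [Group Q] {S : Sys0 Q} (A : Amal S)

/-- The parity on the free product. -/
def parF (S : Sys0 Q) : F4 S.q.ker →* Z2 := Monoid.CoprodI.lift (fun _ => S.par.comp S.q.ker.subtype)

/-- The action of the dihedral group of order 32 on the sixteen positions. -/
def pact (d : DihedralGroup 16) (p : ZMod 16) : ZMod 16 :=
  match d with
    | .r i => p + i
    | .sr i => -i - p

/-- The element with `pact (dp p) 0 = p` of the kernel of `cq`. -/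
def dp (p : ZMod 16) : DihedralGroup 16 := if p.val % 2 = 0 then .r p else .sr (-p)

/-- LEAF A5 (part 1, easy): finite checks. -/
theorem dp_zero : dp 0 = 1 := by
  decide

theorem pact_dp (p : ZMod 16) : pact (dp p) 0 = p := by
  revert p
  decide

theorem cq_dp (p : ZMod 16) : cq (dp p) = 1 := by
  revert p
  decide

theorem cq_eq_one (d : DihedralGroup 16) (h : cq d = 1) : ∃ p, d = dp p := by
  revert d
  decide

theorem dp_inj {p p' : ZMod 16} (h : dp p = dp p') : p = p' := by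
  rw [← pact_dp p, h, pact_dp]

/-- `dp p * sr 15` and `dp p * sr 1`. -/
theorem dp_sr15 (p : ZMod 16) : dp p * .sr 15 = if p.val % 2 = 0 then dp (p + 1) else dp (p - 1) := by
  revert p
  decide

theorem dp_sr1 (p : ZMod 16) : dp p * .sr 1 = if p.val % 2 = 0 then dp (p - 1) else dp (p + 1) := by
  revert p
  decide

private theorem A5_pos (p : ZMod 16) : ((blk p).val : ZMod 16) + ((4 * (lab p).val : ℕ) : ZMod 16) = p := by
  revert p
  decide

private def A5_k : Z2 →* DihedralGroup 4 where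
  toFun z := if z = 1 then 1 else .sr 3
  map_one' := by decide
  map_mul' := by decide

private theorem A5_conj (b : ZMod 4) (z : Z2) :
    cq (.r (b.val : ZMod 16)) * (if z = 1 then 1 else .sr 3) * (cq (.r (b.val : ZMod 16)))⁻¹ = A5_k z := by
  revert b z
  decide

private theorem A5_ker (z : Z2) (d : DihedralGroup 16) : A5_k z * cq d = 1 ↔ z = 1 ∧ cq d = 1 := by
  revert z d
  decide

private theorem A5_B (z : Z2) (d : DihedralGroup 16) : A5_k z * cq d * .sr 0 ≠ 1 := by
  revert z d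
  decide

/-- LEAF A5 (part 2, easy-medium). `T S.t p = ofb b (D (r k) t0 D (r k)⁻¹)`, `p = b + 4k`: `JE`, `ED`, `io (r k) = r 4k`. -/
theorem J_T (p : ZMod 16) : A.J (T S.t p) = A.I (.r p) * A.E S.t0 * (A.I (.r p))⁻¹ := by
  have h1 : T S.t p = ofb (blk p) (S.t (lab p)) := rfl
  have h2 : ((S.t (lab p) : S.q.ker) : Q) = S.D (.r (lab p)) * S.t0 * (S.D (.r (lab p)))⁻¹ := rfl
  have h3 : io (.r (lab p)) = .r ((4 * (lab p).val : ℕ) : ZMod 16) := rfl
  have h4 : (.r ((blk p).val : ZMod 16) : DihedralGroup 16) * .r ((4 * (lab p).val : ℕ) : ZMod 16) = .r p := by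
    rw [DihedralGroup.r_mul_r, A5_pos]
  rw [h1, A.JE, h2, map_mul, map_mul, map_inv, A.ED, h3, ← h4, map_mul, mul_inv_rev]
  simp only [mul_assoc]

/-- LEAF A5 (part 3, easy-medium). `d * r p = r (pact d p)` or `r (pact d p) * sr 0`, and `E t0` commutes with `I (sr 0) = E (D (sr 0))`. -/
theorem I_J (d : DihedralGroup 16) (p : ZMod 16) : A.I d * A.J (T S.t p) = A.J (T S.t (pact d p)) * A.I d := by
  have key : ∀ (ε : DihedralGroup 16) (q : ZMod 16), d * .r p = .r q * ε →
      A.I ε * A.E S.t0 = A.E S.t0 * A.I ε → A.I d * A.J (T S.t p) = A.J (T S.t q) * A.I d := by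
    intro ε q h1 h2
    have h3 : A.I d * A.I (.r p) = A.I (.r q) * A.I ε := by rw [← map_mul, h1, map_mul]
    have h4 : A.I ε * (A.I (.r p))⁻¹ = (A.I (.r q))⁻¹ * A.I d := by
      rw [mul_inv_eq_iff_eq_mul, mul_assoc, h3, inv_mul_cancel_left]
    rw [J_T, J_T]
    calc A.I d * (A.I (.r p) * A.E S.t0 * (A.I (.r p))⁻¹)
        = (A.I d * A.I (.r p)) * A.E S.t0 * (A.I (.r p))⁻¹ := by simp only [mul_assoc]
      _ = A.I (.r q) * (A.I ε * A.E S.t0) * (A.I (.r p))⁻¹ := by rw [h3]; simp only [mul_assoc]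
      _ = A.I (.r q) * A.E S.t0 * (A.I ε * (A.I (.r p))⁻¹) := by rw [h2]; simp only [mul_assoc]
      _ = A.I (.r q) * A.E S.t0 * (A.I (.r q))⁻¹ * A.I d := by rw [h4]; simp only [mul_assoc]
  cases d with
  | r i =>
    refine key 1 (p + i) ?_ ?_
    · rw [DihedralGroup.r_mul_r, mul_one, add_comm]
    · rw [map_one, one_mul, mul_one]
  | sr i =>
    refine key (.sr 0) (-i - p) ?_ ?_
    · rw [DihedralGroup.sr_mul_r, DihedralGroup.r_mul_sr]
      congr 1
      ring
    · have h1 : io (.sr 0) = .sr 0 := by decide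
      rw [← h1, ← A.ED, ← map_mul, ← map_mul, S.tD]

/-- LEAF A5 (part 4, easy-medium). `par t_k = par t0`. -/
theorem parF_T (p : ZMod 16) : parF S (T S.t p) = Multiplicative.ofAdd 1 := by
  have h1 : T S.t p = ofb (blk p) (S.t (lab p)) := rfl
  have h2 : parF S (ofb (blk p) (S.t (lab p))) = S.par ((S.t (lab p) : S.q.ker) : Q) := by
    unfold parF ofb
    rw [Monoid.CoprodI.lift_of]
    rfl
  have h3 : ((S.t (lab p) : S.q.ker) : Q) = S.D (.r (lab p)) * S.t0 * (S.D (.r (lab p)))⁻¹ := rfl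
  rw [h1, h2, h3, map_mul, map_mul, map_inv, S.par_D, S.par_t0, one_mul, inv_one, mul_one]

/-- LEAF A5 (part 5, medium). The kernel of `q'`. On `J`: `q' (J (ofb b h)) = cq (r b) * (sr 3 or 1) * (cq (r b))⁻¹` and `cq (r b)` is central (`1` or `r 2`), so `q' (J f) = 1` if `parF f = 1` and `sr 3` otherwise (both are homomorphisms of `F4`: `Monoid.CoprodI.ext_hom`). Then: `cq d` is `1` or `r 2`; `sr 3 * cq d ≠ 1`; with `B`:
`x * y * sr 0 ≠ 1` for `x ∈ {1, sr 3}`, `y ∈ {1, r 2}` (`decide`). -/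
theorem ker_iff (q' : A.G →* DihedralGroup 4)
    (hE : ∀ x, q' (A.E x) = (if S.par x = 1 then 1 else .sr 3) * (if sg (S.q x) = 1 then 1 else .r 2))
    (hI : ∀ d, q' (A.I d) = cq d) (hB : q' A.B = .sr 0) (f : F4 S.q.ker) (d : DihedralGroup 16) :
    (q' (A.J f * A.I d) = 1 ↔ parF S f = 1 ∧ cq d = 1) ∧ q' (A.J f * A.I d * A.B) ≠ 1 := by
  have h1 : ∀ f : F4 S.q.ker, q' (A.J f) = A5_k (parF S f) := by
    have h2 : (q'.comp A.J) = A5_k.comp (parF S) := by
      refine Monoid.CoprodI.ext_hom _ _ fun b => MonoidHom.ext fun h => ?_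
      show q' (A.J (ofb b h)) = A5_k (parF S (ofb b h))
      have h3 : parF S (ofb b h) = S.par (h : Q) := by
        unfold parF ofb
        rw [Monoid.CoprodI.lift_of]
        rfl
      have h4 : S.q (h : Q) = 1 := h.2
      rw [h3, A.JE, map_mul, map_mul, map_inv, hI, hE, h4, map_one, if_pos rfl, mul_one]
      exact A5_conj b (S.par (h : Q))
    intro f
    exact DFunLike.congr_fun h2 f
  constructor
  · rw [map_mul, h1, hI]
    exact A5_ker (parF S f) d
  · rw [map_mul, map_mul, h1, hI, hB]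
    exact A5_B (parF S f) d

end KPl
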