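import Pool.Agent.Lib.MP_d3a5e5_coK.A4b
import Pool.Agent.Lib.MP_d3a5e5_coK.A5

set_option autoImplicit false

namespace KPl

open Classical in
/-- The edge at `v` with position `p`, as an element of the amalgamated product. -/
noncomputable def mvQ {Q : Type} [Group Q] {S : Sys0 Q} (A : Amal S) (v : F4 S.q.ker) (p : ZMod 16) : A.G :=
  A.J (if parF S v = 1 then v else v * T S.t p) * A.I (dp p)

variable {Q : Type} [Group Q] {S : Sys0 Q} (A : Amal S)

private theorem A6_Z2 : ∀ z : Z2, z ≠ 1 → z = Multiplicative.ofAdd 1 := by decide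

private theorem A6_Z2' : (Multiplicative.ofAdd 1 : Z2) ≠ 1 := by decide

private theorem A6_Z2'' : (Multiplicative.ofAdd 1 : Z2) * Multiplicative.ofAdd 1 = 1 := by decide

private theorem A6_coe {Q : Type} [Group Q] (S : Sys0 Q) (k : ZMod 4) :
    (S.t k : Q) = S.D (.r k) * S.t0 * (S.D (.r k))⁻¹ := rfl

private theorem A6_tsq {Q : Type} [Group Q] (S : Sys0 Q) (k : ZMod 4) : S.t k * S.t k = 1 := by
  apply Subtype.ext
  rw [Subgroup.coe_mul, A6_coe, Subgroup.coe_one]
  have h := S.sq
  calc S.D (.r k) * S.t0 * (S.D (.r k))⁻¹ * (S.D (.r k) * S.t0 * (S.D (.r k))⁻¹)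
      = S.D (.r k) * (S.t0 * S.t0) * (S.D (.r k))⁻¹ := by group
    _ = 1 := by rw [h]; group

private theorem A6_Tsq {Q : Type} [Group Q] (S : Sys0 Q) (p : ZMod 16) : T S.t p * T S.t p = 1 := by
  unfold T
  rw [← map_mul, A6_tsq, map_one]

private theorem A6_EE : A.E S.t0 * A.E S.t0 = 1 := by
  rw [← map_mul, S.sq, map_one]

private theorem A6_BIB (x : DihedralGroup 16) : A.B * A.I x * A.B = A.I x := by
  rw [A.BI, mul_assoc, A.B_sq, mul_one]

private theorem A6_inv_of_sq {G : Type} [Group G] {x : G} (h : x * x = 1) : x⁻¹ = x :=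
  inv_eq_of_mul_eq_one_left h

private theorem A6_E0 : A.E S.t0 = A.J (T S.t 0) := by
  rw [J_T]
  have h : (DihedralGroup.r 0 : DihedralGroup 16) = 1 := rfl
  rw [h, map_one, one_mul, inv_one, mul_one]

/-- LEAF A6 (part 1, easy-medium). The four involutions of the next system: `t'_k = D' (r k) t0' D' (r k)⁻¹`, `D' (r 1) = E t0 * B`, `D' (r 2) = I (sr 0)` (`EB_sq`), `B` commutes with `I`; `sr 0 * sr 15 * sr 0 = sr 1`. -/
theorem next_t (S' : Sys0 A.G) (hD1 : S'.D (.r 1) = A.E S.t0 * A.B) (hD2 : S'.D (.sr 0) = A.B)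
    (ht : S'.t0 = A.I (.sr 15)) : (S'.t 0 : A.G) = A.I (.sr 15) ∧ (S'.t 1 : A.G) = A.E S.t0 * A.I (.sr 15) * A.E S.t0 ∧
      (S'.t 2 : A.G) = A.I (.sr 1) ∧ (S'.t 3 : A.G) = A.E S.t0 * A.I (.sr 1) * A.E S.t0 := by
  have _ := hD2
  have hB : (A.B)⁻¹ = A.B := A6_inv_of_sq A.B_sq
  have hE : (A.E S.t0)⁻¹ = A.E S.t0 := A6_inv_of_sq (A6_EE A)
  have e0 : S'.D (.r 0) = 1 := by
    have h : (DihedralGroup.r 0 : DihedralGroup 4) = 1 := rfl
    rw [h, map_one]
  have e2 : S'.D (.r 2) = A.I (.sr 0) := by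
    have h : (DihedralGroup.r 2 : DihedralGroup 4) = .r 1 * .r 1 := by decide
    rw [h, map_mul, hD1, EB_sq]
  have e3 : S'.D (.r 3) = A.E S.t0 * A.B * A.I (.sr 0) := by
    have h : (DihedralGroup.r 3 : DihedralGroup 4) = .r 1 * .r 2 := by decide
    rw [h, map_mul, hD1, e2]
  have hs : A.I (.sr 0) * A.I (.sr 15) * (A.I (.sr 0))⁻¹ = A.I (.sr 1) := by
    rw [← map_inv, ← map_mul, ← map_mul]
    have h : (DihedralGroup.sr 0 * DihedralGroup.sr 15 * (DihedralGroup.sr 0)⁻¹ : DihedralGroup 16) = .sr 1 := by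
      decide
    rw [h]
  refine ⟨?_, ?_, ?_, ?_⟩
  · rw [A6_coe, e0, ht, one_mul, inv_one, mul_one]
  · rw [A6_coe, hD1, ht, mul_inv_rev, hB, hE]
    calc A.E S.t0 * A.B * A.I (.sr 15) * (A.B * A.E S.t0)
        = A.E S.t0 * (A.B * A.I (.sr 15) * A.B) * A.E S.t0 := by group
      _ = _ := by rw [A6_BIB]
  · rw [A6_coe, e2, ht, hs]
  · rw [A6_coe, e3, ht, mul_inv_rev, mul_inv_rev, hB, hE]
    calc A.E S.t0 * A.B * A.I (.sr 0) * A.I (.sr 15) * ((A.I (.sr 0))⁻¹ * (A.B * A.E S.t0))
        = A.E S.t0 * (A.B * (A.I (.sr 0) * A.I (.sr 15) * (A.I (.sr 0))⁻¹) * A.B) * A.E S.t0 := by group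
      _ = _ := by rw [hs, A6_BIB]

/-- LEAF A6 (part 2, medium). Right multiplication by the four involutions. `v` even (`parF v = 1`, colours 0, 2): `dp_sr15`, `dp_sr1`. `v` odd (colours 1, 3): `I (dp p) * E t0 = I (dp p) * J (T 0) = J (T p) * I (dp p)` (`J_T` for 0, `I_J`, `pact_dp`), so
`J (v * T p) * I (dp p) * E t0 * I (sr i) * E t0 = J v * I (dp p * sr i) * E t0 = J v * J (T p') * I (dp p')` with `dp p * sr i = dp p'`, `p' = p + 1`. -/
theorem mvQ_col (S' : Sys0 A.G) (hD1 : S'.D (.r 1) = A.E S.t0 * A.B) (hD2 : S'.D (.sr 0) = A.B)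
    (ht : S'.t0 = A.I (.sr 15)) (v : F4 S.q.ker) (p : ZMod 16) :
    mvQ A v p * (S'.t (colr (decide (parF S v ≠ 1)) p) : A.G) = mvQ A v (p + 1) := by
  obtain ⟨t0, t1, t2, t3⟩ := next_t A S' hD1 hD2 ht
  have hIE : ∀ q : ZMod 16, A.I (dp q) * A.E S.t0 = A.J (T S.t q) * A.I (dp q) := by
    intro q
    rw [A6_E0, I_J, pact_dp]
  by_cases hv : parF S v = 1
  · have hc : decide (parF S v ≠ 1) = false := by
      rw [decide_eq_false_iff_not]
      exact fun h => h hv
    unfold mvQ
    rw [if_pos hv, if_pos hv, hc]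
    by_cases hp : p.val % 2 = 0
    · have h1 : colr false p = 0 := by
        unfold colr
        rw [if_pos hp]
        decide
      have h2 : dp p * .sr 15 = dp (p + 1) := by
        rw [dp_sr15, if_pos hp]
      rw [h1, t0, mul_assoc, ← map_mul A.I, h2]
    · have h1 : colr false p = 2 := by
        unfold colr
        rw [if_neg hp]
        decide
      have h2 : dp p * .sr 1 = dp (p + 1) := by
        rw [dp_sr1, if_neg hp]
      rw [h1, t2, mul_assoc, ← map_mul A.I, h2]
  · have hc : decide (parF S v ≠ 1) = true := decide_eq_true hv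
    have key : ∀ i : ZMod 16, dp p * .sr i = dp (p + 1) →
        A.J (v * T S.t p) * A.I (dp p) * (A.E S.t0 * A.I (.sr i) * A.E S.t0) =
          A.J (v * T S.t (p + 1)) * A.I (dp (p + 1)) := by
      intro i hi
      calc A.J (v * T S.t p) * A.I (dp p) * (A.E S.t0 * A.I (.sr i) * A.E S.t0)
          = A.J (v * T S.t p) * (A.I (dp p) * A.E S.t0) * A.I (.sr i) * A.E S.t0 := by group
        _ = (A.J (v * T S.t p) * A.J (T S.t p)) * (A.I (dp p) * A.I (.sr i)) * A.E S.t0 := by
            rw [hIE p]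
            group
        _ = A.J v * A.I (dp (p + 1)) * A.E S.t0 := by
            rw [← map_mul A.J, mul_assoc v, A6_Tsq, mul_one, ← map_mul A.I, hi]
        _ = A.J (v * T S.t (p + 1)) * A.I (dp (p + 1)) := by
            rw [mul_assoc, hIE (p + 1), map_mul A.J]
            group
    unfold mvQ
    rw [if_neg hv, if_neg hv, hc]
    by_cases hp : p.val % 2 = 0
    · have h1 : colr true p = 1 := by
        unfold colr
        rw [if_pos hp]
        decide
      rw [h1, t1]
      refine key 15 ?_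
      rw [dp_sr15, if_pos hp]
    · have h1 : colr true p = 3 := by
        unfold colr
        rw [if_neg hp]
        decide
      rw [h1, t3]
      refine key 1 ?_
      rw [dp_sr1, if_neg hp]

private theorem A6_parT (v : F4 S.q.ker) (p : ZMod 16) :
    parF S (v * T S.t p) = parF S v * Multiplicative.ofAdd 1 := by
  rw [map_mul, parF_T]

private theorem A6_even (v : F4 S.q.ker) (p : ZMod 16) (hv : parF S v ≠ 1) :
    parF S (v * T S.t p) = 1 := by
  rw [A6_parT, A6_Z2 _ hv, A6_Z2'']

private theorem A6_odd (v : F4 S.q.ker) (p : ZMod 16) (hv : parF S v = 1) :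
    parF S (v * T S.t p) ≠ 1 := by
  rw [A6_parT, hv, one_mul]
  exact A6_Z2'

private theorem A6_TT (v : F4 S.q.ker) (p : ZMod 16) : v * T S.t p * T S.t p = v := by
  rw [mul_assoc, A6_Tsq, mul_one]

/-- LEAF A6 (part 3, medium). The step. `mv v p = ⟨mvQ A v p, _⟩` (`ker_iff`, `parF_T`, `cq_dp`), `par v = decide (parF S v ≠ 1)`; `mv_inj` from `A.inj`, `dp_inj`; `mv_surj` from `A.surj`, `ker_iff`, `cq_eq_one`: an element of the kernel is `J f * I (dp p)` with `parF f = 1`. `mv_T`: `T * T = 1`. -/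
theorem exists_step (h : GI S.t) (S' : Sys0 A.G) (hD1 : S'.D (.r 1) = A.E S.t0 * A.B) (hD2 : S'.D (.sr 0) = A.B)
    (ht : S'.t0 = A.I (.sr 15))
    (hE : ∀ x, S'.q (A.E x) = (if S.par x = 1 then 1 else .sr 3) * (if sg (S.q x) = 1 then 1 else .r 2))
    (hI : ∀ d, S'.q (A.I d) = cq d) (hB : S'.q A.B = .sr 0) : Nonempty (Step S.t S'.t) := by
  have _ := h
  have hk : ∀ (v : F4 S.q.ker) (p : ZMod 16), mvQ A v p ∈ S'.q.ker := by
    intro v p
    rw [MonoidHom.mem_ker]
    unfold mvQ
    refine (ker_iff A S'.q hE hI hB _ _).1.2 ⟨?_, cq_dp p⟩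
    by_cases hv : parF S v = 1
    · rw [if_pos hv]
      exact hv
    · rw [if_neg hv]
      exact A6_even v p hv
  refine ⟨{ mv := fun v p => ⟨mvQ A v p, hk v p⟩
            par := fun v => decide (parF S v ≠ 1)
            par_one := ?_
            par_T := ?_
            mv_T := ?_
            mv_inj := ?_
            mv_surj := ?_
            mv_one := ?_
            mv_col := ?_ }⟩
  · rw [decide_eq_false_iff_not, map_one]
    exact fun h1 => h1 rfl
  · intro v p
    by_cases hv : parF S v = 1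
    · have h1 : decide (parF S v ≠ 1) = false := by
        rw [decide_eq_false_iff_not]
        exact fun h2 => h2 hv
      rw [h1, Bool.not_false]
      exact decide_eq_true (A6_odd v p hv)
    · have h1 : decide (parF S v ≠ 1) = true := decide_eq_true hv
      rw [h1, Bool.not_true, decide_eq_false_iff_not]
      exact fun h2 => h2 (A6_even v p hv)
  · intro v p
    apply Subtype.ext
    show mvQ A (v * T S.t p) p = mvQ A v p
    unfold mvQ
    by_cases hv : parF S v = 1
    · rw [if_neg (A6_odd v p hv), if_pos hv, A6_TT]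
    · rw [if_pos (A6_even v p hv), if_neg hv]
  · intro v p v' p' e
    have e1 : mvQ A v p = mvQ A v' p' := congrArg Subtype.val e
    unfold mvQ at e1
    obtain ⟨e2, e3⟩ := A.inj _ _ _ _ e1
    have hp : p = p' := dp_inj e3
    refine ⟨hp, ?_⟩
    subst hp
    by_cases hv : parF S v = 1
    · rw [if_pos hv] at e2
      by_cases hv' : parF S v' = 1
      · rw [if_pos hv'] at e2
        exact Or.inl e2.symm
      · rw [if_neg hv'] at e2
        right
        rw [e2, A6_TT]
    · rw [if_neg hv] at e2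
      by_cases hv' : parF S v' = 1
      · rw [if_pos hv'] at e2
        exact Or.inr e2.symm
      · rw [if_neg hv'] at e2
        exact Or.inl (mul_right_cancel e2).symm
  · rintro ⟨y, hy⟩
    obtain ⟨f, d, h1 | h1⟩ := A.surj y
    · subst h1
      rw [MonoidHom.mem_ker] at hy
      obtain ⟨h2, h3⟩ := (ker_iff A S'.q hE hI hB f d).1.1 hy
      obtain ⟨p, rfl⟩ := cq_eq_one d h3
      refine ⟨f, p, Subtype.ext ?_⟩
      show mvQ A f p = _
      unfold mvQ
      rw [if_pos h2]
    · subst h1
      rw [MonoidHom.mem_ker] at hy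
      exact absurd hy (ker_iff A S'.q hE hI hB f d).2
  · apply Subtype.ext
    show mvQ A 1 0 = 1
    unfold mvQ
    rw [if_pos (map_one _), dp_zero, map_one, map_one, mul_one]
  · intro v p
    apply Subtype.ext
    exact mvQ_col A S' hD1 hD2 ht v p

/-- LEAF A6 (part 4, medium). The four involutions generate the kernel and are different. `sq`, `ne` (`par t_k ≠ 1`) clear. Different: `next_t` and `A.inj`: they are `I (sr 15)`, `J (T 0 * T 1) * I (sr 15)`, `I (sr 1)`, `J (T 0 * T 15) * I (sr 1)` (`E t0 = J (T 0)`, `I_J`), and `T 0 * T 1 ≠ 1`. Generation: by the step `st` (`exists_step`): the set of `v` such that all `mv v p` are in the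
subgroup generated by the `t'_k` contains `1` (`mv_one`, `mv_col`) and is closed under `v ↦ v * T p` (`mv_T`, `mv_col`), so it is everything (`F4_ind`); `mv_surj`. -/
theorem next_GI (h : GI S.t) (S' : Sys0 A.G) (hD1 : S'.D (.r 1) = A.E S.t0 * A.B) (hD2 : S'.D (.sr 0) = A.B)
    (ht : S'.t0 = A.I (.sr 15)) (st : Step S.t S'.t) : GI S'.t := by
  obtain ⟨t0, t1, t2, t3⟩ := next_t A S' hD1 hD2 ht
  refine ⟨A6_tsq S', ?_, ?_, ?_⟩
  · intro k hk
    have h1 : (S'.t k : A.G) = 1 := congrArg Subtype.val hk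
    rw [A6_coe] at h1
    have h2 : S'.t0 = 1 := by
      have h3 := congrArg (fun x => (S'.D (.r k))⁻¹ * x * S'.D (.r k)) h1
      simp only [mul_one, inv_mul_cancel] at h3
      rw [← h3]
      group
    have h4 := S'.par_t0
    rw [h2, map_one] at h4
    exact A6_Z2' h4.symm
  · have conj : ∀ i j : ZMod 16, pact (.sr i) 0 = j →
        A.E S.t0 * A.I (.sr i) * A.E S.t0 = A.J (T S.t 0 * T S.t j) * A.I (.sr i) := by
      intro i j hij
      rw [A6_E0, mul_assoc, I_J, hij, map_mul, mul_assoc]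
    have u0 : (S'.t 0 : A.G) = A.J 1 * A.I (.sr 15) := by rw [t0, map_one, one_mul]
    have u1 : (S'.t 1 : A.G) = A.J (T S.t 0 * T S.t 1) * A.I (.sr 15) := by
      rw [t1]
      exact conj 15 1 (by decide)
    have u2 : (S'.t 2 : A.G) = A.J 1 * A.I (.sr 1) := by rw [t2, map_one, one_mul]
    have u3 : (S'.t 3 : A.G) = A.J (T S.t 0 * T S.t 15) * A.I (.sr 1) := by
      rw [t3]
      exact conj 1 15 (by decide)
    have hne : ∀ j : ZMod 16, 0 ≠ j → (1 : F4 S.q.ker) ≠ T S.t 0 * T S.t j := by
      intro j hj e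
      apply hj
      apply T_inj h
      calc T S.t 0 = T S.t 0 * (T S.t j * T S.t j) := by rw [A6_Tsq, mul_one]
        _ = T S.t 0 * T S.t j * T S.t j := by rw [mul_assoc]
        _ = T S.t j := by rw [← e, one_mul]
    have hsr : (DihedralGroup.sr 15 : DihedralGroup 16) ≠ .sr 1 := by decide
    have w01 : S'.t 0 ≠ S'.t 1 := by
      intro e
      have e1 := congrArg Subtype.val e
      rw [u0, u1] at e1
      exact hne 1 (by decide) (A.inj _ _ _ _ e1).1
    have w02 : S'.t 0 ≠ S'.t 2 := by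
      intro e
      have e1 := congrArg Subtype.val e
      rw [u0, u2] at e1
      exact hsr (A.inj _ _ _ _ e1).2
    have w03 : S'.t 0 ≠ S'.t 3 := by
      intro e
      have e1 := congrArg Subtype.val e
      rw [u0, u3] at e1
      exact hsr (A.inj _ _ _ _ e1).2
    have w12 : S'.t 1 ≠ S'.t 2 := by
      intro e
      have e1 := congrArg Subtype.val e
      rw [u1, u2] at e1
      exact hsr (A.inj _ _ _ _ e1).2
    have w13 : S'.t 1 ≠ S'.t 3 := by
      intro e
      have e1 := congrArg Subtype.val e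
      rw [u1, u3] at e1
      exact hsr (A.inj _ _ _ _ e1).2
    have w23 : S'.t 2 ≠ S'.t 3 := by
      intro e
      have e1 := congrArg Subtype.val e
      rw [u2, u3] at e1
      exact hne 15 (by decide) (A.inj _ _ _ _ e1).1
    have four : ∀ k : ZMod 4, k = 0 ∨ k = 1 ∨ k = 2 ∨ k = 3 := by decide
    intro k l e
    rcases four k with rfl | rfl | rfl | rfl <;> rcases four l with rfl | rfl | rfl | rfl <;>
      first
      | rfl
      | exact absurd e w01
      | exact absurd e w02
      | exact absurd e w03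
      | exact absurd e w12
      | exact absurd e w13
      | exact absurd e w23
      | exact absurd e.symm w01
      | exact absurd e.symm w02
      | exact absurd e.symm w03
      | exact absurd e.symm w12
      | exact absurd e.symm w13
      | exact absurd e.symm w23
  · rw [eq_top_iff]
    intro x _
    have rot : ∀ (v : F4 S.q.ker) (p : ZMod 16), st.mv v p ∈ Subgroup.closure (Set.range S'.t) →
        ∀ m : ℕ, st.mv v (p + (m : ZMod 16)) ∈ Subgroup.closure (Set.range S'.t) := by
      intro v p hp m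
      induction m with
      | zero =>
        rw [Nat.cast_zero, add_zero]
        exact hp
      | succ m ih =>
        rw [Nat.cast_succ, ← add_assoc, ← st.mv_col]
        exact Subgroup.mul_mem _ ih (Subgroup.subset_closure ⟨_, rfl⟩)
    have rot' : ∀ (v : F4 S.q.ker) (p q : ZMod 16), st.mv v p ∈ Subgroup.closure (Set.range S'.t) →
        st.mv v q ∈ Subgroup.closure (Set.range S'.t) := by
      intro v p q hp
      have h1 := rot v p hp (q - p).val
      rw [ZMod.natCast_zmod_val, add_sub_cancel] at h1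
      exact h1
    have all : ∀ v : F4 S.q.ker, ∀ p, st.mv v p ∈ Subgroup.closure (Set.range S'.t) := by
      intro v
      refine F4_ind h (fun v => ∀ p, st.mv v p ∈ Subgroup.closure (Set.range S'.t)) ?_ ?_ v
      · intro p
        refine rot' 1 0 p ?_
        rw [st.mv_one]
        exact Subgroup.one_mem _
      · intro v p hv q
        refine rot' _ p q ?_
        rw [st.mv_T]
        exact hv p
    obtain ⟨v, p, rfl⟩ := st.mv_surj x
    exact all v p

end KPl
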