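import Pool.Agent.Lib.MP_d3a5e5_coK.W1

set_option autoImplicit false

namespace KPl

/-! LEAF S1 (this whole file): positions, the involutions `T`, the colours. -/

theorem pst_blk_lab (p : ZMod 16) : pst (blk p) (lab p) = p := by
  revert p
  decide

theorem blk_pst (b k : ZMod 4) : blk (pst b k) = b := by
  revert b k
  decide

theorem lab_pst (b k : ZMod 4) : lab (pst b k) = k := by
  revert b k
  decide

theorem blk_succ (p : ZMod 16) : blk (p + 1) = blk p + 1 := by
  revert p
  decide

theorem blk_pred (p : ZMod 16) : blk (p - 1) = blk p - 1 := by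
  revert p
  decide

theorem lab_succ (p : ZMod 16) : lab (p + 1) = if blk p = 3 then lab p + 1 else lab p := by
  revert p
  decide

theorem mem_fours (b b' : ZMod 4) : b' ∈ ([b + 1, b + 2, b + 3] : List (ZMod 4)) ↔ b' ≠ b := by
  revert b b'
  decide

/-- The four colours at a vertex. -/
theorem colr_four (c : Bool) (p : ZMod 16) :
    ([colr c (p - 1), colr c p, colr (!c) (p - 1), colr (!c) p] : List (ZMod 4)).Nodup ∧
      ∀ k, k ∈ ([colr c (p - 1), colr c p, colr (!c) (p - 1), colr (!c) p] : List (ZMod 4)) := by
  revert c p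
  decide

/-- The parity of the colour. -/
theorem colr_ne (p q : ZMod 16) : colr false p ≠ colr true q := by
  revert p q
  decide

/-- The colour determines the parity and the parity of the position. -/
theorem colr_eq (c c' : Bool) (p q : ZMod 16) (h : colr c p = colr c' q) : c = c' ∧ p.val % 2 = q.val % 2 := by
  revert c c' p q
  decide

variable {H : Type} [Group H] {t : ZMod 4 → H}

open Classical in
/-- The projection onto the copy with index `b`. -/
private noncomputable def S1_pr (b : ZMod 4) : F4 H →* H :=
  Monoid.CoprodI.lift fun c => if c = b then MonoidHom.id H else 1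

private theorem S1_pr_self (b : ZMod 4) (x : H) : S1_pr b (ofb b x) = x := by
  unfold S1_pr ofb
  rw [Monoid.CoprodI.lift_of, if_pos rfl]
  rfl

private theorem S1_pr_ne {b c : ZMod 4} (hbc : c ≠ b) (x : H) : S1_pr b (ofb c x) = 1 := by
  unfold S1_pr ofb
  rw [Monoid.CoprodI.lift_of, if_neg hbc]
  rfl

theorem T_sq (h : GI t) (p : ZMod 16) : T t p * T t p = 1 := by
  unfold T
  rw [← map_mul, h.sq, map_one]

theorem T_inj (h : GI t) {p q : ZMod 16} (e : T t p = T t q) : p = q := by
  have h1 := congrArg (S1_pr (blk p)) e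
  by_cases hb : blk p = blk q
  · unfold T at h1
    rw [S1_pr_self, hb, S1_pr_self] at h1
    have h2 : lab p = lab q := h.inj h1
    rw [← pst_blk_lab p, ← pst_blk_lab q, hb, h2]
  · unfold T at h1
    rw [S1_pr_self, S1_pr_ne (Ne.symm hb)] at h1
    exact absurd h1 (h.ne _)

theorem T_ne (h : GI t) (p : ZMod 16) : T t p ≠ 1 := by
  intro e
  have h1 := congrArg (S1_pr (blk p)) e
  unfold T at h1
  rw [S1_pr_self, map_one] at h1
  exact h.ne _ h1

/-- `F4 H` is generated by the involutions `T t p`. -/
theorem T_gen (h : GI t) : Subgroup.closure (Set.range (T t)) = ⊤ := by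
  have h1 : ∀ (b : ZMod 4) (x : H), ofb b x ∈ Subgroup.closure (Set.range (T t)) := by
    intro b x
    have hx : x ∈ Subgroup.closure (Set.range t) := by
      rw [h.gen]
      exact Subgroup.mem_top x
    have h2 : (Subgroup.closure (Set.range t)).map (ofb b) ≤ Subgroup.closure (Set.range (T t)) := by
      rw [MonoidHom.map_closure, Subgroup.closure_le]
      rintro _ ⟨_, ⟨k, rfl⟩, rfl⟩
      refine Subgroup.subset_closure ⟨pst b k, ?_⟩
      unfold T
      rw [blk_pst, lab_pst]
    exact h2 (Subgroup.mem_map_of_mem _ hx)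
  rw [Subgroup.eq_top_iff']
  intro v
  induction v using Monoid.CoprodI.induction_on with
  | one => exact Subgroup.one_mem _
  | of b x => exact h1 b x
  | mul x y hx hy => exact Subgroup.mul_mem _ hx hy

/-- Induction over `F4 H` along the edges of the Cayley graph. -/
theorem F4_ind (h : GI t) (P : F4 H → Prop) (h1 : P 1) (hT : ∀ v p, P v → P (v * T t p)) (v : F4 H) : P v := by
  have hv : v ∈ Subgroup.closure (Set.range (T t)) := by
    rw [T_gen h]
    exact Subgroup.mem_top v
  induction hv using Subgroup.closure_induction_right with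
  | one => exact h1
  | mul_right x hx y hy ih =>
    obtain ⟨p, rfl⟩ := hy
    exact hT x p ih
  | mul_inv_cancel x hx y hy ih =>
    obtain ⟨p, rfl⟩ := hy
    have h2 : (T t p)⁻¹ = T t p := inv_eq_of_mul_eq_one_right (T_sq h p)
    rw [h2]
    exact hT x p ih

end KPl
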