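import Pool.Agent.Lib.MP_d3a5e5_coK.K1
import Pool.Agent.Lib.MP_d3a5e5_coK.S1

set_option autoImplicit false

namespace KPl

/-- The start: the free product of four groups of order 2. -/
abbrev H0 : Type := Monoid.CoprodI (fun _ : ZMod 4 => Multiplicative (ZMod 2))

/-- Its four generators. -/
def t0 (k : ZMod 4) : H0 := Monoid.CoprodI.of (M := fun _ : ZMod 4 => Multiplicative (ZMod 2)) (i := k) (Multiplicative.ofAdd 1)

/-- The first index of the reduced word. -/
private noncomputable def c7hd (z : H0) : Option (ZMod 4) := (Monoid.CoprodI.Word.equiv z).fstIdx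

/-- The length of the reduced word. -/
private noncomputable def c7len (z : H0) : ℕ := (Monoid.CoprodI.Word.equiv z).toList.length

private theorem c7_mul (k : ZMod 4) (w : H0) (h : c7hd w ≠ some k) :
    c7hd (t0 k * w) = some k ∧ c7len (t0 k * w) = c7len w + 1 := by
  have h1 : (Multiplicative.ofAdd (1 : ZMod 2)) ≠ 1 := by decide
  have h2 : Monoid.CoprodI.Word.equiv (t0 k * w) =
      Monoid.CoprodI.Word.cons (M := fun _ : ZMod 4 => Multiplicative (ZMod 2)) (i := k)
        (Multiplicative.ofAdd (1 : ZMod 2)) (Monoid.CoprodI.Word.equiv w) h h1 := by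
    rw [Monoid.CoprodI.Word.cons_eq_smul]
    change (t0 k * w) • (Monoid.CoprodI.Word.empty :
      Monoid.CoprodI.Word (fun _ : ZMod 4 => Multiplicative (ZMod 2))) = _
    rw [mul_smul]
    rfl
  refine ⟨?_, ?_⟩
  · unfold c7hd
    rw [h2]
    rfl
  · unfold c7len
    rw [h2]
    rfl

private theorem c7_one : c7hd 1 = none ∧ c7len 1 = 0 := by
  have h : Monoid.CoprodI.Word.equiv (1 : H0) = Monoid.CoprodI.Word.empty := by
    change (1 : H0) • (Monoid.CoprodI.Word.empty :
      Monoid.CoprodI.Word (fun _ : ZMod 4 => Multiplicative (ZMod 2))) = _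
    rw [one_smul]
  refine ⟨?_, ?_⟩
  · unfold c7hd
    rw [h]
    rfl
  · unfold c7len
    rw [h]
    rfl

private theorem c7_two (m : Multiplicative (ZMod 2)) (h : m ≠ 1) : m = Multiplicative.ofAdd 1 := by
  revert m
  decide

private theorem c7_cases (z : H0) : z = 1 ∨ ∃ (k : ZMod 4) (w : H0), z = t0 k * w ∧ c7hd w ≠ some k := by
  have h : ∀ u : Monoid.CoprodI.Word (fun _ : ZMod 4 => Multiplicative (ZMod 2)),
      u.prod = 1 ∨ ∃ (k : ZMod 4) (w : H0), u.prod = t0 k * w ∧ c7hd w ≠ some k := by
    intro u
    induction u using Monoid.CoprodI.Word.consRecOn with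
    | empty => exact Or.inl Monoid.CoprodI.Word.prod_empty
    | cons i m w h1 h2 _ =>
      right
      refine ⟨i, w.prod, ?_, ?_⟩
      · rw [Monoid.CoprodI.Word.prod_cons, c7_two m h2]
        rfl
      · have h3 : Monoid.CoprodI.Word.equiv w.prod = w := Monoid.CoprodI.Word.equiv.apply_symm_apply w
        unfold c7hd
        rw [h3]
        exact h1
  have h3 : (Monoid.CoprodI.Word.equiv z).prod = z := Monoid.CoprodI.Word.equiv.symm_apply_apply z
  have h4 := h (Monoid.CoprodI.Word.equiv z)
  rw [h3] at h4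
  exact h4

private theorem c7_some {z : H0} {k : ZMod 4} (h : c7hd z = some k) :
    ∃ w : H0, z = t0 k * w ∧ c7hd w ≠ some k := by
  rcases c7_cases z with rfl | ⟨j, w, rfl, hw⟩
  · rw [c7_one.1] at h
    exact absurd h (by simp)
  · rw [(c7_mul j w hw).1] at h
    obtain rfl : j = k := Option.some.inj h
    exact ⟨w, rfl, hw⟩

private theorem c7_none {z : H0} (h : c7hd z = none) : z = 1 := by
  rcases c7_cases z with rfl | ⟨j, w, rfl, hw⟩
  · rfl
  · rw [(c7_mul j w hw).1] at h
    exact absurd h (by simp)

private theorem c7_t (k : ZMod 4) : c7hd (t0 k) = some k := by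
  have h := (c7_mul k 1 (by rw [c7_one.1]; simp)).1
  rwa [mul_one] at h

/-- LEAF C7 (part 1, easy-medium). -/
theorem GI_t0 : GI t0 := by
  refine ⟨?_, ?_, ?_, ?_⟩
  · intro k
    unfold t0
    rw [← map_mul]
    have h : (Multiplicative.ofAdd (1 : ZMod 2)) * Multiplicative.ofAdd 1 = 1 := by decide
    rw [h, map_one]
  · intro k h
    have h1 := c7_t k
    rw [h, c7_one.1] at h1
    exact absurd h1 (by simp)
  · intro k l h
    have h1 := c7_t k
    rw [h, c7_t l] at h1
    exact (Option.some.inj h1).symm
  · rw [eq_top_iff]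
    intro z _
    induction z using Monoid.CoprodI.induction_on with
    | one => exact one_mem _
    | of i m =>
      by_cases hm : m = 1
      · rw [hm, map_one]
        exact one_mem _
      · rw [c7_two m hm]
        exact Subgroup.subset_closure ⟨i, rfl⟩
    | mul x y hx hy => exact mul_mem (hx trivial) (hy trivial)

/-- The branch at `x` behind the edge with colour `k`. -/
private def c7Br (x : H0) (k : ZMod 4) : Set H0 := {z | c7hd (x⁻¹ * z) = some k}

private theorem c7_list (r : ℕ)
    (hr : ∀ (S : Set H0) (x : H0) (k : ZMod 4), x ∈ S → (∀ z ∈ c7Br x k, z ∉ S) →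
      ∃ S' : Set H0, Dr (HG GI_t0) S [(x, k)] [] S' [] ∧ (∀ z ∈ S', z ∈ S ∨ z ∈ c7Br x k) ∧
        ∀ z ∈ c7Br x k, c7len (x⁻¹ * z) ≤ r → z ∈ S') (y : H0) (Ks : List (ZMod 4)) :
    ∀ S : Set H0, y ∈ S → Ks.Nodup → (∀ k ∈ Ks, ∀ z ∈ c7Br y k, z ∉ S) →
      ∃ S' : Set H0, Dr (HG GI_t0) S (Ks.map fun k => (y, k)) [] S' [] ∧
        (∀ z ∈ S', z ∈ S ∨ ∃ k ∈ Ks, z ∈ c7Br y k) ∧
        ∀ k ∈ Ks, ∀ z ∈ c7Br y k, c7len (y⁻¹ * z) ≤ r → z ∈ S' := by
  induction Ks with
  | nil =>
    intro S _ _ _
    refine ⟨S, Dr.refl S _, fun z hz => Or.inl hz, ?_⟩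
    intro k hk
    exact absurd hk List.not_mem_nil
  | cons k Ks ih =>
    intro S hy hnd hd
    rw [List.nodup_cons] at hnd
    obtain ⟨S1, h1, h2, h3⟩ := hr S y k hy (hd k List.mem_cons_self)
    obtain ⟨S2, g1, g2, g3⟩ := ih S1 (h1.subset hy) hnd.2 (by
      intro j hj z hz hzS
      rcases h2 z hzS with h4 | h4
      · exact hd j (List.mem_cons_of_mem k hj) z hz h4
      · have h5 : c7hd (y⁻¹ * z) = some j := hz
        have h6 : c7hd (y⁻¹ * z) = some k := h4
        rw [h5] at h6
        obtain rfl : j = k := Option.some.inj h6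
        exact hnd.1 hj)
    refine ⟨S2, ?_, ?_, ?_⟩
    · have h4 := h1.frame [] (Ks.map fun k => (y, k))
      rw [List.nil_append, List.nil_append, List.nil_append] at h4
      have h5 := h4.trans g1
      rw [List.append_nil] at h5
      rw [List.map_cons]
      exact h5
    · intro z hz
      rcases g2 z hz with h4 | ⟨j, hj, h4⟩
      · rcases h2 z h4 with h5 | h5
        · exact Or.inl h5
        · exact Or.inr ⟨k, List.mem_cons_self, h5⟩
      · exact Or.inr ⟨j, List.mem_cons_of_mem k hj, h4⟩
    · intro j hj z hz hl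
      rcases List.mem_cons.1 hj with rfl | hj'
      · exact g1.subset (h3 z hz hl)
      · exact g3 j hj' z hz hl

private theorem c7_main (r : ℕ) : ∀ (S : Set H0) (x : H0) (k : ZMod 4), x ∈ S → (∀ z ∈ c7Br x k, z ∉ S) →
      ∃ S' : Set H0, Dr (HG GI_t0) S [(x, k)] [] S' [] ∧ (∀ z ∈ S', z ∈ S ∨ z ∈ c7Br x k) ∧
        ∀ z ∈ c7Br x k, c7len (x⁻¹ * z) ≤ r → z ∈ S' := by
  induction r with
  | zero =>
    intro S x k _ _
    refine ⟨S, dr_kill S _, fun z hz => Or.inl hz, ?_⟩
    intro z hz hl
    exfalso
    obtain ⟨w, hw1, hw2⟩ := c7_some hz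
    rw [hw1, (c7_mul k w hw2).2] at hl
    omega
  | succ r ih =>
    intro S x k hx hS
    have hsq := GI_t0.sq
    have hsub : ∀ j, j ≠ k → ∀ z, z ∈ c7Br (x * t0 k) j → z ∈ c7Br x k := by
      intro j hj z hz
      have h1 : c7hd ((x * t0 k)⁻¹ * z) = some j := hz
      have h2 := (c7_mul k ((x * t0 k)⁻¹ * z) (by rw [h1]; simpa using hj)).1
      have h3 : t0 k * ((x * t0 k)⁻¹ * z) = x⁻¹ * z := by group
      rw [h3] at h2
      exact h2
    have hy : x * t0 k ∈ c7Br x k := by
      change c7hd (x⁻¹ * (x * t0 k)) = some k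
      rw [inv_mul_cancel_left]
      exact c7_t k
    obtain ⟨S', h1, h2, h3⟩ := c7_list r ih (x * t0 k) [k + 1, k + 2, k + 3] (insert (x * t0 k) S)
      (Set.mem_insert _ _) (by clear * - ; revert k; decide) (by
        intro j hj z hz hzS
        have hjk : j ≠ k := (mem_fours k j).1 hj
        rcases Set.mem_insert_iff.1 hzS with h | h
        · have h4 : c7hd ((x * t0 k)⁻¹ * z) = some j := hz
          rw [h, inv_mul_cancel, c7_one.1] at h4
          exact absurd h4 (by simp)
        · exact hS z (hsub j hjk z hz) h)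
    refine ⟨S', ?_, ?_, ?_⟩
    · have h4 := Dr.vert (Γ := HG GI_t0) [] [] (x * t0 k) [k] [k + 1, k + 2, k + 3] S [] S' []
        (fun h => hS _ hy h) (by clear * - ; revert k; decide) (by clear * - ; revert k; decide) (by
          intro j hj
          rw [List.mem_singleton] at hj
          subst hj
          change x * t0 j * t0 j ∈ S
          rw [mul_assoc, hsq, mul_one]
          exact hx) (by
          intro j hj h
          have hjk : j ≠ k := (mem_fours k j).1 hj
          refine hS _ (hsub j hjk (x * t0 k * t0 j) ?_) h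
          change c7hd ((x * t0 k)⁻¹ * (x * t0 k * t0 j)) = some j
          rw [inv_mul_cancel_left]
          exact c7_t j) (by
          rw [List.nil_append, List.append_nil]
          exact h1)
      rw [List.nil_append, List.append_nil, List.map_singleton] at h4
      have h5 : (HG GI_t0).nb (x * t0 k) k = x := by
        change x * t0 k * t0 k = x
        rw [mul_assoc, hsq, mul_one]
      rw [h5] at h4
      exact h4
    · intro z hz
      rcases h2 z hz with h4 | ⟨j, hj, h4⟩
      · rcases Set.mem_insert_iff.1 h4 with h5 | h5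
        · rw [h5]
          exact Or.inr hy
        · exact Or.inl h5
      · exact Or.inr (hsub j ((mem_fours k j).1 hj) z h4)
    · intro z hz hl
      obtain ⟨w, hw1, hw2⟩ := c7_some hz
      have hw3 : w = (x * t0 k)⁻¹ * z := by
        rw [mul_inv_rev, mul_assoc, hw1, inv_mul_cancel_left]
      rw [hw1, (c7_mul k w hw2).2] at hl
      cases hj : c7hd w with
      | none =>
        have hw4 := c7_none hj
        rw [hw4] at hw3
        have h4 : z = x * t0 k := by
          rw [← mul_one (x * t0 k), hw3, mul_inv_cancel_left]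
        rw [h4]
        exact h1.subset (Set.mem_insert _ _)
      | some j =>
        have hjk : j ≠ k := by
          rintro rfl
          exact hw2 hj
        refine h3 j ((mem_fours k j).2 hjk) z ?_ ?_
        · change c7hd ((x * t0 k)⁻¹ * z) = some j
          rw [← hw3]
          exact hj
        · rw [← hw3]
          omega

/-- LEAF C7 (part 2, medium). The Cayley graph is a tree. Let `Br x k` be the set of all `z` such that the reduced word of `x⁻¹ * z` starts with the syllable of index `k` (`Word.equivPair k`, head `≠ 1`; see `hd` in W1 for the other free product). Claim by induction on `r`: for `x ∈ S`, `Br x k` disjoint from `S`, there is `S'` with `Dr (HG GI_t0) S [(x, k)] [] S' []`,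
`S' ⊆ S ∪ Br x k`, and all `z ∈ Br x k` with `x⁻¹ * z` of word length at most `r` are in `S'`. `r = 0`: kill. Step: `vert` at `y = x * t0 k` with `Kx = [k]`, `Ky` = the other three colours; `Br y j ⊆ Br x k` for `j ≠ k`, disjoint for different `j`. The log is empty. Then the four root edges one after the other. -/
theorem good_zero (K : ℕ) : GoodBlock GI_t0 K := by
  intro A
  obtain ⟨S', h1, -, h3⟩ := c7_list (A.sup c7len) (c7_main _) 1 [3, 1, 2, 0] {1} (Set.mem_singleton _)
    (by decide) (by
      intro j _ z hz h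
      have h4 : c7hd ((1 : H0)⁻¹ * z) = some j := hz
      rw [Set.mem_singleton_iff.1 h, inv_one, one_mul, c7_one.1] at h4
      exact absurd h4 (by simp))
  refine ⟨[], S', h1, ?_, fun k => cnt_nil _, fun l => ?_⟩
  · intro z hz
    cases hj : c7hd z with
    | none =>
      rw [c7_none hj]
      exact h1.subset (Set.mem_singleton _)
    | some j =>
      refine h3 j ?_ z ?_ ?_
      · clear * -
        revert j
        decide
      · change c7hd ((1 : H0)⁻¹ * z) = some j
        rw [inv_one, one_mul]
        exact hj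
      · rw [inv_one, one_mul]
        exact Finset.le_sup (f := c7len) (by exact_mod_cast hz)
  · rw [cnt_nil]
    exact Nat.zero_le _

end KPl
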