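import Pool.Agent.Lib.MP_d3a5e5_coK.A0
import Pool.Agent.Lib.MP_d3a5e5_coK.C7

set_option autoImplicit false

namespace KPl

private theorem A7_cases (x : Z2) : x = 1 ∨ x = Multiplicative.ofAdd 1 := by
  revert x
  decide

/-- The homomorphism given by an element of square one. -/
private def A7_z2 {N : Type} [Group N] (g : N) (h : g * g = 1) : Z2 →* N where
  toFun x := if x = 1 then 1 else g
  map_one' := if_pos rfl
  map_mul' := by
    have h1 : (Multiplicative.ofAdd (1 : ZMod 2)) ≠ 1 := by decide
    have h2 : (Multiplicative.ofAdd (1 : ZMod 2)) * Multiplicative.ofAdd (1 : ZMod 2) = 1 := by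
      decide
    intro x y
    rcases A7_cases x with rfl | rfl
    · rw [one_mul, if_pos rfl, one_mul]
    · rcases A7_cases y with rfl | rfl
      · rw [mul_one, if_pos rfl, mul_one]
      · rw [h2, if_pos rfl, if_neg h1, h]

private theorem A7_z2_one {N : Type} [Group N] (g : N) (h : g * g = 1) :
    A7_z2 g h (Multiplicative.ofAdd 1) = g := by
  have h1 : (Multiplicative.ofAdd (1 : ZMod 2)) ≠ 1 := by decide
  change (if (Multiplicative.ofAdd (1 : ZMod 2)) = 1 then (1 : N) else g) = g
  exact if_neg h1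

/-- The homomorphism from the free product. -/
private def A7_lift {N : Type} [Group N] (g : ZMod 4 → N) (h : ∀ k, g k * g k = 1) : H0 →* N :=
  Monoid.CoprodI.lift fun k => A7_z2 (g k) (h k)

private theorem A7_lift_t0 {N : Type} [Group N] (g : ZMod 4 → N) (h : ∀ k, g k * g k = 1)
    (k : ZMod 4) : A7_lift g h (t0 k) = g k := by
  unfold A7_lift t0
  rw [Monoid.CoprodI.lift_of]
  exact A7_z2_one (g k) (h k)

private theorem A7_ext {N : Type} [Group N] {f g : H0 →* N} (h : ∀ k, f (t0 k) = g (t0 k)) :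
    f = g := by
  apply Monoid.CoprodI.ext_hom
  intro k
  apply MonoidHom.ext
  intro x
  rcases A7_cases x with rfl | rfl
  · rw [map_one, map_one]
  · exact h k

private theorem A7_sq (k : ZMod 4) : t0 k * t0 k = 1 := by
  unfold t0
  rw [← map_mul]
  have h2 : (Multiplicative.ofAdd (1 : ZMod 2)) * Multiplicative.ofAdd (1 : ZMod 2) = 1 := by
    decide
  rw [h2, map_one]

/-- The action of the dihedral group on the indices. -/
private def A7_pm (d : DihedralGroup 4) (k : ZMod 4) : ZMod 4 :=
  match d with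
    | .r i => k + i
    | .sr i => -i - k

private theorem A7_pm_one (k : ZMod 4) : A7_pm 1 k = k := by
  revert k
  decide

private theorem A7_pm_mul (d d' : DihedralGroup 4) (k : ZMod 4) :
    A7_pm (d * d') k = A7_pm d (A7_pm d' k) := by
  revert d d' k
  decide

private theorem A7_pm_r (k : ZMod 4) : A7_pm (.r k) 0 = k := by
  revert k
  decide

private theorem A7_pm_sr (k : ZMod 4) : A7_pm (.sr (-2 * k)) k = k := by
  revert k
  decide

private theorem A7_conj (d : DihedralGroup 4) (k : ZMod 4) :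
    d * .sr (-2 * k) * d⁻¹ = .sr (-2 * A7_pm d k) := by
  revert d k
  decide

private theorem A7_srsr (k : ZMod 4) :
    (DihedralGroup.sr (-2 * k) * DihedralGroup.sr (-2 * k) : DihedralGroup 4) = 1 := by
  revert k
  decide

private def A7_f (d : DihedralGroup 4) : H0 →* H0 :=
  A7_lift (fun k => t0 (A7_pm d k)) fun _ => A7_sq _

private theorem A7_f_t0 (d : DihedralGroup 4) (k : ZMod 4) : A7_f d (t0 k) = t0 (A7_pm d k) :=
  A7_lift_t0 _ _ k

private theorem A7_f_mul (d d' : DihedralGroup 4) : (A7_f d).comp (A7_f d') = A7_f (d * d') := by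
  apply A7_ext
  intro k
  rw [MonoidHom.comp_apply, A7_f_t0, A7_f_t0, A7_f_t0, A7_pm_mul]

private theorem A7_f_one : A7_f 1 = MonoidHom.id H0 := by
  apply A7_ext
  intro k
  rw [A7_f_t0, A7_pm_one]
  rfl

/-- The action on the free product. -/
private def A7_phi : DihedralGroup 4 →* MulAut H0 where
  toFun d := MonoidHom.toMulEquiv (A7_f d) (A7_f d⁻¹)
    (by rw [A7_f_mul, inv_mul_cancel, A7_f_one]) (by rw [A7_f_mul, mul_inv_cancel, A7_f_one])
  map_one' := by
    apply MulEquiv.ext
    intro x
    change A7_f 1 x = x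
    rw [A7_f_one]
    rfl
  map_mul' d d' := by
    apply MulEquiv.ext
    intro x
    change A7_f (d * d') x = A7_f d (A7_f d' x)
    rw [← A7_f_mul]
    rfl

private theorem A7_phi_t0 (d : DihedralGroup 4) (k : ZMod 4) :
    A7_phi d (t0 k) = t0 (A7_pm d k) := A7_f_t0 d k

private abbrev A7_Q : Type := H0 ⋊[A7_phi] DihedralGroup 4

private theorem A7_inr_inl (d : DihedralGroup 4) (k : ZMod 4) :
    (SemidirectProduct.inr d : A7_Q) * SemidirectProduct.inl (t0 k) =
      SemidirectProduct.inl (t0 (A7_pm d k)) * SemidirectProduct.inr d := by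
  have h := SemidirectProduct.inl_aut (φ := A7_phi) d (t0 k)
  rw [A7_phi_t0] at h
  rw [h, mul_assoc, ← map_mul, inv_mul_cancel, map_one, mul_one]

private theorem A7_conj_inl (d : DihedralGroup 4) (k : ZMod 4) :
    (SemidirectProduct.inr d : A7_Q) * SemidirectProduct.inl (t0 k) *
      (SemidirectProduct.inr d)⁻¹ = SemidirectProduct.inl (t0 (A7_pm d k)) := by
  rw [A7_inr_inl, mul_assoc, mul_inv_cancel, mul_one]

private def A7_g (k : ZMod 4) : A7_Q :=
  SemidirectProduct.inl (t0 k) * SemidirectProduct.inr (.sr (-2 * k))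

private theorem A7_g_sq (k : ZMod 4) : A7_g k * A7_g k = 1 := by
  unfold A7_g
  rw [mul_assoc, ← mul_assoc (SemidirectProduct.inr _) (SemidirectProduct.inl _), A7_inr_inl,
    A7_pm_sr, mul_assoc, ← map_mul, A7_srsr, map_one, mul_one, ← map_mul, A7_sq, map_one]

private def A7_a1 : H0 →* A7_Q := A7_lift A7_g A7_g_sq

private theorem A7_a1_t0 (k : ZMod 4) : A7_a1 (t0 k) = A7_g k := A7_lift_t0 _ _ k

private def A7_al : A7_Q →* A7_Q :=
  SemidirectProduct.lift A7_a1 SemidirectProduct.inr (by
    intro d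
    apply A7_ext
    intro k
    change A7_a1 (A7_phi d (t0 k)) =
      SemidirectProduct.inr d * A7_a1 (t0 k) * (SemidirectProduct.inr d)⁻¹
    rw [A7_phi_t0, A7_a1_t0, A7_a1_t0]
    unfold A7_g
    rw [← A7_conj, ← A7_conj_inl]
    simp only [map_mul, map_inv, mul_assoc, inv_mul_cancel_left])

private theorem A7_al_inl (k : ZMod 4) :
    A7_al (SemidirectProduct.inl (t0 k)) = A7_g k := by
  unfold A7_al
  rw [SemidirectProduct.lift_inl, A7_a1_t0]

private theorem A7_al_inr (d : DihedralGroup 4) :
    A7_al (SemidirectProduct.inr d) = SemidirectProduct.inr d := by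
  unfold A7_al
  rw [SemidirectProduct.lift_inr]

private theorem A7_Qext {N : Type} [Group N] {f g : A7_Q →* N}
    (h1 : ∀ k, f (SemidirectProduct.inl (t0 k)) = g (SemidirectProduct.inl (t0 k)))
    (h2 : ∀ d, f (SemidirectProduct.inr d) = g (SemidirectProduct.inr d)) : f = g := by
  apply SemidirectProduct.hom_ext
  · apply A7_ext
    exact h1
  · apply MonoidHom.ext
    exact h2

private def A7_p0 : H0 →* Z2 :=
  A7_lift (fun _ => Multiplicative.ofAdd 1) (fun _ => by decide)

private theorem A7_p0_t0 (k : ZMod 4) : A7_p0 (t0 k) = Multiplicative.ofAdd 1 :=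
  A7_lift_t0 _ _ k

private def A7_par : A7_Q →* Z2 :=
  SemidirectProduct.lift A7_p0 1 (by
    intro d
    apply A7_ext
    intro k
    change A7_p0 (A7_phi d (t0 k)) = (1 : Z2) * A7_p0 (t0 k) * (1 : Z2)⁻¹
    rw [A7_phi_t0, A7_p0_t0, A7_p0_t0, one_mul, inv_one, mul_one])

private theorem A7_par_inl (k : ZMod 4) :
    A7_par (SemidirectProduct.inl (t0 k)) = Multiplicative.ofAdd 1 := by
  unfold A7_par
  rw [SemidirectProduct.lift_inl, A7_p0_t0]

private theorem A7_par_inr (d : DihedralGroup 4) :
    A7_par (SemidirectProduct.inr d) = 1 := by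
  unfold A7_par
  rw [SemidirectProduct.lift_inr]
  rfl

private def A7_S : Sys0 A7_Q where
  D := SemidirectProduct.inr
  q := SemidirectProduct.rightHom
  qD δ := SemidirectProduct.rightHom_inr δ
  t0 := SemidirectProduct.inl (KPl.t0 0)
  qt0 := SemidirectProduct.rightHom_inl _
  sq := by rw [← map_mul, A7_sq, map_one]
  tD := by
    rw [A7_inr_inl]
    have : A7_pm (.sr 0) 0 = 0 := by decide
    rw [this]
  α := A7_al
  αD := A7_al_inr
  αt0 := by
    rw [A7_al_inl]
    unfold A7_g
    rw [mul_zero]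
  αα x := by
    have h : A7_al.comp A7_al = MonoidHom.id _ := by
      apply A7_Qext
      · intro k
        rw [MonoidHom.comp_apply, A7_al_inl]
        unfold A7_g
        rw [map_mul, A7_al_inl, A7_al_inr]
        unfold A7_g
        rw [mul_assoc, ← map_mul, A7_srsr, map_one, mul_one]
        rfl
      · intro d
        rw [MonoidHom.comp_apply, A7_al_inr, A7_al_inr]
        rfl
    exact DFunLike.congr_fun h x
  par := A7_par
  par_t0 := A7_par_inl 0
  par_D := A7_par_inr
  par_α x := by
    have h : A7_par.comp A7_al = A7_par := by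
      apply A7_Qext
      · intro k
        rw [MonoidHom.comp_apply, A7_al_inl]
        unfold A7_g
        rw [map_mul, A7_par_inr, mul_one]
      · intro d
        rw [MonoidHom.comp_apply, A7_al_inr]
    exact DFunLike.congr_fun h x
  sg_α x := by
    have h : (sg.comp SemidirectProduct.rightHom).comp A7_al =
        (sg.comp SemidirectProduct.rightHom) * A7_par := by
      apply A7_Qext
      · intro k
        rw [MonoidHom.comp_apply, A7_al_inl, MonoidHom.mul_apply, A7_par_inl]
        unfold A7_g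
        rw [MonoidHom.comp_apply, MonoidHom.comp_apply, map_mul, SemidirectProduct.rightHom_inl,
          SemidirectProduct.rightHom_inr, one_mul, map_one, one_mul]
        rfl
      · intro d
        rw [MonoidHom.comp_apply, A7_al_inr, MonoidHom.mul_apply, A7_par_inr, mul_one]
    exact DFunLike.congr_fun h x

/-- LEAF A7 (medium). The start. `Q = H0 ⋊ DihedralGroup 4`, the dihedral group permutes the four factors: `r i : k ↦ k + i`, `sr i : k ↦ -i - k` (`Monoid.CoprodI.lift` with the values `t0 (k + i)`, resp. `t0 (-i - k)`). `D = inr`, `q = rightHom`, `t0 = inl (t0 0)`, so `D (r k) t0 D (r k)⁻¹ = inl (t0 k)`; `q.ker` is the image of `inl`.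
`α`: `D ↦ D`, `inl (t0 k) ↦ inl (t0 k) * D (sr (-2k))`: `SemidirectProduct.lift` with `Monoid.CoprodI.lift` (a homomorphism of `Z2` is given by an element with square 1: `(inl (t0 k) * D (sr (-2k))) ^ 2 = 1` because `sr (-2k)` fixes `k`); compatible with the dihedral group. `αα`: on `inl (t0 k)`: `inl (t0 k) * D (sr (-2k)) * D (sr (-2k))`.
`par`: `inl (t0 k) ↦ ofAdd 1`, `D ↦ 1`. `par_α`, `sg_α`: homomorphisms, check on `inl (t0 k)` and `inr d`. -/
theorem base_sys : ∃ (Q : Type) (_ : Group Q) (S : Sys0 Q) (e : H0 ≃* S.q.ker), ∀ k, e (t0 k) = S.t k := by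
  have hmem : ∀ h : H0, (SemidirectProduct.inl h : A7_Q) ∈ A7_S.q.ker := fun h => by
    rw [MonoidHom.mem_ker]
    exact SemidirectProduct.rightHom_inl h
  obtain ⟨f, hf⟩ : ∃ f : H0 →* A7_S.q.ker, ∀ h, (f h : A7_Q) = SemidirectProduct.inl h :=
    ⟨(SemidirectProduct.inl : H0 →* A7_Q).codRestrict _ hmem, fun _ => rfl⟩
  have hbij : Function.Bijective f := by
    constructor
    · intro x y hxy
      apply SemidirectProduct.inl_injective (φ := A7_phi)
      rw [← hf, ← hf, hxy]
    · rintro ⟨x, hx⟩
      have h1 : x ∈ (SemidirectProduct.inl : H0 →* A7_Q).range := by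
        rw [SemidirectProduct.range_inl_eq_ker_rightHom]
        exact hx
      obtain ⟨h, rfl⟩ := h1
      exact ⟨h, Subtype.ext (hf h)⟩
  refine ⟨A7_Q, inferInstance, A7_S, MulEquiv.ofBijective f hbij, fun k => ?_⟩
  apply Subtype.ext
  have h1 : ((MulEquiv.ofBijective f hbij (t0 k) : A7_S.q.ker) : A7_Q) =
      SemidirectProduct.inl (t0 k) := hf (t0 k)
  rw [h1]
  have h2 := A7_conj_inl (.r k) 0
  rw [A7_pm_r] at h2
  exact h2.symm

end KPl
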