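import Pool.Agent.Lib.MP_d3a5e5_coK.C2Defs

set_option autoImplicit false

namespace KPl

variable {H H' : Type} [Group H] [Group H'] {t : ZMod 4 → H} {t' : ZMod 4 → H'}

/-- LEAF C2a (easy). Kill everything (`dr_kill`). Covered: `Cv A 0 (w⁻¹ * z)` means `z = w`, but `br w b' w = 1`. -/
theorem kids_zero (h' : GI t') (st : Step t t') (A : Set H) (K : ℕ) : Kids h' st A K 0 := by
  intro w b S _ _
  refine ⟨[], S, dr_kill S _, fun m hm => Or.inl hm, ?_, fun d => ?_, fun d _ => cnt_nil d⟩
  · intro b' _ z p hz _ hc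
    exfalso
    have h1 : z = w := (inv_mul_eq_one.1 (Cv_zero hc)).symm
    rw [h1] at hz
    exact hz (br_self w b')
  · rw [cnt_nil]
    exact Nat.zero_le _

private theorem C2a_list (h : GI t) (h' : GI t') (st : Step t t') (A : Set H) (K r : ℕ)
    (hW : World h' st A K r) (w : F4 H) : ∀ (Bs : List (ZMod 4)) (S : Set H'), Bs.Nodup →
      (∀ b' ∈ Bs, ∀ p, blk p = b' → st.mv w p ∈ S) → (∀ b' ∈ Bs, ∀ m ∈ PW st w b', m ∉ S) →
      WF (HG h') S (Bs.flatMap (fun b' => Ul st w b')) →
      ∃ (cs : List ((H' × ZMod 4) × (H' × ZMod 4))) (S' : Set H'),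
        Dr (HG h') S (Bs.flatMap (fun b' => Ul st w b')) cs S' [] ∧
        (∀ m ∈ S', m ∈ S ∨ ∃ b' ∈ Bs, m ∈ PW st w b') ∧
        (∀ b' ∈ Bs, ∀ z p, br w b' z ≠ 1 → br w b' (z * T t p) ≠ 1 → Cv A (r + 1) (w⁻¹ * z) →
          st.mv z p ∈ S') ∧
        (∀ d, cnt cs d ≤ K) ∧ ∀ d ∈ Bs.flatMap (fun b' => Ul st w b'), cnt cs d = 0 := by
  intro Bs
  induction Bs with
  | nil =>
    intro S _ _ _ _
    refine ⟨[], S, Dr.refl S _, fun m hm => Or.inl hm, ?_, fun d => ?_, ?_⟩
    · intro b' hb'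
      exact absurd hb' List.not_mem_nil
    · rw [cnt_nil]
      exact Nat.zero_le _
    · intro d _
      exact cnt_nil d
  | cons b1 Bs ih =>
    intro S hnd h1 h2 hwf
    rw [List.nodup_cons] at hnd
    obtain ⟨cs1, S1, hD1, hS1, hc1, hK1, hz1⟩ := hW w b1 S
      (h1 b1 List.mem_cons_self) (h2 b1 List.mem_cons_self)
    have hL : (b1 :: Bs).flatMap (fun b' => Ul st w b') =
        [] ++ Ul st w b1 ++ Bs.flatMap (fun b' => Ul st w b') := by
      rw [List.flatMap_cons, List.nil_append]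
    rw [hL] at hwf ⊢
    have hF := hD1.frame [] (Bs.flatMap (fun b' => Ul st w b'))
    rw [List.append_nil, List.nil_append] at hF
    have hwf1 : WF (HG h') S1 (Bs.flatMap (fun b' => Ul st w b')) := by
      have h3 := hD1.frame [] (Bs.flatMap (fun b' => Ul st w b'))
      have h4 := h3.wf hwf
      rwa [List.append_nil, List.nil_append] at h4
    have hF' : Dr (HG h') S ([] ++ Ul st w b1 ++ Bs.flatMap (fun b' => Ul st w b')) cs1 S1
        (Bs.flatMap (fun b' => Ul st w b')) := by
      have h3 := hD1.frame [] (Bs.flatMap (fun b' => Ul st w b'))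
      rwa [List.append_nil, List.nil_append (as := Bs.flatMap _)] at h3
    obtain ⟨cs2, S2, hD2, hS2, hc2, hK2, hz2⟩ := ih S1 hnd.2
      (fun b' hb' p hp => hD1.subset (h1 b' (List.mem_cons_of_mem _ hb') p hp))
      (fun b' hb' m hm hm1 => by
        rcases hS1 m hm1 with h3 | h3
        · exact h2 b' (List.mem_cons_of_mem _ hb') m hm h3
        · have hne : b1 ≠ b' := fun e => hnd.1 (e ▸ hb')
          exact Set.disjoint_left.1 (PW_disj h st w hne) h3 hm)
      hwf1
    have hndL : (Ul st w b1 ++ Bs.flatMap (fun b' => Ul st w b')).Nodup := by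
      have h3 := hwf.1
      rwa [List.nil_append] at h3
    refine ⟨cs1 ++ cs2, S2, hF'.trans hD2, ?_, ?_, ?_, ?_⟩
    · intro m hm
      rcases hS2 m hm with h3 | ⟨b', hb', h3⟩
      · rcases hS1 m h3 with h4 | h4
        · exact Or.inl h4
        · exact Or.inr ⟨b1, List.mem_cons_self, h4⟩
      · exact Or.inr ⟨b', List.mem_cons_of_mem _ hb', h3⟩
    · intro b' hb' z p hz hz' hcv
      rcases List.mem_cons.1 hb' with rfl | hb'
      · exact hD2.subset (hc1 z p hz hz' hcv)
      · exact hc2 b' hb' z p hz hz' hcv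
    · intro d
      by_cases hd : d ∈ Bs.flatMap (fun b' => Ul st w b')
      · rw [cnt_append, hz2 d hd, add_zero]
        exact hK1 d
      · exact cnt_chain hF' hwf hD2 hd (hK1 d) (hK2 d)
    · intro d hd
      rw [List.nil_append, List.mem_append] at hd
      rw [cnt_append]
      by_cases hd' : d ∈ Bs.flatMap (fun b' => Ul st w b')
      · rw [hz2 d hd', cnt_frame hD1 hwf (Or.inr hd')]
      · have hd1 : d ∈ Ul st w b1 := hd.resolve_right hd'
        have hdS : d.1 ∈ S1 := by
          refine hD1.subset (hwf.2 d ?_).1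
          rw [List.nil_append, List.mem_append]
          exact Or.inl hd1
        rw [hz1 d hd1, cnt_out hD2 hwf1 hdS hd']

/-- LEAF C2a (medium). The three blocks one after the other (`Dr.frame`, `Dr.trans`). `PW_disj`, `mv_not_PW` for the hypotheses. The darts of `Ul st w b'` are not crossed in the block `b'`, and in another
block by `cnt_out` (the lower end `mv w p` is processed, and it is not in the list: `Zl_nodup`). Other darts: `cnt_chain`. -/
theorem kids_succ (h : GI t) (h' : GI t') (st : Step t t') (A : Set H) (K r : ℕ) (hW : World h' st A K r) :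
    Kids h' st A K (r + 1) := by
  intro w b S h1 h2
  have hne : ∀ b' ∈ ([b + 1, b + 2, b + 3] : List (ZMod 4)), b' ≠ b := fun b' hb' =>
    (mem_fours b b').1 hb'
  have hnd : ∀ b : ZMod 4, ([b + 1, b + 2, b + 3] : List (ZMod 4)).Nodup := by decide
  obtain ⟨cs, S', hD, hS', hc, hK, hz⟩ := C2a_list h h' st A K r hW w [b + 1, b + 2, b + 3] S (hnd b)
    (fun b' hb' p hp => h1 p (by rw [hp]; exact hne b' hb'))
    (fun b' hb' => h2 b' (hne b' hb')) (Zl_wf h h' st w b S h1 h2)
  refine ⟨cs, S', hD, ?_, ?_, hK, hz⟩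
  · intro m hm
    rcases hS' m hm with h3 | ⟨b', hb', h3⟩
    · exact Or.inl h3
    · exact Or.inr ⟨b', hne b' hb', h3⟩
  · intro b' hb' z p hz hz' hcv
    exact hc b' ((mem_fours b b').2 hb') z p hz hz' hcv

end KPl
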