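import Pool.Agent.Lib.MP_d3a5e5_coK.C0b

set_option autoImplicit false

namespace KPl

variable {H H' : Type} [Group H] [Group H'] {t : ZMod 4 → H} {t' : ZMod 4 → H'}

/-- Positions. -/
private theorem C1b_pos (p : ZMod 16) : p ≠ p - 1 ∧ p ≠ p + 1 ∧ p + 1 ≠ p - 1 ∧ p + 2 ≠ p - 1 ∧ p + 2 ≠ p - 2 := by
  revert p
  decide

private theorem C1b_blk (p q : ZMod 16) (e : blk q = blk p) : q ≠ p - 1 ∧ q ≠ p + 1 ∧ q - 1 ≠ p + 1 ∧ q + 1 ≠ p - 1 ∧
    p - 1 ≠ q - 2 ∧ p - 1 ≠ q + 2 ∧ p + 1 ≠ q - 2 ∧ p + 1 ≠ q + 2 := by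
  revert p q
  decide

private theorem C1b_nb (p : ZMod 16) : blk (p - 1) ≠ blk p ∧ blk (p + 1) ≠ blk p := by
  revert p
  decide

/-- One position. -/
private theorem C1b_step (h : GI t) (h' : GI t') (st : Step t t') (w : F4 H) (p : ZMod 16) (S : Set H')
    (L : List (H' × ZMod 4)) (hw : WF (HG h') S L)
    (hp : st.mv w p ∉ S ∧ st.mv w (p - 1) ∉ S ∧ st.mv w (p + 1) ∉ S ∧ st.mv w (p - 2) ∈ S ∧ st.mv w (p + 2) ∈ S)
    (hU : ∀ q, blk q ≠ blk p → st.mv (w * T t q) (q + 1) ∉ S ∧ st.mv (w * T t q) (q - 1) ∉ S)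
    (hL : (st.mv w (p - 2), colr (st.par w) (p - 2)) ∈ L ∧ (st.mv w (p + 2), colr (st.par w) (p + 1)) ∈ L) :
    ∃ (cs : List ((H' × ZMod 4) × (H' × ZMod 4))) (L4 : List (H' × ZMod 4)),
      Dr (HG h') S L cs (insert (st.mv w (p + 1)) (insert (st.mv w (p - 1)) S)) (LP st w p ++ L4) ∧
      cs.length ≤ 2 * (L.length + 1) ^ 2 ∧
      (∀ c ∈ cs, (c.1 ∈ L ∨ c.1 ∈ UP st (w * T t (p - 1)) (p - 1)) ∧
        (c.2 ∈ L ∨ c.2 ∈ UP st (w * T t (p - 1)) (p - 1))) ∧
      L4.length = L.length + 2 ∧
      (∀ d, d ∈ L4 ↔ (d ∈ L ∧ d ≠ (st.mv w (p - 2), colr (st.par w) (p - 2)) ∧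
        d ≠ (st.mv w (p + 2), colr (st.par w) (p + 1))) ∨
        d ∈ UP st (w * T t (p - 1)) (p - 1) ∨ d ∈ UP st (w * T t (p + 1)) (p + 1)) ∧
      WF (HG h') (insert (st.mv w (p + 1)) (insert (st.mv w (p - 1)) S)) L4 := by
  obtain ⟨hp0, hpm, hpp, hpm2, hpp2⟩ := hp
  obtain ⟨hL1, hL2⟩ := hL
  obtain ⟨q1, q2, q3, q4, q5⟩ := C1b_pos p
  obtain ⟨b1, b2⟩ := C1b_nb p
  have a1 : p - 1 - 1 = p - 2 := by ring
  have a2 : p - 1 + 1 = p := by ring
  have a3 : p + 1 - 1 = p := by ring
  have a4 : p + 1 + 1 = p + 2 := by ring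
  -- the first vertex
  obtain ⟨n1, n2, n3, n4⟩ := mv_nb h' st w (p - 1)
  rw [a1] at n1 n3
  rw [a2] at n2 n4
  obtain ⟨c1, c2⟩ := colr_four (st.par w) (p - 1)
  rw [a1] at c1 c2
  have u1 := hU (p - 1) b1
  rw [a1, a2] at u1
  obtain ⟨cs1, L1, d1, l1, m1, r1⟩ := proc_dr (Γ := HG h') S L hw (st.mv w (p - 1)) [colr (st.par w) (p - 2)]
    [colr (st.par w) (p - 1), colr (!st.par w) (p - 2), colr (!st.par w) (p - 1)] hpm c1 c2
    (by
      intro k hk
      rw [List.mem_singleton] at hk
      rw [hk, n1]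
      exact hpm2)
    (by
      intro k hk
      simp only [List.mem_cons, List.not_mem_nil, or_false] at hk
      rcases hk with rfl | rfl | rfl
      · rw [n2]
        exact hp0
      · rw [n3]
        exact u1.2
      · rw [n4]
        exact u1.1)
    (by
      intro k hk
      rw [List.mem_singleton] at hk
      rw [hk, n1]
      exact hL1)
  have e1 : ([colr (st.par w) (p - 1), colr (!st.par w) (p - 2), colr (!st.par w) (p - 1)] : List (ZMod 4)).map
      (fun k => (st.mv w (p - 1), k)) ++ L1 =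
      [(st.mv w (p - 1), colr (st.par w) (p - 1))] ++ (UP st (w * T t (p - 1)) (p - 1) ++ L1) ++ [] := by
    unfold UP
    rw [st.mv_T, st.par_T, a1]
    simp
  rw [e1] at d1
  rw [List.map_cons, List.map_nil, n1, List.singleton_append] at r1
  have w1 := (d1.wf hw).part
  -- the second vertex
  obtain ⟨n5, n6, n7, n8⟩ := mv_nb h' st w (p + 1)
  rw [a3] at n5 n7
  rw [a4] at n6 n8
  obtain ⟨c3, c4⟩ := colr_four (st.par w) (p + 1)
  rw [a3] at c3 c4
  have hperm : ([colr (st.par w) p, colr (st.par w) (p + 1), colr (!st.par w) p, colr (!st.par w) (p + 1)] :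
      List (ZMod 4)).Perm [colr (st.par w) (p + 1), colr (st.par w) p, colr (!st.par w) p, colr (!st.par w) (p + 1)] :=
    List.Perm.swap _ _ _
  have u2 := hU (p + 1) b2
  rw [a3, a4] at u2
  have hmem2 : (st.mv w (p + 2), colr (st.par w) (p + 1)) ∈ L1 := by
    have h1 := r1.mem_iff.1 hL2
    rcases List.mem_cons.1 h1 with h2 | h2
    · exact absurd (congrArg Prod.fst h2) (mv_ne h st q5)
    · exact h2
  obtain ⟨cs2, L3, d2, l2, m2, r2⟩ := proc_dr (Γ := HG h') (insert (st.mv w (p - 1)) S)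
    (UP st (w * T t (p - 1)) (p - 1) ++ L1) w1 (st.mv w (p + 1)) [colr (st.par w) (p + 1)]
    [colr (st.par w) p, colr (!st.par w) p, colr (!st.par w) (p + 1)]
    (by
      rintro (h1 | h1)
      · exact mv_ne h st q3 h1
      · exact hpp h1)
    (hperm.nodup_iff.1 c3) (fun k => hperm.mem_iff.1 (c4 k))
    (by
      intro k hk
      rw [List.mem_singleton] at hk
      rw [hk, n6]
      exact Set.mem_insert_of_mem _ hpp2)
    (by
      intro k hk
      simp only [List.mem_cons, List.not_mem_nil, or_false] at hk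
      rcases hk with rfl | rfl | rfl
      · rw [n5]
        rintro (h1 | h1)
        · exact mv_ne h st q1 h1
        · exact hp0 h1
      · rw [n7]
        rintro (h1 | h1)
        · exact mv_ne h st q1 h1
        · exact u2.2 h1
      · rw [n8]
        rintro (h1 | h1)
        · exact mv_ne h st q4 h1
        · exact u2.1 h1)
    (by
      intro k hk
      rw [List.mem_singleton] at hk
      rw [hk, n6]
      exact List.mem_append_right _ hmem2)
  have e2 : ([colr (st.par w) p, colr (!st.par w) p, colr (!st.par w) (p + 1)] : List (ZMod 4)).map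
      (fun k => (st.mv w (p + 1), k)) ++ L3 =
      (st.mv w (p + 1), colr (st.par w) p) :: (UP st (w * T t (p + 1)) (p + 1) ++ L3) := by
    unfold UP
    rw [st.mv_T, st.par_T, a3]
    simp
  rw [e2] at d2
  rw [List.map_cons, List.map_nil, n6, List.singleton_append] at r2
  have d3 := d1.trans (d2.frame [(st.mv w (p - 1), colr (st.par w) (p - 1))] [])
  have e3 : [(st.mv w (p - 1), colr (st.par w) (p - 1))] ++
      ((st.mv w (p + 1), colr (st.par w) p) :: (UP st (w * T t (p + 1)) (p + 1) ++ L3)) ++ [] =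
      LP st w p ++ (UP st (w * T t (p + 1)) (p + 1) ++ L3) := by
    unfold LP
    simp
  rw [e3] at d3
  have w3 : WF (HG h') (insert (st.mv w (p + 1)) (insert (st.mv w (p - 1)) S))
      (UP st (w * T t (p + 1)) (p + 1) ++ L3) := by
    have h1 := d3.wf hw
    rw [← List.append_nil (LP st w p ++ (UP st (w * T t (p + 1)) (p + 1) ++ L3))] at h1
    exact h1.part
  have hl1 : L.length = L1.length + 1 := by
    have h1 := r1.length_eq
    rw [List.length_cons] at h1
    exact h1
  have hl2 : L1.length + 2 = L3.length + 1 := by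
    have h1 := r2.length_eq
    rw [List.length_cons, List.length_append] at h1
    have h2 : (UP st (w * T t (p - 1)) (p - 1)).length = 2 := rfl
    omega
  have hm1 : ∀ d, d ∈ L1 ↔ d ∈ L ∧ d ≠ (st.mv w (p - 2), colr (st.par w) (p - 2)) := by
    intro d
    have h1 := r1.nodup_iff.1 hw.1
    rw [List.nodup_cons] at h1
    constructor
    · intro h2
      refine ⟨r1.mem_iff.2 (List.mem_cons_of_mem _ h2), fun h3 => h1.1 ?_⟩
      rw [← h3]
      exact h2
    · rintro ⟨h2, h3⟩
      rcases List.mem_cons.1 (r1.mem_iff.1 h2) with h4 | h4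
      · exact absurd h4 h3
      · exact h4
  have hm3 : ∀ d, d ∈ L3 ↔ (d ∈ UP st (w * T t (p - 1)) (p - 1) ∨ d ∈ L1) ∧
      d ≠ (st.mv w (p + 2), colr (st.par w) (p + 1)) := by
    intro d
    have h1 := r2.nodup_iff.1 w1.1
    rw [List.nodup_cons] at h1
    constructor
    · intro h2
      refine ⟨List.mem_append.1 (r2.mem_iff.2 (List.mem_cons_of_mem _ h2)), fun h3 => h1.1 ?_⟩
      rw [← h3]
      exact h2
    · rintro ⟨h2, h3⟩
      rcases List.mem_cons.1 (r2.mem_iff.1 (List.mem_append.2 h2)) with h4 | h4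
      · exact absurd h4 h3
      · exact h4
  have hup : ∀ d ∈ UP st (w * T t (p - 1)) (p - 1), d.1 = st.mv w (p - 1) := by
    intro d hd
    unfold UP at hd
    rw [st.mv_T] at hd
    simp only [List.mem_cons, List.not_mem_nil, or_false] at hd
    rcases hd with rfl | rfl <;> rfl
  refine ⟨cs1 ++ cs2, UP st (w * T t (p + 1)) (p + 1) ++ L3, d3, ?_, ?_, ?_, ?_, w3⟩
  · rw [List.length_append]
    rw [List.length_append] at l2
    have h2 : (UP st (w * T t (p - 1)) (p - 1)).length = 2 := rfl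
    rw [h2] at l2
    have h3 : 2 + L1.length = L.length + 1 := by omega
    rw [h3] at l2
    have h4 : L.length ^ 2 ≤ (L.length + 1) ^ 2 := Nat.pow_le_pow_left (by omega) 2
    omega
  · intro c hc
    rcases List.mem_append.1 hc with hc | hc
    · exact ⟨Or.inl (m1 c hc).1, Or.inl (m1 c hc).2⟩
    · have hsub : ∀ d ∈ UP st (w * T t (p - 1)) (p - 1) ++ L1, d ∈ L ∨ d ∈ UP st (w * T t (p - 1)) (p - 1) := by
        intro d hd
        rcases List.mem_append.1 hd with hd | hd
        · exact Or.inr hd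
        · exact Or.inl ((hm1 d).1 hd).1
      exact ⟨hsub _ (m2 c hc).1, hsub _ (m2 c hc).2⟩
  · rw [List.length_append]
    have h2 : (UP st (w * T t (p + 1)) (p + 1)).length = 2 := rfl
    omega
  · intro d
    rw [List.mem_append, hm3, hm1]
    constructor
    · rintro (h1 | ⟨h1 | ⟨h1, h2⟩, h3⟩)
      · exact Or.inr (Or.inr h1)
      · exact Or.inr (Or.inl h1)
      · exact Or.inl ⟨h1, h2, h3⟩
    · rintro (⟨h1, h2, h3⟩ | h1 | h1)
      · exact Or.inr ⟨Or.inr ⟨h1, h2⟩, h3⟩
      · refine Or.inr ⟨Or.inl h1, fun h2 => ?_⟩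
        have h3 := hup d h1
        rw [h2] at h3
        exact mv_ne h st q4 h3
      · exact Or.inl h1

/-- LEAF C1b. Phase 3 of the gadget: the strands of `Y` are started one after the other at the left end. Induction on `Y`. For `p ∈ Y` (the first one): `proc_dr` for `y = mv w (p - 1)` with `Kx = [colr (par w) (p - 2)]` (the dart
`(mv w (p - 2), colr (par w) (p - 2))` is in `L` by `hL`; `mv_nb` with `p - 1`) and `Ky = [colr (par w) (p - 1), colr (!par w) (p - 2), colr (!par w) (p - 1)]`: the first dart `(mv w (p - 1), colr (par w) (p - 1))` is the first strand of `LP st w p` and stays at the left end;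
the other two are `UP st (w * T t (p - 1)) (p - 1)`. Then (frame: the first strand on the left) `proc_dr` for `y = mv w (p + 1)` with `Kx = [colr (par w) (p + 1)]`, `Ky = [colr (par w) p, colr (!par w) p, colr (!par w) (p + 1)]`; the first dart is the second strand. Then the induction
hypothesis for the rest of `Y`, with the two strands as frame on the left. `Dr.wf` gives the well formed states. `hL` for the rest: the darts `(mv w (q ∓ 2), ·)`, `q ∈ Y` later, end at `mv w (q ∓ 1)`, not at `mv w (p ± 1)`, so they are still in the list (`Perm`). Lengths: the list has at most `L.length + 4 * Y.length` elements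
besides the strands. The logs contain only darts of the lists at the time without the strands. -/
theorem gadget_Y (h : GI t) (h' : GI t') (st : Step t t') (w : F4 H) (b : ZMod 4) (Y : List (ZMod 16)) (S : Set H')
    (L : List (H' × ZMod 4)) (hw : WF (HG h') S L) (hYn : Y.Nodup) (hb : ∀ p ∈ Y, blk p = b)
    (hY : ∀ p ∈ Y, st.mv w p ∉ S ∧ st.mv w (p - 1) ∉ S ∧ st.mv w (p + 1) ∉ S ∧ st.mv w (p - 2) ∈ S ∧ st.mv w (p + 2) ∈ S)
    (hU : ∀ p, blk p ≠ b → st.mv (w * T t p) (p + 1) ∉ S ∧ st.mv (w * T t p) (p - 1) ∉ S)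
    (hL : ∀ p ∈ Y, (st.mv w (p - 2), colr (st.par w) (p - 2)) ∈ L ∧ (st.mv w (p + 2), colr (st.par w) (p + 1)) ∈ L) :
    ∃ (cs : List ((H' × ZMod 4) × (H' × ZMod 4))) (L' : List (H' × ZMod 4)),
      Dr (HG h') S L cs (S ∪ {m | ∃ p ∈ Y, m = st.mv w (p - 1) ∨ m = st.mv w (p + 1)}) (Y.flatMap (LP st w) ++ L') ∧
      cs.length ≤ 2 * Y.length * (L.length + 4 * Y.length) ^ 2 ∧
      (∀ c ∈ cs, (c.1 ∈ L ∨ ∃ p ∈ Y, c.1 ∈ UP st (w * T t (p - 1)) (p - 1) ∨ c.1 ∈ UP st (w * T t (p + 1)) (p + 1)) ∧
        (c.2 ∈ L ∨ ∃ p ∈ Y, c.2 ∈ UP st (w * T t (p - 1)) (p - 1) ∨ c.2 ∈ UP st (w * T t (p + 1)) (p + 1))) ∧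
      L'.length ≤ L.length + 4 * Y.length ∧
      (∀ d, d ∈ L' ↔ (d ∈ L ∧ ∀ p ∈ Y, d ≠ (st.mv w (p - 2), colr (st.par w) (p - 2)) ∧
        d ≠ (st.mv w (p + 2), colr (st.par w) (p + 1))) ∨
        ∃ p ∈ Y, d ∈ UP st (w * T t (p - 1)) (p - 1) ∨ d ∈ UP st (w * T t (p + 1)) (p + 1)) := by
  induction Y generalizing S L with
  | nil =>
    refine ⟨[], L, ?_, ?_, ?_, ?_, ?_⟩
    · have e : S ∪ {m | ∃ p ∈ ([] : List (ZMod 16)), m = st.mv w (p - 1) ∨ m = st.mv w (p + 1)} = S := by
        ext m
        simp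
      rw [e]
      exact Dr.refl S L
    · simp
    · intro c hc
      exact absurd hc List.not_mem_nil
    · simp
    · intro d
      simp
  | cons p Y ih =>
    have hbp : blk p = b := hb p List.mem_cons_self
    rw [List.nodup_cons] at hYn
    obtain ⟨cs1, L4, D1, l1, m1, n1, k1, w1⟩ := C1b_step h h' st w p S L hw (hY p List.mem_cons_self)
      (fun q hq => hU q (by rw [← hbp]; exact hq)) (hL p List.mem_cons_self)
    have hqb : ∀ q ∈ Y, blk q = blk p := fun q hq => (hb q (List.mem_cons_of_mem _ hq)).trans hbp.symm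
    have hqp : ∀ q ∈ Y, q ≠ p := fun q hq e => hYn.1 (by rw [← e]; exact hq)
    have hUne : ∀ q p', st.mv (w * T t q) (q + 1) ≠ st.mv w p' ∧ st.mv (w * T t q) (q - 1) ≠ st.mv w p' := by
      intro q p'
      obtain ⟨x1, x2⟩ := nb_PW h st w q
      exact ⟨fun e => mv_not_PW h st w (blk q) p' (by rw [← e]; exact x1),
        fun e => mv_not_PW h st w (blk q) p' (by rw [← e]; exact x2)⟩
    have hup : ∀ q, ∀ d ∈ UP st (w * T t q) q, d.1 = st.mv w q := by
      intro q d hd
      unfold UP at hd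
      rw [st.mv_T] at hd
      simp only [List.mem_cons, List.not_mem_nil, or_false] at hd
      rcases hd with rfl | rfl <;> rfl
    obtain ⟨cs2, L', D2, l2, m2, n2, k2⟩ := ih
      (insert (st.mv w (p + 1)) (insert (st.mv w (p - 1)) S)) L4 w1 hYn.2
      (fun q hq => hb q (List.mem_cons_of_mem _ hq))
      (by
        intro q hq
        obtain ⟨y1, y2, y3, y4, y5⟩ := hY q (List.mem_cons_of_mem _ hq)
        obtain ⟨z1, z2, z3, z4, -⟩ := C1b_blk p q (hqb q hq)
        have hne := hqp q hq
        refine ⟨?_, ?_, ?_, ?_, ?_⟩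
        · rintro (e | e | e)
          · exact mv_ne h st z2 e
          · exact mv_ne h st z1 e
          · exact y1 e
        · rintro (e | e | e)
          · exact mv_ne h st z3 e
          · exact mv_ne h st (fun e' => hne (sub_left_inj.1 e')) e
          · exact y2 e
        · rintro (e | e | e)
          · exact mv_ne h st (fun e' => hne (add_right_cancel e')) e
          · exact mv_ne h st z4 e
          · exact y3 e
        · exact Set.mem_insert_of_mem _ (Set.mem_insert_of_mem _ y4)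
        · exact Set.mem_insert_of_mem _ (Set.mem_insert_of_mem _ y5))
      (by
        intro q hq
        obtain ⟨x1, x2⟩ := hU q hq
        refine ⟨?_, ?_⟩
        · rintro (e | e | e)
          · exact (hUne q _).1 e
          · exact (hUne q _).1 e
          · exact x1 e
        · rintro (e | e | e)
          · exact (hUne q _).2 e
          · exact (hUne q _).2 e
          · exact x2 e)
      (by
        intro q hq
        obtain ⟨x1, x2⟩ := hL q (List.mem_cons_of_mem _ hq)
        obtain ⟨z1, z2, z3, z4, -⟩ := C1b_blk p q (hqb q hq)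
        have hne := hqp q hq
        -- the ends of the darts
        have f1 : ∀ q', (HG h').nb (st.mv w (q' - 2)) (colr (st.par w) (q' - 2)) = st.mv w (q' - 1) := by
          intro q'
          have f2 := (mv_nb h' st w (q' - 2)).2.1
          rw [show q' - 2 + 1 = q' - 1 by ring] at f2
          exact f2
        have f3 : ∀ q', (HG h').nb (st.mv w (q' + 2)) (colr (st.par w) (q' + 1)) = st.mv w (q' + 1) := by
          intro q'
          have f2 := (mv_nb h' st w (q' + 2)).1
          rw [show q' + 2 - 1 = q' + 1 by ring] at f2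
          exact f2
        have g : ∀ d d' : H' × ZMod 4, d = d' → (HG h').nb d.1 d.2 = (HG h').nb d'.1 d'.2 := by
          intro d d' e
          rw [e]
        refine ⟨(k1 _).2 (Or.inl ⟨x1, fun e => ?_, fun e => ?_⟩), (k1 _).2 (Or.inl ⟨x2, fun e => ?_, fun e => ?_⟩)⟩
        · have e' := g _ _ e
          rw [f1, f1] at e'
          exact mv_ne h st (fun e' => hne (sub_left_inj.1 e')) e'
        · have e' := g _ _ e
          rw [f1, f3] at e'
          exact mv_ne h st z3 e'
        · have e' := g _ _ e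
          rw [f1, f3] at e'
          exact mv_ne h st z4 e'
        · have e' := g _ _ e
          rw [f3, f3] at e'
          exact mv_ne h st (fun e' => hne (add_right_cancel e')) e')
    have D3 := D1.trans (by
      have := D2.frame (LP st w p) []
      rw [List.append_nil, List.append_nil] at this
      exact this)
    have eS : insert (st.mv w (p + 1)) (insert (st.mv w (p - 1)) S) ∪
        {m | ∃ q ∈ Y, m = st.mv w (q - 1) ∨ m = st.mv w (q + 1)} =
        S ∪ {m | ∃ q ∈ p :: Y, m = st.mv w (q - 1) ∨ m = st.mv w (q + 1)} := by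
      ext m
      simp only [Set.mem_union, Set.mem_insert_iff, Set.mem_ofPred_eq, List.mem_cons]
      constructor
      · rintro ((e | e | e) | ⟨q, hq, e⟩)
        · exact Or.inr ⟨p, Or.inl rfl, Or.inr e⟩
        · exact Or.inr ⟨p, Or.inl rfl, Or.inl e⟩
        · exact Or.inl e
        · exact Or.inr ⟨q, Or.inr hq, e⟩
      · rintro (e | ⟨q, rfl | hq, e⟩)
        · exact Or.inl (Or.inr (Or.inr e))
        · rcases e with e | e
          · exact Or.inl (Or.inr (Or.inl e))
          · exact Or.inl (Or.inl e)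
        · exact Or.inr ⟨q, hq, e⟩
    rw [eS] at D3
    have eL : LP st w p ++ (Y.flatMap (LP st w) ++ L') = (p :: Y).flatMap (LP st w) ++ L' := by
      rw [List.flatMap_cons, List.append_assoc]
    rw [eL] at D3
    -- members of `L4`
    have hL4 : ∀ d ∈ L4, d ∈ L ∨ ∃ q ∈ p :: Y, d ∈ UP st (w * T t (q - 1)) (q - 1) ∨
        d ∈ UP st (w * T t (q + 1)) (q + 1) := by
      intro d hd
      rcases (k1 d).1 hd with e | e
      · exact Or.inl e.1
      · exact Or.inr ⟨p, List.mem_cons_self, e⟩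
    refine ⟨cs1 ++ cs2, L', D3, ?_, ?_, ?_, ?_⟩
    · rw [List.length_append, List.length_cons]
      rw [n1] at l2
      have g1 : (L.length + 1) ^ 2 ≤ (L.length + 4 * (Y.length + 1)) ^ 2 := Nat.pow_le_pow_left (by omega) 2
      have g2 : (L.length + 2 + 4 * Y.length) ^ 2 ≤ (L.length + 4 * (Y.length + 1)) ^ 2 :=
        Nat.pow_le_pow_left (by omega) 2
      have g3 : 2 * Y.length * (L.length + 2 + 4 * Y.length) ^ 2 ≤
          2 * Y.length * (L.length + 4 * (Y.length + 1)) ^ 2 := Nat.mul_le_mul_left _ g2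
      calc cs1.length + cs2.length ≤ 2 * (L.length + 4 * (Y.length + 1)) ^ 2 +
            2 * Y.length * (L.length + 4 * (Y.length + 1)) ^ 2 := by
            have := l2.trans g3
            omega
        _ = 2 * (Y.length + 1) * (L.length + 4 * (Y.length + 1)) ^ 2 := by ring
    · intro c hc
      have s1 : ∀ d, (d ∈ L ∨ d ∈ UP st (w * T t (p - 1)) (p - 1)) →
          (d ∈ L ∨ ∃ q ∈ p :: Y, d ∈ UP st (w * T t (q - 1)) (q - 1) ∨ d ∈ UP st (w * T t (q + 1)) (q + 1)) := by
        rintro d (e | e)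
        · exact Or.inl e
        · exact Or.inr ⟨p, List.mem_cons_self, Or.inl e⟩
      have s2 : ∀ d, (d ∈ L4 ∨ ∃ q ∈ Y, d ∈ UP st (w * T t (q - 1)) (q - 1) ∨
          d ∈ UP st (w * T t (q + 1)) (q + 1)) →
          (d ∈ L ∨ ∃ q ∈ p :: Y, d ∈ UP st (w * T t (q - 1)) (q - 1) ∨ d ∈ UP st (w * T t (q + 1)) (q + 1)) := by
        rintro d (e | ⟨q, hq, e⟩)
        · exact hL4 d e
        · exact Or.inr ⟨q, List.mem_cons_of_mem _ hq, e⟩
      rcases List.mem_append.1 hc with hc | hc
      · exact ⟨s1 _ (m1 c hc).1, s1 _ (m1 c hc).2⟩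
      · exact ⟨s2 _ (m2 c hc).1, s2 _ (m2 c hc).2⟩
    · rw [List.length_cons]
      omega
    · intro d
      rw [k2]
      constructor
      · rintro (⟨e1, e2⟩ | ⟨q, hq, e⟩)
        · rcases (k1 d).1 e1 with ⟨e3, e4, e5⟩ | e3
          · refine Or.inl ⟨e3, fun q hq => ?_⟩
            rcases List.mem_cons.1 hq with rfl | hq
            · exact ⟨e4, e5⟩
            · exact e2 q hq
          · exact Or.inr ⟨p, List.mem_cons_self, e3⟩
        · exact Or.inr ⟨q, List.mem_cons_of_mem _ hq, e⟩
      · rintro (⟨e1, e2⟩ | ⟨q, hq, e⟩)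
        · refine Or.inl ⟨(k1 d).2 (Or.inl ⟨e1, e2 p List.mem_cons_self⟩), fun q hq => ?_⟩
          exact e2 q (List.mem_cons_of_mem _ hq)
        · rcases List.mem_cons.1 hq with rfl | hq
          · refine Or.inl ⟨(k1 d).2 (Or.inr e), fun q' hq' => ?_⟩
            obtain ⟨-, -, -, -, z5, z6, z7, z8⟩ := C1b_blk q q' (hqb q' hq')
            rcases e with e | e
            · have e3 := hup (q - 1) d e
              refine ⟨fun e4 => ?_, fun e4 => ?_⟩
              · rw [e4] at e3
                exact mv_ne h st z5 e3.symm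
              · rw [e4] at e3
                exact mv_ne h st z6 e3.symm
            · have e3 := hup (q + 1) d e
              refine ⟨fun e4 => ?_, fun e4 => ?_⟩
              · rw [e4] at e3
                exact mv_ne h st z7 e3.symm
              · rw [e4] at e3
                exact mv_ne h st z8 e3.symm
          · exact Or.inr ⟨q, hq, e⟩

end KPl
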