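import Pool.Agent.Lib.MP_d3a5e5_coK.C1a
import Pool.Agent.Lib.MP_d3a5e5_coK.C1b

set_option autoImplicit false

namespace KPl

variable {H H' : Type} [Group H] [Group H'] {t : ZMod 4 → H} {t' : ZMod 4 → H'}

private theorem C1c_z1 : ∀ b : ZMod 4, b + 1 ≠ b := by decide
private theorem C1c_z2 : ∀ b : ZMod 4, b - 1 ≠ b := by decide
private theorem C1c_z3 : ∀ b : ZMod 4, b + 2 ≠ b := by decide
private theorem C1c_z4 : ∀ b x : ZMod 4, x ≠ b → x - 1 = b ∨ x + 1 = b ∨ x = b + 2 := by decide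
private theorem C1c_z5 : ∀ k : ZMod 4, k ∈ ([0, 1, 2, 3] : List (ZMod 4)) := by decide
private theorem C1c_z6 : ([0, 1, 2, 3] : List (ZMod 4)).Nodup := by decide
private theorem C1c_z7 : ∀ b : ZMod 4, b + 2 - 1 ≠ b ∧ b + 2 + 1 ≠ b ∧ b + 2 - 2 = b ∧ b + 2 + 2 = b ∧ b - 2 = b + 2 ∧
    b - 1 ≠ b + 1 ∧ b - 1 ≠ b + 2 ∧ b + 1 ≠ b + 2 := by decide

private theorem C1c_b2 (p : ZMod 16) : blk (p + 2) = blk p + 2 := by
  have e : p + 2 = p + 1 + 1 := by ring
  rw [e, blk_succ, blk_succ]
  ring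

private theorem C1c_b3 (p : ZMod 16) : blk (p - 2) = blk p - 2 := by
  have e : p - 2 = p - 1 - 1 := by ring
  rw [e, blk_pred, blk_pred]
  ring

private theorem C1c_up (st : Step t t') (w : F4 H) (q : ZMod 16) (d : H' × ZMod 4) :
    d ∈ UP st (w * T t q) q ↔ d = (st.mv w q, colr (!st.par w) (q - 1)) ∨ d = (st.mv w q, colr (!st.par w) q) := by
  unfold UP
  rw [st.mv_T, st.par_T]
  simp

private theorem C1c_up0 (st : Step t t') (w : F4 H) (q : ZMod 16) (d : H' × ZMod 4) :
    d ∈ UP st w q ↔ d = (st.mv w q, colr (st.par w) (q - 1)) ∨ d = (st.mv w q, colr (st.par w) q) := by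
  unfold UP
  simp

private theorem C1c_lp (st : Step t t') (w : F4 H) (p : ZMod 16) (d : H' × ZMod 4) :
    d ∈ LP st w p ↔ d = (st.mv w (p - 1), colr (st.par w) (p - 1)) ∨ d = (st.mv w (p + 1), colr (st.par w) p) := by
  unfold LP
  simp

private theorem C1c_e1 (st : Step t t') (w : F4 H) (p : ZMod 16) (d : H' × ZMod 4) :
    d ∈ E1 st w p ↔ d = (st.mv w (p - 1), colr (st.par w) (p - 2)) ∨ d ∈ UP st (w * T t (p - 1)) (p - 1) ∨
      d = (st.mv w (p + 1), colr (st.par w) (p + 1)) ∨ d ∈ UP st (w * T t (p + 1)) (p + 1) := by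
  unfold E1
  simp only [List.mem_append, List.mem_cons, or_assoc]

private theorem C1c_four (c : Bool) (m : ZMod 16) (k : ZMod 4) :
    k = colr c (m - 1) ∨ k = colr c m ∨ k = colr (!c) (m - 1) ∨ k = colr (!c) m := by
  have h := (colr_four c m).2 k
  simpa using h

/-- the upper ends of the child darts belong to the child blocks -/
private theorem C1c_pw (h : GI t) (h' : GI t') (st : Step t t') (w : F4 H) (q : ZMod 16) {d : H' × ZMod 4}
    (hd : d ∈ UP st (w * T t q) q) : (HG h').nb d.1 d.2 ∈ PW st w (blk q) ∧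
      ((HG h').nb d.1 d.2 = st.mv (w * T t q) (q - 1) ∨ (HG h').nb d.1 d.2 = st.mv (w * T t q) (q + 1)) := by
  have hn := mv_nb h' st w q
  have hp := nb_PW h st w q
  rcases (C1c_up st w q d).1 hd with rfl | rfl
  · dsimp only
    rw [hn.2.2.1]
    exact ⟨hp.2, Or.inl rfl⟩
  · dsimp only
    rw [hn.2.2.2]
    exact ⟨hp.1, Or.inr rfl⟩

private theorem C1c_pos (h : GI t) (st : Step t t') {v v' : F4 H} {p p' : ZMod 16} (e : st.mv v p = st.mv v' p') : p = p' := by
  by_contra hp
  exact mv_ne h st hp e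

/-- darts which do not touch the parent positions -/
private def C1c_Fi (h' : GI t') (st : Step t t') (w : F4 H) (b : ZMod 4) (d : H' × ZMod 4) : Prop :=
  (∃ q, blk q ≠ b ∧ d.1 = st.mv w q) ∧ ∀ p, blk p = b → (HG h').nb d.1 d.2 ≠ st.mv w p

private theorem C1c_fi_up (h : GI t) (h' : GI t') (st : Step t t') (w : F4 H) (b : ZMod 4) (q : ZMod 16) (hq : blk q ≠ b)
    {d : H' × ZMod 4} (hd : d ∈ UP st (w * T t q) q) : C1c_Fi h' st w b d := by
  refine ⟨⟨q, hq, ?_⟩, fun p _ e => ?_⟩
  · rcases (C1c_up st w q d).1 hd with rfl | rfl <;> rfl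
  · have h1 := (C1c_pw h h' st w q hd).1
    rw [e] at h1
    exact mv_not_PW h st w _ p h1

private theorem C1c_fi_mid (h : GI t) (h' : GI t') (st : Step t t') (w : F4 H) (b : ZMod 4) (m : ZMod 16) (hm : blk m = b + 2)
    {d : H' × ZMod 4} (hd : d.1 = st.mv w m) : C1c_Fi h' st w b d := by
  have hmb : blk m ≠ b := by rw [hm]; exact C1c_z3 b
  have hn := mv_nb h' st w m
  obtain ⟨d1, k⟩ := d
  dsimp only at hd
  subst hd
  rcases C1c_four (st.par w) m k with hk | hk | hk | hk
  · subst hk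
    refine ⟨⟨m, hmb, rfl⟩, fun p hp e => ?_⟩
    dsimp only at e
    rw [hn.1] at e
    have h1 := C1c_pos h st e
    rw [← h1, blk_pred, hm] at hp
    exact (C1c_z7 b).1 hp
  · subst hk
    refine ⟨⟨m, hmb, rfl⟩, fun p hp e => ?_⟩
    dsimp only at e
    rw [hn.2.1] at e
    have h1 := C1c_pos h st e
    rw [← h1, blk_succ, hm] at hp
    exact (C1c_z7 b).2.1 hp
  · exact C1c_fi_up h h' st w b m hmb ((C1c_up st w m _).2 (Or.inl (by rw [hk])))
  · exact C1c_fi_up h h' st w b m hmb ((C1c_up st w m _).2 (Or.inr (by rw [hk])))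

private theorem C1c_fi_e1 (h : GI t) (h' : GI t') (st : Step t t') (w : F4 H) (b : ZMod 4) (p : ZMod 16) (hp : blk p = b)
    {d : H' × ZMod 4} (hd : d ∈ E1 st w p) : C1c_Fi h' st w b d := by
  have hb1 : blk (p - 1) ≠ b := by rw [blk_pred, hp]; exact C1c_z2 b
  have hb2 : blk (p + 1) ≠ b := by rw [blk_succ, hp]; exact C1c_z1 b
  rcases (C1c_e1 st w p d).1 hd with rfl | hd | rfl | hd
  · refine ⟨⟨p - 1, hb1, rfl⟩, fun q hq e => ?_⟩
    dsimp only at e
    have hn := (mv_nb h' st w (p - 1)).1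
    have e2 : p - 1 - 1 = p - 2 := by ring
    rw [e2] at hn
    rw [hn] at e
    have h1 := C1c_pos h st e
    rw [← h1, C1c_b3, hp, (C1c_z7 b).2.2.2.2.1] at hq
    exact C1c_z3 b hq
  · exact C1c_fi_up h h' st w b _ hb1 hd
  · refine ⟨⟨p + 1, hb2, rfl⟩, fun q hq e => ?_⟩
    dsimp only at e
    have hn := (mv_nb h' st w (p + 1)).2.1
    have e2 : p + 1 + 1 = p + 2 := by ring
    rw [e2] at hn
    rw [hn] at e
    have h1 := C1c_pos h st e
    rw [← h1, C1c_b2, hp] at hq
    exact C1c_z3 b hq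
  · exact C1c_fi_up h h' st w b _ hb2 hd

/-- LEAF C1c. The gadget at `w` with parent block `b`: the strands of the parent positions `X` end here, those of the parent positions `Y` start here, all fresh vertices `mv w p`, `blk p ≠ b`, are processed, and the upper pairs of the twelve
child edges come out in the right order. The strands of `X` and `Y` are not crossed.
Phase 1: `gadget_X`, list `L1 = X.flatMap (E1 st w)` (length `6 * X.length ≤ 24`). Phase 2: `procs` with `P` = the four positions `b + 2`, i.e. the vertices `mv w m`, `blk m = b + 2`; `hfull`: a dart `(x, k)`, `x` processed, which ends at `mv w m`: `x = mv w (m ± 1)` or `mv (w * T t m) (m ± 1)` (`mv_nb` at `mv w m`, the four colours);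
the latter two are not processed (`hU`, `nb_PW`, `mv_not_PW`); `x = mv w (m - 1)`: its position has block `b + 1`, so it was processed in phase 1 (it is not in `S`), `m - 1 = p + 1` with `p = m - 2 ∈ X` and the dart `(mv w (p + 1), colr (par w) (p + 1))` is in `E1 st w p`. The same for `m + 1 = p - 1`. After phase 2 the list `L2` has the members given by `procs`:
the darts `UP st (w * T t q) q` of all processed fresh `q`, and the darts from middle vertices to unprocessed `mv w (m ± 1)`. Phase 3: `gadget_Y`. At the end the list is `Y.flatMap (LP st w) ++ L'` where `L'` has the same members as `Zl st w b` (`mem_Zl`) and no repetitions (`Dr.wf`), so `L'.Perm (Zl st w b)`: `perm_dr` with frame.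
All positions `q` with `blk q ≠ b`: block `b + 1`: `q = p + 1`, block `b + 3`: `q = p - 1`, with `blk p = b`, `p ∈ X` or `p ∈ Y`; block `b + 2`: middle. Crossed darts: members of `L1`, `L2`, `L'` and new darts with middle lower ends: never a dart with lower end `mv w p`, `p ∈ X` (so not in `X.flatMap (UP st w)`), and never a dart with lower end
`mv w (p ± 1)` and upper end `mv w p`. Length: `4 * (24 + 16)^2 + 8 * (40 + 16)^2 + 56^2 ≤ 100000`. -/
theorem gadget (h : GI t) (h' : GI t') (st : Step t t') (w : F4 H) (b : ZMod 4) (X Y : List (ZMod 16)) (S : Set H')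
    (hn : (X ++ Y).Nodup) (hm : ∀ p, p ∈ X ++ Y ↔ blk p = b) (hX : ∀ p ∈ X, st.mv w p ∈ S) (hY : ∀ p ∈ Y, st.mv w p ∉ S)
    (hF : ∀ p, blk p ≠ b → st.mv w p ∉ S)
    (hU : ∀ p, blk p ≠ b → st.mv (w * T t p) (p + 1) ∉ S ∧ st.mv (w * T t p) (p - 1) ∉ S) :
    ∃ cs : List ((H' × ZMod 4) × (H' × ZMod 4)),
      Dr (HG h') S (X.flatMap (UP st w)) cs (S ∪ FR st w b) (Y.flatMap (LP st w) ++ Zl st w b) ∧ cs.length ≤ 100000 ∧
      ∀ d, d ∈ X.flatMap (UP st w) ∨ d ∈ Y.flatMap (LP st w) → cnt cs d = 0 := by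
  classical
  have hXb : ∀ p ∈ X, blk p = b := fun p hp => (hm p).1 (List.mem_append_left _ hp)
  have hYb : ∀ p ∈ Y, blk p = b := fun p hp => (hm p).1 (List.mem_append_right _ hp)
  have hXn : X.Nodup := (List.nodup_append'.1 hn).1
  have hYn : Y.Nodup := (List.nodup_append'.1 hn).2.1
  have hXY : ∀ p, p ∈ X → p ∈ Y → False := fun p h1 h2 => (List.nodup_append'.1 hn).2.2 h1 h2
  have hXor : ∀ p, blk p = b → p ∈ X ∨ p ∈ Y := fun p hp => List.mem_append.1 ((hm p).2 hp)
  -- no position `mv w q` in the child blocks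
  have hPW : ∀ q p : ZMod 16, ∀ d : H' × ZMod 4, d ∈ UP st (w * T t q) q → (HG h').nb d.1 d.2 ≠ st.mv w p := by
    intro q p d hd e
    have h1 := (C1c_pw h h' st w q hd).1
    rw [e] at h1
    exact mv_not_PW h st w _ p h1
  have hUn : ∀ q, blk q ≠ b → ∀ d : H' × ZMod 4, d ∈ UP st (w * T t q) q → (HG h').nb d.1 d.2 ∉ S := by
    intro q hq d hd
    rcases (C1c_pw h h' st w q hd).2 with e | e
    · rw [e]; exact (hU q hq).2
    · rw [e]; exact (hU q hq).1
  -- length of X ++ Y
  have hlen : X.length + Y.length ≤ 4 := by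
    have h1 : (X ++ Y) ⊆ ([0, 1, 2, 3] : List (ZMod 4)).map (pst b) := by
      intro p hp
      rw [List.mem_map]
      refine ⟨lab p, C1c_z5 _, ?_⟩
      rw [← (hm p).1 hp]
      exact pst_blk_lab p
    have h2 := (List.subperm_of_subset hn h1).length_le
    simpa using h2
  -- phase 1
  have hw0 : WF (HG h') S (X.flatMap (UP st w)) := by
    constructor
    · rw [List.nodup_flatMap]
      refine ⟨fun p _ => ?_, ?_⟩
      · unfold UP
        have h4 := (colr_four (st.par w) p).1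
        simp only [List.nodup_cons, List.mem_cons, not_or] at h4
        simp only [List.nodup_cons, List.mem_singleton, List.not_mem_nil, not_false_eq_true, List.nodup_nil, and_true,
          Prod.mk.injEq, not_and]
        exact fun _ => h4.1.1
      · refine hXn.imp fun {p q} hpq => ?_
        intro d hd1 hd2
        have e1 : d.1 = st.mv w p := by rcases (C1c_up0 st w p d).1 hd1 with rfl | rfl <;> rfl
        have e2 : d.1 = st.mv w q := by rcases (C1c_up0 st w q d).1 hd2 with rfl | rfl <;> rfl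
        exact mv_ne h st hpq (e1.symm.trans e2)
    · intro d hd
      obtain ⟨p, hp, hd⟩ := List.mem_flatMap.1 hd
      have hn4 := mv_nb h' st w p
      rcases (C1c_up0 st w p d).1 hd with rfl | rfl
      · refine ⟨hX p hp, ?_⟩
        dsimp only
        rw [hn4.1]
        exact hF _ (by rw [blk_pred, hXb p hp]; exact C1c_z2 b)
      · refine ⟨hX p hp, ?_⟩
        dsimp only
        rw [hn4.2.1]
        exact hF _ (by rw [blk_succ, hXb p hp]; exact C1c_z1 b)
  have d1 := gadget_X h h' st w b X S hXn hXb hX hF hU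
  obtain ⟨S1, hS1⟩ : ∃ S1 : Set H', S1 = S ∪ {m | ∃ p ∈ X, m = st.mv w (p - 1) ∨ m = st.mv w (p + 1)} := ⟨_, rfl⟩
  obtain ⟨L1, hL1⟩ : ∃ L1 : List (H' × ZMod 4), L1 = X.flatMap (E1 st w) := ⟨_, rfl⟩
  rw [← hS1, ← hL1] at d1
  have hw1 := d1.wf hw0
  have memL1 : ∀ d, d ∈ L1 ↔ ∃ p ∈ X, d ∈ E1 st w p := by
    intro d; rw [hL1, List.mem_flatMap]
  have memS1 : ∀ y, y ∈ S1 ↔ y ∈ S ∨ ∃ p ∈ X, y = st.mv w (p - 1) ∨ y = st.mv w (p + 1) := by
    intro y; rw [hS1]; rfl
  have hL1len : L1.length ≤ 24 := by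
    have h1 : ∀ Z : List (ZMod 16), (Z.flatMap (E1 st w)).length = 6 * Z.length := by
      intro Z
      induction Z with
      | nil => rfl
      | cons a Z ih =>
        rw [List.flatMap_cons, List.length_append, ih, List.length_cons]
        have : (E1 st w a).length = 6 := rfl
        rw [this]
        ring
    rw [hL1, h1]
    omega
  -- child vertices are not in S1
  have hS1c : ∀ y : H', y ∉ S → (∀ p, y ≠ st.mv w p) → y ∉ S1 := by
    intro y h1 h2 h3
    rcases (memS1 y).1 h3 with h4 | ⟨p, -, h4 | h4⟩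
    · exact h1 h4
    · exact h2 _ h4
    · exact h2 _ h4
  -- the middle vertices
  obtain ⟨P, hP⟩ : ∃ P : List H', P = (([0, 1, 2, 3] : List (ZMod 4)).map (pst (b + 2))).map (st.mv w) := ⟨_, rfl⟩
  have memP : ∀ y, y ∈ P ↔ ∃ m, blk m = b + 2 ∧ y = st.mv w m := by
    intro y
    rw [hP, List.mem_map]
    constructor
    · rintro ⟨m, hm1, rfl⟩
      obtain ⟨k, -, rfl⟩ := List.mem_map.1 hm1
      exact ⟨_, blk_pst _ _, rfl⟩
    · rintro ⟨m, hm1, rfl⟩
      refine ⟨m, List.mem_map.2 ⟨lab m, C1c_z5 _, ?_⟩, rfl⟩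
      rw [← hm1]
      exact pst_blk_lab m
  have hPn : P.Nodup := by
    rw [hP]
    refine List.Nodup.map (fun p q e => C1c_pos h st e) (List.Nodup.map (fun k l e => ?_) C1c_z6)
    have := congrArg lab e
    rwa [lab_pst, lab_pst] at this
  have hPlen : P.length = 4 := by rw [hP]; rfl
  have hPS : ∀ y ∈ P, y ∉ S1 := by
    intro y hy hy1
    obtain ⟨m, hm1, rfl⟩ := (memP y).1 hy
    rcases (memS1 _).1 hy1 with h4 | ⟨p, hp, h4 | h4⟩
    · exact hF m (by rw [hm1]; exact C1c_z3 b) h4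
    · have h5 := C1c_pos h st h4
      rw [h5, blk_pred, hXb p hp] at hm1
      exact (C1c_z7 b).2.2.2.2.2.2.1 hm1
    · have h5 := C1c_pos h st h4
      rw [h5, blk_succ, hXb p hp] at hm1
      exact (C1c_z7 b).2.2.2.2.2.2.2 hm1
  have hPpos : ∀ q, blk q ≠ b + 2 → st.mv w q ∉ P := by
    intro q hq hq1
    obtain ⟨m, hm1, e⟩ := (memP _).1 hq1
    have h5 := C1c_pos h st e
    rw [h5] at hq
    exact hq hm1
  have hPc : ∀ y, (∀ p, y ≠ st.mv w p) → y ∉ P := by
    intro y h1 h2
    obtain ⟨m, -, e⟩ := (memP _).1 h2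
    exact h1 m e
  have hfull : ∀ x ∈ S1, ∀ k, (HG h').nb x k ∈ P → (x, k) ∈ L1 := by
    intro x hx k hk
    obtain ⟨m, hm1, e⟩ := (memP _).1 hk
    have hmb : blk m ≠ b := by rw [hm1]; exact C1c_z3 b
    have hx1 : x = (HG h').nb (st.mv w m) k := by rw [← e, (HG h').inv]
    have hn4 := mv_nb h' st w m
    rcases C1c_four (st.par w) m k with hk1 | hk1 | hk1 | hk1
    · rw [hk1, hn4.1] at hx1
      rcases (memS1 x).1 hx with h4 | ⟨p, hp, h4 | h4⟩
      · exfalso
        rw [hx1] at h4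
        exact hF (m - 1) (by rw [blk_pred, hm1]; exact (C1c_z7 b).1) h4
      · exfalso
        have h5 := C1c_pos h st (hx1.symm.trans h4)
        have h6 : m = p := by linear_combination h5
        rw [h6, hXb p hp] at hm1
        exact C1c_z3 b hm1.symm
      · have h5 := C1c_pos h st (hx1.symm.trans h4)
        refine (memL1 _).2 ⟨p, hp, (C1c_e1 st w p _).2 (Or.inr (Or.inr (Or.inl ?_)))⟩
        rw [h4, hk1, h5]
    · rw [hk1, hn4.2.1] at hx1
      rcases (memS1 x).1 hx with h4 | ⟨p, hp, h4 | h4⟩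
      · exfalso
        rw [hx1] at h4
        exact hF (m + 1) (by rw [blk_succ, hm1]; exact (C1c_z7 b).2.1) h4
      · have h5 := C1c_pos h st (hx1.symm.trans h4)
        have h6 : m = p - 2 := by linear_combination h5
        refine (memL1 _).2 ⟨p, hp, (C1c_e1 st w p _).2 (Or.inl ?_)⟩
        rw [h4, hk1, h6]
      · exfalso
        have h5 := C1c_pos h st (hx1.symm.trans h4)
        have h6 : m = p := by linear_combination h5
        rw [h6, hXb p hp] at hm1
        exact C1c_z3 b hm1.symm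
    · exfalso
      rw [hk1, hn4.2.2.1] at hx1
      refine hS1c x ?_ ?_ hx
      · rw [hx1]; exact (hU m hmb).2
      · intro p e1
        have h1 := (nb_PW h st w m).2
        rw [← hx1, e1] at h1
        exact mv_not_PW h st w _ p h1
    · exfalso
      rw [hk1, hn4.2.2.2] at hx1
      refine hS1c x ?_ ?_ hx
      · rw [hx1]; exact (hU m hmb).1
      · intro p e1
        have h1 := (nb_PW h st w m).1
        rw [← hx1, e1] at h1
        exact mv_not_PW h st w _ p h1
  obtain ⟨cs2, L2, d2, hc2, hcs2, hL2len, memL2⟩ := procs S1 L1 hw1 P hPn hPS hfull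
  have hw2 := d2.wf hw1
  obtain ⟨S2, hS2⟩ : ∃ S2 : Set H', S2 = S1 ∪ {y | y ∈ P} := ⟨_, rfl⟩
  rw [← hS2] at d2 hw2
  have memS2 : ∀ y, y ∈ S2 ↔ y ∈ S1 ∨ y ∈ P := by
    intro y; rw [hS2]; rfl
  rw [hPlen] at hc2 hL2len
  -- the side vertices of Y
  have hYm : ∀ p ∈ Y, st.mv w (p - 1) ∉ S1 ∧ st.mv w (p + 1) ∉ S1 := by
    intro p hp
    constructor
    · intro hy
      rcases (memS1 _).1 hy with h4 | ⟨q, hq, h4 | h4⟩
      · exact hF _ (by rw [blk_pred, hYb p hp]; exact C1c_z2 b) h4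
      · have h5 := C1c_pos h st h4
        have h6 : p = q := by linear_combination h5
        exact hXY q hq (h6 ▸ hp)
      · have h5 := congrArg blk (C1c_pos h st h4)
        rw [blk_pred, blk_succ, hYb p hp, hXb q hq] at h5
        exact (C1c_z7 b).2.2.2.2.2.1 h5
    · intro hy
      rcases (memS1 _).1 hy with h4 | ⟨q, hq, h4 | h4⟩
      · exact hF _ (by rw [blk_succ, hYb p hp]; exact C1c_z1 b) h4
      · have h5 := congrArg blk (C1c_pos h st h4)
        rw [blk_pred, blk_succ, hYb p hp, hXb q hq] at h5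
        exact (C1c_z7 b).2.2.2.2.2.1 h5.symm
      · have h5 := C1c_pos h st h4
        have h6 : p = q := by linear_combination h5
        exact hXY q hq (h6 ▸ hp)
  have hblkm : ∀ p, blk p = b → blk (p - 1) ≠ b + 2 ∧ blk (p + 1) ≠ b + 2 ∧ blk (p - 2) = b + 2 ∧ blk (p + 2) = b + 2 := by
    intro p hp
    refine ⟨?_, ?_, ?_, ?_⟩
    · rw [blk_pred, hp]; exact (C1c_z7 b).2.2.2.2.2.2.1
    · rw [blk_succ, hp]; exact (C1c_z7 b).2.2.2.2.2.2.2
    · rw [C1c_b3, hp]; exact (C1c_z7 b).2.2.2.2.1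
    · rw [C1c_b2, hp]
  have hY2 : ∀ p ∈ Y, st.mv w p ∉ S2 ∧ st.mv w (p - 1) ∉ S2 ∧ st.mv w (p + 1) ∉ S2 ∧ st.mv w (p - 2) ∈ S2 ∧
      st.mv w (p + 2) ∈ S2 := by
    intro p hp
    have hb4 := hblkm p (hYb p hp)
    refine ⟨?_, ?_, ?_, ?_, ?_⟩
    · intro hy
      rcases (memS2 _).1 hy with hy | hy
      · rcases (memS1 _).1 hy with h4 | ⟨q, hq, h4 | h4⟩
        · exact hY p hp h4
        · have h5 := congrArg blk (C1c_pos h st h4)
          rw [blk_pred, hYb p hp, hXb q hq] at h5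
          exact C1c_z2 b h5.symm
        · have h5 := congrArg blk (C1c_pos h st h4)
          rw [blk_succ, hYb p hp, hXb q hq] at h5
          exact C1c_z1 b h5.symm
      · exact hPpos p (by rw [hYb p hp]; exact (C1c_z3 b).symm) hy
    · intro hy
      rcases (memS2 _).1 hy with hy | hy
      · exact (hYm p hp).1 hy
      · exact hPpos _ hb4.1 hy
    · intro hy
      rcases (memS2 _).1 hy with hy | hy
      · exact (hYm p hp).2 hy
      · exact hPpos _ hb4.2.1 hy
    · exact (memS2 _).2 (Or.inr ((memP _).2 ⟨_, hb4.2.2.1, rfl⟩))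
    · exact (memS2 _).2 (Or.inr ((memP _).2 ⟨_, hb4.2.2.2, rfl⟩))
  have hU2 : ∀ p, blk p ≠ b → st.mv (w * T t p) (p + 1) ∉ S2 ∧ st.mv (w * T t p) (p - 1) ∉ S2 := by
    intro p hp
    have h1 := nb_PW h st w p
    have h2 : ∀ q, st.mv (w * T t p) (p + 1) ≠ st.mv w q := fun q e => mv_not_PW h st w _ q (e ▸ h1.1)
    have h3 : ∀ q, st.mv (w * T t p) (p - 1) ≠ st.mv w q := fun q e => mv_not_PW h st w _ q (e ▸ h1.2)
    constructor
    · intro hy
      rcases (memS2 _).1 hy with hy | hy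
      · exact hS1c _ (hU p hp).1 h2 hy
      · exact hPc _ h2 hy
    · intro hy
      rcases (memS2 _).1 hy with hy | hy
      · exact hS1c _ (hU p hp).2 h3 hy
      · exact hPc _ h3 hy
  have hA : ∀ p, (HG h').nb (st.mv w (p - 2)) (colr (st.par w) (p - 2)) = st.mv w (p - 1) := by
    intro p
    have h1 := (mv_nb h' st w (p - 2)).2.1
    have e : p - 2 + 1 = p - 1 := by ring
    rwa [e] at h1
  have hB : ∀ p, (HG h').nb (st.mv w (p + 2)) (colr (st.par w) (p + 1)) = st.mv w (p + 1) := by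
    intro p
    have h1 := (mv_nb h' st w (p + 2)).1
    have e : p + 2 - 1 = p + 1 := by ring
    rwa [e] at h1
  have hL2Y : ∀ p ∈ Y, (st.mv w (p - 2), colr (st.par w) (p - 2)) ∈ L2 ∧ (st.mv w (p + 2), colr (st.par w) (p + 1)) ∈ L2 := by
    intro p hp
    have hb4 := hblkm p (hYb p hp)
    constructor
    · refine (memL2 _).2 (Or.inr ⟨(memP _).2 ⟨_, hb4.2.2.1, rfl⟩, ?_, ?_⟩)
      · dsimp only
        rw [hA]
        exact (hYm p hp).1
      · dsimp only
        rw [hA]
        exact hPpos _ hb4.1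
    · refine (memL2 _).2 (Or.inr ⟨(memP _).2 ⟨_, hb4.2.2.2, rfl⟩, ?_, ?_⟩)
      · dsimp only
        rw [hB]
        exact (hYm p hp).2
      · dsimp only
        rw [hB]
        exact hPpos _ hb4.2.1
  obtain ⟨cs3, L3, d3, hc3, hcs3, hL3len, memL3⟩ := gadget_Y h h' st w b Y S2 L2 hw2 hYn hYb hY2 hU2 hL2Y
  have hw3 := d3.wf hw2
  -- the set of processed vertices
  have hS3 : S2 ∪ {m | ∃ p ∈ Y, m = st.mv w (p - 1) ∨ m = st.mv w (p + 1)} = S ∪ FR st w b := by
    ext y
    constructor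
    · rintro (hy | ⟨p, hp, hy | hy⟩)
      · rcases (memS2 _).1 hy with hy | hy
        · rcases (memS1 _).1 hy with h4 | ⟨q, hq, h4 | h4⟩
          · exact Or.inl h4
          · exact Or.inr ⟨q - 1, by rw [blk_pred, hXb q hq]; exact C1c_z2 b, h4⟩
          · exact Or.inr ⟨q + 1, by rw [blk_succ, hXb q hq]; exact C1c_z1 b, h4⟩
        · obtain ⟨m, hm1, e⟩ := (memP _).1 hy
          exact Or.inr ⟨m, by rw [hm1]; exact C1c_z3 b, e⟩
      · exact Or.inr ⟨p - 1, by rw [blk_pred, hYb p hp]; exact C1c_z2 b, hy⟩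
      · exact Or.inr ⟨p + 1, by rw [blk_succ, hYb p hp]; exact C1c_z1 b, hy⟩
    · rintro (hy | ⟨q, hq, rfl⟩)
      · exact Or.inl ((memS2 _).2 (Or.inl ((memS1 _).2 (Or.inl hy))))
      · rcases C1c_z4 b (blk q) hq with h1 | h1 | h1
        · rw [← blk_pred] at h1
          have e : q = q - 1 + 1 := by ring
          rcases hXor _ h1 with h2 | h2
          · exact Or.inl ((memS2 _).2 (Or.inl ((memS1 _).2 (Or.inr ⟨q - 1, h2, Or.inr (by rw [← e])⟩))))
          · exact Or.inr ⟨q - 1, h2, Or.inr (by rw [← e])⟩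
        · rw [← blk_succ] at h1
          have e : q = q + 1 - 1 := by ring
          rcases hXor _ h1 with h2 | h2
          · exact Or.inl ((memS2 _).2 (Or.inl ((memS1 _).2 (Or.inr ⟨q + 1, h2, Or.inl (by rw [← e])⟩))))
          · exact Or.inr ⟨q + 1, h2, Or.inl (by rw [← e])⟩
        · exact Or.inl ((memS2 _).2 (Or.inr ((memP _).2 ⟨q, h1, rfl⟩)))
  rw [hS3] at d3 hw3
  -- the members of L3
  have hneAB : ∀ q, ∀ d : H' × ZMod 4, d ∈ UP st (w * T t q) q → ∀ p,
      d ≠ (st.mv w (p - 2), colr (st.par w) (p - 2)) ∧ d ≠ (st.mv w (p + 2), colr (st.par w) (p + 1)) := by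
    intro q d hd p
    constructor
    · rintro rfl
      exact hPW q _ _ hd (hA p)
    · rintro rfl
      exact hPW q _ _ hd (hB p)
  have hmem : ∀ d, d ∈ L3 ↔ d ∈ Zl st w b := by
    intro d
    rw [mem_Zl, memL3]
    constructor
    · rintro (⟨hd, hne⟩ | ⟨p, hp, hd | hd⟩)
      · rcases (memL2 d).1 hd with ⟨hd1, hdP⟩ | ⟨hd1, hdS, hdP⟩
        · obtain ⟨p, hp, hd2⟩ := (memL1 d).1 hd1
          have hb4 := hblkm p (hXb p hp)
          rcases (C1c_e1 st w p d).1 hd2 with rfl | hd3 | rfl | hd3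
          · exfalso
            apply hdP
            dsimp only
            have h1 := (mv_nb h' st w (p - 1)).1
            have e : p - 1 - 1 = p - 2 := by ring
            rw [e] at h1
            rw [h1]
            exact (memP _).2 ⟨_, hb4.2.2.1, rfl⟩
          · exact ⟨p - 1, by rw [blk_pred, hXb p hp]; exact C1c_z2 b, hd3⟩
          · exfalso
            apply hdP
            dsimp only
            have h1 := (mv_nb h' st w (p + 1)).2.1
            have e : p + 1 + 1 = p + 2 := by ring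
            rw [e] at h1
            rw [h1]
            exact (memP _).2 ⟨_, hb4.2.2.2, rfl⟩
          · exact ⟨p + 1, by rw [blk_succ, hXb p hp]; exact C1c_z1 b, hd3⟩
        · obtain ⟨m, hm1, e⟩ := (memP _).1 hd1
          have hmb : blk m ≠ b := by rw [hm1]; exact C1c_z3 b
          obtain ⟨d1', k⟩ := d
          dsimp only at e
          subst e
          have hn4 := mv_nb h' st w m
          rcases C1c_four (st.par w) m k with hk1 | hk1 | hk1 | hk1
          · exfalso
            have h1 : blk (m - 2) = b := by rw [C1c_b3, hm1]; exact (C1c_z7 b).2.2.1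
            subst hk1
            rcases hXor _ h1 with h2 | h2
            · apply hdS
              dsimp only
              rw [hn4.1]
              exact (memS1 _).2 (Or.inr ⟨m - 2, h2, Or.inr (by congr 1; ring)⟩)
            · apply (hne _ h2).2
              have e1 : m - 2 + 2 = m := by ring
              have e2 : m - 2 + 1 = m - 1 := by ring
              rw [e1, e2]
          · exfalso
            have h1 : blk (m + 2) = b := by rw [C1c_b2, hm1]; exact (C1c_z7 b).2.2.2.1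
            subst hk1
            rcases hXor _ h1 with h2 | h2
            · apply hdS
              dsimp only
              rw [hn4.2.1]
              exact (memS1 _).2 (Or.inr ⟨m + 2, h2, Or.inl (by congr 1; ring)⟩)
            · apply (hne _ h2).1
              have e1 : m + 2 - 2 = m := by ring
              rw [e1]
          · exact ⟨m, hmb, (C1c_up st w m _).2 (Or.inl (by rw [hk1]))⟩
          · exact ⟨m, hmb, (C1c_up st w m _).2 (Or.inr (by rw [hk1]))⟩
      · exact ⟨p - 1, by rw [blk_pred, hYb p hp]; exact C1c_z2 b, hd⟩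
      · exact ⟨p + 1, by rw [blk_succ, hYb p hp]; exact C1c_z1 b, hd⟩
    · rintro ⟨q, hq, hd⟩
      rcases C1c_z4 b (blk q) hq with h1 | h1 | h1
      · rw [← blk_pred] at h1
        have e : q - 1 + 1 = q := by ring
        rcases hXor _ h1 with h2 | h2
        · refine Or.inl ⟨(memL2 d).2 (Or.inl ⟨(memL1 d).2 ⟨q - 1, h2, (C1c_e1 st w _ d).2 (Or.inr (Or.inr (Or.inr ?_)))⟩, ?_⟩),
            fun p _ => hneAB q d hd p⟩
          · rw [e]; exact hd
          · exact hPc _ fun p => hPW q p d hd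
        · refine Or.inr ⟨q - 1, h2, Or.inr ?_⟩
          rw [e]; exact hd
      · rw [← blk_succ] at h1
        have e : q + 1 - 1 = q := by ring
        rcases hXor _ h1 with h2 | h2
        · refine Or.inl ⟨(memL2 d).2 (Or.inl ⟨(memL1 d).2 ⟨q + 1, h2, (C1c_e1 st w _ d).2 (Or.inr (Or.inl ?_))⟩, ?_⟩),
            fun p _ => hneAB q d hd p⟩
          · rw [e]; exact hd
          · exact hPc _ fun p => hPW q p d hd
        · refine Or.inr ⟨q + 1, h2, Or.inl ?_⟩
          rw [e]; exact hd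
      · refine Or.inl ⟨(memL2 d).2 (Or.inr ⟨?_, ?_, ?_⟩), fun p _ => hneAB q d hd p⟩
        · refine (memP _).2 ⟨q, h1, ?_⟩
          rcases (C1c_up st w q d).1 hd with rfl | rfl <;> rfl
        · exact hS1c _ (hUn q hq d hd) fun p => hPW q p d hd
        · exact hPc _ fun p => hPW q p d hd
  -- sorting
  have hL3n : L3.Nodup := (List.nodup_append'.1 hw3.1).2.1
  have hperm : L3.Perm (Zl st w b) := (List.perm_ext_iff_of_nodup hL3n (Zl_nodup h st w b)).2 hmem
  obtain ⟨cs4, d4, hc4, hcs4⟩ := perm_dr (Γ := HG h') (S ∪ FR st w b) hperm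
  have d4' := d4.frame (Y.flatMap (LP st w)) []
  rw [List.append_nil, List.append_nil] at d4'
  -- fine darts
  have fL1 : ∀ d ∈ L1, C1c_Fi h' st w b d := by
    intro d hd
    obtain ⟨p, hp, hd2⟩ := (memL1 d).1 hd
    exact C1c_fi_e1 h h' st w b p (hXb p hp) hd2
  have fP : ∀ d : H' × ZMod 4, d.1 ∈ P → C1c_Fi h' st w b d := by
    intro d hd
    obtain ⟨m, hm1, e⟩ := (memP _).1 hd
    exact C1c_fi_mid h h' st w b m hm1 e
  have fL2 : ∀ d ∈ L2, C1c_Fi h' st w b d := by
    intro d hd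
    rcases (memL2 d).1 hd with ⟨hd1, -⟩ | ⟨hd1, -, -⟩
    · exact fL1 d hd1
    · exact fP d hd1
  have fY : ∀ d : H' × ZMod 4, (∃ p ∈ Y, d ∈ UP st (w * T t (p - 1)) (p - 1) ∨ d ∈ UP st (w * T t (p + 1)) (p + 1)) →
      C1c_Fi h' st w b d := by
    rintro d ⟨p, hp, hd | hd⟩
    · exact C1c_fi_up h h' st w b _ (by rw [blk_pred, hYb p hp]; exact C1c_z2 b) hd
    · exact C1c_fi_up h h' st w b _ (by rw [blk_succ, hYb p hp]; exact C1c_z1 b) hd
  have fL3 : ∀ d ∈ L3, C1c_Fi h' st w b d := by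
    intro d hd
    obtain ⟨q, hq, hd2⟩ := (mem_Zl st w b d).1 ((hmem d).1 hd)
    exact C1c_fi_up h h' st w b q hq hd2
  have fcs : ∀ c ∈ cs2 ++ (cs3 ++ cs4), C1c_Fi h' st w b c.1 ∧ C1c_Fi h' st w b c.2 := by
    intro c hc
    rcases List.mem_append.1 hc with hc | hc
    · obtain ⟨h1, h2⟩ := hcs2 c hc
      exact ⟨h1.elim (fL1 _) (fP _), h2.elim (fL1 _) (fP _)⟩
    · rcases List.mem_append.1 hc with hc | hc
      · obtain ⟨h1, h2⟩ := hcs3 c hc
        exact ⟨h1.elim (fL2 _) (fY _), h2.elim (fL2 _) (fY _)⟩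
      · obtain ⟨h1, h2⟩ := hcs4 c hc
        exact ⟨fL3 _ h1, fL3 _ h2⟩
  refine ⟨[] ++ (cs2 ++ (cs3 ++ cs4)), d1.trans (d2.trans (d3.trans d4')), ?_, ?_⟩
  · rw [List.nil_append, List.length_append, List.length_append]
    have h1 : cs2.length ≤ 4 * (24 + 4 * 4) ^ 2 := hc2.trans (by gcongr)
    have h2 : L2.length ≤ 40 := by omega
    have hYl : Y.length ≤ 4 := by omega
    have h3 : cs3.length ≤ 2 * 4 * (40 + 4 * 4) ^ 2 := hc3.trans (by gcongr)
    have h4 : L3.length ≤ 56 := by omega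
    have h5 : cs4.length ≤ 56 ^ 2 := hc4.trans (by gcongr)
    omega
  · intro d hd
    rw [List.nil_append]
    apply cnt_eq_zero
    have hbad : ¬ C1c_Fi h' st w b d := by
      rcases hd with hd | hd
      · obtain ⟨p, hp, hd⟩ := List.mem_flatMap.1 hd
        rintro ⟨⟨q, hq, e⟩, -⟩
        have e1 : d.1 = st.mv w p := by rcases (C1c_up0 st w p d).1 hd with rfl | rfl <;> rfl
        have h5 := C1c_pos h st (e1.symm.trans e)
        rw [← h5] at hq
        exact hq (hXb p hp)
      · obtain ⟨p, hp, hd⟩ := List.mem_flatMap.1 hd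
        rintro ⟨-, h2⟩
        refine h2 p (hYb p hp) ?_
        rcases (C1c_lp st w p d).1 hd with rfl | rfl
        · dsimp only
          have h1 := (mv_nb h' st w (p - 1)).2.1
          have e : p - 1 + 1 = p := by ring
          rwa [e] at h1
        · dsimp only
          have h1 := (mv_nb h' st w (p + 1)).1
          have e : p + 1 - 1 = p := by ring
          rwa [e] at h1
    intro c hc
    obtain ⟨h1, h2⟩ := fcs c hc
    exact ⟨fun e => hbad (e ▸ h1), fun e => hbad (e ▸ h2)⟩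

end KPl
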