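import Pool.Agent.Lib.MP_d3a5e5_coK.C3a
import Pool.Agent.Lib.MP_d3a5e5_coK.C1c

set_option autoImplicit false

namespace KPl

variable {H H' : Type} [Group H] [Group H'] {t : ZMod 4 → H} {t' : ZMod 4 → H'}

private theorem C3b_succ_ne (p : ZMod 16) : blk (p + 1) ≠ blk p := by
  rw [blk_succ]
  intro h
  have h1 : (1 : ZMod 4) = 0 := by
    have h2 := congrArg (fun x => x - blk p) h
    simpa using h2
  exact absurd h1 (by decide)

private theorem C3b_pred_ne (p : ZMod 16) : blk (p - 1) ≠ blk p := by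
  rw [blk_pred]
  intro h
  have h1 : (1 : ZMod 4) = 0 := by
    have h2 := congrArg (fun x => blk p - x) h
    simpa using h2
  exact absurd h1 (by decide)

private theorem C3b_wf (h : GI t) (h' : GI t') (st : Step t t') (w : F4 H) (b : ZMod 4) (X : List (ZMod 16)) (S : Set H')
    (hn : X.Nodup) (hb : ∀ p ∈ X, blk p = b) (hX : ∀ p ∈ X, st.mv w p ∈ S) (hF : ∀ p, blk p ≠ b → st.mv w p ∉ S) :
    WF (HG h') S (X.flatMap (UP st w)) := by
  refine ⟨List.nodup_flatMap.2 ⟨fun p _ => ?_, ?_⟩, fun l hl => ?_⟩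
  · unfold UP
    rw [List.nodup_cons]
    refine ⟨fun h1 => ?_, List.nodup_singleton _⟩
    have h2 := congrArg Prod.snd (List.mem_singleton.1 h1)
    have h3 := (colr_four (st.par w) p).1
    rw [List.nodup_cons] at h3
    refine h3.1 ?_
    have h4 : colr (st.par w) (p - 1) = colr (st.par w) p := h2
    rw [h4]
    exact List.mem_cons_self
  · refine hn.imp ?_
    intro p q hpq d hd1 hd2
    have e1 : d.1 = st.mv w p := by
      unfold UP at hd1
      rcases List.mem_cons.1 hd1 with h1 | h1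
      · rw [h1]
      · rw [List.mem_singleton.1 h1]
    have e2 : d.1 = st.mv w q := by
      unfold UP at hd2
      rcases List.mem_cons.1 hd2 with h1 | h1
      · rw [h1]
      · rw [List.mem_singleton.1 h1]
    exact mv_ne h st hpq (e1.symm.trans e2)
  · obtain ⟨p, hp, hl⟩ := List.mem_flatMap.1 hl
    have hbp := hb p hp
    unfold UP at hl
    rcases List.mem_cons.1 hl with h1 | h1
    · rw [h1]
      refine ⟨hX p hp, ?_⟩
      rw [(mv_nb h' st w p).1]
      refine hF _ ?_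
      rw [← hbp]
      exact C3b_pred_ne p
    · rw [List.mem_singleton.1 h1]
      refine ⟨hX p hp, ?_⟩
      rw [(mv_nb h' st w p).2.1]
      refine hF _ ?_
      rw [← hbp]
      exact C3b_succ_ne p

/-- LEAF C3b (medium). One vertex of the block: `gadget`, `mids` (frame `Zl` on the right), then the kids (frame on the left). Counting: `d` in the strands of `X`: 0 in the gadget, in the kids the upper end `mv w (p ± 1)` is processed (`cnt_dead`). `d` in the strands of `Y` (lower pair): 0 in the gadget, `cnt_out`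
in the kids. `d` in a new upper pair `UP st (w * T t p) p`, `M p`: its lower end `mv w p` is not processed in the gadget (`Dr.log`), `cnt_out` in the kids. All others: `cnt_chain`; `d ∈ Zl`: at most 100000 in the gadget and 0 in the kids. -/
theorem vstep (h : GI t) (h' : GI t') (st : Step t t') (A : Set H) (K r : ℕ) (hK : 100000 ≤ K) (hk : Kids h' st A K r)
    (w : F4 H) (b : ZMod 4) (X Y : List (ZMod 16)) (M : ZMod 16 → Bool) (S : Set H') (hn : (X ++ Y).Nodup)
    (hm : ∀ p, p ∈ X ++ Y ↔ blk p = b) (hX : ∀ p ∈ X, st.mv w p ∈ S) (hY : ∀ p ∈ Y, st.mv w p ∉ S)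
    (hF : ∀ p, blk p ≠ b → st.mv w p ∉ S) (hP : ∀ b', b' ≠ b → ∀ m ∈ PW st w b', m ∉ S)
    (hM : ∀ p ∈ Y, M p = true → st.mv (w * T t p) (p + 1) ∉ S ∧ st.mv (w * T t p) (p - 1) ∉ S) :
    ∃ (cs : List ((H' × ZMod 4) × (H' × ZMod 4))) (S' : Set H'),
      Dr (HG h') S (X.flatMap (UP st w)) cs S'
        (Y.flatMap (fun p => if M p = true then UP st (w * T t p) p else LP st w p)) ∧
      (∀ m ∈ S', m ∈ S ∨ m ∈ FR st w b ∨ (∃ p ∈ Y, M p = true ∧ m = st.mv w p) ∨ ∃ b', b' ≠ b ∧ m ∈ PW st w b') ∧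
      (∀ p, blk p ≠ b → st.mv w p ∈ S') ∧ (∀ p ∈ Y, M p = true → st.mv w p ∈ S') ∧
      (∀ b', b' ≠ b → ∀ z p, br w b' z ≠ 1 → br w b' (z * T t p) ≠ 1 → Cv A r (w⁻¹ * z) → st.mv z p ∈ S') ∧
      (∀ d, cnt cs d ≤ K) ∧ (∀ d ∈ X.flatMap (UP st w), cnt cs d = 0) ∧
      ∀ d ∈ Y.flatMap (fun p => if M p = true then UP st (w * T t p) p else LP st w p), cnt cs d = 0 := by
  have hXb : ∀ p ∈ X, blk p = b := fun p hp => (hm p).1 (List.mem_append_left _ hp)
  have hYb : ∀ p ∈ Y, blk p = b := fun p hp => (hm p).1 (List.mem_append_right _ hp)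
  have hXn : X.Nodup := (List.nodup_append.1 hn).1
  have hYn : Y.Nodup := (List.nodup_append.1 hn).2.1
  have hU : ∀ p, blk p ≠ b → st.mv (w * T t p) (p + 1) ∉ S ∧ st.mv (w * T t p) (p - 1) ∉ S := fun p hp =>
    ⟨hP (blk p) hp _ (nb_PW h st w p).1, hP (blk p) hp _ (nb_PW h st w p).2⟩
  have hw0 : WF (HG h') S (X.flatMap (UP st w)) := C3b_wf h h' st w b X S hXn hXb hX hF
  obtain ⟨cs1, hD1, hlen, hc1⟩ := gadget h h' st w b X Y S hn hm hX hY hF hU
  -- the midpoints
  have hFR : ∀ p, blk p ≠ b → st.mv w p ∈ S ∪ FR st w b := fun p hp =>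
    Or.inr ⟨p, hp, rfl⟩
  have hY1 : ∀ p ∈ Y, st.mv w p ∉ S ∪ FR st w b := by
    intro p hp h1
    rcases h1 with h1 | h1
    · exact hY p hp h1
    · exact ((mem_FR h st w b w p).1 h1).1 (hYb p hp)
  have hM1 : ∀ p ∈ Y, M p = true → st.mv (w * T t p) (p + 1) ∉ S ∪ FR st w b ∧
      st.mv (w * T t p) (p - 1) ∉ S ∪ FR st w b := by
    intro p hp hMp
    obtain ⟨h1, h2⟩ := hM p hp hMp
    have hne : ∀ q : ZMod 16, q ≠ p → ¬ (w * T t p = w ∨ w * T t p = w * T t q) := by
      intro q hq h3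
      rcases h3 with h3 | h3
      · exact T_ne h p (mul_eq_left.1 h3)
      · exact hq (T_inj h (mul_left_cancel h3)).symm
    have hp1 : p + 1 ≠ p := fun h3 => C3b_succ_ne p (congrArg blk h3)
    have hp2 : p - 1 ≠ p := fun h3 => C3b_pred_ne p (congrArg blk h3)
    refine ⟨fun h3 => ?_, fun h3 => ?_⟩
    · rcases h3 with h3 | h3
      · exact h1 h3
      · have h4 := ((mem_FR h st w b (w * T t p) (p + 1)).1 h3).2
        refine hne (p + 1) hp1 ?_
        rcases h4 with h4 | h4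
        · exact Or.inl h4
        · exact Or.inr h4
    · rcases h3 with h3 | h3
      · exact h2 h3
      · have h4 := ((mem_FR h st w b (w * T t p) (p - 1)).1 h3).2
        refine hne (p - 1) hp2 ?_
        rcases h4 with h4 | h4
        · exact Or.inl h4
        · exact Or.inr h4
  have hD2 := mids h h' st w b M Y (S ∪ FR st w b) hYn hYb hY1 hFR hM1
  obtain ⟨S2, hS2⟩ : ∃ S2 : Set H', S2 = S ∪ FR st w b ∪ {m | ∃ p ∈ Y, M p = true ∧ m = st.mv w p} := ⟨_, rfl⟩
  rw [← hS2] at hD2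
  obtain ⟨LY, hLY⟩ : ∃ LY : List (H' × ZMod 4),
      LY = Y.flatMap (fun p => if M p = true then UP st (w * T t p) p else LP st w p) := ⟨_, rfl⟩
  rw [← hLY] at hD2 ⊢
  have hD2' := hD2.frame [] (Zl st w b)
  rw [List.nil_append, List.nil_append] at hD2'
  -- the kids
  have hF2 : ∀ p, blk p ≠ b → st.mv w p ∈ S2 := by
    intro p hp
    rw [hS2]
    exact Or.inl (hFR p hp)
  have hP2 : ∀ b', b' ≠ b → ∀ m ∈ PW st w b', m ∉ S2 := by
    intro b' hb' m hm1 hm2
    rw [hS2] at hm2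
    rcases hm2 with (h1 | ⟨q, _, rfl⟩) | ⟨q, _, _, rfl⟩
    · exact hP b' hb' m hm1 h1
    · exact mv_not_PW h st w b' q hm1
    · exact mv_not_PW h st w b' q hm1
  obtain ⟨cs3, S3, hD3, hk1, hk2, hk3, hk4⟩ := hk w b S2 hF2 hP2
  have hD3' := hD3.frame LY []
  rw [List.append_nil, List.append_nil, List.append_nil] at hD3'
  have hD12 := hD1.trans hD2'
  have hD23 := hD2'.trans hD3'
  rw [List.nil_append] at hD23
  have hD := hD1.trans hD23
  have hw2 : WF (HG h') S2 (LY ++ Zl st w b) := hD12.wf hw0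
  have hwZ : WF (HG h') S2 (Zl st w b) := Zl_wf h h' st w b S2 hF2 hP2
  have hsub : S2 ⊆ S3 := hD3.subset
  refine ⟨cs1 ++ cs3, S3, hD, fun m hm1 => ?_, fun p hp => hsub (hF2 p hp), fun p hp hMp => ?_, hk2, fun d => ?_,
    fun d hd => ?_, fun d hd => ?_⟩
  · rcases hk1 m hm1 with h1 | h1
    · rw [hS2] at h1
      rcases h1 with (h1 | h1) | h1
      · exact Or.inl h1
      · exact Or.inr (Or.inl h1)
      · exact Or.inr (Or.inr (Or.inl h1))
    · exact Or.inr (Or.inr (Or.inr h1))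
  · refine hsub ?_
    rw [hS2]
    exact Or.inr ⟨p, hp, hMp, rfl⟩
  · have hle : cnt cs1 d ≤ K := (cnt_le_length cs1 d).trans (hlen.trans hK)
    by_cases hZ : d ∈ Zl st w b
    · rw [cnt_append, hk4 d hZ, add_zero]
      exact hle
    · by_cases hL : d ∈ Y.flatMap (LP st w)
      · rw [cnt_append, hc1 d (Or.inr hL), zero_add]
        exact hk3 d
      · refine cnt_chain hD1 hw0 hD23 (fun h1 => ?_) hle (hk3 d)
        rcases List.mem_append.1 h1 with h2 | h2
        · exact hL h2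
        · exact hZ h2
  · rw [cnt_append, hc1 d (Or.inl hd), zero_add]
    refine cnt_dead hD3 hwZ ?_
    obtain ⟨p, hp, hl⟩ := List.mem_flatMap.1 hd
    have hbp := hXb p hp
    unfold UP at hl
    rcases List.mem_cons.1 hl with h1 | h1
    · rw [h1, (mv_nb h' st w p).1]
      refine hF2 _ ?_
      rw [← hbp]
      exact C3b_pred_ne p
    · rw [List.mem_singleton.1 h1, (mv_nb h' st w p).2.1]
      refine hF2 _ ?_
      rw [← hbp]
      exact C3b_succ_ne p
  · have h3 : cnt cs3 d = 0 := by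
      refine cnt_frame (A := LY) (B := []) hD3 ?_ (Or.inl hd)
      rw [List.append_nil]
      exact hw2
    rw [cnt_append, h3, add_zero]
    rw [hLY] at hd
    obtain ⟨p, hp, hl⟩ := List.mem_flatMap.1 hd
    by_cases hMp : M p = true
    · have hl' : d ∈ UP st (w * T t p) p := by rwa [if_pos hMp] at hl
      have hd1 : d.1 = st.mv w p := by
        rw [← st.mv_T w p]
        unfold UP at hl'
        rcases List.mem_cons.1 hl' with h1 | h1
        · rw [h1]
        · rw [List.mem_singleton.1 h1]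
      by_contra h1
      have h2 := (hD1.log hw0 h1).2.1
      rw [hd1] at h2
      exact hY1 p hp h2
    · have hl' : d ∈ LP st w p := by rwa [if_neg hMp] at hl
      exact hc1 d (Or.inr (List.mem_flatMap.2 ⟨p, hp, hl'⟩))

end KPl
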