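import Pool.Agent.Lib.MP_d3a5e5_coK.C5
import Pool.Agent.Lib.MP_d3a5e5_coK.C2a
import Pool.Agent.Lib.MP_d3a5e5_coK.C3b

set_option autoImplicit false

namespace KPl

variable {H H' : Type} [Group H] [Group H'] {t : ZMod 4 → H} {t' : ZMod 4 → H'}

theorem all_kids (h : GI t) (h' : GI t') (st : Step t t') (A : Finset H) (K : ℕ) (hK : 100000 ≤ K) (hKe : Even K)
    (hG : GoodBlock h K) (r : ℕ) : Kids h' st (A : Set H) K r := by
  induction r with
  | zero => exact kids_zero h' st _ K
  | succ r ih => exact kids_succ h h' st _ K r (world_of_kids h h' st A K r hK hKe hG ih)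

private theorem C6_blk (p : ZMod 16) (hp : blk p = 0) : p = 0 ∨ p ∈ ([12, 4, 8] : List (ZMod 16)) := by
  revert p
  decide

private theorem C6_ne : ∀ p ∈ ([12, 4, 8] : List (ZMod 16)), p + 1 ≠ 0 ∧ p - 1 ≠ 0 := by
  decide

private theorem C6_colr : colr true (0 - 1) = 3 ∧ colr true 0 = 1 ∧ colr false (0 - 1) = 2 ∧
    colr false 0 = 0 := by
  decide

private theorem C6_pst : pst 0 3 = 12 ∧ pst 0 1 = 4 ∧ pst 0 2 = 8 ∧ pst 0 0 = 0 := by
  decide

private theorem C6_four (k : ZMod 4) : k = 3 ∨ k = 1 ∨ k = 2 ∨ k = 0 := by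
  revert k
  decide

private theorem C6_par (st : Step t t') : st.par (T t 0) = true := by
  have h1 := st.par_T 1 0
  rw [one_mul, st.par_one] at h1
  exact h1

private theorem C6_mv (st : Step t t') : st.mv (T t 0) 0 = 1 := by
  have h1 := st.mv_T 1 0
  rw [one_mul, st.mv_one] at h1
  exact h1

private theorem C6_UP1 (st : Step t t') : UP st (T t 0) 0 = [((1 : H'), (3 : ZMod 4)), (1, 1)] := by
  unfold UP
  rw [C6_par, C6_mv, C6_colr.1, C6_colr.2.1]

private theorem C6_UP2 (st : Step t t') : UP st 1 0 = [((1 : H'), (2 : ZMod 4)), (1, 0)] := by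
  unfold UP
  rw [st.par_one, st.mv_one, C6_colr.2.2.1, C6_colr.2.2.2]

private theorem C6_X (st : Step t t') :
    ([0] : List (ZMod 16)).flatMap (UP st (T t 0)) = UP st (T t 0) 0 := by
  simp

private theorem C6_Ul (h : GI t) (st : Step t t') :
    ([12, 4, 8] : List (ZMod 16)).flatMap (fun p => if true = true then
      UP st (T t 0 * T t p) p else LP st (T t 0) p) ++ UP st 1 0 = Ul st (T t 0) 0 := by
  unfold Ul
  have h1 : T t 0 * T t 0 = 1 := T_sq h 0
  simp only [List.flatMap_cons, List.flatMap_nil, List.append_nil, if_true, C6_pst.1, C6_pst.2.1,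
    C6_pst.2.2.1, C6_pst.2.2.2, h1, List.append_assoc]

private theorem C6_start (st : Step t t') :
    ([3, 1, 2, 0] : List (ZMod 4)).map (fun k => ((1 : H'), k)) = UP st (T t 0) 0 ++ UP st 1 0 := by
  rw [C6_UP1, C6_UP2]
  rfl

private theorem C6_wf (h' : GI t') : WF (HG h') {1}
    (([3, 1, 2, 0] : List (ZMod 4)).map (fun k => ((1 : H'), k))) := by
  refine ⟨?_, ?_⟩
  · refine List.Nodup.map (fun a b e => congrArg Prod.snd e) ?_
    decide
  · intro l hl
    obtain ⟨k, -, rfl⟩ := List.mem_map.1 hl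
    refine ⟨rfl, fun e => (HG h').ne 1 k e⟩

/-- LEAF C6 (medium). The root. Write `T0 = T t 0`, `par T0 = true` (`par_T`, `par_one`), `mv T0 0 = mv 1 0 = 1`. The list `[3, 1, 2, 0].map (fun k => (1, k))` is `UP st T0 0 ++ UP st 1 0` (`colr true (0 - 1) = 3`, `colr true 0 = 1`, `colr false (0 - 1) = 2`, `colr false 0 = 0`). For a finite set `A'` of `H'`: each `m ∈ A'` is `mv z p` (`mv_surj`); `exists_Cv` for the finite set of the `T0⁻¹ * z` gives `A`, `r`.
`vstep` with `w = T0`, `b = 0`, `X = [0]`, `Y = [12, 4, 8]`, `M = true`, `S = {1}` (frame `UP st 1 0` on the right): `PW st T0 b'` does not contain `1 = mv T0 0` (`mv_not_PW`); `mv (T0 * T t p) (p ± 1) ≠ mv 1 0` for `p = 12, 4, 8` (`mv_ne`). After this the list is `Ul st T0 0`: `[12, 4, 8, 0] = [3, 1, 2, 0].map (pst 0)` and `T0 * T0 = 1`.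
Then `World` for `(T0, 0)` with `r`: `mv T0 p` is processed for `blk p = 0`, `PW st T0 0` is disjoint from everything before (`PW_disj`, `mv_not_PW`, `mem_FR`, `mem_PW`). Covering: `m = mv z p ∈ A'`: if `z = T0` or `z * T t p = T0` then `m = mv T0 p`: processed (`p = 0`: `1`; `p ∈ Y`; `blk p ≠ 0`: fresh). Otherwise `br_exists` gives `b'` with `br T0 b' z ≠ 1`, and
`br T0 b' (z * T t p) ≠ 1` (`br_exit`): `vstep` for `b' ≠ 0`, `World` for `b' = 0` (`Cv_le`). Loads: `(1, 3)`, `(1, 1)` are in `UP st T0 0`: 0 in `vstep`, later 0 by `cnt_dead`. `(1, 2)`, `(1, 0)` in the frame: `cnt_frame`; in `World` they are in `Ul st T0 0`: 0. Others: `cnt_chain` if not in `Ul st T0 0`, and for `d ∈ Ul st T0 0` 0 in `World`. -/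
theorem good_step (h : GI t) (h' : GI t') (st : Step t t') (K : ℕ) (hK : 100000 ≤ K) (hKe : Even K)
    (hG : GoodBlock h K) : GoodBlock h' K := by
  classical
  intro A'
  choose zf pf hzp using st.mv_surj
  obtain ⟨A, r, hCv⟩ := exists_Cv (A'.image fun x => (T t 0)⁻¹ * zf x)
  have hK1 := all_kids h h' st A K hK hKe hG r
  have hW := world_of_kids h h' st A K r hK hKe hG hK1
  -- the vertex `T0`
  obtain ⟨cs1, S1, d1, e1, e2, e3, e4, e5, e6, e7⟩ := vstep h h' st (A : Set H) K r hK hK1 (T t 0) 0 [0] [12, 4, 8]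
    (fun _ => true) {1} (by decide) (by decide)
    (by
      intro p hp
      rw [List.mem_singleton.1 hp, C6_mv]
      rfl)
    (by
      intro p hp e
      rw [Set.mem_singleton_iff, ← st.mv_one] at e
      exact mv_ne h st (by rintro rfl; revert hp; decide) e)
    (by
      intro p hp e
      rw [Set.mem_singleton_iff, ← st.mv_one] at e
      exact mv_ne h st (by rintro rfl; exact hp rfl) e)
    (by
      intro b' _ m hm e
      rw [Set.mem_singleton_iff, ← C6_mv st] at e
      rw [e] at hm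
      exact mv_not_PW h st _ _ _ hm)
    (by
      intro p hp _
      constructor
      · intro e
        rw [Set.mem_singleton_iff, ← st.mv_one] at e
        exact mv_ne h st (C6_ne p hp).1 e
      · intro e
        rw [Set.mem_singleton_iff, ← st.mv_one] at e
        exact mv_ne h st (C6_ne p hp).2 e)
  rw [C6_X] at d1 e6
  -- the first part in the frame
  have d2 := d1.frame [] (UP st 1 0)
  rw [List.nil_append, List.nil_append, C6_Ul h st, ← C6_start st] at d2
  have hw0 := C6_wf (t' := t') h'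
  have hw1 := d2.wf hw0
  have hsub1 := d2.subset
  have h1S : (1 : H') ∈ S1 := hsub1 rfl
  have hroot : ∀ p, blk p = 0 → st.mv (T t 0) p ∈ S1 := by
    intro p hp
    rcases C6_blk p hp with rfl | hp
    · rw [C6_mv]
      exact h1S
    · exact e3 p hp rfl
  have hPW : ∀ m ∈ PW st (T t 0) 0, m ∉ S1 := by
    intro m hm hmS
    rcases e1 m hmS with e | ⟨p, -, rfl⟩ | ⟨p, -, -, rfl⟩ | ⟨b', hb', hm'⟩
    · rw [Set.mem_singleton_iff, ← C6_mv st] at e
      rw [e] at hm
      exact mv_not_PW h st _ _ _ hm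
    · exact mv_not_PW h st _ _ _ hm
    · exact mv_not_PW h st _ _ _ hm
    · exact Set.disjoint_left.1 (PW_disj h st (T t 0) hb'.symm) hm hm'
  obtain ⟨cs2, S2, d3, -, f2, f3, f4⟩ := hW (T t 0) 0 S1 hroot hPW
  have hsub2 := d3.subset
  refine ⟨cs1 ++ cs2, S2, d2.trans d3, ?_, ?_, ?_⟩
  · -- covering
    intro m hm
    have hc : Cv (A : Set H) r ((T t 0)⁻¹ * zf m) :=
      hCv _ (Finset.mem_image_of_mem _ (Finset.mem_coe.1 hm))
    have hall : ∀ p, st.mv (T t 0) p ∈ S2 := by
      intro p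
      by_cases hp : blk p = 0
      · exact hsub2 (hroot p hp)
      · exact hsub2 (e2 p hp)
    rw [← hzp m]
    by_cases hz : zf m = T t 0
    · rw [hz]
      exact hall _
    by_cases hz2 : zf m * T t (pf m) = T t 0
    · rw [← st.mv_T, hz2]
      exact hall _
    obtain ⟨b', hb'⟩ := br_exists (T t 0) (zf m) hz
    have hb2 : br (T t 0) b' (zf m * T t (pf m)) ≠ 1 := fun e => hz2 (br_exit h _ _ _ _ hb' e)
    by_cases hb0 : b' = 0
    · subst hb0
      exact f2 _ _ hb' hb2 (Cv_le hc (le_refl _) (Nat.le_succ r))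
    · exact hsub2 (e4 b' hb0 _ _ hb' hb2 hc)
  · -- the root edges
    intro k
    rw [cnt_append]
    have hnb := mv_nb h' st (T t 0) 0
    rw [C6_par, C6_mv, C6_colr.1, C6_colr.2.1] at hnb
    have hfr : ∀ l ∈ UP st (1 : F4 H) 0, cnt cs1 l = 0 := fun l hl =>
      cnt_frame (A := []) (B := UP st 1 0) d1
        (by rw [List.nil_append, ← C6_start st]; exact hw0) (Or.inr hl)
    have hUl : ∀ l ∈ UP st (1 : F4 H) 0, l ∈ Ul st (T t 0) 0 := by
      intro l hl
      rw [← C6_Ul h st]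
      exact List.mem_append_right _ hl
    rcases C6_four k with rfl | rfl | rfl | rfl
    · rw [e6 (1, 3) (by rw [C6_UP1]; simp), cnt_dead d3 hw1 (l := ((1 : H'), (3 : ZMod 4))) ?_]
      rw [hnb.1]
      exact e2 _ (by decide)
    · rw [e6 (1, 1) (by rw [C6_UP1]; simp), cnt_dead d3 hw1 (l := ((1 : H'), (1 : ZMod 4))) ?_]
      rw [hnb.2.1]
      exact e2 _ (by decide)
    · have hm : ((1 : H'), (2 : ZMod 4)) ∈ UP st (1 : F4 H) 0 := by rw [C6_UP2]; simp
      rw [hfr _ hm, f4 _ (hUl _ hm)]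
    · have hm : ((1 : H'), (0 : ZMod 4)) ∈ UP st (1 : F4 H) 0 := by rw [C6_UP2]; simp
      rw [hfr _ hm, f4 _ (hUl _ hm)]
  · -- all loads
    intro l
    by_cases hl : l ∈ Ul st (T t 0) 0
    · rw [cnt_append, f4 l hl, add_zero]
      exact e5 l
    · exact cnt_chain d2 hw0 d3 hl (e5 l) (f3 l)

end KPl
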