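import Pool.Agent.Lib.MP_d3a5e5_coK.A2
import Pool.Agent.Lib.MP_d3a5e5_coK.A6
import Pool.Agent.Lib.MP_d3a5e5_coK.A7
import Pool.Agent.Lib.MP_d3a5e5_coK.C6

set_option autoImplicit false

namespace KPl

/-- transport of darts -/
private def A8f {V V' : Type} (e : V → V') (l : V × ZMod 4) : V' × ZMod 4 := (e l.1, l.2)

private theorem A8f_inj {V V' : Type} {e : V → V'} (he : Function.Injective e) : Function.Injective (A8f e) := by
  rintro ⟨x, k⟩ ⟨y, l⟩ h
  have h1 := congrArg Prod.fst h
  have h2 := congrArg Prod.snd h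
  dsimp only [A8f] at h1 h2
  rw [he h1, h2]

private theorem A8_dr {V V' : Type} {Γ : CGr V (ZMod 4)} {Γ' : CGr V' (ZMod 4)} (e : V → V')
    (hi : Function.Injective e) (he : ∀ x k, e (Γ.nb x k) = Γ'.nb (e x) k) {S : Set V} {L : List (V × ZMod 4)}
    {cs : List ((V × ZMod 4) × (V × ZMod 4))} {S' : Set V} {L' : List (V × ZMod 4)} (h : Dr Γ S L cs S' L') :
    Dr Γ' (e '' S) (L.map (A8f e)) (cs.map (Prod.map (A8f e) (A8f e))) (e '' S') (L'.map (A8f e)) := by
  induction h with
  | refl S L => exact Dr.refl _ _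
  | cross A B a b S cs S' L' h ih =>
    rw [List.map_append, List.map_cons, List.map_cons] at ih ⊢
    rw [List.map_cons]
    exact Dr.cross _ _ _ _ _ _ _ _ ih
  | kill A B a S cs S' L' h ih =>
    rw [List.map_append] at ih
    rw [List.map_append, List.map_cons]
    exact Dr.kill _ _ _ _ _ _ _ ih
  | vert A B y Kx Ky S cs S' L' hy h1 h2 h3 h4 h ih =>
    rw [List.map_append, List.map_append, List.map_map] at ih ⊢
    rw [Set.image_insert_eq] at ih
    have e1 : (A8f e ∘ fun k => (Γ.nb y k, k)) = fun k => (Γ'.nb (e y) k, k) := by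
      funext k
      simp only [Function.comp, A8f, he]
    have e2 : (A8f e ∘ fun k : ZMod 4 => (y, k)) = fun k => (e y, k) := by
      funext k
      simp only [Function.comp, A8f]
    rw [e1]
    rw [e2] at ih
    refine Dr.vert _ _ _ _ _ _ _ _ _ (fun hm => ?_) h1 h2 (fun k hk => ?_) (fun k hk hm => ?_) ih
    · exact hy ((hi.mem_set_image).1 hm)
    · rw [← he]
      exact Set.mem_image_of_mem _ (h3 k hk)
    · rw [← he] at hm
      exact h4 k hk ((hi.mem_set_image).1 hm)

private theorem A8_cnt {V V' : Type} {e : V → V'} (hi : Function.Injective e)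
    (cs : List ((V × ZMod 4) × (V × ZMod 4))) (l : V × ZMod 4) :
    cnt (cs.map (Prod.map (A8f e) (A8f e))) (A8f e l) = cnt cs l := by
  classical
  have hf := A8f_inj hi
  unfold cnt
  rw [List.filter_map, List.length_map]
  congr 1
  refine List.filter_congr fun c _ => ?_
  simp only [Function.comp, Prod.map_fst, Prod.map_snd, hf.eq_iff]
  exact decide_eq_decide.2 Iff.rfl

/-- LEAF A8 (part 1, easy-medium). Transport along an isomorphism. -/
theorem GI_congr {H H' : Type} [Group H] [Group H'] {t : ZMod 4 → H} {t' : ZMod 4 → H'} (h : GI t) (e : H ≃* H')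
    (he : ∀ k, e (t k) = t' k) : GI t' := by
  have hi : Function.Injective e := e.injective
  refine ⟨fun k => ?_, fun k hk => ?_, fun k l hkl => ?_, ?_⟩
  · rw [← he, ← map_mul, h.sq, map_one]
  · rw [← he, ← map_one e] at hk
    exact h.ne k (hi hk)
  · rw [← he, ← he] at hkl
    exact h.inj (hi hkl)
  · have h1 : Set.range t' = e.toMonoidHom '' Set.range t := by
      ext x
      simp only [Set.mem_range, Set.mem_image]
      constructor
      · rintro ⟨k, rfl⟩
        exact ⟨t k, ⟨k, rfl⟩, he k⟩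
      · rintro ⟨_, ⟨k, rfl⟩, rfl⟩
        exact ⟨k, (he k).symm⟩
    rw [h1, ← MonoidHom.map_closure, h.gen]
    exact Subgroup.map_top_of_surjective _ e.surjective

theorem good_congr {H H' : Type} [Group H] [Group H'] {t : ZMod 4 → H} {t' : ZMod 4 → H'} (h : GI t) (h' : GI t')
    (e : H ≃* H') (he : ∀ k, e (t k) = t' k) (K : ℕ) (hG : GoodBlock h K) : GoodBlock h' K := by
  classical
  intro A
  have hi : Function.Injective e := e.injective
  have hnb : ∀ x k, e ((HG h).nb x k) = (HG h').nb (e x) k := by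
    intro x k
    show e (x * t k) = e x * t' k
    rw [map_mul, he]
  obtain ⟨cs, S', h1, h2, h3, h4⟩ := hG (A.image e.symm)
  refine ⟨cs.map (Prod.map (A8f e) (A8f e)), e '' S', ?_, ?_, fun k => ?_, fun l => ?_⟩
  · have h5 := A8_dr (Γ := HG h) (Γ' := HG h') (fun x => e x) hi hnb h1
    rw [Set.image_singleton, map_one, List.map_map, List.map_nil] at h5
    have e1 : (A8f (fun x => e x) ∘ fun k : ZMod 4 => ((1 : H), k)) = fun k => ((1 : H'), k) := by
      funext k
      simp only [Function.comp, A8f, map_one]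
    rw [e1] at h5
    exact h5
  · intro x hx
    refine ⟨e.symm x, h2 ?_, e.apply_symm_apply x⟩
    rw [Finset.mem_coe, Finset.mem_image]
    exact ⟨x, hx, rfl⟩
  · have e1 : ((1 : H'), k) = A8f (fun x => e x) ((1 : H), k) := by
      simp only [A8f, map_one]
    rw [e1]
    exact (A8_cnt (e := fun x => e x) hi cs _).trans (h3 k)
  · obtain ⟨x, k⟩ := l
    have e1 : (x, k) = A8f (fun x => e x) (e.symm x, k) := by
      simp only [A8f, e.apply_symm_apply]
    rw [e1]
    exact (A8_cnt (e := fun x => e x) hi cs _).trans_le (h4 _)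

/-- LEAF A8 (part 2, easy). `exists_amal0`, `exists_amal`, `next_sys`, `exists_step`, `next_GI`. -/
theorem next_exists {Q : Type} [Group Q] (S : Sys0 Q) (h : GI S.t) :
    ∃ (Q' : Type) (_ : Group Q') (S' : Sys0 Q'), GI S'.t ∧ Nonempty (Step S.t S'.t) := by
  obtain ⟨A0⟩ := exists_amal0 S
  obtain ⟨A⟩ := exists_amal S A0
  obtain ⟨S', hD1, hD2, ht, hE, hI, hB⟩ := next_sys A
  obtain ⟨st⟩ := exists_step A h S' hD1 hD2 ht hE hI hB
  exact ⟨A.G, A.gG, S', next_GI A h S' hD1 hD2 ht st, ⟨st⟩⟩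

/-- A system with a good drawing. -/
private structure A8B where
  Q : Type
  [gQ : Group Q]
  S : Sys0 Q
  gi : GI S.t
  good : GoodBlock gi 100000

attribute [local instance] A8B.gQ

/-- LEAF A8 (part 3, easy-medium). The sequence of groups: bundle (`Q`, group, system, `GI`, good) in a structure or subtype, start with `base_sys`, `GI_t0`, `good_zero`, step `next_exists`, `good_step` (`K = 100000`), recursion with choice. -/
theorem exists_seq : ∃ (H : ℕ → Type) (_ : ∀ n, Group (H n)) (t : ∀ n, ZMod 4 → H n) (gi : ∀ n, GI (t n)),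
    (∀ n, Nonempty (Step (t n) (t (n + 1)))) ∧ ∀ n, GoodBlock (gi n) 100000 := by
  obtain ⟨Q, gQ, S, e, he⟩ := base_sys
  let b0 : A8B := @A8B.mk Q gQ S (GI_congr GI_t0 e he) (good_congr GI_t0 _ e he 100000 (good_zero 100000))
  have hstep : ∀ b : A8B, ∃ b' : A8B, Nonempty (Step b.S.t b'.S.t) := by
    intro b
    obtain ⟨Q', gQ', S', gi', ⟨st⟩⟩ := next_exists b.S b.gi
    exact ⟨@A8B.mk Q' gQ' S' gi' (good_step b.gi gi' st 100000 le_rfl ⟨50000, rfl⟩ b.good), ⟨st⟩⟩
  choose nx hnx using hstep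
  let bs : ℕ → A8B := fun n => Nat.rec (motive := fun _ => A8B) b0 (fun _ b => nx b) n
  let Hn : ℕ → Type := fun n : ℕ => ↥((bs n).S.q.ker)
  let gn : ∀ n, Group (Hn n) := fun n : ℕ => (inferInstance : Group ↥((bs n).S.q.ker))
  let tn : ∀ n, ZMod 4 → Hn n := fun n : ℕ => (bs n).S.t
  exact ⟨Hn, gn, tn, fun n : ℕ => (bs n).gi, fun n : ℕ => hnx (bs n), fun n : ℕ => (bs n).good⟩

end KPl
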