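import Pool.Agent.Lib.MP_d3a5e5_coK.K1

set_option autoImplicit false

namespace KPl

open QPl

private theorem K2_L1 {V C : Type} {Γ : CGr V C} {S : Set V} {L : List (V × C)} (hw : WF Γ S L) {y : V} {Kx : List C}
    (hKx : ∀ k, k ∈ Kx ↔ Γ.nb y k ∈ S) {L1 : List (V × C)} (hp : L.Perm (Kx.map (fun k => (Γ.nb y k, k)) ++ L1))
    (d : V × C) : d ∈ L1 ↔ d ∈ L ∧ Γ.nb d.1 d.2 ≠ y := by
  constructor
  · intro hd
    have h1 : d ∈ L := hp.mem_iff.2 (List.mem_append_right _ hd)
    refine ⟨h1, fun e => ?_⟩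
    have h2 : Γ.nb y d.2 = d.1 := by rw [← e, Γ.inv]
    have h3 : d.2 ∈ Kx := (hKx d.2).2 (by rw [h2]; exact (hw.2 d h1).1)
    have h4 : d ∈ Kx.map (fun k => (Γ.nb y k, k)) := List.mem_map.2 ⟨d.2, h3, by rw [h2]⟩
    have h5 : (Kx.map (fun k => (Γ.nb y k, k)) ++ L1).Nodup := hp.nodup_iff.1 hw.1
    exact (List.disjoint_of_nodup_append h5) h4 hd
  · rintro ⟨h1, h2⟩
    rcases List.mem_append.1 (hp.mem_iff.1 h1) with h | h
    · obtain ⟨k, _, rfl⟩ := List.mem_map.1 h
      exact absurd (Γ.inv y k) h2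
    · exact h

/-- LEAF K2 (this whole file). Process the vertices of the list `P` one after the other, by `proc_dr`; only the darts of `L` and darts with lower end in `P` are crossed. The hypothesis
`hfull`: all alive edges which end in `P` are in `L`. Induction on `P`: for `P = y :: P'` let `Kx` be the list of the colours `k` with `nb y k ∈ S` and `Ky` the list of the others. The dart `(nb y k, k)`, `k ∈ Kx`, is
in `L` by `hfull`. After `y`: the list is `Ky.map (y, ·) ++ L1`, `L.Perm (Kx.map .. ++ L1)`; `d ∈ L1 ↔ d ∈ L ∧ nb d ≠ y` (`L` has no repetitions, and `d ∈ L`, `nb d = y` gives `d = (nb y k, k)`,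
`k = d.2 ∈ Kx`). `hfull` for `P'` and `insert y S`: clear. `Dr.wf` gives `WF` for the new state. -/
theorem procs {V : Type} {Γ : CGr V (ZMod 4)} (S : Set V) (L : List (V × ZMod 4)) (hw : WF Γ S L) (P : List V)
    (hP : P.Nodup) (hS : ∀ y ∈ P, y ∉ S) (hfull : ∀ x ∈ S, ∀ k, Γ.nb x k ∈ P → (x, k) ∈ L) :
    ∃ (cs : List ((V × ZMod 4) × (V × ZMod 4))) (L' : List (V × ZMod 4)),
      Dr Γ S L cs (S ∪ {y | y ∈ P}) L' ∧ cs.length ≤ P.length * (L.length + 4 * P.length) ^ 2 ∧
      (∀ c ∈ cs, (c.1 ∈ L ∨ c.1.1 ∈ P) ∧ (c.2 ∈ L ∨ c.2.1 ∈ P)) ∧ L'.length ≤ L.length + 4 * P.length ∧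
      (∀ d, d ∈ L' ↔ (d ∈ L ∧ Γ.nb d.1 d.2 ∉ P) ∨ (d.1 ∈ P ∧ Γ.nb d.1 d.2 ∉ S ∧ Γ.nb d.1 d.2 ∉ P)) := by
  classical
  induction P generalizing S L with
  | nil =>
    have e : S ∪ {y | y ∈ ([] : List V)} = S := by
      ext z
      simp
    refine ⟨[], L, ?_, Nat.zero_le _, fun c hc => absurd hc List.not_mem_nil, le_rfl, fun d => ?_⟩
    · rw [e]
      exact Dr.refl S L
    · simp
  | cons y P ih =>
    rw [List.nodup_cons] at hP
    obtain ⟨hyP, hP⟩ := hP
    have hyS : y ∉ S := hS y List.mem_cons_self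
    let Kx : List (ZMod 4) := (Finset.univ : Finset (ZMod 4)).toList.filter (fun k => decide (Γ.nb y k ∈ S))
    let Ky : List (ZMod 4) := (Finset.univ : Finset (ZMod 4)).toList.filter (fun k => decide (Γ.nb y k ∉ S))
    have hKx : ∀ k, k ∈ Kx ↔ Γ.nb y k ∈ S := fun k => by
      rw [List.mem_filter]
      simp
    have hKy : ∀ k, k ∈ Ky ↔ Γ.nb y k ∉ S := fun k => by
      rw [List.mem_filter]
      simp
    have hKyl : Ky.length ≤ 4 := by
      have h1 : Ky.length ≤ (Finset.univ : Finset (ZMod 4)).toList.length := List.length_filter_le _ _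
      rw [Finset.length_toList] at h1
      exact h1
    have h1 : (Kx ++ Ky).Nodup := by
      rw [List.nodup_append]
      refine ⟨(Finset.nodup_toList _).filter _, (Finset.nodup_toList _).filter _, ?_⟩
      rintro k hk l hl rfl
      exact (hKy k).1 hl ((hKx k).1 hk)
    have h2 : ∀ k, k ∈ Kx ++ Ky := by
      intro k
      rw [List.mem_append, hKx, hKy]
      exact Classical.em _
    have h5 : ∀ k ∈ Kx, (Γ.nb y k, k) ∈ L := by
      intro k hk
      exact hfull _ ((hKx k).1 hk) k (by rw [Γ.inv]; exact List.mem_cons_self)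
    obtain ⟨cs1, L1, hd1, hl1, hm1, hp1⟩ := proc_dr S L hw y Kx Ky hyS h1 h2 (fun k hk => (hKx k).1 hk)
      (fun k hk => (hKy k).1 hk) h5
    have hL1 := K2_L1 hw hKx hp1
    have hw2 : WF Γ (insert y S) (Ky.map (fun k => (y, k)) ++ L1) := Dr.wf hd1 hw
    have hL2 : ∀ d, d ∈ Ky.map (fun k => (y, k)) ++ L1 ↔
        (d.1 = y ∧ Γ.nb d.1 d.2 ∉ S) ∨ (d ∈ L ∧ Γ.nb d.1 d.2 ≠ y) := by
      intro d
      rw [List.mem_append, hL1 d]
      refine or_congr_left ?_
      constructor
      · intro h
        obtain ⟨k, hk, rfl⟩ := List.mem_map.1 h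
        exact ⟨rfl, (hKy k).1 hk⟩
      · rintro ⟨e, h⟩
        obtain ⟨a, k⟩ := d
        have e' : a = y := e
        subst e'
        exact List.mem_map.2 ⟨k, (hKy k).2 h, rfl⟩
    have hlen2 : (Ky.map (fun k => (y, k)) ++ L1).length ≤ L.length + 4 := by
      rw [List.length_append, List.length_map]
      have := hp1.length_eq
      rw [List.length_append] at this
      omega
    obtain ⟨cs2, L', hd2, hl2, hm2, hL'l, hL'⟩ := ih (insert y S) (Ky.map (fun k => (y, k)) ++ L1) hw2 hP
      (by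
        intro z hz hz2
        rcases Set.mem_insert_iff.1 hz2 with h | h
        · subst h
          exact hyP hz
        · exact hS z (List.mem_cons_of_mem y hz) h)
      (by
        intro x hx k hk
        rw [hL2]
        rcases Set.mem_insert_iff.1 hx with h | h
        · exact Or.inl ⟨h, hS _ (List.mem_cons_of_mem y hk)⟩
        · refine Or.inr ⟨hfull x h k (List.mem_cons_of_mem y hk), fun e => ?_⟩
          have e' : Γ.nb x k = y := e
          rw [e'] at hk
          exact hyP hk)
    have eS : insert y S ∪ {z | z ∈ P} = S ∪ {z | z ∈ y :: P} := by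
      ext z
      rw [Set.mem_union, Set.mem_union, Set.mem_insert_iff]
      change (z = y ∨ z ∈ S) ∨ z ∈ P ↔ z ∈ S ∨ z ∈ y :: P
      rw [List.mem_cons]
      tauto
    rw [eS] at hd2
    refine ⟨cs1 ++ cs2, L', Dr.trans hd1 hd2, ?_, ?_, ?_, ?_⟩
    · rw [List.length_append, List.length_cons]
      have a1 : L.length ^ 2 ≤ (L.length + 4 * (P.length + 1)) ^ 2 := Nat.pow_le_pow_left (by omega) 2
      have a2 : ((Ky.map (fun k => (y, k)) ++ L1).length + 4 * P.length) ^ 2 ≤
          (L.length + 4 * (P.length + 1)) ^ 2 := Nat.pow_le_pow_left (by omega) 2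
      have a3 := Nat.mul_le_mul_left P.length a2
      rw [add_mul, one_mul]
      omega
    · intro c hc
      rcases List.mem_append.1 hc with hc | hc
      · exact ⟨Or.inl (hm1 c hc).1, Or.inl (hm1 c hc).2⟩
      · have key : ∀ e : V × ZMod 4, (e ∈ Ky.map (fun k => (y, k)) ++ L1 ∨ e.1 ∈ P) → (e ∈ L ∨ e.1 ∈ y :: P) := by
          intro e he
          rcases he with he | he
          · rcases (hL2 e).1 he with h | h
            · exact Or.inr (h.1 ▸ List.mem_cons_self)
            · exact Or.inl h.1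
          · exact Or.inr (List.mem_cons_of_mem y he)
        exact ⟨key _ (hm2 c hc).1, key _ (hm2 c hc).2⟩
    · rw [List.length_cons]
      omega
    · intro d
      rw [hL' d, hL2 d]
      have hne : d.1 = y → Γ.nb d.1 d.2 ≠ y := by
        intro e
        rw [← e]
        exact Γ.ne d.1 d.2
      simp only [List.mem_cons, Set.mem_insert_iff, not_or]
      tauto

variable {V C : Type} {Γ : CGr V C}

/-- Two consecutive derivations: a dart which is not alive between them is crossed only in one of them (`Dr.both`). -/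
theorem cnt_chain {S0 S1 S2 : Set V} {L0 L1 L2 : List (V × C)} {cs cs' : List ((V × C) × (V × C))}
    (h : Dr Γ S0 L0 cs S1 L1) (hw : WF Γ S0 L0) (h' : Dr Γ S1 L1 cs' S2 L2) {l : V × C} (hl : l ∉ L1) {K : ℕ}
    (h1 : cnt cs l ≤ K) (h2 : cnt cs' l ≤ K) : cnt (cs ++ cs') l ≤ K := by
  rw [cnt_append]
  by_cases h3 : cnt cs l = 0
  · omega
  · by_cases h4 : cnt cs' l = 0
    · omega
    · exact absurd (Dr.both h hw h' h3 h4) hl

/-- `WF` of a part of the list. -/
private theorem K2_part {S : Set V} {A L B : List (V × C)} (hw : WF Γ S (A ++ L ++ B)) : WF Γ S L :=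
  ⟨((List.nodup_append.1 (List.nodup_append.1 hw.1).1).2).1,
    fun l hl => hw.2 l (List.mem_append_left _ (List.mem_append_right _ hl))⟩

/-- A derivation which starts with the part `L` of the list `A ++ L ++ B` does not cross the darts of `A` and `B`: they are different from the darts of `L` (no repetitions) and their
lower ends are in `S`. -/
theorem cnt_frame {S S' : Set V} {A L B L' : List (V × C)} {cs : List ((V × C) × (V × C))} (h : Dr Γ S L cs S' L')
    (hw : WF Γ S (A ++ L ++ B)) {l : V × C} (hl : l ∈ A ∨ l ∈ B) : cnt cs l = 0 := by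
  by_contra hc
  have h1 := (Dr.log h (K2_part hw) hc).1
  have h2 : l.1 ∈ S := by
    rcases hl with hl | hl
    · exact (hw.2 l (List.mem_append_left _ (List.mem_append_left _ hl))).1
    · exact (hw.2 l (List.mem_append_right _ hl)).1
  have h3 : l ∈ L := h1.resolve_right (not_not_intro h2)
  rcases hl with hl | hl
  · exact List.disjoint_of_nodup_append (List.nodup_append.1 hw.1).1 hl h3
  · exact List.disjoint_of_nodup_append hw.1 (List.mem_append_right _ h3) hl

/-- `WF` of a part of the list. -/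
theorem WF.part {S : Set V} {A L B : List (V × C)} (hw : WF Γ S (A ++ L ++ B)) : WF Γ S L :=
  K2_part hw

/-- A dart whose upper end is processed is not crossed. -/
theorem cnt_dead {S S' : Set V} {L L' : List (V × C)} {cs : List ((V × C) × (V × C))} (h : Dr Γ S L cs S' L')
    (hw : WF Γ S L) {l : V × C} (hl : Γ.nb l.1 l.2 ∈ S) : cnt cs l = 0 := by
  by_contra hc
  exact (Dr.log h hw hc).2.2 hl

/-- A dart whose lower end is processed, but which is not in the list, is not crossed. -/
theorem cnt_out {S S' : Set V} {L L' : List (V × C)} {cs : List ((V × C) × (V × C))} (h : Dr Γ S L cs S' L')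
    (hw : WF Γ S L) {l : V × C} (hl : l.1 ∈ S) (hl' : l ∉ L) : cnt cs l = 0 := by
  by_contra hc
  rcases (Dr.log h hw hc).1 with h1 | h1
  · exact hl' h1
  · exact h1 hl

end KPl
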