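import Pool.Agent.Lib.MP_d3a5e5_coK.S2
import Pool.Agent.Lib.MP_d3a5e5_coK.K2

set_option autoImplicit false

namespace KPl

variable {H H' : Type} [Group H] [Group H'] {t : ZMod 4 → H} {t' : ZMod 4 → H'}

/-- The two edges of the ring of `w` which leave `mv w p` (for the position `p`): the upper pair. -/
def UP (st : Step t t') (w : F4 H) (p : ZMod 16) : List (H' × ZMod 4) :=
  [(st.mv w p, colr (st.par w) (p - 1)), (st.mv w p, colr (st.par w) p)]

/-- The two edges of the ring of `w` which end at `mv w p`: the lower pair. -/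
def LP (st : Step t t') (w : F4 H) (p : ZMod 16) : List (H' × ZMod 4) :=
  [(st.mv w (p - 1), colr (st.par w) (p - 1)), (st.mv w (p + 1), colr (st.par w) p)]

/-- The fresh vertices at `w`, with parent block `b`. -/
def FR (st : Step t t') (w : F4 H) (b : ZMod 4) : Set H' := {m | ∃ p, blk p ≠ b ∧ m = st.mv w p}

/-- The edges with both ends in the set `P`. -/
def EP (st : Step t t') (P : F4 H → Prop) : Set H' := {m | ∃ z p, m = st.mv z p ∧ P z ∧ P (z * T t p)}

/-- The vertices of `H'` which belong to the block `(v, b)` and everything behind it. -/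
def PW (st : Step t t') (v : F4 H) (b : ZMod 4) : Set H' := EP st (fun z => br v b z ≠ 1)

/-- The list at the start of the block `(v, b)`: the upper pairs of its four root edges. -/
def Ul (st : Step t t') (v : F4 H) (b : ZMod 4) : List (H' × ZMod 4) :=
  ([3, 1, 2, 0] : List (ZMod 4)).flatMap (fun k => UP st (v * T t (pst b k)) (pst b k))

/-- The list at the start of the three child blocks of `w`, with parent block `b`. -/
def Zl (st : Step t t') (w : F4 H) (b : ZMod 4) : List (H' × ZMod 4) :=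
  ([b + 1, b + 2, b + 3] : List (ZMod 4)).flatMap (fun b' => Ul st w b')

/-! LEAF C0 (this whole file). -/

theorem par_T' (st : Step t t') (v : F4 H) (p : ZMod 16) : st.par (v * T t p) = !st.par v := st.par_T v p

/-- The other direction of `mv_col`. -/
theorem mv_down (h' : GI t') (st : Step t t') (v : F4 H) (p : ZMod 16) :
    st.mv v p * t' (colr (st.par v) (p - 1)) = st.mv v (p - 1) := by
  have h1 := st.mv_col v (p - 1)
  rw [sub_add_cancel] at h1
  rw [← h1, mul_assoc, h'.sq, mul_one]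

/-- The neighbours of `mv w p`: colours of the ring of `w` and of the ring of `w * T t p`. -/
theorem mv_nb (h' : GI t') (st : Step t t') (w : F4 H) (p : ZMod 16) :
    (HG h').nb (st.mv w p) (colr (st.par w) (p - 1)) = st.mv w (p - 1) ∧
    (HG h').nb (st.mv w p) (colr (st.par w) p) = st.mv w (p + 1) ∧
    (HG h').nb (st.mv w p) (colr (!st.par w) (p - 1)) = st.mv (w * T t p) (p - 1) ∧
    (HG h').nb (st.mv w p) (colr (!st.par w) p) = st.mv (w * T t p) (p + 1) := by
  refine ⟨mv_down h' st w p, st.mv_col w p, ?_, ?_⟩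
  · have h1 := mv_down h' st (w * T t p) p
    rw [st.mv_T, st.par_T] at h1
    exact h1
  · have h1 := st.mv_col (w * T t p) p
    rw [st.mv_T, st.par_T] at h1
    exact h1

/-- Adjacent vertices of `H'` are neighbours in some ring. -/
theorem adj_ring (h' : GI t') (st : Step t t') {m m' : H'} (hm : (HG h').graph.Adj m m') :
    ∃ v p, (m = st.mv v p ∧ m' = st.mv v (p + 1)) ∨ (m = st.mv v (p + 1) ∧ m' = st.mv v p) := by
  obtain ⟨k, hk⟩ := hm
  obtain ⟨v, p, hvp⟩ := st.mv_surj m
  obtain ⟨n1, n2, n3, n4⟩ := mv_nb h' st v p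
  have h4 := (colr_four (st.par v) p).2 k
  rw [← hvp] at hk
  simp only [List.mem_cons, List.not_mem_nil, or_false] at h4
  rcases h4 with h4 | h4 | h4 | h4
  · rw [h4, n1] at hk
    exact ⟨v, p - 1, Or.inr ⟨by rw [sub_add_cancel, hvp], hk.symm⟩⟩
  · rw [h4, n2] at hk
    exact ⟨v, p, Or.inl ⟨hvp.symm, hk.symm⟩⟩
  · rw [h4, n3] at hk
    exact ⟨v * T t p, p - 1, Or.inr ⟨by rw [sub_add_cancel, st.mv_T, hvp], hk.symm⟩⟩
  · rw [h4, n4] at hk
    exact ⟨v * T t p, p, Or.inl ⟨by rw [st.mv_T, hvp], hk.symm⟩⟩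

theorem mv_ne (h : GI t) (st : Step t t') {v v' : F4 H} {p p' : ZMod 16} (hp : p ≠ p') : st.mv v p ≠ st.mv v' p' := by
  intro e
  exact hp (st.mv_inj v p v' p' e).1

theorem mv_eq (st : Step t t') {v v' : F4 H} {p : ZMod 16} : st.mv v p = st.mv v' p ↔ v' = v ∨ v' = v * T t p := by
  refine ⟨fun e => (st.mv_inj v p v' p e).2, ?_⟩
  rintro (rfl | rfl)
  · rfl
  · rw [st.mv_T]

/-- Darts in different rings are different: the colour determines the parity of the ring vertex. -/
theorem dart_eq (h : GI t) (st : Step t t') {v v' : F4 H} {p p' q q' : ZMod 16}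
    (e : (st.mv v p, colr (st.par v) q) = (st.mv v' p', colr (st.par v') q')) :
    v = v' ∧ p = p' ∧ q.val % 2 = q'.val % 2 := by
  have e1 : st.mv v p = st.mv v' p' := congrArg Prod.fst e
  have e2 : colr (st.par v) q = colr (st.par v') q' := congrArg Prod.snd e
  obtain ⟨hp, hv⟩ := st.mv_inj v p v' p' e1
  obtain ⟨hc, hq⟩ := colr_eq _ _ _ _ e2
  refine ⟨?_, hp, hq⟩
  rcases hv with hv | hv
  · exact hv.symm
  · rw [hv, st.par_T] at hc
    cases hpar : st.par v <;> rw [hpar] at hc <;> exact absurd hc (by decide)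

theorem mem_EP (h : GI t) (st : Step t t') (P : F4 H → Prop) (z : F4 H) (p : ZMod 16) :
    st.mv z p ∈ EP st P ↔ P z ∧ P (z * T t p) := by
  refine ⟨?_, fun hz => ⟨z, p, rfl, hz⟩⟩
  rintro ⟨z', p', e, h1, h2⟩
  obtain ⟨rfl, hz | hz⟩ := st.mv_inj z p z' p' e
  · rw [hz] at h1 h2
    exact ⟨h1, h2⟩
  · rw [hz] at h1 h2
    rw [mul_assoc, T_sq h, mul_one] at h2
    exact ⟨h2, h1⟩

theorem mem_PW (h : GI t) (st : Step t t') (v : F4 H) (b : ZMod 4) (z : F4 H) (p : ZMod 16) :
    st.mv z p ∈ PW st v b ↔ br v b z ≠ 1 ∧ br v b (z * T t p) ≠ 1 :=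
  mem_EP h st _ z p

theorem mem_FR (h : GI t) (st : Step t t') (w : F4 H) (b : ZMod 4) (z : F4 H) (p : ZMod 16) :
    st.mv z p ∈ FR st w b ↔ blk p ≠ b ∧ (z = w ∨ z = w * T t p) := by
  constructor
  · rintro ⟨p', hb, e⟩
    obtain ⟨rfl, hz | hz⟩ := st.mv_inj z p w p' e
    · exact ⟨hb, Or.inl hz.symm⟩
    · refine ⟨hb, Or.inr ?_⟩
      rw [hz, mul_assoc, T_sq h, mul_one]
  · rintro ⟨hb, rfl | rfl⟩
    · exact ⟨p, hb, rfl⟩
    · exact ⟨p, hb, st.mv_T w p⟩

end KPl
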