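import Pool.Agent.Lib.MP_d3a5e5_coK.C0

set_option autoImplicit false

namespace KPl

/-! LEAF C0b (this whole file). -/

variable {H H' : Type} [Group H] [Group H'] {t : ZMod 4 → H} {t' : ZMod 4 → H'}

private theorem C0b_succ : ∀ b : ZMod 4, b + 1 ≠ b := by decide

private theorem C0b_pred : ∀ b : ZMod 4, b - 1 ≠ b := by decide

private theorem C0b_all : ∀ k : ZMod 4, k ∈ ([3, 1, 2, 0] : List (ZMod 4)) := by decide

private theorem C0b_nd : ([3, 1, 2, 0] : List (ZMod 4)).Nodup := by decide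

private theorem C0b_fours : ∀ b : ZMod 4, ([b + 1, b + 2, b + 3] : List (ZMod 4)).Pairwise (fun x y => x ≠ y) := by
  decide

/-- Different blocks at `w` have nothing in common, and no edge at `w`. -/
theorem PW_disj (h : GI t) (st : Step t t') (w : F4 H) {b b' : ZMod 4} (hb : b ≠ b') : Disjoint (PW st w b) (PW st w b') := by
  rw [Set.disjoint_left]
  rintro m ⟨z, p, rfl, h1, h2⟩ h3
  rw [mem_PW h st] at h3
  exact h3.1 (br_unique w z (Ne.symm hb) h1)

theorem mv_not_PW (h : GI t) (st : Step t t') (w : F4 H) (b : ZMod 4) (p : ZMod 16) : st.mv w p ∉ PW st w b := by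
  rw [mem_PW h st]
  intro h1
  exact h1.1 (br_self w b)

/-- The neighbours `mv (w * T t p) (p ± 1)` of the edge `mv w p` belong to the block of `p` at `w`. -/
theorem nb_PW (h : GI t) (st : Step t t') (w : F4 H) (p : ZMod 16) :
    st.mv (w * T t p) (p + 1) ∈ PW st w (blk p) ∧ st.mv (w * T t p) (p - 1) ∈ PW st w (blk p) := by
  have h1 : br w (blk p) (w * T t p) ≠ 1 := by
    rw [br_nb]
    exact h.ne _
  refine ⟨?_, ?_⟩
  · rw [mem_PW h st]
    refine ⟨h1, ?_⟩
    rw [br_T_ne w (blk p) (w * T t p) (p + 1) (by rw [blk_succ]; exact C0b_succ _)]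
    exact h1
  · rw [mem_PW h st]
    refine ⟨h1, ?_⟩
    rw [br_T_ne w (blk p) (w * T t p) (p - 1) (by rw [blk_pred]; exact C0b_pred _)]
    exact h1

theorem mem_Ul (st : Step t t') (v : F4 H) (b : ZMod 4) (d : H' × ZMod 4) :
    d ∈ Ul st v b ↔ ∃ p, blk p = b ∧ d ∈ UP st (v * T t p) p := by
  unfold Ul
  rw [List.mem_flatMap]
  constructor
  · rintro ⟨k, _, hd⟩
    exact ⟨pst b k, blk_pst b k, hd⟩
  · rintro ⟨p, hp, hd⟩
    refine ⟨lab p, C0b_all _, ?_⟩
    rw [← hp, pst_blk_lab]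
    exact hd

theorem mem_Zl (st : Step t t') (w : F4 H) (b : ZMod 4) (d : H' × ZMod 4) :
    d ∈ Zl st w b ↔ ∃ p, blk p ≠ b ∧ d ∈ UP st (w * T t p) p := by
  unfold Zl
  rw [List.mem_flatMap]
  constructor
  · rintro ⟨b', hb', hd⟩
    rw [mem_Ul] at hd
    obtain ⟨p, hp, hd⟩ := hd
    refine ⟨p, ?_, hd⟩
    rw [hp]
    exact (mem_fours b b').1 hb'
  · rintro ⟨p, hp, hd⟩
    refine ⟨blk p, (mem_fours b (blk p)).2 hp, ?_⟩
    rw [mem_Ul]
    exact ⟨p, rfl, hd⟩

private theorem C0b_UP (h : GI t) (st : Step t t') {w w' : F4 H} {p q : ZMod 16} (hpq : p ≠ q) {d : H' × ZMod 4}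
    (h1 : d ∈ UP st w p) (h2 : d ∈ UP st w' q) : False := by
  have e1 : d.1 = st.mv w p := by
    unfold UP at h1
    rw [List.mem_cons, List.mem_singleton] at h1
    rcases h1 with rfl | rfl <;> rfl
  have e2 : d.1 = st.mv w' q := by
    unfold UP at h2
    rw [List.mem_cons, List.mem_singleton] at h2
    rcases h2 with rfl | rfl <;> rfl
  exact mv_ne h st hpq (e1.symm.trans e2)

private theorem C0b_Ul (h : GI t) (st : Step t t') (v : F4 H) (b : ZMod 4) : (Ul st v b).Nodup := by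
  unfold Ul
  rw [List.nodup_flatMap]
  refine ⟨fun k _ => ?_, ?_⟩
  · unfold UP
    have h1 := (colr_four (st.par (v * T t (pst b k))) (pst b k)).1
    rw [List.nodup_cons, List.nodup_cons] at h1
    rw [List.nodup_cons]
    refine ⟨fun h2 => ?_, List.nodup_singleton _⟩
    rw [List.mem_singleton, Prod.mk.injEq] at h2
    apply h1.1
    rw [h2.2]
    exact List.mem_cons_self
  · refine List.Pairwise.imp_of_mem ?_ C0b_nd
    intro k l _ _ hkl d hd1 hd2
    have hpq : pst b k ≠ pst b l := by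
      intro e
      apply hkl
      rw [← lab_pst b k, ← lab_pst b l, e]
    exact C0b_UP h st hpq hd1 hd2

private theorem C0b_wf (h : GI t) (h' : GI t') (st : Step t t') (v : F4 H) (p : ZMod 16) (S : Set H')
    (h1 : st.mv v p ∈ S) (h2 : ∀ m ∈ PW st v (blk p), m ∉ S) {d : H' × ZMod 4}
    (hd : d ∈ UP st (v * T t p) p) : d.1 ∈ S ∧ (HG h').nb d.1 d.2 ∉ S := by
  have h3 := mv_nb h' st (v * T t p) p
  have h4 := nb_PW h st v p
  unfold UP at hd
  rw [List.mem_cons, List.mem_singleton] at hd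
  rcases hd with rfl | rfl
  · refine ⟨?_, ?_⟩
    · show st.mv (v * T t p) p ∈ S
      rw [st.mv_T]
      exact h1
    · show (HG h').nb (st.mv (v * T t p) p) (colr (st.par (v * T t p)) (p - 1)) ∉ S
      rw [h3.1]
      exact h2 _ h4.2
  · refine ⟨?_, ?_⟩
    · show st.mv (v * T t p) p ∈ S
      rw [st.mv_T]
      exact h1
    · show (HG h').nb (st.mv (v * T t p) p) (colr (st.par (v * T t p)) p) ∉ S
      rw [h3.2.1]
      exact h2 _ h4.1

theorem Zl_nodup (h : GI t) (st : Step t t') (w : F4 H) (b : ZMod 4) : (Zl st w b).Nodup := by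
  unfold Zl
  rw [List.nodup_flatMap]
  refine ⟨fun b' _ => C0b_Ul h st w b', ?_⟩
  refine List.Pairwise.imp_of_mem ?_ (C0b_fours b)
  intro b1 b2 _ _ hb d hd1 hd2
  rw [mem_Ul] at hd1 hd2
  obtain ⟨p, hp, hd1⟩ := hd1
  obtain ⟨q, hq, hd2⟩ := hd2
  have hpq : p ≠ q := by
    intro e
    apply hb
    rw [← hp, ← hq, e]
  exact C0b_UP h st hpq hd1 hd2

/-- The start of a block is a well formed state. -/
theorem Ul_wf (h : GI t) (h' : GI t') (st : Step t t') (v : F4 H) (b : ZMod 4) (S : Set H')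
    (h1 : ∀ p, blk p = b → st.mv v p ∈ S) (h2 : ∀ m ∈ PW st v b, m ∉ S) : WF (HG h') S (Ul st v b) := by
  refine ⟨C0b_Ul h st v b, fun d hd => ?_⟩
  rw [mem_Ul] at hd
  obtain ⟨p, hp, hd⟩ := hd
  exact C0b_wf h h' st v p S (h1 p hp) (fun m hm => h2 m (by rw [← hp]; exact hm)) hd

theorem Zl_wf (h : GI t) (h' : GI t') (st : Step t t') (w : F4 H) (b : ZMod 4) (S : Set H')
    (h1 : ∀ p, blk p ≠ b → st.mv w p ∈ S) (h2 : ∀ b', b' ≠ b → ∀ m ∈ PW st w b', m ∉ S) :
    WF (HG h') S (Zl st w b) := by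
  refine ⟨Zl_nodup h st w b, fun d hd => ?_⟩
  rw [mem_Zl] at hd
  obtain ⟨p, hp, hd⟩ := hd
  exact C0b_wf h h' st w p S (h1 p hp) (h2 (blk p) hp) hd

end KPl
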