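import Pool.Agent.Lib.MP_d3a5e5_coK.C0b

set_option autoImplicit false

namespace KPl

variable {H H' : Type} [Group H] [Group H'] {t : ZMod 4 → H} {t' : ZMod 4 → H'}

/-- What comes from the fresh vertices `mv w (p - 1)`, `mv w (p + 1)`, when their edge to `mv w p` comes from below: the edge to the middle vertex and the upper
pair of the child edge. -/
def E1 (st : Step t t') (w : F4 H) (p : ZMod 16) : List (H' × ZMod 4) :=
  ((st.mv w (p - 1), colr (st.par w) (p - 2)) :: UP st (w * T t (p - 1)) (p - 1)) ++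
    ((st.mv w (p + 1), colr (st.par w) (p + 1)) :: UP st (w * T t (p + 1)) (p + 1))

private theorem C1a_dif : ∀ p p' : ZMod 16, blk p = blk p' → p ≠ p' →
    p' - p = 4 ∨ p' - p = 8 ∨ p' - p = 12 := by
  unfold blk
  decide

private theorem C1a_pos (p p' : ZMod 16) (hb : blk p = blk p') (hn : p ≠ p') :
    (p' - 1 ≠ p - 1 ∧ p' - 1 ≠ p + 1 ∧ p' + 1 ≠ p - 1 ∧ p' + 1 ≠ p + 1) ∧
      (p' - 2 ≠ p - 1 ∧ p' - 2 ≠ p + 1 ∧ p' + 2 ≠ p - 1 ∧ p' + 2 ≠ p + 1) ∧ p' ≠ p - 1 ∧ p' ≠ p + 1 := by
  obtain ⟨r, hr⟩ : ∃ r, p' = p + r := ⟨p' - p, by ring⟩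
  have h1 := C1a_dif p p' hb hn
  rw [hr, add_sub_cancel_left] at h1
  have key : ∀ a b : ZMod 16, p' + a = p + b → r = b - a := by
    intro a b h
    rw [hr] at h
    linear_combination h
  have hn1 : ∀ a b : ZMod 16, b - a ≠ 4 → b - a ≠ 8 → b - a ≠ 12 → p' + a ≠ p + b := by
    intro a b h4 h8 h12 h
    rw [key a b h] at h1
    rcases h1 with h1 | h1 | h1
    · exact h4 h1
    · exact h8 h1
    · exact h12 h1
  have f : ∀ a b : ZMod 16, (b - a ≠ 4 ∧ b - a ≠ 8 ∧ b - a ≠ 12) → p' + a ≠ p + b := fun a b h =>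
    hn1 a b h.1 h.2.1 h.2.2
  simp only [sub_eq_add_neg]
  refine ⟨⟨f _ _ (by decide), f _ _ (by decide), f _ _ (by decide), f _ _ (by decide)⟩,
    ⟨f _ _ (by decide), f _ _ (by decide), f _ _ (by decide), f _ _ (by decide)⟩, ?_, ?_⟩
  · have := f 0 (-1) (by decide)
    rwa [add_zero] at this
  · have := f 0 1 (by decide)
    rwa [add_zero] at this

private theorem C1a_blk : ∀ p : ZMod 16, blk (p - 1) ≠ blk p ∧ blk (p + 1) ≠ blk p ∧ blk (p - 2) ≠ blk p ∧
    blk (p + 2) ≠ blk p := by
  unfold blk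
  decide

private theorem C1a_self : ∀ p : ZMod 16, p + 1 ≠ p - 1 ∧ p + 2 ≠ p - 1 ∧ p ≠ p - 1 ∧ p ≠ p + 1 := by
  decide

/-- What is needed at one position. -/
private structure C1aL (st : Step t t') (w : F4 H) (S : Set H') (p : ZMod 16) : Prop where
  i0 : st.mv w p ∈ S
  a1 : st.mv w (p - 1) ∉ S
  a2 : st.mv w (p + 1) ∉ S
  a3 : st.mv w (p - 2) ∉ S
  a4 : st.mv w (p + 2) ∉ S
  b1 : st.mv (w * T t (p - 1)) (p - 2) ∉ S
  b2 : st.mv (w * T t (p - 1)) p ∉ S
  b3 : st.mv (w * T t (p + 1)) p ∉ S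
  b4 : st.mv (w * T t (p + 1)) (p + 2) ∉ S

private theorem C1a_ind (h : GI t) (h' : GI t') (st : Step t t') (w : F4 H) (X : List (ZMod 16)) :
    ∀ S : Set H', X.Nodup → (∀ p ∈ X, ∀ q ∈ X, blk p = blk q) → (∀ p ∈ X, C1aL st w S p) →
    Dr (HG h') S (X.flatMap (UP st w)) [] (S ∪ {m | ∃ p ∈ X, m = st.mv w (p - 1) ∨ m = st.mv w (p + 1)})
      (X.flatMap (E1 st w)) := by
  induction X with
  | nil =>
    intro S _ _ _
    have e : S ∪ {m | ∃ p ∈ ([] : List (ZMod 16)), m = st.mv w (p - 1) ∨ m = st.mv w (p + 1)} = S := by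
      ext m
      simp
    rw [e]
    exact Dr.refl S _
  | cons p X ih =>
    intro S hn hb hX
    have hp := hX p List.mem_cons_self
    obtain ⟨s1, s2, s3, s4⟩ := C1a_self p
    -- the neighbours of the two fresh vertices
    obtain ⟨n1, n2, n3, n4⟩ := mv_nb h' st w (p - 1)
    obtain ⟨m1, m2, m3, m4⟩ := mv_nb h' st w (p + 1)
    have e1 : p - 1 - 1 = p - 2 := by ring
    have e2 : p - 1 + 1 = p := by ring
    have e3 : p + 1 - 1 = p := by ring
    have e4 : p + 1 + 1 = p + 2 := by ring
    rw [e1] at n1 n3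
    rw [e2] at n2 n4
    rw [e3] at m1 m3
    rw [e4] at m2 m4
    -- the rest
    set S1 : Set H' := insert (st.mv w (p + 1)) (insert (st.mv w (p - 1)) S) with hS1
    have hrest : ∀ q ∈ X, C1aL st w S1 q := by
      intro q hq
      have hpq : p ≠ q := by
        rintro rfl
        exact (List.nodup_cons.1 hn).1 hq
      obtain ⟨⟨c1, c2, c3, c4⟩, ⟨d1, d2, d3, d4⟩, f1, f2⟩ :=
        C1a_pos p q (hb p List.mem_cons_self q (List.mem_cons_of_mem _ hq)) hpq
      have hq' := hX q (List.mem_cons_of_mem _ hq)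
      have key : ∀ (v : F4 H) (r : ZMod 16), r ≠ p - 1 → r ≠ p + 1 → st.mv v r ∉ S → st.mv v r ∉ S1 := by
        intro v r h1 h2 h3 h4
        rcases h4 with h4 | h4 | h4
        · exact mv_ne h st h2 h4
        · exact mv_ne h st h1 h4
        · exact h3 h4
      exact ⟨Or.inr (Or.inr hq'.i0), key _ _ c1 c2 hq'.a1, key _ _ c3 c4 hq'.a2, key _ _ d1 d2 hq'.a3,
        key _ _ d3 d4 hq'.a4, key _ _ d1 d2 hq'.b1, key _ _ f1 f2 hq'.b2, key _ _ f1 f2 hq'.b3,
        key _ _ d3 d4 hq'.b4⟩
    have hD := ih S1 (List.nodup_cons.1 hn).2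
      (fun q hq r hr => hb q (List.mem_cons_of_mem _ hq) r (List.mem_cons_of_mem _ hr)) hrest
    have hset : S1 ∪ {m | ∃ q ∈ X, m = st.mv w (q - 1) ∨ m = st.mv w (q + 1)} =
        S ∪ {m | ∃ q ∈ p :: X, m = st.mv w (q - 1) ∨ m = st.mv w (q + 1)} := by
      ext m
      constructor
      · rintro ((h1 | h1 | h1) | ⟨q, hq, h1⟩)
        · exact Or.inr ⟨p, List.mem_cons_self, Or.inr h1⟩
        · exact Or.inr ⟨p, List.mem_cons_self, Or.inl h1⟩
        · exact Or.inl h1
        · exact Or.inr ⟨q, List.mem_cons_of_mem _ hq, h1⟩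
      · rintro (h1 | ⟨q, hq, h1⟩)
        · exact Or.inl (Or.inr (Or.inr h1))
        · rcases List.mem_cons.1 hq with rfl | hq
          · rcases h1 with h1 | h1
            · exact Or.inl (Or.inr (Or.inl h1))
            · exact Or.inl (Or.inl h1)
          · exact Or.inr ⟨q, hq, h1⟩
    rw [hset] at hD
    -- colours
    obtain ⟨g1, g2⟩ := colr_four (st.par w) (p - 1)
    obtain ⟨k1, k2⟩ := colr_four (st.par w) (p + 1)
    rw [e1] at g1 g2
    rw [e3] at k1 k2
    -- lists
    have hUP : UP st w p = [(st.mv w p, colr (st.par w) (p - 1)), (st.mv w p, colr (st.par w) p)] := rfl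
    have hU1 : UP st (w * T t (p - 1)) (p - 1) =
        [(st.mv w (p - 1), colr (!st.par w) (p - 2)), (st.mv w (p - 1), colr (!st.par w) (p - 1))] := by
      unfold UP
      rw [st.mv_T, par_T', e1]
    have hU2 : UP st (w * T t (p + 1)) (p + 1) =
        [(st.mv w (p + 1), colr (!st.par w) p), (st.mv w (p + 1), colr (!st.par w) (p + 1))] := by
      unfold UP
      rw [st.mv_T, par_T', e3]
    have hE : E1 st w p = ([colr (st.par w) (p - 2), colr (!st.par w) (p - 2), colr (!st.par w) (p - 1)] :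
          List (ZMod 4)).map (fun k => (st.mv w (p - 1), k)) ++
        ([colr (st.par w) (p + 1), colr (!st.par w) p, colr (!st.par w) (p + 1)] :
          List (ZMod 4)).map (fun k => (st.mv w (p + 1), k)) := by
      unfold E1
      rw [hU1, hU2]
      rfl
    have hD2 := hD.frame (E1 st w p) []
    rw [List.append_nil, List.append_nil, hE] at hD2
    -- the second event
    have hD3 : Dr (HG h') (insert (st.mv w (p - 1)) S)
        (([colr (st.par w) (p - 2), colr (!st.par w) (p - 2), colr (!st.par w) (p - 1)] :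
          List (ZMod 4)).map (fun k => (st.mv w (p - 1), k)) ++
          ([colr (st.par w) p] : List (ZMod 4)).map (fun k => ((HG h').nb (st.mv w (p + 1)) k, k)) ++
          X.flatMap (UP st w)) [] (S ∪ {m | ∃ q ∈ p :: X, m = st.mv w (q - 1) ∨ m = st.mv w (q + 1)})
        (([colr (st.par w) (p - 2), colr (!st.par w) (p - 2), colr (!st.par w) (p - 1)] :
          List (ZMod 4)).map (fun k => (st.mv w (p - 1), k)) ++
        ([colr (st.par w) (p + 1), colr (!st.par w) p, colr (!st.par w) (p + 1)] :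
          List (ZMod 4)).map (fun k => (st.mv w (p + 1), k)) ++ X.flatMap (E1 st w)) := by
      refine Dr.vert _ _ (st.mv w (p + 1)) [colr (st.par w) p]
        [colr (st.par w) (p + 1), colr (!st.par w) p, colr (!st.par w) (p + 1)] _ _ _ _ ?_ k1 k2 ?_ ?_ hD2
      · rintro (h1 | h1)
        · exact mv_ne h st s1 h1
        · exact hp.a2 h1
      · intro k hk
        rw [List.mem_singleton] at hk
        rw [hk, m1]
        exact Or.inr hp.i0
      · intro k hk
        rw [List.mem_cons, List.mem_cons, List.mem_singleton] at hk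
        rcases hk with rfl | rfl | rfl
        · rw [m2]
          rintro (h1 | h1)
          · exact mv_ne h st s2 h1
          · exact hp.a4 h1
        · rw [m3]
          rintro (h1 | h1)
          · exact mv_ne h st s3 h1
          · exact hp.b3 h1
        · rw [m4]
          rintro (h1 | h1)
          · exact mv_ne h st s2 h1
          · exact hp.b4 h1
    -- the first event
    have hD4 : Dr (HG h') S (([] : List (H' × ZMod 4)) ++
        ([colr (st.par w) (p - 1)] : List (ZMod 4)).map (fun k => ((HG h').nb (st.mv w (p - 1)) k, k)) ++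
          ((st.mv w p, colr (st.par w) p) :: X.flatMap (UP st w))) []
        (S ∪ {m | ∃ q ∈ p :: X, m = st.mv w (q - 1) ∨ m = st.mv w (q + 1)})
        (([colr (st.par w) (p - 2), colr (!st.par w) (p - 2), colr (!st.par w) (p - 1)] :
          List (ZMod 4)).map (fun k => (st.mv w (p - 1), k)) ++
        ([colr (st.par w) (p + 1), colr (!st.par w) p, colr (!st.par w) (p + 1)] :
          List (ZMod 4)).map (fun k => (st.mv w (p + 1), k)) ++ X.flatMap (E1 st w)) := by
      refine Dr.vert _ _ (st.mv w (p - 1)) [colr (st.par w) (p - 1)]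
        [colr (st.par w) (p - 2), colr (!st.par w) (p - 2), colr (!st.par w) (p - 1)] _ _ _ _ hp.a1 ?_ ?_ ?_ ?_ ?_
      · simp only [List.singleton_append, List.nodup_cons, List.mem_cons, not_or,
          List.not_mem_nil, not_false_eq_true, List.nodup_nil, and_true] at g1 ⊢
        tauto
      · intro k
        have := g2 k
        simp only [List.singleton_append, List.mem_cons, List.not_mem_nil, or_false] at this ⊢
        tauto
      · intro k hk
        rw [List.mem_singleton] at hk
        rw [hk, n2]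
        exact hp.i0
      · intro k hk
        rw [List.mem_cons, List.mem_cons, List.mem_singleton] at hk
        rcases hk with rfl | rfl | rfl
        · rw [n1]
          exact hp.a3
        · rw [n3]
          exact hp.b1
        · rw [n4]
          exact hp.b2
      · have e5 : ([colr (st.par w) p] : List (ZMod 4)).map (fun k => ((HG h').nb (st.mv w (p + 1)) k, k)) =
            [(st.mv w p, colr (st.par w) p)] := by
          show [((HG h').nb (st.mv w (p + 1)) (colr (st.par w) p), colr (st.par w) p)] = _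
          rw [m1]
        rw [e5] at hD3
        simpa using hD3
    have e6 : ([colr (st.par w) (p - 1)] : List (ZMod 4)).map (fun k => ((HG h').nb (st.mv w (p - 1)) k, k)) =
        [(st.mv w p, colr (st.par w) (p - 1))] := by
      show [((HG h').nb (st.mv w (p - 1)) (colr (st.par w) (p - 1)), colr (st.par w) (p - 1))] = _
      rw [n2]
    rw [e6] at hD4
    rw [List.flatMap_cons, List.flatMap_cons, hUP, hE]
    exact hD4

/-- LEAF C1a. Phase 1 of the gadget: every strand of `X` ends at once at its fresh vertex (no crossings). Induction on `X` with `Dr.trans` and `Dr.frame`. For `p ∈ X`: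
`UP st w p = [(mv w p, colr (par w) (p - 1)), (mv w p, colr (par w) p)]`. Event `vert` at `y = mv w (p - 1)` with `Kx = [colr (par w) (p - 1)]` and
`Ky = [colr (par w) (p - 2), colr (!par w) (p - 2), colr (!par w) (p - 1)]`: use `mv_nb` with `p - 1` for `p`; the darts `(y, k)` of the last two are `UP st (w * T t (p - 1)) (p - 1)` (`mv_T`, `par_T`);
`colr_four` for the colours. Then `vert` at `mv w (p + 1)` with `Kx = [colr (par w) p]`, `Ky = [colr (par w) (p + 1), colr (!par w) p, colr (!par w) (p + 1)]`. Not processed: `mv w (p ± 2)` (block `b + 2`, `hF`, and different from all `mv w (q ± 1)`, `q ∈ X`, because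
these have blocks `b ± 1`), `mv (w * T t q) (q ± 1)` (`hU`; different from all `mv w q'`, `nb_PW` and `mv_not_PW`). -/
theorem gadget_X (h : GI t) (h' : GI t') (st : Step t t') (w : F4 H) (b : ZMod 4) (X : List (ZMod 16)) (S : Set H')
    (hXn : X.Nodup) (hb : ∀ p ∈ X, blk p = b) (hX : ∀ p ∈ X, st.mv w p ∈ S) (hF : ∀ p, blk p ≠ b → st.mv w p ∉ S)
    (hU : ∀ p, blk p ≠ b → st.mv (w * T t p) (p + 1) ∉ S ∧ st.mv (w * T t p) (p - 1) ∉ S) :
    Dr (HG h') S (X.flatMap (UP st w)) [] (S ∪ {m | ∃ p ∈ X, m = st.mv w (p - 1) ∨ m = st.mv w (p + 1)})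
      (X.flatMap (E1 st w)) := by
  refine C1a_ind h h' st w X S hXn (fun p hp q hq => (hb p hp).trans (hb q hq).symm) fun p hp => ?_
  obtain ⟨c1, c2, c3, c4⟩ := C1a_blk p
  rw [hb p hp] at c1 c2 c3 c4
  have e1 : p - 1 - 1 = p - 2 := by ring
  have e2 : p - 1 + 1 = p := by ring
  have e3 : p + 1 - 1 = p := by ring
  have e4 : p + 1 + 1 = p + 2 := by ring
  obtain ⟨u1, u2⟩ := hU (p - 1) c1
  obtain ⟨u3, u4⟩ := hU (p + 1) c2
  rw [e2] at u1
  rw [e1] at u2
  rw [e4] at u3
  rw [e3] at u4
  exact ⟨hX p hp, hF _ c1, hF _ c2, hF _ c3, hF _ c4, u2, u1, u4, u3⟩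

end KPl
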