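import Pool.Agent.Lib.MP_d3a5e5_coK.C0b

set_option autoImplicit false

namespace KPl

variable {H H' : Type} [Group H] [Group H'] {t : ZMod 4 → H} {t' : ZMod 4 → H'}

/-- Drawing everything behind the three child blocks of `w` (parent block `b`), down to depth `r`. -/
def Kids (h' : GI t') (st : Step t t') (A : Set H) (K r : ℕ) : Prop :=
  ∀ (w : F4 H) (b : ZMod 4) (S : Set H'), (∀ p, blk p ≠ b → st.mv w p ∈ S) →
    (∀ b', b' ≠ b → ∀ m ∈ PW st w b', m ∉ S) →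
    ∃ (cs : List ((H' × ZMod 4) × (H' × ZMod 4))) (S' : Set H'), Dr (HG h') S (Zl st w b) cs S' [] ∧
      (∀ m ∈ S', m ∈ S ∨ ∃ b', b' ≠ b ∧ m ∈ PW st w b') ∧
      (∀ b', b' ≠ b → ∀ z p, br w b' z ≠ 1 → br w b' (z * T t p) ≠ 1 → Cv A r (w⁻¹ * z) → st.mv z p ∈ S') ∧
      (∀ d, cnt cs d ≤ K) ∧ ∀ d ∈ Zl st w b, cnt cs d = 0

/-- Drawing the block `(v, b)` and everything behind it, down to depth `r + 1`. -/
def World (h' : GI t') (st : Step t t') (A : Set H) (K r : ℕ) : Prop :=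
  ∀ (v : F4 H) (b : ZMod 4) (S : Set H'), (∀ p, blk p = b → st.mv v p ∈ S) → (∀ m ∈ PW st v b, m ∉ S) →
    ∃ (cs : List ((H' × ZMod 4) × (H' × ZMod 4))) (S' : Set H'), Dr (HG h') S (Ul st v b) cs S' [] ∧
      (∀ m ∈ S', m ∈ S ∨ m ∈ PW st v b) ∧
      (∀ z p, br v b z ≠ 1 → br v b (z * T t p) ≠ 1 → Cv A (r + 1) (v⁻¹ * z) → st.mv z p ∈ S') ∧
      (∀ d, cnt cs d ≤ K) ∧ ∀ d ∈ Ul st v b, cnt cs d = 0

end KPl
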