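import Pool.Agent.Lib.MP_d3a5e5_coK.C2Defs

set_option autoImplicit false

namespace KPl

variable {H H' : Type} [Group H] [Group H'] {t : ZMod 4 → H} {t' : ZMod 4 → H'}

/-- LEAF C3a (part 1, easy-medium). The midpoint `mv w p` (`blk p = b` in the applications): event `vert` with `Kx = [colr (par w) (p - 1), colr (par w) p]` (`Kx.map = LP st w p`) and
`Ky = [colr (!par w) (p - 1), colr (!par w) p]`. `mv_nb`, `colr_four`, `mv_T`. -/
theorem mid1 (h : GI t) (h' : GI t') (st : Step t t') (w : F4 H) (p : ZMod 16) (S : Set H') (h1 : st.mv w (p - 1) ∈ S)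
    (h2 : st.mv w (p + 1) ∈ S) (h3 : st.mv w p ∉ S) (h4 : st.mv (w * T t p) (p + 1) ∉ S)
    (h5 : st.mv (w * T t p) (p - 1) ∉ S) :
    Dr (HG h') S (LP st w p) [] (insert (st.mv w p) S) (UP st (w * T t p) p) := by
  obtain ⟨n1, n2, n3, n4⟩ := mv_nb h' st w p
  obtain ⟨c1, c2⟩ := colr_four (st.par w) p
  have key := dr_vert1 (Γ := HG h') S (st.mv w p) [colr (st.par w) (p - 1), colr (st.par w) p]
    [colr (!st.par w) (p - 1), colr (!st.par w) p] h3 c1 c2 (by
      intro k hk
      simp only [List.mem_cons, List.not_mem_nil, or_false] at hk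
      rcases hk with rfl | rfl
      · rw [n1]; exact h1
      · rw [n2]; exact h2) (by
      intro k hk
      simp only [List.mem_cons, List.not_mem_nil, or_false] at hk
      rcases hk with rfl | rfl
      · rw [n3]; exact h5
      · rw [n4]; exact h4)
  simp only [List.map_cons, List.map_nil, n1, n2] at key
  rw [LP, UP, st.mv_T, st.par_T]
  exact key

/-- LEAF C3a (part 2, easy-medium). The midpoints of the `p ∈ Y` with `M p`, one after the other (induction on `Y`, generalize `S`). -/
theorem mids (h : GI t) (h' : GI t') (st : Step t t') (w : F4 H) (b : ZMod 4) (M : ZMod 16 → Bool) (Y : List (ZMod 16))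
    (S : Set H') (hYn : Y.Nodup) (hb : ∀ p ∈ Y, blk p = b) (hY : ∀ p ∈ Y, st.mv w p ∉ S)
    (hF : ∀ p, blk p ≠ b → st.mv w p ∈ S)
    (hM : ∀ p ∈ Y, M p = true → st.mv (w * T t p) (p + 1) ∉ S ∧ st.mv (w * T t p) (p - 1) ∉ S) :
    Dr (HG h') S (Y.flatMap (LP st w)) [] (S ∪ {m | ∃ p ∈ Y, M p = true ∧ m = st.mv w p})
      (Y.flatMap (fun p => if M p = true then UP st (w * T t p) p else LP st w p)) := by
  have hb1 : ∀ q : ZMod 16, blk q = b → blk (q + 1) ≠ b ∧ blk (q - 1) ≠ b := by
    intro q hq
    rw [blk_succ, blk_pred, hq]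
    have hd : ∀ x : ZMod 4, x + 1 ≠ x ∧ x - 1 ≠ x := by decide
    exact hd b
  induction Y generalizing S with
  | nil =>
    have e : S ∪ {m | ∃ p ∈ ([] : List (ZMod 16)), M p = true ∧ m = st.mv w p} = S := by
      ext m
      simp
    rw [e]
    exact Dr.refl _ _
  | cons p Y ih =>
    rw [List.nodup_cons] at hYn
    obtain ⟨hp1, hp2⟩ := hb1 p (hb p List.mem_cons_self)
    by_cases hMp : M p = true
    · obtain ⟨m1, m2⟩ := hM p List.mem_cons_self hMp
      have k1 := mid1 h h' st w p S (hF _ hp2) (hF _ hp1) (hY p List.mem_cons_self) m1 m2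
      have k2 := ih (insert (st.mv w p) S) hYn.2 (fun q hq => hb q (List.mem_cons_of_mem _ hq))
        (fun q hq hin => by
          rcases hin with hin | hin
          · exact mv_ne h st (fun e : q = p => hYn.1 (e ▸ hq)) hin
          · exact hY q (List.mem_cons_of_mem _ hq) hin)
        (fun q hq => Set.mem_insert_of_mem _ (hF q hq))
        (fun q hq hMq => by
          obtain ⟨a1, a2⟩ := hM q (List.mem_cons_of_mem _ hq) hMq
          obtain ⟨b1, b2⟩ := hb1 q (hb q (List.mem_cons_of_mem _ hq))
          have hbp := hb p List.mem_cons_self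
          constructor
          · intro hin
            rcases hin with hin | hin
            · exact mv_ne h st (fun e => b1 (by rw [e, hbp])) hin
            · exact a1 hin
          · intro hin
            rcases hin with hin | hin
            · exact mv_ne h st (fun e => b2 (by rw [e, hbp])) hin
            · exact a2 hin)
      have k1' := k1.frame [] (Y.flatMap (LP st w))
      have k2' := k2.frame (UP st (w * T t p) p) []
      rw [List.nil_append] at k1'
      rw [List.append_nil] at k2'
      have k3 := k1'.trans k2'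
      have e : insert (st.mv w p) S ∪ {m | ∃ q ∈ Y, M q = true ∧ m = st.mv w q} =
          S ∪ {m | ∃ q ∈ p :: Y, M q = true ∧ m = st.mv w q} := by
        ext m
        simp only [Set.mem_union, Set.mem_insert_iff, Set.mem_ofPred_eq, List.mem_cons]
        constructor
        · rintro ((rfl | hm) | ⟨q, hq, hMq, rfl⟩)
          · exact Or.inr ⟨p, Or.inl rfl, hMp, rfl⟩
          · exact Or.inl hm
          · exact Or.inr ⟨q, Or.inr hq, hMq, rfl⟩
        · rintro (hm | ⟨q, rfl | hq, hMq, rfl⟩)
          · exact Or.inl (Or.inr hm)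
          · exact Or.inl (Or.inl rfl)
          · exact Or.inr ⟨q, hq, hMq, rfl⟩
      rw [e] at k3
      simp only [List.flatMap_cons, hMp, if_true]
      simpa only [List.append_assoc, List.append_nil, List.nil_append] using k3
    · have k2 := ih S hYn.2 (fun q hq => hb q (List.mem_cons_of_mem _ hq))
        (fun q hq => hY q (List.mem_cons_of_mem _ hq)) hF
        (fun q hq => hM q (List.mem_cons_of_mem _ hq))
      have k3 := k2.frame (LP st w p) []
      have e : S ∪ {m | ∃ q ∈ Y, M q = true ∧ m = st.mv w q} =
          S ∪ {m | ∃ q ∈ p :: Y, M q = true ∧ m = st.mv w q} := by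
        ext m
        simp only [Set.mem_union, Set.mem_ofPred_eq, List.mem_cons]
        constructor
        · rintro (hm | ⟨q, hq, hMq, rfl⟩)
          · exact Or.inl hm
          · exact Or.inr ⟨q, Or.inr hq, hMq, rfl⟩
        · rintro (hm | ⟨q, rfl | hq, hMq, rfl⟩)
          · exact Or.inl hm
          · exact absurd hMq hMp
          · exact Or.inr ⟨q, hq, hMq, rfl⟩
      rw [e] at k3
      simp only [List.flatMap_cons, if_neg hMp]
      simpa only [List.append_assoc, List.append_nil, List.nil_append] using k3

end KPl
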