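import Pool.Agent.Lib.MP_d3a5e5_coK.C2Defs

set_option autoImplicit false

namespace KPl

variable {H H' : Type} [Group H] [Group H'] {t : ZMod 4 → H} {t' : ZMod 4 → H'}

/-- The dart `l` of the block is represented by its upper pair: it is a root edge, or at most half of its crossings are left. -/
def aft (tot : H × ZMod 4 → ℕ) (cs : List ((H × ZMod 4) × (H × ZMod 4))) (l : H × ZMod 4) : Prop :=
  l.1 = 1 ∨ cnt cs l ≤ tot l / 2

open Classical in
/-- The pair of edges of `H'` which represents the dart `l` of the block `(v, b)`; `cs` is the log of the rest of the derivation. -/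
noncomputable def Tp (st : Step t t') (v : F4 H) (b : ZMod 4) (tot : H × ZMod 4 → ℕ)
    (cs : List ((H × ZMod 4) × (H × ZMod 4))) (l : H × ZMod 4) : List (H' × ZMod 4) :=
  if aft tot cs l then UP st (v * ofb b (l.1 * t l.2)) (pst b l.2) else LP st (v * ofb b l.1) (pst b l.2)

open Classical in
/-- The number of crossings which are left before the pair `Tp` of `l` ends. -/
noncomputable def rst (tot : H × ZMod 4 → ℕ) (cs : List ((H × ZMod 4) × (H × ZMod 4))) (l : H × ZMod 4) : ℕ :=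
  if aft tot cs l then cnt cs l else cnt cs l - tot l / 2

/-- The invariants: `S`, `L` is a state of the block, `M` the set of the processed vertices of `H'`. -/
structure Inv (h' : GI t') (st : Step t t') (v : F4 H) (b : ZMod 4) (tot : H × ZMod 4 → ℕ) (S : Set H)
    (L : List (H × ZMod 4)) (cs : List ((H × ZMod 4) × (H × ZMod 4))) (M : Set H') : Prop where
  wf : WF (HG h') M (L.flatMap (Tp st v b tot cs))
  i1 : ∀ y, y ∉ S → ∀ z p, br v b z = y → br v b (z * T t p) = y → st.mv z p ∉ M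
  i2 : ∀ y k, y ∉ S → y * t k ∉ S → st.mv (v * ofb b y) (pst b k) ∉ M
  i3 : ∀ l ∈ L, (st.mv (v * ofb b l.1) (pst b l.2) ∈ M ↔ aft tot cs l)
  i4 : ∀ x ∈ S, x ≠ 1 → ∀ p, blk p ≠ b → st.mv (v * ofb b x) p ∈ M

/-- The result: from the state `S`, `L` of the block to the state `S'`, `L'` with log `cs`, when `M` is processed in `H'`. -/
def TRes (h' : GI t') (st : Step t t') (A : Set H) (K r : ℕ) (v : F4 H) (b : ZMod 4) (tot : H × ZMod 4 → ℕ) (S : Set H)
    (L : List (H × ZMod 4)) (cs : List ((H × ZMod 4) × (H × ZMod 4))) (S' : Set H) (L' : List (H × ZMod 4))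
    (M : Set H') : Prop :=
  ∃ (csM : List ((H' × ZMod 4) × (H' × ZMod 4))) (M' : Set H'),
    Dr (HG h') M (L.flatMap (Tp st v b tot cs)) csM M' (L'.flatMap (Tp st v b tot [])) ∧
    (∀ m ∈ M', m ∈ M ∨ m ∈ PW st v b) ∧
    (∀ x ∈ S', x ∉ S → ∀ p, blk p ≠ b → st.mv (v * ofb b x) p ∈ M') ∧
    (∀ x ∈ S', x ∉ S → ∀ b', b' ≠ b → ∀ z p, br (v * ofb b x) b' z ≠ 1 → br (v * ofb b x) b' (z * T t p) ≠ 1 →
      Cv A r ((v * ofb b x)⁻¹ * z) → st.mv z p ∈ M') ∧
    (∀ x ∈ S', ∀ k, x * t k ∈ S' → (x ∉ S ∨ x * t k ∉ S) → st.mv (v * ofb b x) (pst b k) ∈ M') ∧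
    (∀ l ∈ L, ∀ d ∈ Tp st v b tot cs l, cnt csM d ≤ 2 * rst tot cs l) ∧
    (∀ d, d ∉ L.flatMap (Tp st v b tot cs) → cnt csM d ≤ K)

private theorem C4Defs_T (v : F4 H) (b k : ZMod 4) (x : H) :
    v * ofb b x * T t (pst b k) = v * ofb b (x * t k) := by
  unfold T
  rw [blk_pst, lab_pst, mul_assoc, ← map_mul]

private theorem C4Defs_ne (h : GI t) (k : ZMod 4) : t k ≠ 1 := by
  intro e
  have h1 := T_ne h (pst 0 k)
  unfold T at h1
  rw [lab_pst, e, map_one] at h1
  exact h1 rfl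

private theorem C4Defs_mul_ne (h : GI t) {x y : H} {k : ZMod 4} (h1 : x = y) (h2 : x * t k = y) : False := by
  rw [← h1] at h2
  exact C4Defs_ne h k (mul_eq_left.1 h2)

/-- LEAF C4a (part 1, easy): `(v * ofb b x) * T t (pst b k) = v * ofb b (x * t k)`. -/
theorem phi_T (v : F4 H) (b k : ZMod 4) (x : H) :
    v * ofb b x * T t (pst b k) = v * ofb b (x * t k) := by
  exact C4Defs_T v b k x

/-- LEAF C4a (part 2, easy-medium): the edge of the block with ends `x`, `x * t k`. -/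
theorem phi_edge (h : GI t) (st : Step t t') (v : F4 H) (b : ZMod 4) (x y : H) (k l : ZMod 4)
    (e : st.mv (v * ofb b x) (pst b k) = st.mv (v * ofb b y) (pst b l)) : k = l ∧ (y = x ∨ y = x * t k) := by
  have hp : pst b k = pst b l := by
    by_contra hp
    exact mv_ne h st hp e
  have hk : k = l := by
    rw [← lab_pst b k, hp, lab_pst]
  subst hk
  refine ⟨rfl, ?_⟩
  rcases (mv_eq st).1 e with h1 | h1
  · exact Or.inl (ofb_inj b (mul_left_cancel h1))
  · rw [phi_T] at h1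
    exact Or.inr (ofb_inj b (mul_left_cancel h1))

/-- LEAF C4a (part 3, easy-medium): the edges of the block are not in a branch, not behind another block of a vertex of the block, and not fresh; unless a root edge they belong to the block. -/
theorem phi_edge_not (h : GI t) (st : Step t t') (v : F4 H) (b : ZMod 4) (x : H) (k : ZMod 4) :
    (∀ y, st.mv (v * ofb b x) (pst b k) ∉ EP st (fun z => br v b z = y)) ∧
    (∀ y b', b' ≠ b → st.mv (v * ofb b x) (pst b k) ∉ PW st (v * ofb b y) b') ∧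
    (∀ y, st.mv (v * ofb b x) (pst b k) ∉ FR st (v * ofb b y) b) ∧
    (x ≠ 1 → x * t k ≠ 1 → st.mv (v * ofb b x) (pst b k) ∈ PW st v b) := by
  refine ⟨fun y hm => ?_, fun y b' hb' hm => ?_, fun y hm => ?_, fun h1 h2 => ?_⟩
  · rw [mem_EP h, phi_T, br_ofb, br_ofb] at hm
    exact C4Defs_mul_ne h hm.1 hm.2
  · rw [mem_PW h, phi_T] at hm
    have h1 := br_sub v hb' y _ hm.1
    have h2 := br_sub v hb' y _ hm.2
    rw [br_ofb] at h1 h2
    exact C4Defs_mul_ne h h1 h2
  · rw [mem_FR h, blk_pst] at hm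
    exact hm.1 rfl
  · rw [mem_PW h, phi_T, br_ofb, br_ofb]
    exact ⟨h1, h2⟩

/-- LEAF C4a (part 4, easy-medium): the fresh vertices of `v * ofb b y` and what is behind its child blocks are in the branch of `y`; for `y ≠ 1` they belong to the block. -/
theorem phi_branch (h : GI t) (st : Step t t') (v : F4 H) (b : ZMod 4) (y : H) :
    (∀ m ∈ FR st (v * ofb b y) b, m ∈ EP st (fun z => br v b z = y)) ∧
    (∀ b', b' ≠ b → ∀ m ∈ PW st (v * ofb b y) b', m ∈ EP st (fun z => br v b z = y)) ∧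
    (y ≠ 1 → ∀ m ∈ EP st (fun z => br v b z = y), m ∈ PW st v b) := by
  refine ⟨?_, ?_, ?_⟩
  · rintro m ⟨p, hp, rfl⟩
    rw [mem_EP h]
    exact ⟨br_ofb v b y, (br_T_ne v b _ p hp).trans (br_ofb v b y)⟩
  · rintro b' hb' m ⟨z, p, rfl, h1, h2⟩
    rw [mem_EP h]
    exact ⟨br_sub v hb' y _ h1, br_sub v hb' y _ h2⟩
  · rintro hy m ⟨z, p, rfl, h1, h2⟩
    rw [mem_PW h]
    refine ⟨?_, ?_⟩
    · rw [h1]
      exact hy
    · rw [h2]
      exact hy

/-- LEAF C4a (part 5, easy): for `b`-positions `p` of an edge of the block, the neighbours `mv (v * ofb b y) (pst b k ± 1)` are in the branch of `y`. -/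
theorem phi_nb (h : GI t) (st : Step t t') (v : F4 H) (b k : ZMod 4) (y : H) :
    st.mv (v * ofb b y) (pst b k + 1) ∈ FR st (v * ofb b y) b ∧ st.mv (v * ofb b y) (pst b k - 1) ∈ FR st (v * ofb b y) b := by
  refine ⟨⟨pst b k + 1, ?_, rfl⟩, ⟨pst b k - 1, ?_, rfl⟩⟩
  · rw [blk_succ, blk_pst]
    intro e
    have h1 : (1 : ZMod 4) = 0 := add_eq_left.1 e
    exact absurd h1 (by decide)
  · rw [blk_pred, blk_pst]
    intro e
    have h1 : (1 : ZMod 4) = 0 := sub_eq_self.1 e
    exact absurd h1 (by decide)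

end KPl
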