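import Pool.Agent.Lib.MP_d3a5e5_coK.C4Defs
import Pool.Agent.Lib.MP_d3a5e5_coK.C3a

set_option autoImplicit false

namespace KPl

variable {H H' : Type} [Group H] [Group H'] {t : ZMod 4 → H} {t' : ZMod 4 → H'}

private theorem C4b_kill_list {V C : Type} {Γ : CGr V C} {S S' : Set V} {L' : List (V × C)}
    {cs : List ((V × C) × (V × C))} (A B : List (V × C)) :
    ∀ X : List (V × C), Dr Γ S (A ++ B) cs S' L' → Dr Γ S (A ++ (X ++ B)) cs S' L'
  | [], h => h
  | x :: X, h => Dr.kill A (X ++ B) x S cs S' L' (C4b_kill_list A B X h)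

/-- LEAF C4b (easy-medium): the case `kill`. The two darts of `Tp a` are killed (`Dr.kill` twice). The invariants for `S`, `A ++ B` are clear (`wf`: parts of the list). The claims follow from those of the rest: for `d ∈ Tp a` the lower end is processed and
`d` is not in the new list (no repetitions), so `cnt = 0` by `cnt_out`; `d` not in the old list is not in the new list. -/
theorem tr_kill (h : GI t) (h' : GI t') (st : Step t t') (A : Set H) (K r : ℕ) (v : F4 H) (b : ZMod 4)
    (tot : H × ZMod 4 → ℕ) (A1 B1 : List (H × ZMod 4)) (a : H × ZMod 4) (S S' : Set H)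
    (cs : List ((H × ZMod 4) × (H × ZMod 4))) (L' : List (H × ZMod 4)) (hw : WF (HG h) S (A1 ++ a :: B1))
    (hD : Dr (HG h) S (A1 ++ B1) cs S' L')
    (ih : ∀ M, Inv h' st v b tot S (A1 ++ B1) cs M → TRes h' st A K r v b tot S (A1 ++ B1) cs S' L' M) (M : Set H')
    (hI : Inv h' st v b tot S (A1 ++ a :: B1) cs M) : TRes h' st A K r v b tot S (A1 ++ a :: B1) cs S' L' M := by
  have e0 : (A1 ++ a :: B1).flatMap (Tp st v b tot cs) = A1.flatMap (Tp st v b tot cs) ++
      (Tp st v b tot cs a ++ B1.flatMap (Tp st v b tot cs)) := by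
    rw [List.flatMap_append, List.flatMap_cons]
  have e1 : (A1 ++ B1).flatMap (Tp st v b tot cs) =
      A1.flatMap (Tp st v b tot cs) ++ B1.flatMap (Tp st v b tot cs) := List.flatMap_append
  have hmem : ∀ l, l ∈ A1 ++ B1 → l ∈ A1 ++ a :: B1 := by
    intro l hl
    rcases List.mem_append.1 hl with h1 | h1
    · exact List.mem_append_left _ h1
    · exact List.mem_append_right _ (List.mem_cons_of_mem _ h1)
  have hsub : ∀ d, d ∈ (A1 ++ B1).flatMap (Tp st v b tot cs) →
      d ∈ (A1 ++ a :: B1).flatMap (Tp st v b tot cs) := by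
    intro d hd
    obtain ⟨l, hl, hld⟩ := List.mem_flatMap.1 hd
    exact List.mem_flatMap.2 ⟨l, hmem l hl, hld⟩
  have hwf : WF (HG h') M ((A1 ++ a :: B1).flatMap (Tp st v b tot cs)) := hI.wf
  have hnd := hwf.1
  rw [e0] at hnd
  have hnd1 := List.nodup_append.1 hnd
  have hnd2 := List.nodup_append.1 hnd1.2.1
  have hwf' : WF (HG h') M ((A1 ++ B1).flatMap (Tp st v b tot cs)) := by
    refine ⟨?_, fun l hl => hwf.2 l (hsub l hl)⟩
    rw [e1]
    refine List.nodup_append.2 ⟨hnd1.1, hnd2.2.1, fun x hx y hy => ?_⟩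
    exact hnd1.2.2 x hx y (List.mem_append_right _ hy)
  have hInv : Inv h' st v b tot S (A1 ++ B1) cs M :=
    ⟨hwf', hI.i1, hI.i2, fun l hl => hI.i3 l (hmem l hl), hI.i4⟩
  obtain ⟨csM, M', g1, g2, g3, g4, g5, g6, g7⟩ := ih M hInv
  refine ⟨csM, M', ?_, g2, g3, g4, g5, ?_, fun d hd => g7 d fun h1 => hd (hsub d h1)⟩
  · rw [e0]
    rw [e1] at g1
    exact C4b_kill_list _ _ _ g1
  · intro l hl d hd
    rcases List.mem_append.1 hl with h1 | h1
    · exact g6 l (List.mem_append_left _ h1) d hd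
    rcases List.mem_cons.1 h1 with h2 | h2
    · subst h2
      have h3 : d ∈ (A1 ++ l :: B1).flatMap (Tp st v b tot cs) := List.mem_flatMap.2 ⟨l, hl, hd⟩
      have h4 : d ∉ (A1 ++ B1).flatMap (Tp st v b tot cs) := by
        rw [e1]
        intro h5
        rcases List.mem_append.1 h5 with h6 | h6
        · exact hnd1.2.2 d h6 d (List.mem_append_left _ hd) rfl
        · exact hnd2.2.2 d hd d h6 rfl
      rw [cnt_out g1 hwf' (hwf.2 d h3).1 h4]
      exact Nat.zero_le _
    · exact g6 l (List.mem_append_right _ h2) d hd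

end KPl
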