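import Pool.Agent.Lib.MP_d3a5e5_coK.C4Defs
import Pool.Agent.Lib.MP_d3a5e5_coK.C3a

set_option autoImplicit false

namespace KPl

variable {H H' : Type} [Group H] [Group H'] {t : ZMod 4 → H} {t' : ZMod 4 → H'}

private theorem c4c_ne (b : ZMod 4) : b + 1 ≠ b ∧ b - 1 ≠ b := by
  revert b
  decide

private theorem c4c_nb (v : F4 H) (b k : ZMod 4) (y : H) :
    (br v b (v * ofb b y) = y ∧ br v b (v * ofb b y * T t (pst b k + 1)) = y) ∧
      br v b (v * ofb b y * T t (pst b k - 1)) = y := by
  refine ⟨⟨br_ofb v b y, ?_⟩, ?_⟩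
  · rw [br_T_ne, br_ofb]
    rw [blk_succ, blk_pst]
    exact (c4c_ne b).1
  · rw [br_T_ne, br_ofb]
    rw [blk_pred, blk_pst]
    exact (c4c_ne b).2

/-- LEAF C4c (part 1, easy-medium). The midpoint of an alive dart `a` of the block, which is not a root edge: from the lower to the upper pair (`mid1` with `w = v * ofb b a.1`, `p = pst b a.2`). `mv w (p ± 1) ∈ M` by `i4`, `mv w p ∉ M` by hypothesis, and
`mv (v * ofb b (a.1 * t a.2)) (p ± 1) ∉ M` by `i1` for `y = a.1 * t a.2 ∉ S` (`phi_nb`, `phi_branch`, `mem_EP`). -/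
theorem mid_dart (h : GI t) (h' : GI t') (st : Step t t') (v : F4 H) (b : ZMod 4) (S : Set H) (M : Set H')
    (a : H × ZMod 4) (ha : a.1 ∈ S) (ha1 : a.1 ≠ 1) (hau : a.1 * t a.2 ∉ S)
    (i1 : ∀ y, y ∉ S → ∀ z p, br v b z = y → br v b (z * T t p) = y → st.mv z p ∉ M)
    (i4 : ∀ x ∈ S, x ≠ 1 → ∀ p, blk p ≠ b → st.mv (v * ofb b x) p ∈ M)
    (hm : st.mv (v * ofb b a.1) (pst b a.2) ∉ M) :
    Dr (HG h') M (LP st (v * ofb b a.1) (pst b a.2)) [] (insert (st.mv (v * ofb b a.1) (pst b a.2)) M)
      (UP st (v * ofb b (a.1 * t a.2)) (pst b a.2)) := by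
  have hw : v * ofb b a.1 * T t (pst b a.2) = v * ofb b (a.1 * t a.2) := phi_T v b a.2 a.1
  have hnb := c4c_nb (t := t) v b a.2 (a.1 * t a.2)
  have h1 := mid1 h h' st (v * ofb b a.1) (pst b a.2) M
    (i4 a.1 ha ha1 _ (by rw [blk_pred, blk_pst]; exact (c4c_ne b).2))
    (i4 a.1 ha ha1 _ (by rw [blk_succ, blk_pst]; exact (c4c_ne b).1)) hm
    (by rw [hw]; exact i1 _ hau _ _ hnb.1.1 hnb.1.2)
    (by rw [hw]; exact i1 _ hau _ _ hnb.1.1 hnb.2)
  rw [hw] at h1
  exact h1

/-- LEAF C4c (part 2, medium). The midpoints of the alive darts which are represented by the lower pair for the log `cs0` and by the upper pair for the log `cs` (in the case of a crossing `cs0 = (a, b) :: cs`, at most the darts `a` and `b`): one after the other (induction on the list `L2`, the rest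
is a frame). The new set of processed vertices contains exactly the new midpoints. `hmono`: upper stays upper. -/
theorem mid_list (h : GI t) (h' : GI t') (st : Step t t') (v : F4 H) (b : ZMod 4) (tot : H × ZMod 4 → ℕ) (S : Set H)
    (cs0 cs : List ((H × ZMod 4) × (H × ZMod 4))) (L2 : List (H × ZMod 4)) (M : Set H') (hn : L2.Nodup)
    (hL : ∀ l ∈ L2, l.1 ∈ S ∧ l.1 * t l.2 ∉ S) (hmono : ∀ l ∈ L2, aft tot cs0 l → aft tot cs l)
    (i1 : ∀ y, y ∉ S → ∀ z p, br v b z = y → br v b (z * T t p) = y → st.mv z p ∉ M)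
    (i3 : ∀ l ∈ L2, (st.mv (v * ofb b l.1) (pst b l.2) ∈ M ↔ aft tot cs0 l))
    (i4 : ∀ x ∈ S, x ≠ 1 → ∀ p, blk p ≠ b → st.mv (v * ofb b x) p ∈ M) :
    Dr (HG h') M (L2.flatMap (Tp st v b tot cs0)) []
      (M ∪ {m | ∃ l ∈ L2, aft tot cs l ∧ m = st.mv (v * ofb b l.1) (pst b l.2)}) (L2.flatMap (Tp st v b tot cs)) := by
  classical
  induction L2 generalizing M with
  | nil =>
    have e : M ∪ {m | ∃ l ∈ ([] : List (H × ZMod 4)), aft tot cs l ∧
        m = st.mv (v * ofb b l.1) (pst b l.2)} = M := by
      ext m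
      simp
    rw [e]
    exact Dr.refl _ _
  | cons a L2 ih =>
    have ha := hL a List.mem_cons_self
    have hn' := List.nodup_cons.1 hn
    rw [List.flatMap_cons, List.flatMap_cons]
    by_cases hc : aft tot cs0 a
    · have hc' := hmono a List.mem_cons_self hc
      have hT : Tp st v b tot cs0 a = Tp st v b tot cs a := by
        rw [Tp, Tp, if_pos hc, if_pos hc']
      have hM := (i3 a List.mem_cons_self).2 hc
      have h1 := ih M hn'.2 (fun l hl => hL l (List.mem_cons_of_mem _ hl))
        (fun l hl => hmono l (List.mem_cons_of_mem _ hl)) i1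
        (fun l hl => i3 l (List.mem_cons_of_mem _ hl)) i4
      have h2 := h1.frame (Tp st v b tot cs a) []
      rw [List.append_nil, List.append_nil] at h2
      rw [hT]
      have e : M ∪ {m | ∃ l ∈ a :: L2, aft tot cs l ∧ m = st.mv (v * ofb b l.1) (pst b l.2)} =
          M ∪ {m | ∃ l ∈ L2, aft tot cs l ∧ m = st.mv (v * ofb b l.1) (pst b l.2)} := by
        ext m
        constructor
        · rintro (hm | ⟨l, hl, hl1, rfl⟩)
          · exact Or.inl hm
          · rcases List.mem_cons.1 hl with rfl | hl
            · exact Or.inl hM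
            · exact Or.inr ⟨l, hl, hl1, rfl⟩
        · rintro (hm | ⟨l, hl, hl1, rfl⟩)
          · exact Or.inl hm
          · exact Or.inr ⟨l, List.mem_cons_of_mem _ hl, hl1, rfl⟩
      rw [e]
      exact h2
    · have hM : st.mv (v * ofb b a.1) (pst b a.2) ∉ M := fun hm => hc ((i3 a List.mem_cons_self).1 hm)
      have ha1 : a.1 ≠ 1 := fun h => hc (Or.inl h)
      by_cases hc' : aft tot cs a
      · have hT : Tp st v b tot cs0 a = LP st (v * ofb b a.1) (pst b a.2) := by
          rw [Tp, if_neg hc]
        have hT' : Tp st v b tot cs a = UP st (v * ofb b (a.1 * t a.2)) (pst b a.2) := by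
          rw [Tp, if_pos hc']
        have hd := mid_dart h h' st v b S M a ha.1 ha1 ha.2 i1 i4 hM
        have hd2 := hd.frame [] (L2.flatMap (Tp st v b tot cs0))
        rw [List.nil_append, List.nil_append] at hd2
        have h1 := ih (insert (st.mv (v * ofb b a.1) (pst b a.2)) M) hn'.2
          (fun l hl => hL l (List.mem_cons_of_mem _ hl))
          (fun l hl => hmono l (List.mem_cons_of_mem _ hl))
          (by
            intro y hy z p hz1 hz2 hm
            rcases hm with hm | hm
            · exact (phi_edge_not h st v b a.1 a.2).1 y ⟨z, p, hm.symm, hz1, hz2⟩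
            · exact i1 y hy z p hz1 hz2 hm)
          (by
            intro l hl
            rw [← i3 l (List.mem_cons_of_mem _ hl)]
            constructor
            · rintro (hm | hm)
              · exfalso
                obtain ⟨e1, e2⟩ := phi_edge h st v b l.1 a.1 l.2 a.2 hm
                rcases e2 with e2 | e2
                · exact hn'.1 (by rw [show a = l from Prod.ext e2 e1.symm]; exact hl)
                · exact (hL l (List.mem_cons_of_mem _ hl)).2 (e2 ▸ ha.1)
              · exact hm
            · exact fun hm => Or.inr hm)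
          (fun x hx hx1 p hp => Or.inr (i4 x hx hx1 p hp))
        have h2 := h1.frame (Tp st v b tot cs a) []
        rw [List.append_nil, List.append_nil] at h2
        rw [hT]
        rw [hT'] at h2 ⊢
        have e : M ∪ {m | ∃ l ∈ a :: L2, aft tot cs l ∧ m = st.mv (v * ofb b l.1) (pst b l.2)} =
            insert (st.mv (v * ofb b a.1) (pst b a.2)) M ∪
              {m | ∃ l ∈ L2, aft tot cs l ∧ m = st.mv (v * ofb b l.1) (pst b l.2)} := by
          ext m
          constructor
          · rintro (hm | ⟨l, hl, hl1, rfl⟩)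
            · exact Or.inl (Or.inr hm)
            · rcases List.mem_cons.1 hl with rfl | hl
              · exact Or.inl (Or.inl rfl)
              · exact Or.inr ⟨l, hl, hl1, rfl⟩
          · rintro ((rfl | hm) | ⟨l, hl, hl1, rfl⟩)
            · exact Or.inr ⟨a, List.mem_cons_self, hc', rfl⟩
            · exact Or.inl hm
            · exact Or.inr ⟨l, List.mem_cons_of_mem _ hl, hl1, rfl⟩
        rw [e]
        exact hd2.trans h2
      · have hT : Tp st v b tot cs0 a = Tp st v b tot cs a := by
          rw [Tp, Tp, if_neg hc, if_neg hc']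
        have h1 := ih M hn'.2 (fun l hl => hL l (List.mem_cons_of_mem _ hl))
          (fun l hl => hmono l (List.mem_cons_of_mem _ hl)) i1
          (fun l hl => i3 l (List.mem_cons_of_mem _ hl)) i4
        have h2 := h1.frame (Tp st v b tot cs a) []
        rw [List.append_nil, List.append_nil] at h2
        rw [hT]
        have e : M ∪ {m | ∃ l ∈ a :: L2, aft tot cs l ∧ m = st.mv (v * ofb b l.1) (pst b l.2)} =
            M ∪ {m | ∃ l ∈ L2, aft tot cs l ∧ m = st.mv (v * ofb b l.1) (pst b l.2)} := by
          ext m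
          constructor
          · rintro (hm | ⟨l, hl, hl1, rfl⟩)
            · exact Or.inl hm
            · rcases List.mem_cons.1 hl with rfl | hl
              · exact absurd hl1 hc'
              · exact Or.inr ⟨l, hl, hl1, rfl⟩
          · rintro (hm | ⟨l, hl, hl1, rfl⟩)
            · exact Or.inl hm
            · exact Or.inr ⟨l, List.mem_cons_of_mem _ hl, hl1, rfl⟩
        rw [e]
        exact h2

end KPl
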