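import Pool.Agent.Lib.MP_d3a5e5_coK.C4c

set_option autoImplicit false

namespace KPl

variable {H H' : Type} [Group H] [Group H'] {t : ZMod 4 → H} {t' : ZMod 4 → H'}

/-- Four crossings exchange two pairs. -/
private theorem C4d_four {V C : Type} {Γ : CGr V C} (S : Set V) (a1 a2 c1 c2 : V × C) :
    Dr Γ S [a1, a2, c1, c2] [(a2, c1), (a1, c1), (a2, c2), (a1, c2)] S [c1, c2, a1, a2] :=
  Dr.cross [a1] [c2] a2 c1 S _ S _ <| Dr.cross [] [a2, c2] a1 c1 S _ S _ <|
    Dr.cross [c1, a1] [] a2 c2 S _ S _ <| Dr.cross [c1] [a2] a1 c2 S _ S _ <| Dr.refl S _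

/-- Every dart of the two pairs is crossed twice, the other darts are not crossed. -/
private theorem C4d_cnt {V C : Type} {a1 a2 c1 c2 : V × C} (hn : [a1, a2, c1, c2].Nodup) (d : V × C) :
    cnt [(a2, c1), (a1, c1), (a2, c2), (a1, c2)] d ≤ 2 ∧
      (d ∉ [a1, a2, c1, c2] → cnt [(a2, c1), (a1, c1), (a2, c2), (a1, c2)] d = 0) := by
  simp only [List.nodup_cons, List.mem_cons, List.not_mem_nil, or_false, not_or] at hn
  obtain ⟨⟨h1, h2, h3⟩, ⟨h4, h5⟩, h6, -⟩ := hn
  constructor
  · rw [cnt_cons, cnt_cons, cnt_cons, cnt_cons, cnt_nil]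
    by_cases e1 : a1 = d
    · subst e1
      rw [if_neg (by rintro (h | h); exacts [h1 h.symm, h2 h.symm]),
        if_neg (c := a2 = a1 ∨ c2 = a1) (by rintro (h | h); exacts [h1 h.symm, h3 h.symm])]
      split_ifs <;> omega
    by_cases e2 : a2 = d
    · subst e2
      rw [if_neg (c := a1 = a2 ∨ c1 = a2) (by rintro (h | h); exacts [h1 h, h4 h.symm]),
        if_neg (c := a1 = a2 ∨ c2 = a2) (by rintro (h | h); exacts [h1 h, h5 h.symm])]
      split_ifs <;> omega
    by_cases e3 : c1 = d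
    · subst e3
      rw [if_neg (c := a2 = c1 ∨ c2 = c1) (by rintro (h | h); exacts [h4 h, h6 h.symm]),
        if_neg (c := a1 = c1 ∨ c2 = c1) (by rintro (h | h); exacts [h2 h, h6 h.symm])]
      split_ifs <;> omega
    rw [if_neg (c := a2 = d ∨ c1 = d) (by rintro (h | h); exacts [e2 h, e3 h]),
      if_neg (c := a1 = d ∨ c1 = d) (by rintro (h | h); exacts [e1 h, e3 h])]
    split_ifs <;> omega
  · intro hd
    simp only [List.mem_cons, List.not_mem_nil, or_false, not_or] at hd
    obtain ⟨d1, d2, d3, d4⟩ := hd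
    refine cnt_eq_zero fun x hx => ?_
    simp only [List.mem_cons, List.not_mem_nil, or_false] at hx
    rcases hx with rfl | rfl | rfl | rfl
    · exact ⟨Ne.symm d2, Ne.symm d3⟩
    · exact ⟨Ne.symm d1, Ne.symm d3⟩
    · exact ⟨Ne.symm d2, Ne.symm d4⟩
    · exact ⟨Ne.symm d1, Ne.symm d4⟩

private theorem C4d_Tp (st : Step t t') (v : F4 H) (b : ZMod 4) (tot : H × ZMod 4 → ℕ)
    (cs : List ((H × ZMod 4) × (H × ZMod 4))) (l : H × ZMod 4) :
    ∃ a1 a2, Tp st v b tot cs l = [a1, a2] := by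
  unfold Tp
  split
  · exact ⟨_, _, rfl⟩
  · exact ⟨_, _, rfl⟩

/-- The darts of the lower pair end at the midpoint. -/
private theorem C4d_up (h' : GI t') (st : Step t t') (w : F4 H) (p : ZMod 16) {d : H' × ZMod 4}
    (hd : d ∈ LP st w p) : (HG h').nb d.1 d.2 = st.mv w p := by
  unfold LP at hd
  rw [List.mem_cons, List.mem_singleton] at hd
  rcases hd with rfl | rfl
  · have h1 := (mv_nb h' st w (p - 1)).2.1
    rwa [sub_add_cancel] at h1
  · have h1 := (mv_nb h' st w (p + 1)).1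
    rwa [add_sub_cancel_right] at h1

/-- The case of a crossing of `a` and `c`. -/
theorem tr_cross (h : GI t) (h' : GI t') (st : Step t t') (A : Set H) (K r : ℕ) (v : F4 H) (b : ZMod 4)
    (tot : H × ZMod 4 → ℕ) (htot : ∀ l, tot l ≤ K) (A1 B1 : List (H × ZMod 4)) (a c : H × ZMod 4) (S S' : Set H)
    (h1 : (1 : H) ∈ S) (cs : List ((H × ZMod 4) × (H × ZMod 4))) (L' : List (H × ZMod 4))
    (hw : WF (HG h) S (A1 ++ a :: c :: B1)) (hD : Dr (HG h) S (A1 ++ c :: a :: B1) cs S' L')
    (hroot : ∀ k, cnt ((a, c) :: cs) ((1 : H), k) = 0)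
    (ih : ∀ M, Inv h' st v b tot S (A1 ++ c :: a :: B1) cs M →
      TRes h' st A K r v b tot S (A1 ++ c :: a :: B1) cs S' L' M) (M : Set H')
    (hI : Inv h' st v b tot S (A1 ++ a :: c :: B1) ((a, c) :: cs) M) :
    TRes h' st A K r v b tot S (A1 ++ a :: c :: B1) ((a, c) :: cs) S' L' M := by
  classical
  obtain ⟨cs0, hcs0⟩ : ∃ cs0, cs0 = (a, c) :: cs := ⟨_, rfl⟩
  rw [← hcs0] at hI hroot ⊢
  have hcnt : ∀ l, cnt cs0 l = (if a = l ∨ c = l then 1 else 0) + cnt cs l := fun l => by
    rw [hcs0, cnt_cons]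
    split_ifs <;> rfl
  obtain ⟨hnd, hwS⟩ := hw
  have hwS' : ∀ l ∈ A1 ++ a :: c :: B1, l.1 ∈ S ∧ l.1 * t l.2 ∉ S := hwS
  have haL : a ∈ A1 ++ a :: c :: B1 := by simp
  have hcL : c ∈ A1 ++ a :: c :: B1 := by simp
  have hac : a ≠ c := by
    rintro rfl
    rw [List.nodup_append] at hnd
    exact (List.nodup_cons.1 hnd.2.1).1 List.mem_cons_self
  have hperm : (A1 ++ a :: c :: B1).Perm (A1 ++ c :: a :: B1) :=
    List.Perm.append_left A1 (List.Perm.swap c a B1)
  have hmemL : ∀ l, l ∈ A1 ++ c :: a :: B1 ↔ l ∈ A1 ++ a :: c :: B1 := fun l => hperm.mem_iff.symm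
  have hoth : ∀ l ∈ A1 ++ a :: c :: B1, l ≠ a → l ≠ c → l ∈ A1 ∨ l ∈ B1 := by
    intro l hl h2 h3
    simp only [List.mem_append, List.mem_cons] at hl
    rcases hl with hl | hl | hl | hl
    · exact Or.inl hl
    · exact absurd hl h2
    · exact absurd hl h3
    · exact Or.inr hl
  have hne : ∀ l, l ∈ A1 ∨ l ∈ B1 → a ≠ l ∧ c ≠ l := by
    intro l hl
    rw [List.nodup_append] at hnd
    obtain ⟨-, h3, h4⟩ := hnd
    rcases hl with hl | hl
    · refine ⟨fun e => h4 l hl a (by simp) e.symm, fun e => h4 l hl c (by simp) e.symm⟩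
    · rw [List.nodup_cons, List.nodup_cons] at h3
      refine ⟨?_, ?_⟩
      · rintro rfl
        exact h3.1 (List.mem_cons_of_mem _ hl)
      · rintro rfl
        exact h3.2.1 hl
  have hcnt' : ∀ l, l ∈ A1 ∨ l ∈ B1 → cnt cs0 l = cnt cs l := by
    intro l hl
    rw [hcnt, if_neg (by rintro (h3 | h3); exacts [(hne l hl).1 h3, (hne l hl).2 h3]), zero_add]
  have hcnta : ∀ l, l = a ∨ l = c → cnt cs0 l = 1 + cnt cs l := by
    rintro l (rfl | rfl)
    · rw [hcnt, if_pos (Or.inl rfl)]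
    · rw [hcnt, if_pos (Or.inr rfl)]
  have hle : ∀ l, cnt cs l ≤ cnt cs0 l := fun l => by
    rw [hcnt]
    exact Nat.le_add_left _ _
  have hmono : ∀ l, aft tot cs0 l → aft tot cs l := by
    rintro l (h3 | h3)
    · exact Or.inl h3
    · exact Or.inr ((hle l).trans h3)
  have hne1 : ∀ l, l = a ∨ l = c → l.1 ≠ 1 := by
    intro l hl h3
    have h4 := hcnta l hl
    have h5 := hroot l.2
    have h6 : l = (1, l.2) := Prod.ext h3 rfl
    rw [← h6] at h5
    omega
  have haft0 : ∀ l, l = a ∨ l = c → (aft tot cs0 l ↔ 1 + cnt cs l ≤ tot l / 2) := by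
    intro l hl
    unfold aft
    rw [hcnta l hl]
    constructor
    · rintro (h3 | h3)
      · exact absurd h3 (hne1 l hl)
      · exact h3
    · exact Or.inr
  have haft1 : ∀ l, l = a ∨ l = c → (aft tot cs l ↔ cnt cs l ≤ tot l / 2) := by
    intro l hl
    unfold aft
    constructor
    · rintro (h3 | h3)
      · exact absurd h3 (hne1 l hl)
      · exact h3
    · exact Or.inr
  have haftE : ∀ l, l ∈ A1 ∨ l ∈ B1 → (aft tot cs0 l ↔ aft tot cs l) := by
    intro l hl
    unfold aft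
    rw [hcnt' l hl]
  have hTp : ∀ l, (aft tot cs0 l ↔ aft tot cs l) → Tp st v b tot cs0 l = Tp st v b tot cs l := by
    intro l hl
    unfold Tp
    by_cases h3 : aft tot cs l
    · rw [if_pos h3, if_pos (hl.2 h3)]
    · rw [if_neg h3, if_neg fun h4 => h3 (hl.1 h4)]
  have hTpE : ∀ l, l ∈ A1 ∨ l ∈ B1 → Tp st v b tot cs0 l = Tp st v b tot cs l := fun l hl =>
    hTp l (haftE l hl)
  have hA1 : A1.flatMap (Tp st v b tot cs0) = A1.flatMap (Tp st v b tot cs) :=
    List.flatMap_congr fun l hl => hTpE l (Or.inl hl)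
  have hB1 : B1.flatMap (Tp st v b tot cs0) = B1.flatMap (Tp st v b tot cs) :=
    List.flatMap_congr fun l hl => hTpE l (Or.inr hl)
  obtain ⟨a1, a2, ha12⟩ := C4d_Tp st v b tot cs0 a
  obtain ⟨c1, c2, hc12⟩ := C4d_Tp st v b tot cs0 c
  have hlist : (A1 ++ a :: c :: B1).flatMap (Tp st v b tot cs0) =
      A1.flatMap (Tp st v b tot cs0) ++ [a1, a2, c1, c2] ++ B1.flatMap (Tp st v b tot cs0) := by
    rw [List.flatMap_append, List.flatMap_cons, List.flatMap_cons, ha12, hc12, List.append_assoc]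
    rfl
  have hndM : [a1, a2, c1, c2].Nodup := by
    have h3 := hI.wf.1
    rw [hlist] at h3
    exact (h3.of_append_left).of_append_right
  obtain ⟨M1, hM1⟩ : ∃ M1 : Set H', M1 = M ∪ {m | ∃ l ∈ [c, a], aft tot cs l ∧
    m = st.mv (v * ofb b l.1) (pst b l.2)} := ⟨_, rfl⟩
  have hmem2 : ∀ l, l ∈ [c, a] ↔ l = a ∨ l = c := by
    intro l
    rw [List.mem_cons, List.mem_singleton]
    exact or_comm
  have hMsub : ∀ m ∈ M, m ∈ M1 := fun m hm => by
    rw [hM1]
    exact Or.inl hm
  have hMmem : ∀ m, m ∈ M1 ↔ m ∈ M ∨ ∃ l, (l = a ∨ l = c) ∧ aft tot cs l ∧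
      m = st.mv (v * ofb b l.1) (pst b l.2) := by
    intro m
    rw [hM1]
    constructor
    · rintro (h3 | ⟨l, hl, h4⟩)
      · exact Or.inl h3
      · exact Or.inr ⟨l, (hmem2 l).1 hl, h4⟩
    · rintro (h3 | ⟨l, hl, h4⟩)
      · exact Or.inl h3
      · exact Or.inr ⟨l, (hmem2 l).2 hl, h4⟩
  have hLl : ∀ l, l = a ∨ l = c → l ∈ A1 ++ a :: c :: B1 := by
    rintro l (rfl | rfl)
    · exact haL
    · exact hcL
  have hmid := mid_list h h' st v b tot S cs0 cs [c, a] M (by simpa using hac.symm)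
    (fun l hl => hwS' l (hLl l ((hmem2 l).1 hl))) (fun l _ => hmono l) hI.i1
    (fun l hl => hI.i3 l (hLl l ((hmem2 l).1 hl))) hI.i4
  rw [← hM1] at hmid
  have hfl : [c, a].flatMap (Tp st v b tot cs0) = [c1, c2, a1, a2] := by
    rw [List.flatMap_cons, List.flatMap_cons, ha12, hc12]
    rfl
  rw [hfl] at hmid
  have hlist' : (A1 ++ c :: a :: B1).flatMap (Tp st v b tot cs) =
      A1.flatMap (Tp st v b tot cs0) ++ [c, a].flatMap (Tp st v b tot cs) ++
        B1.flatMap (Tp st v b tot cs0) := by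
    rw [hA1, hB1, List.flatMap_append, List.flatMap_cons, List.flatMap_cons, List.flatMap_cons,
      List.flatMap_cons, List.flatMap_nil, List.append_nil, List.append_assoc, List.append_assoc]
  have hstep : Dr (HG h') M ((A1 ++ a :: c :: B1).flatMap (Tp st v b tot cs0))
      [(a2, c1), (a1, c1), (a2, c2), (a1, c2)] M1
      ((A1 ++ c :: a :: B1).flatMap (Tp st v b tot cs)) := by
    rw [hlist, hlist']
    have h3 := ((C4d_four M a1 a2 c1 c2).trans hmid).frame (A1.flatMap (Tp st v b tot cs0))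
      (B1.flatMap (Tp st v b tot cs0))
    rwa [List.append_nil] at h3
  have hwf1 := hstep.wf hI.wf
  have hedge : ∀ l, l = a ∨ l = c → ∀ l' : H × ZMod 4, l'.1 * t l'.2 ∉ S →
      st.mv (v * ofb b l'.1) (pst b l'.2) = st.mv (v * ofb b l.1) (pst b l.2) → l' = l := by
    intro l hl l' hl' e
    obtain ⟨e1, e2⟩ := phi_edge h st v b _ _ _ _ e
    rcases e2 with e2 | e2
    · exact Prod.ext e2.symm e1
    · exact absurd (e2 ▸ (hwS' l (hLl l hl)).1) hl'
  have hI1 : Inv h' st v b tot S (A1 ++ c :: a :: B1) cs M1 := by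
    refine ⟨hwf1, ?_, ?_, ?_, ?_⟩
    · intro y hy z p h3 h4 h5
      rcases (hMmem _).1 h5 with h6 | ⟨l, hl, -, h6⟩
      · exact hI.i1 y hy z p h3 h4 h6
      · refine (phi_edge_not h st v b l.1 l.2).1 y ?_
        rw [← h6, mem_EP h]
        exact ⟨h3, h4⟩
    · intro y k hy hyk h5
      rcases (hMmem _).1 h5 with h6 | ⟨l, hl, -, h6⟩
      · exact hI.i2 y k hy hyk h6
      · have h7 := hedge l hl (y, k) hyk h6
        rw [← h7] at hl
        exact hy (hwS' _ (hLl _ hl)).1
    · intro l hl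
      rw [hmemL] at hl
      constructor
      · intro h5
        rcases (hMmem _).1 h5 with h6 | ⟨l', hl', h7, h6⟩
        · exact hmono l ((hI.i3 l hl).1 h6)
        · rw [hedge l' hl' l (hwS' l hl).2 h6]
          exact h7
      · intro h5
        by_cases h6 : l = a ∨ l = c
        · exact (hMmem _).2 (Or.inr ⟨l, h6, h5, rfl⟩)
        · rw [not_or] at h6
          exact hMsub _ ((hI.i3 l hl).2 ((haftE l (hoth l hl h6.1 h6.2)).2 h5))
    · intro x hx hx1 p hp
      exact hMsub _ (hI.i4 x hx hx1 p hp)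
  obtain ⟨csM, M', hDM, hr1, hr2, hr3, hr4, hr5, hr6⟩ := ih M1 hI1
  refine ⟨[(a2, c1), (a1, c1), (a2, c2), (a1, c2)] ++ csM, M', hstep.trans hDM, ?_, hr2, hr3, hr4,
    ?_, ?_⟩
  · intro m hm
    rcases hr1 m hm with h3 | h3
    · rcases (hMmem _).1 h3 with h6 | ⟨l, hl, -, h6⟩
      · exact Or.inl h6
      · refine Or.inr ?_
        rw [h6]
        refine (phi_edge_not h st v b l.1 l.2).2.2.2 (hne1 l hl) fun h7 => ?_
        exact (hwS' l (hLl l hl)).2 (h7 ▸ h1)
    · exact Or.inr h3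
  · intro l hl d hd
    rw [cnt_append]
    by_cases h6 : l = a ∨ l = c
    · have h7 := (C4d_cnt hndM d).1
      by_cases h8 : aft tot cs0 l
      · have h9 := hmono l h8
        have h10 := hr5 l ((hmemL l).2 hl) d (by rwa [← hTp l ⟨fun _ => h9, fun _ => h8⟩])
        have h11 := hcnta l h6
        unfold rst at h10 ⊢
        rw [if_pos h9] at h10
        rw [if_pos h8]
        omega
      · by_cases h9 : aft tot cs l
        · have h10 : cnt csM d = 0 := by
            refine cnt_dead hDM hwf1 ?_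
            unfold Tp at hd
            rw [if_neg h8] at hd
            rw [C4d_up h' st _ _ hd]
            exact (hMmem _).2 (Or.inr ⟨l, h6, h9, rfl⟩)
          have h11 := hcnta l h6
          unfold rst
          rw [if_neg h8]
          rw [haft0 l h6] at h8
          omega
        · have h10 := hr5 l ((hmemL l).2 hl) d
            (by rwa [← hTp l ⟨fun h => absurd h h8, fun h => absurd h h9⟩])
          have h11 := hcnta l h6
          unfold rst at h10 ⊢
          rw [if_neg h9] at h10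
          rw [if_neg h8]
          rw [haft1 l h6] at h9
          omega
    · rw [not_or] at h6
      have h7 := hoth l hl h6.1 h6.2
      have h8 : d ∉ [a1, a2, c1, c2] := by
        intro h9
        have h10 := hI.wf.1
        rw [hlist, List.nodup_append, List.nodup_append] at h10
        rcases h7 with h7 | h7
        · exact h10.1.2.2 d (List.mem_flatMap.2 ⟨l, h7, hd⟩) d h9 rfl
        · exact h10.2.2 d (List.mem_append.2 (Or.inr h9)) d (List.mem_flatMap.2 ⟨l, h7, hd⟩) rfl
      rw [(C4d_cnt hndM d).2 h8, zero_add]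
      have h9 := hr5 l ((hmemL l).2 hl) d (by rwa [← hTpE l h7])
      have h10 : rst tot cs0 l = rst tot cs l := by
        unfold rst
        rw [hcnt' l h7]
        by_cases h11 : aft tot cs l
        · rw [if_pos h11, if_pos ((haftE l h7).2 h11)]
        · rw [if_neg h11, if_neg fun h12 => h11 ((haftE l h7).1 h12)]
      rwa [h10]
  · intro d hd
    rw [cnt_append]
    have h8 : d ∉ [a1, a2, c1, c2] := by
      intro h9
      apply hd
      rw [hlist]
      exact List.mem_append.2 (Or.inl (List.mem_append.2 (Or.inr h9)))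
    rw [(C4d_cnt hndM d).2 h8, zero_add]
    by_cases h9 : d ∈ (A1 ++ c :: a :: B1).flatMap (Tp st v b tot cs)
    · obtain ⟨l, hl, hdl⟩ := List.mem_flatMap.1 h9
      rw [hmemL] at hl
      have h10 : ¬ (aft tot cs0 l ↔ aft tot cs l) := by
        intro h11
        apply hd
        refine List.mem_flatMap.2 ⟨l, hl, ?_⟩
        rwa [hTp l h11]
      have h11 : l = a ∨ l = c := by
        by_contra h12
        rw [not_or] at h12
        exact h10 (haftE l (hoth l hl h12.1 h12.2))
      have h12 : aft tot cs l := by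
        by_contra h13
        exact h10 ⟨hmono l, fun h => absurd h h13⟩
      have h13 := hr5 l ((hmemL l).2 hl) d hdl
      unfold rst at h13
      rw [if_pos h12] at h13
      rw [haft1 l h11] at h12
      have h14 := htot l
      omega
    · exact hr6 d h9

end KPl
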