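import Pool.Agent.Lib.MP_d3a5e5_coK.C4Defs
import Pool.Agent.Lib.MP_d3a5e5_coK.C3b

set_option autoImplicit false

namespace KPl

variable {H H' : Type} [Group H] [Group H'] {t : ZMod 4 → H} {t' : ZMod 4 → H'}

/-- LEAF C4e (part 1, medium). The state after `vstep` at the vertex `w = v * ofb b y` of the block (`X = Kx.map (pst b)`, `Y = Ky.map (pst b)`, `M1 = S'` of `vstep`) satisfies the invariants; `hM1` is the description of `M1` given by `vstep`, `hfr`, `hmd` its lower bounds. `i1`: for `y' ∉ insert y S` a new element `mv z p` of `M1` with both ends in the branch of `y'` would be in the branch of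
`y` (`phi_branch`), or a midpoint (`phi_edge_not`). `i2`: a new element which is an edge of the block is a midpoint `mv w (pst b k)` (`phi_edge_not`), so one end is `y` (`phi_edge`). `i3`: for `l` in `A1` or `B1`: `l.1 ∈ S`; if `mv (v * ofb b l.1) (pst b l.2)` is a new element then it is a midpoint `mv w (pst b k)`, `k ∈ Ky`, so by `phi_edge` `l.1 = y` (no: `y ∉ S`) or `y = l.1 * t l.2` and `k = l.2`,
then `nb y k = l.1 ∈ S`, but `k ∈ Ky`. For `l = (y, k)`, `k ∈ Ky`: `mv w (pst b k) ∉ M` by `i2`, it is in `M1` iff it is one of the midpoints. `i4`: `hfr` for `x = y`. -/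
theorem tr_vert_inv (h : GI t) (h' : GI t') (st : Step t t') (v : F4 H) (b : ZMod 4) (tot : H × ZMod 4 → ℕ)
    (A1 B1 : List (H × ZMod 4)) (y : H) (Kx Ky : List (ZMod 4)) (S : Set H) (h1 : (1 : H) ∈ S)
    (cs : List ((H × ZMod 4) × (H × ZMod 4))) (hy : y ∉ S) (hn : (Kx ++ Ky).Nodup) (hall : ∀ k, k ∈ Kx ++ Ky)
    (hKx : ∀ k ∈ Kx, (HG h).nb y k ∈ S) (hKy : ∀ k ∈ Ky, (HG h).nb y k ∉ S)
    (hw : WF (HG h) S (A1 ++ Kx.map (fun k => ((HG h).nb y k, k)) ++ B1)) (M M1 : Set H')
    (hI : Inv h' st v b tot S (A1 ++ Kx.map (fun k => ((HG h).nb y k, k)) ++ B1) cs M)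
    (hwf : WF (HG h') M1 ((A1 ++ Ky.map (fun k => (y, k)) ++ B1).flatMap (Tp st v b tot cs))) (hMM : M ⊆ M1)
    (hM1 : ∀ m ∈ M1, m ∈ M ∨ m ∈ FR st (v * ofb b y) b ∨
      (∃ k ∈ Ky, aft tot cs (y, k) ∧ m = st.mv (v * ofb b y) (pst b k)) ∨ ∃ b', b' ≠ b ∧ m ∈ PW st (v * ofb b y) b')
    (hfr : ∀ p, blk p ≠ b → st.mv (v * ofb b y) p ∈ M1)
    (hmd : ∀ k ∈ Ky, aft tot cs (y, k) → st.mv (v * ofb b y) (pst b k) ∈ M1) :
    Inv h' st v b tot (insert y S) (A1 ++ Ky.map (fun k => (y, k)) ++ B1) cs M1 := by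
  have hKy' : ∀ k ∈ Ky, y * t k ∉ S := fun k hk => hKy k hk
  -- a new edge of the block is a midpoint
  have hedge : ∀ (x : H) (k : ZMod 4), st.mv (v * ofb b x) (pst b k) ∈ M1 →
      st.mv (v * ofb b x) (pst b k) ∈ M ∨
        ((y = x ∨ y = x * t k) ∧ k ∈ Ky ∧ aft tot cs (y, k)) := by
    intro x k hm
    obtain ⟨_, e2, e3, _⟩ := phi_edge_not h st v b x k
    rcases hM1 _ hm with g | g | ⟨k', hk', ha, g⟩ | ⟨b', hb', g⟩
    · exact Or.inl g
    · exact absurd g (e3 y)
    · obtain ⟨rfl, h2⟩ := phi_edge h st v b x y k k' g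
      exact Or.inr ⟨h2, hk', ha⟩
    · exact absurd g (e2 y b' hb')
  have hold : ∀ l, (l ∈ A1 ∨ l ∈ B1) →
      (st.mv (v * ofb b l.1) (pst b l.2) ∈ M1 ↔ aft tot cs l) := by
    intro l hl
    have hl' : l ∈ A1 ++ Kx.map (fun k => ((HG h).nb y k, k)) ++ B1 := by
      rw [List.mem_append, List.mem_append]
      tauto
    have hlS : l.1 ∈ S := (hw.2 l hl').1
    constructor
    · intro hm
      rcases hedge l.1 l.2 hm with g | ⟨h2, hk, _⟩
      · exact (hI.i3 l hl').1 g
      · exfalso
        rcases h2 with h2 | h2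
        · exact hy (h2 ▸ hlS)
        · apply hKy' l.2 hk
          rw [h2, mul_assoc, h.sq, mul_one]
          exact hlS
    · intro ha
      exact hMM ((hI.i3 l hl').2 ha)
  refine ⟨hwf, ?_, ?_, ?_, ?_⟩
  · intro y' hy' z p hz hz' hm
    have hne : y' ≠ y := fun e => hy' (by rw [e]; exact Set.mem_insert y S)
    have hyS : y' ∉ S := fun e => hy' (Set.mem_insert_of_mem y e)
    obtain ⟨f1, f2, _⟩ := phi_branch h st v b y
    rcases hM1 _ hm with g | g | ⟨k, hk, _, g⟩ | ⟨b', hb', g⟩
    · exact hI.i1 y' hyS z p hz hz' g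
    · have h2 := (mem_EP h st (fun z => br v b z = y) z p).1 (f1 _ g)
      exact hne (hz.symm.trans h2.1)
    · apply (phi_edge_not h st v b y k).1 y'
      rw [← g]
      exact (mem_EP h st (fun z => br v b z = y') z p).2 ⟨hz, hz'⟩
    · have h2 := (mem_EP h st (fun z => br v b z = y) z p).1 (f2 b' hb' _ g)
      exact hne (hz.symm.trans h2.1)
  · intro y' k hy' hy2 hm
    have hyS : y' ∉ S := fun e => hy' (Set.mem_insert_of_mem y e)
    have hy2S : y' * t k ∉ S := fun e => hy2 (Set.mem_insert_of_mem y e)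
    rcases hedge y' k hm with g | ⟨h2, _, _⟩
    · exact hI.i2 y' k hyS hy2S g
    · rcases h2 with h2 | h2
      · exact hy' (by rw [← h2]; exact Set.mem_insert y S)
      · exact hy2 (by rw [← h2]; exact Set.mem_insert y S)
  · intro l hl
    rw [List.mem_append, List.mem_append] at hl
    rcases hl with (hl | hl) | hl
    · exact hold l (Or.inl hl)
    · obtain ⟨k, hk, rfl⟩ := List.mem_map.1 hl
      constructor
      · intro hm
        rcases hedge y k hm with g | ⟨_, _, ha⟩
        · exact absurd g (hI.i2 y k hy (hKy' k hk))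
        · exact ha
      · intro ha
        exact hmd k hk ha
    · exact hold l (Or.inr hl)
  · intro x hx hx1 p hp
    rcases Set.mem_insert_iff.1 hx with rfl | hx
    · exact hfr p hp
    · exact hMM (hI.i4 x hx hx1 p hp)

/-- LEAF C4e (part 2, medium+). The case `vert`. `y ≠ 1`. Apply `vstep` with `w = v * ofb b y`, `X = Kx.map (pst b)`, `Y = Ky.map (pst b)`, `M p = decide (aft tot cs (y, lab p))`. The lists: for `k ∈ Kx` the dart `(nb y k, k)` ends at `y`, `cnt cs = 0` (`cnt_dead` for the rest), so `aft`, and `Tp = UP st w (pst b k)`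
(`nb y k = y * t k`, `y * t k * t k = y`). For `k ∈ Ky`: `Tp (y, k)` is `UP st (w * T t (pst b k)) (pst b k)` (`phi_T`) or `LP st w (pst b k)`. Hypotheses: `hX` by `i3` (and `mv_T`, `phi_T`), `hY` by `i2`, `hF` and `hP` by `i1` (`phi_branch`, `mem_EP`), `hM` by `i1` for `y * t k ∉ S` (`phi_nb`). Then `tr_vert_inv` and the rest `ih`.
Claims: `M'` by `phi_branch`, `phi_edge_not` (`y ≠ 1`, `y * t k ≠ 1` because `1 ∈ S`). Cover 1, 2 for `x = y` from `vstep` (monotone: `Dr.subset`), for the others from the rest. Cover 3: if `x` or `x * t k` is not in `insert y S`: rest; otherwise one of them is `y` and the other is in `S`: the edge is one of the ended ones, it is in `M` by `i3` (`aft`).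
Counting: `d ∈ Tp l`, `l` in `A1` or `B1`: 0 in `vstep` (`cnt_frame`), rest. `d` in the ended strands: 0 in `vstep`, its upper end `mv w (p ± 1)` is processed after, so 0 in the rest (`cnt_dead`). `d` not in the list: if `d` is in the new strands: 0 in `vstep`, in the rest at most `2 * rst tot cs (y, k) ≤ K` (`K` even, `cnt cs ≤ tot ≤ K`, `y ≠ 1`);
otherwise `cnt_chain`. -/
theorem tr_vert (h : GI t) (h' : GI t') (st : Step t t') (A : Set H) (K r : ℕ) (hK : 100000 ≤ K) (hKe : Even K)
    (hk : Kids h' st A K r) (v : F4 H) (b : ZMod 4) (tot : H × ZMod 4 → ℕ) (htot : ∀ l, tot l ≤ K)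
    (A1 B1 : List (H × ZMod 4)) (y : H) (Kx Ky : List (ZMod 4)) (S S' : Set H) (h1 : (1 : H) ∈ S)
    (cs : List ((H × ZMod 4) × (H × ZMod 4))) (L' : List (H × ZMod 4)) (hy : y ∉ S) (hn : (Kx ++ Ky).Nodup)
    (hall : ∀ k, k ∈ Kx ++ Ky) (hKx : ∀ k ∈ Kx, (HG h).nb y k ∈ S) (hKy : ∀ k ∈ Ky, (HG h).nb y k ∉ S)
    (hw : WF (HG h) S (A1 ++ Kx.map (fun k => ((HG h).nb y k, k)) ++ B1))
    (hD : Dr (HG h) (insert y S) (A1 ++ Ky.map (fun k => (y, k)) ++ B1) cs S' L') (hcs : ∀ l, cnt cs l ≤ tot l)
    (ih : ∀ M, Inv h' st v b tot (insert y S) (A1 ++ Ky.map (fun k => (y, k)) ++ B1) cs M →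
      TRes h' st A K r v b tot (insert y S) (A1 ++ Ky.map (fun k => (y, k)) ++ B1) cs S' L' M) (M : Set H')
    (hI : Inv h' st v b tot S (A1 ++ Kx.map (fun k => ((HG h).nb y k, k)) ++ B1) cs M) :
    TRes h' st A K r v b tot S (A1 ++ Kx.map (fun k => ((HG h).nb y k, k)) ++ B1) cs S' L' M := by
  have hKy' : ∀ k ∈ Ky, y * t k ∉ S := fun k hk => hKy k hk
  have hKx' : ∀ k ∈ Kx, y * t k ∈ S := fun k hk => hKx k hk
  have hy1 : y ≠ 1 := fun e => hy (e ▸ h1)
  have htt : ∀ (x : H) (k : ZMod 4), x * t k * t k = x := fun x k => by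
    rw [mul_assoc, h.sq, mul_one]
  -- the state of the block after `y` is well formed
  have hDv : Dr (HG h) S (A1 ++ Kx.map (fun k => ((HG h).nb y k, k)) ++ B1) [] (insert y S)
      (A1 ++ Ky.map (fun k => (y, k)) ++ B1) :=
    Dr.vert A1 B1 y Kx Ky S [] _ _ hy hn hall hKx hKy (Dr.refl _ _)
  have hw2 := hDv.wf hw
  -- the ended darts
  have haft : ∀ k ∈ Kx, aft tot cs (y * t k, k) := by
    intro k hk
    right
    have h2 : cnt cs (y * t k, k) = 0 := by
      apply cnt_dead hD hw2
      show y * t k * t k ∈ insert y S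
      rw [htt]
      exact Set.mem_insert y S
    rw [h2]
    exact Nat.zero_le _
  have hTx : ∀ k ∈ Kx, Tp st v b tot cs ((HG h).nb y k, k) = UP st (v * ofb b y) (pst b k) := by
    intro k hk
    have h2 : aft tot cs ((HG h).nb y k, k) := haft k hk
    unfold Tp
    rw [if_pos h2]
    show UP st (v * ofb b (y * t k * t k)) (pst b k) = _
    rw [htt]
  have hTy1 : ∀ k, aft tot cs (y, k) → Tp st v b tot cs (y, k) =
      UP st (v * ofb b y * T t (pst b k)) (pst b k) := by
    intro k h2
    unfold Tp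
    rw [if_pos h2, phi_T]
  have hTy2 : ∀ k, ¬ aft tot cs (y, k) → Tp st v b tot cs (y, k) =
      LP st (v * ofb b y) (pst b k) := by
    intro k h2
    unfold Tp
    rw [if_neg h2]
  have hXM : ∀ k ∈ Kx, st.mv (v * ofb b y) (pst b k) ∈ M := by
    intro k hk
    have hl : ((HG h).nb y k, k) ∈ A1 ++ Kx.map (fun k => ((HG h).nb y k, k)) ++ B1 := by
      rw [List.mem_append, List.mem_append]
      exact Or.inl (Or.inr (List.mem_map.2 ⟨k, hk, rfl⟩))
    have h2 := (hI.i3 _ hl).2 (haft k hk)
    have h3 : st.mv (v * ofb b (y * t k)) (pst b k) ∈ M := h2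
    rw [← phi_T, st.mv_T] at h3
    exact h3
  classical
  obtain ⟨Mf, hMf⟩ : ∃ Mf : ZMod 16 → Bool, ∀ p, Mf p = decide (aft tot cs (y, lab p)) :=
    ⟨fun p => _, fun p => rfl⟩
  have hMfk : ∀ k, Mf (pst b k) = true ↔ aft tot cs (y, k) := by
    intro k
    rw [hMf, lab_pst, decide_eq_true_iff]
  have hinj : Function.Injective (pst b) := by
    intro k l e
    have := congrArg lab e
    rwa [lab_pst, lab_pst] at this
  have hbr : ∀ (x : H) (p : ZMod 16), blk p ≠ b → br v b (v * ofb b x * T t p) = x := by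
    intro x p hp
    rw [br_T_ne v b _ p hp, br_ofb]
  have hpm1 : ∀ k, blk (pst b k + 1) ≠ b := by
    intro k e
    rw [blk_succ, blk_pst] at e
    exact absurd (left_eq_add.1 e.symm) (by decide)
  have hpm2 : ∀ k, blk (pst b k - 1) ≠ b := by
    intro k e
    rw [blk_pred, blk_pst, sub_eq_self] at e
    exact absurd e (by decide)
  obtain ⟨cs1, M1, hD1, hV2, hV3, hV4, hV5, hV6, hV7, hV8⟩ :=
    vstep h h' st A K r hK hk (v * ofb b y) b (Kx.map (pst b)) (Ky.map (pst b)) Mf M
      (by
        rw [← List.map_append]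
        exact hn.map hinj)
      (by
        intro p
        rw [← List.map_append, List.mem_map]
        constructor
        · rintro ⟨k, _, rfl⟩
          exact blk_pst b k
        · intro hp
          refine ⟨lab p, hall _, ?_⟩
          rw [← hp, pst_blk_lab])
      (by
        intro p hp
        obtain ⟨k, hk, rfl⟩ := List.mem_map.1 hp
        exact hXM k hk)
      (by
        intro p hp
        obtain ⟨k, hk, rfl⟩ := List.mem_map.1 hp
        exact hI.i2 y k hy (hKy' k hk))
      (by
        intro p hp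
        exact hI.i1 y hy _ p (br_ofb v b y) (hbr y p hp))
      (by
        intro b' hb' m hm
        obtain ⟨z, p, rfl, hz, hz'⟩ := hm
        exact hI.i1 y hy z p (br_sub v hb' y z hz) (br_sub v hb' y _ hz'))
      (by
        intro p hp _
        obtain ⟨k, hk, rfl⟩ := List.mem_map.1 hp
        rw [phi_T]
        exact ⟨hI.i1 _ (hKy' k hk) _ _ (br_ofb v b _) (hbr _ _ (hpm1 k)),
          hI.i1 _ (hKy' k hk) _ _ (br_ofb v b _) (hbr _ _ (hpm2 k))⟩)
  -- the lists
  have hXl : (Kx.map (pst b)).flatMap (UP st (v * ofb b y)) =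
      (Kx.map (fun k => ((HG h).nb y k, k))).flatMap (Tp st v b tot cs) := by
    rw [List.flatMap_map, List.flatMap_map]
    apply List.flatMap_congr
    intro k hk
    exact (hTx k hk).symm
  have hYl : (Ky.map (pst b)).flatMap (fun p => if Mf p = true then
        UP st (v * ofb b y * T t p) p else LP st (v * ofb b y) p) =
      (Ky.map (fun k => (y, k))).flatMap (Tp st v b tot cs) := by
    rw [List.flatMap_map, List.flatMap_map]
    apply List.flatMap_congr
    intro k hk
    by_cases h2 : aft tot cs (y, k)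
    · rw [hTy1 k h2, if_pos ((hMfk k).2 h2)]
    · rw [hTy2 k h2, if_neg (fun h3 => h2 ((hMfk k).1 h3))]
  rw [hXl, hYl] at hD1
  rw [hXl] at hV7
  rw [hYl] at hV8
  have hwM : WF (HG h') M (A1.flatMap (Tp st v b tot cs) ++
      (Kx.map (fun k => ((HG h).nb y k, k))).flatMap (Tp st v b tot cs) ++
      B1.flatMap (Tp st v b tot cs)) := by
    have h2 := hI.wf
    rw [List.flatMap_append, List.flatMap_append] at h2
    exact h2
  have hD1' := hD1.frame (A1.flatMap (Tp st v b tot cs)) (B1.flatMap (Tp st v b tot cs))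
  have hwM1 := hD1'.wf hwM
  have hMM : M ⊆ M1 := hD1.subset
  have hV2' : ∀ m ∈ M1, m ∈ M ∨ m ∈ FR st (v * ofb b y) b ∨
      (∃ k ∈ Ky, aft tot cs (y, k) ∧ m = st.mv (v * ofb b y) (pst b k)) ∨
      ∃ b', b' ≠ b ∧ m ∈ PW st (v * ofb b y) b' := by
    intro m hm
    rcases hV2 m hm with g | g | ⟨p, hp, hp2, g⟩ | g
    · exact Or.inl g
    · exact Or.inr (Or.inl g)
    · obtain ⟨k, hk, rfl⟩ := List.mem_map.1 hp
      exact Or.inr (Or.inr (Or.inl ⟨k, hk, (hMfk k).1 hp2, g⟩))
    · exact Or.inr (Or.inr (Or.inr g))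
  have hInv : Inv h' st v b tot (insert y S) (A1 ++ Ky.map (fun k => (y, k)) ++ B1) cs M1 := by
    apply tr_vert_inv h h' st v b tot A1 B1 y Kx Ky S h1 cs hy hn hall hKx hKy hw M M1 hI _ hMM
      hV2' hV3
    · intro k hk ha
      exact hV4 _ (List.mem_map.2 ⟨k, hk, rfl⟩) ((hMfk k).2 ha)
    · rw [List.flatMap_append, List.flatMap_append]
      exact hwM1
  obtain ⟨cs2, M', hD2, hR2, hR3, hR4, hR5, hR6, hR7⟩ := ih M1 hInv
  have hMM' : M1 ⊆ M' := hD2.subset
  have hflx : (A1 ++ Kx.map (fun k => ((HG h).nb y k, k)) ++ B1).flatMap (Tp st v b tot cs) =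
      A1.flatMap (Tp st v b tot cs) ++
      (Kx.map (fun k => ((HG h).nb y k, k))).flatMap (Tp st v b tot cs) ++
      B1.flatMap (Tp st v b tot cs) := by
    rw [List.flatMap_append, List.flatMap_append]
  have hfly : (A1 ++ Ky.map (fun k => (y, k)) ++ B1).flatMap (Tp st v b tot cs) =
      A1.flatMap (Tp st v b tot cs) ++
      (Ky.map (fun k => (y, k))).flatMap (Tp st v b tot cs) ++
      B1.flatMap (Tp st v b tot cs) := by
    rw [List.flatMap_append, List.flatMap_append]
  have hD2' := hD2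
  rw [hfly] at hD2'
  refine ⟨cs1 ++ cs2, M', ?_, ?_, ?_, ?_, ?_, ?_, ?_⟩
  · rw [hflx]
    exact hD1'.trans hD2'
  · intro m hm
    rcases hR2 m hm with g | g
    · obtain ⟨f1, f2, f3⟩ := phi_branch h st v b y
      rcases hV2' m g with g | g | ⟨k, hk, _, g⟩ | ⟨b', hb', g⟩
      · exact Or.inl g
      · exact Or.inr (f3 hy1 m (f1 m g))
      · right
        rw [g]
        apply (phi_edge_not h st v b y k).2.2.2 hy1
        intro e
        apply hKy' k hk
        rw [e]
        exact h1
      · exact Or.inr (f3 hy1 m (f2 b' hb' m g))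
    · exact Or.inr g
  · intro x hx hxS p hp
    by_cases hxy : x = y
    · subst hxy
      exact hMM' (hV3 p hp)
    · apply hR3 x hx _ p hp
      intro e
      rcases Set.mem_insert_iff.1 e with e | e
      · exact hxy e
      · exact hxS e
  · intro x hx hxS b' hb' z p hz hz' hc
    by_cases hxy : x = y
    · subst hxy
      exact hMM' (hV5 b' hb' z p hz hz' hc)
    · apply hR4 x hx _ b' hb' z p hz hz' hc
      intro e
      rcases Set.mem_insert_iff.1 e with e | e
      · exact hxy e
      · exact hxS e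
  · intro x hx k hxk hor
    by_cases hx2 : x ∉ insert y S ∨ x * t k ∉ insert y S
    · exact hR5 x hx k hxk hx2
    · rw [not_or, not_not, not_not, Set.mem_insert_iff, Set.mem_insert_iff] at hx2
      obtain ⟨h2, h3⟩ := hx2
      by_cases hxy : x = y
      · subst hxy
        have h4 : x * t k ∈ S := by
          rcases h3 with h3 | h3
          · exact absurd (mul_eq_left.1 h3) (h.ne k)
          · exact h3
        have h5 : k ∈ Kx := by
          rcases List.mem_append.1 (hall k) with h5 | h5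
          · exact h5
          · exact absurd h4 (hKy' k h5)
        exact hMM' (hMM (hXM k h5))
      · have hxS : x ∈ S := by
          rcases h2 with h2 | h2
          · exact absurd h2 hxy
          · exact h2
        have h4 : x * t k = y := by
          rcases h3 with h3 | h3
          · exact h3
          · exfalso
            rcases hor with h4 | h4
            · exact h4 hxS
            · exact h4 h3
        have h6 : x = y * t k := by
          rw [← h4, htt]
        have h5 : k ∈ Kx := by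
          rcases List.mem_append.1 (hall k) with h5 | h5
          · exact h5
          · exact absurd (h6 ▸ hxS) (hKy' k h5)
        have h7 := hXM k h5
        rw [h6, ← phi_T, st.mv_T]
        exact hMM' (hMM h7)
  · intro l hl d hd
    rw [cnt_append]
    have hAB : (l ∈ A1 ∨ l ∈ B1) → cnt cs1 d + cnt cs2 d ≤ 2 * rst tot cs l := by
      intro hl2
      have h2 : cnt cs1 d = 0 := by
        apply cnt_frame hD1 hwM
        rcases hl2 with hl2 | hl2
        · exact Or.inl (List.mem_flatMap.2 ⟨l, hl2, hd⟩)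
        · exact Or.inr (List.mem_flatMap.2 ⟨l, hl2, hd⟩)
      have h3 : l ∈ A1 ++ Ky.map (fun k => (y, k)) ++ B1 := by
        rw [List.mem_append, List.mem_append]
        tauto
      have h4 := hR6 l h3 d hd
      omega
    rw [List.mem_append, List.mem_append] at hl
    rcases hl with (hl | hl) | hl
    · exact hAB (Or.inl hl)
    · have h2 : cnt cs1 d = 0 := hV7 d (List.mem_flatMap.2 ⟨l, hl, hd⟩)
      obtain ⟨k, hk, rfl⟩ := List.mem_map.1 hl
      rw [hTx k hk] at hd
      have h3 : cnt cs2 d = 0 := by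
        apply cnt_dead hD2' hwM1
        obtain ⟨n1, n2, _, _⟩ := mv_nb h' st (v * ofb b y) (pst b k)
        unfold UP at hd
        rcases List.mem_cons.1 hd with rfl | hd
        · show (HG h').nb (st.mv (v * ofb b y) (pst b k)) (colr (st.par (v * ofb b y)) (pst b k - 1)) ∈ M1
          rw [n1]
          exact hV3 _ (hpm2 k)
        · rw [List.mem_singleton.1 hd]
          show (HG h').nb (st.mv (v * ofb b y) (pst b k)) (colr (st.par (v * ofb b y)) (pst b k)) ∈ M1
          rw [n2]
          exact hV3 _ (hpm1 k)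
      omega
    · exact hAB (Or.inr hl)
  · intro d hd
    rw [hflx, List.mem_append, List.mem_append, not_or, not_or] at hd
    by_cases hdy : d ∈ (Ky.map (fun k => (y, k))).flatMap (Tp st v b tot cs)
    · have h2 : cnt cs1 d = 0 := hV8 d hdy
      obtain ⟨l, hl, hdl⟩ := List.mem_flatMap.1 hdy
      have h3 : l ∈ A1 ++ Ky.map (fun k => (y, k)) ++ B1 := by
        rw [List.mem_append, List.mem_append]
        exact Or.inl (Or.inr hl)
      have h4 := hR6 l h3 d hdl
      obtain ⟨k, hk, rfl⟩ := List.mem_map.1 hl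
      have h5 : 2 * rst tot cs (y, k) ≤ K := by
        have h6 := htot (y, k)
        have h7 := hcs (y, k)
        unfold rst
        by_cases h8 : aft tot cs (y, k)
        · rw [if_pos h8]
          rcases h8 with h8 | h8
          · exact absurd h8 hy1
          · omega
        · rw [if_neg h8]
          obtain ⟨j, rfl⟩ := hKe
          omega
      rw [cnt_append]
      omega
    · apply cnt_chain hD1' hwM hD2' (K := K)
      · rw [List.mem_append, List.mem_append]
        rintro ((h2 | h2) | h2)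
        · exact hd.1.1 h2
        · exact hdy h2
        · exact hd.2 h2
      · exact hV6 d
      · apply hR7
        rw [hfly, List.mem_append, List.mem_append]
        rintro ((h2 | h2) | h2)
        · exact hd.1.1 h2
        · exact hdy h2
        · exact hd.2 h2

end KPl
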