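import Pool.Agent.Lib.MP_d3a5e5_coK.C4b
import Pool.Agent.Lib.MP_d3a5e5_coK.C4d
import Pool.Agent.Lib.MP_d3a5e5_coK.C4e

set_option autoImplicit false

namespace KPl

variable {H H' : Type} [Group H] [Group H'] {t : ZMod 4 → H} {t' : ZMod 4 → H'}

/-- LEAF C5 (part 1, easy-medium). Induction on the derivation `hD` (generalizing `M`), with `tr_kill`, `tr_cross`, `tr_vert`. Case `refl`: `csM = []`, `M' = M`. `hw` for the rest: `Dr.wf` of the one-step derivations. -/
theorem traverse (h : GI t) (h' : GI t') (st : Step t t') (A : Set H) (K r : ℕ) (hK : 100000 ≤ K) (hKe : Even K)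
    (hk : Kids h' st A K r) (v : F4 H) (b : ZMod 4) (tot : H × ZMod 4 → ℕ) (htot : ∀ l, tot l ≤ K) {S S' : Set H}
    {L L' : List (H × ZMod 4)} {cs : List ((H × ZMod 4) × (H × ZMod 4))} (hD : Dr (HG h) S L cs S' L')
    (hw : WF (HG h) S L) (h1 : (1 : H) ∈ S) (hcs : ∀ l, cnt cs l ≤ tot l) (hroot : ∀ k, cnt cs ((1 : H), k) = 0)
    (M : Set H') (hI : Inv h' st v b tot S L cs M) : TRes h' st A K r v b tot S L cs S' L' M := by
  induction hD generalizing M with
  | refl S L =>
    refine ⟨[], M, Dr.refl _ _, fun m hm => Or.inl hm, ?_, ?_, ?_, ?_, ?_⟩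
    · intro x hx hx'
      exact absurd hx hx'
    · intro x hx hx'
      exact absurd hx hx'
    · intro x hx k hk hor
      rcases hor with h2 | h2
      · exact absurd hx h2
      · exact absurd hk h2
    · intro l _ d _
      rw [cnt_nil]
      exact Nat.zero_le _
    · intro d _
      rw [cnt_nil]
      exact Nat.zero_le _
  | cross A1 B1 a c S cs S' L' hD ih =>
    have hcs' : ∀ l, cnt cs l ≤ tot l := by
      intro l
      have h2 := hcs l
      rw [cnt_cons] at h2
      omega
    have hroot' : ∀ k, cnt cs ((1 : H), k) = 0 := by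
      intro k
      have h2 := hroot k
      rw [cnt_cons] at h2
      omega
    have hw' : WF (HG h) S (A1 ++ c :: a :: B1) :=
      (Dr.cross A1 B1 a c S [] S _ (Dr.refl _ _)).wf hw
    exact tr_cross h h' st A K r v b tot htot A1 B1 a c S S' h1 cs L' hw hD hroot
      (fun M' hI' => ih hw' h1 hcs' hroot' M' hI') M hI
  | kill A1 B1 a S cs S' L' hD ih =>
    have hw' : WF (HG h) S (A1 ++ B1) := (Dr.kill A1 B1 a S [] S _ (Dr.refl _ _)).wf hw
    exact tr_kill h h' st A K r v b tot A1 B1 a S S' cs L' hw hD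
      (fun M' hI' => ih hw' h1 hcs hroot M' hI') M hI
  | vert A1 B1 y Kx Ky S cs S' L' hy hn hall hKx hKy hD ih =>
    have hw' : WF (HG h) (insert y S) (A1 ++ Ky.map (fun k => (y, k)) ++ B1) :=
      (Dr.vert A1 B1 y Kx Ky S [] _ _ hy hn hall hKx hKy (Dr.refl _ _)).wf hw
    exact tr_vert h h' st A K r hK hKe hk v b tot htot A1 B1 y Kx Ky S S' h1 cs L' hy hn hall hKx hKy hw hD hcs
      (fun M' hI' => ih hw' (Set.mem_insert_of_mem _ h1) hcs hroot M' hI') M hI

/-- LEAF C5 (part 2, medium). `GoodBlock` for the finite set `A ∪ ⋃ A * t k` gives a derivation `cs`, `S'` from `{1}`, `[3, 1, 2, 0]`; `traverse` with `tot = cnt cs` and `M` = the given set. `Inv` at the start: the list is `Ul st v b` (all four darts are root edges; `phi_T` with `x = 1`), `Ul_wf`; `i1` - `i4` from the hypotheses on `PW st v b`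
(`mem_PW`, `br_ofb`). At the end `[].flatMap = []`. Covering: `x = br v b z ∈ A`, `Cv A r ((v * ofb b x)⁻¹ * z)` (`Cv_br`). If `z = v * ofb b x`: for `blk p ≠ b` cover 1; for `blk p = b`, `k = lab p`: `x * t k = br v b (z * T t p) ≠ 1` (`br_T_eq`) is in `S'`: cover 3. If `z ≠ v * ofb b x`: `br_cases` gives `b'`; if `br (v * ofb b x) b' (z * T t p) ≠ 1`: cover 2,
otherwise `z * T t p = v * ofb b x` (`br_exit`), `mv z p = mv (v * ofb b x) p`, and `blk p = b' ≠ b` (`br_T_ne`): cover 1. Loads: root edges: `rst = cnt cs (1, k) = 0`. -/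
theorem world_of_kids (h : GI t) (h' : GI t') (st : Step t t') (A : Finset H) (K r : ℕ) (hK : 100000 ≤ K) (hKe : Even K)
    (hG : GoodBlock h K) (hk : Kids h' st (A : Set H) K r) : World h' st (A : Set H) K r := by
  classical
  intro v b S hS1 hS2
  obtain ⟨cs, S', hD, hAS, hroot, hcnt⟩ := hG (A ∪ (Finset.univ : Finset (ZMod 4)).biUnion (fun k => A.image (fun x => x * t k)))
  set L : List (H × ZMod 4) := ([3, 1, 2, 0] : List (ZMod 4)).map (fun k => ((1 : H), k)) with hL
  have hL1 : ∀ l ∈ L, l.1 = 1 := by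
    intro l hl
    rw [hL, List.mem_map] at hl
    obtain ⟨k, _, rfl⟩ := hl
    rfl
  have hAS1 : ∀ x ∈ A, x ∈ S' := by
    intro x hx
    apply hAS
    rw [Finset.mem_coe, Finset.mem_union]
    exact Or.inl hx
  have hAS2 : ∀ x ∈ A, ∀ k, x * t k ∈ S' := by
    intro x hx k
    apply hAS
    rw [Finset.mem_coe, Finset.mem_union]
    refine Or.inr ?_
    rw [Finset.mem_biUnion]
    exact ⟨k, Finset.mem_univ _, Finset.mem_image_of_mem _ hx⟩
  have hw : WF (HG h) ({1} : Set H) L := by
    constructor
    · rw [hL]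
      refine List.Nodup.map ?_ (by decide)
      intro k l e
      exact (Prod.mk.inj e).2
    · intro l hl
      rw [hL, List.mem_map] at hl
      obtain ⟨k, _, rfl⟩ := hl
      refine ⟨rfl, ?_⟩
      change (1 : H) * t k ∉ ({1} : Set H)
      rw [one_mul, Set.mem_singleton_iff]
      exact h.ne k
  have hTp : ∀ k, Tp st v b (fun l => cnt cs l) cs ((1 : H), k) = UP st (v * T t (pst b k)) (pst b k) := by
    intro k
    have e : v * ofb b (1 * t k) = v * T t (pst b k) := by
      rw [← phi_T v b k 1, map_one, mul_one]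
    have ha : aft (fun l => cnt cs l) cs ((1 : H), k) := Or.inl rfl
    unfold Tp
    rw [if_pos ha]
    rw [e]
  have hUl : L.flatMap (Tp st v b (fun l => cnt cs l) cs) = Ul st v b := by
    rw [hL, Ul, List.flatMap_map]
    congr 1
    funext k
    exact hTp k
  have hI : Inv h' st v b (fun l => cnt cs l) ({1} : Set H) L cs S := by
    refine ⟨?_, ?_, ?_, ?_, ?_⟩
    · rw [hUl]
      exact Ul_wf h h' st v b S hS1 hS2
    · intro y hy z p e1 e2
      rw [Set.mem_singleton_iff] at hy
      apply hS2
      rw [mem_PW h, e1, e2]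
      exact ⟨hy, hy⟩
    · intro y k hy hyk
      rw [Set.mem_singleton_iff] at hy hyk
      apply hS2
      rw [mem_PW h, phi_T, br_ofb, br_ofb]
      exact ⟨hy, hyk⟩
    · intro l hl
      have e := hL1 l hl
      constructor
      · intro _
        exact Or.inl e
      · intro _
        rw [e, map_one, mul_one]
        exact hS1 _ (blk_pst _ _)
    · intro x hx hx1
      exact absurd (Set.mem_singleton_iff.mp hx) hx1
  obtain ⟨csM, M', hDM, c1, c2, c3, c4, c5, c6⟩ := traverse h h' st (A : Set H) K r hK hKe hk v b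
    (fun l => cnt cs l) hcnt hD hw rfl (fun l => le_refl _) hroot S hI
  rw [hUl] at hDM
  have hcount : ∀ d ∈ Ul st v b, cnt csM d = 0 := by
    intro d hd
    rw [← hUl, List.mem_flatMap] at hd
    obtain ⟨l, hl, hd⟩ := hd
    have h2 := c5 l hl d hd
    have h3 : rst (fun l => cnt cs l) cs l = 0 := by
      have e := hL1 l hl
      have ha : aft (fun l => cnt cs l) cs l := Or.inl e
      unfold rst
      rw [if_pos ha]
      obtain ⟨l1, l2⟩ := l
      simp only at e
      subst e
      exact hroot l2
    rw [h3] at h2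
    omega
  refine ⟨csM, M', hDM, c1, ?_, ?_, hcount⟩
  · intro z p hz hzp hCv
    obtain ⟨hxA, hCr⟩ := Cv_br hCv b hz
    have hxA' : br v b z ∈ A := hxA
    have hxS : br v b z ∈ S' := hAS1 _ hxA'
    have hx1 : br v b z ∉ ({1} : Set H) := by
      rw [Set.mem_singleton_iff]
      exact hz
    by_cases hzx : z = v * ofb b (br v b z)
    · by_cases hp : blk p = b
      · have e1 : br v b (v * ofb b (br v b z) * T t p) = br v b z * t (lab p) := br_T_eq v b (br v b z) p hp
        have e2 := c4 (br v b z) hxS (lab p) (hAS2 _ hxA' _) (Or.inl hx1)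
        have e3 : pst b (lab p) = p := by
          rw [← hp]
          exact pst_blk_lab p
        rw [e3, ← hzx] at e2
        exact e2
      · have e2 := c2 (br v b z) hxS hx1 p hp
        rw [← hzx] at e2
        exact e2
    · obtain ⟨b', hb', hbr⟩ := br_cases v b z hzx
      by_cases h2 : br (v * ofb b (br v b z)) b' (z * T t p) = 1
      · have e1 := br_exit h (v * ofb b (br v b z)) b' z p hbr h2
        have e2 : blk p ≠ b := by
          intro hp
          have hpb' : blk p ≠ b' := by
            rw [hp]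
            exact fun e => hb' e.symm
          apply hbr
          rw [← br_T_ne (v * ofb b (br v b z)) b' z p hpb']
          exact h2
        have e3 := c2 (br v b z) hxS hx1 p e2
        rw [← e1, st.mv_T] at e3
        exact e3
      · exact c3 (br v b z) hxS hx1 b' hb' z p hbr h2 hCr
  · intro d
    by_cases hd : d ∈ Ul st v b
    · rw [hcount d hd]
      exact Nat.zero_le _
    · exact c6 d (by rw [hUl]; exact hd)

end KPl
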