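import Pool.Agent.Lib.MP_d3a5e5_coK.C0

set_option autoImplicit false

namespace KPl

/-- The vertices of the first set joined by short words: all elements of `Z` are products of at most `R` generators. -/
def Rad {H : Type} [Group H] (t : ZMod 4 → H) (R : ℕ) (Z : ML → Set H) : Prop :=
  ∀ a, ∀ x ∈ Z a, ∃ l : List (ZMod 4), l.length ≤ R ∧ x = (l.map t).prod

variable {H : Type} [Group H] {t : ZMod 4 → H}

/-- LEAF D1 (part 1, easy). -/
theorem cay_connected (h : GI t) : (HG h).graph.Connected := by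
  have hadj : ∀ (x : H) (k : ZMod 4), (HG h).graph.Adj x (x * t k) := fun x k => ⟨k, rfl⟩
  have hinv : ∀ k, (t k)⁻¹ = t k := fun k => inv_eq_of_mul_eq_one_right (h.sq k)
  have hr : ∀ x : H, (HG h).graph.Reachable 1 x := by
    intro x
    have hx : x ∈ Subgroup.closure (Set.range t) := by
      rw [h.gen]
      exact Subgroup.mem_top x
    induction hx using Subgroup.closure_induction_right with
    | one => exact SimpleGraph.Reachable.refl _
    | mul_right x _ y hy ih =>
      obtain ⟨k, rfl⟩ := hy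
      exact ih.trans (hadj x k).reachable
    | mul_inv_cancel x _ y hy ih =>
      obtain ⟨k, rfl⟩ := hy
      rw [hinv]
      exact ih.trans (hadj x k).reachable
  have : Nonempty H := ⟨1⟩
  exact SimpleGraph.Connected.mk (fun x y => (hr x).symm.trans (hr y))

/-- LEAF D1 (part 2, easy). -/
theorem cay_nbrs (h : GI t) (x : H) : ((HG h).graph.neighborSet x).Finite ∧ ((HG h).graph.neighborSet x).ncard ≤ 4 := by
  have e : (HG h).graph.neighborSet x = (fun k : ZMod 4 => x * t k) '' Set.univ := by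
    ext y
    rw [Set.image_univ]
    exact Iff.rfl
  have hfin : (Set.univ : Set (ZMod 4)).Finite := Set.finite_univ
  rw [e]
  refine ⟨hfin.image _, (Set.ncard_image_le hfin).trans ?_⟩
  rw [Set.ncard_univ, Nat.card_zmod]

/-- LEAF D1 (part 3, easy). Left multiplication is an automorphism. -/
theorem cay_trans (h : GI t) (x y : H) : ∃ φ : (HG h).graph ≃g (HG h).graph, φ x = y := by
  refine ⟨⟨Equiv.mulLeft (y * x⁻¹), ?_⟩, ?_⟩
  · intro a b
    constructor
    · rintro ⟨k, hk⟩
      refine ⟨k, ?_⟩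
      have hk' : y * x⁻¹ * a * t k = y * x⁻¹ * b := hk
      rw [mul_assoc (y * x⁻¹)] at hk'
      exact mul_left_cancel hk'
    · rintro ⟨k, hk⟩
      refine ⟨k, ?_⟩
      have hk' : a * t k = b := hk
      show y * x⁻¹ * a * t k = y * x⁻¹ * b
      rw [mul_assoc (y * x⁻¹), hk']
  · show y * x⁻¹ * x = y
    rw [inv_mul_cancel_right]

open Classical in
/-- The function on the edges `(v, p)` of the free product which is obtained from a function `f` on `H` (the first copy `ofb 0 H`), multiplied by 4. -/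
noncomputable def Lam (t : ZMod 4 → H) (f : H → ℤ) (v : F4 H) (p : ZMod 16) : ℤ :=
  if blk p = 0 then 2 * (f (hd 0 v) + f (hd 0 (v * T t p)))
  else 4 * f (hd 0 v) +
    (if tl 0 v = 1 ∨ tl 0 (v * T t p) = 1 then
      (if blk p = 1 then f (hd 0 v * t (lab p)) - f (hd 0 v)
        else if blk p = 3 then f (hd 0 v * t (lab p + 1)) - f (hd 0 v) else 0)
      else 0)

private theorem D1_hd_ne (v : F4 H) (p : ZMod 16) (hp : blk p ≠ 0) : hd 0 (v * T t p) = hd 0 v := by
  have h1 := br_T_ne (1 : F4 H) 0 v p hp (t := t)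
  unfold br at h1
  rw [inv_one, one_mul, one_mul] at h1
  exact h1

private theorem D1_eq0 (f : H → ℤ) (v : F4 H) (p : ZMod 16) (hp : blk p = 0) :
    Lam t f v p = 2 * (f (hd 0 v) + f (hd 0 (v * T t p))) := by
  unfold Lam
  rw [if_pos hp]

/-- The correction. -/
private noncomputable def D1_c (t : ZMod 4 → H) (f : H → ℤ) (x : H) (p : ZMod 16) : ℤ :=
  if blk p = 1 then f (x * t (lab p)) - f x
    else if blk p = 3 then f (x * t (lab p + 1)) - f x else 0

private theorem D1_eq1 (f : H → ℤ) (v : F4 H) (p : ZMod 16) (hp : blk p ≠ 0)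
    (ht : tl 0 v = 1 ∨ tl 0 (v * T t p) = 1) : Lam t f v p = 4 * f (hd 0 v) + D1_c t f (hd 0 v) p := by
  unfold Lam D1_c
  rw [if_neg hp, if_pos ht]

private theorem D1_eq2 (f : H → ℤ) (v : F4 H) (p : ZMod 16) (hp : blk p ≠ 0)
    (ht : ¬ (tl 0 v = 1 ∨ tl 0 (v * T t p) = 1)) : Lam t f v p = 4 * f (hd 0 v) := by
  unfold Lam
  rw [if_neg hp, if_neg ht, add_zero]

private theorem D1_c_le (f : H → ℤ) (hf : ∀ x k, |f (x * t k) - f x| ≤ 1) (x : H) (p : ZMod 16) :
    |D1_c t f x p| ≤ 1 := by
  unfold D1_c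
  split_ifs
  · exact hf _ _
  · exact hf _ _
  · rw [abs_zero]
    exact zero_le_one

/-- LEAF D1 (part 4, easy-medium). For `blk p ≠ 0`: `hd 0 (v * T t p) = hd 0 v` (`br_T_ne` with `v = 1`, or `hd_mul_right`). -/
theorem Lam_symm (h : GI t) (f : H → ℤ) (v : F4 H) (p : ZMod 16) : Lam t f (v * T t p) p = Lam t f v p := by
  have h2 : v * T t p * T t p = v := by rw [mul_assoc, T_sq h, mul_one]
  by_cases hp : blk p = 0
  · rw [D1_eq0 f _ p hp, D1_eq0 f _ p hp, h2, add_comm (f (hd 0 v))]
  · by_cases ht : tl 0 v = 1 ∨ tl 0 (v * T t p) = 1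
    · rw [D1_eq1 f v p hp ht, D1_eq1 f (v * T t p) p hp (by rw [h2]; exact ht.symm), D1_hd_ne v p hp]
    · rw [D1_eq2 f v p hp ht, D1_eq2 f (v * T t p) p hp (by rw [h2]; exact fun h => ht h.symm),
        D1_hd_ne v p hp]

/-- The values at the vertices of the first copy. -/
private theorem D1_val0 (f : H → ℤ) (x : H) (p : ZMod 16) (hp : blk p = 0) :
    Lam t f (ofb 0 x) p = 4 * f x + 2 * (f (x * t (lab p)) - f x) := by
  rw [D1_eq0 f _ p hp, hd_ofb]
  have h1 := br_T_eq (1 : F4 H) 0 x p hp (t := t)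
  unfold br at h1
  rw [inv_one, one_mul, one_mul] at h1
  rw [h1]
  ring

private theorem D1_val1 (f : H → ℤ) (x : H) (p : ZMod 16) (hp : blk p ≠ 0) :
    Lam t f (ofb 0 x) p = 4 * f x + D1_c t f x p := by
  have h1 : tl 0 (ofb 0 x) = 1 := by
    have h2 := hd_tl 0 (ofb 0 x)
    rw [hd_ofb] at h2
    exact mul_eq_left.1 h2
  rw [D1_eq1 f _ p hp (Or.inl h1), hd_ofb]

private theorem D1_four : ∀ b : ZMod 4, b = 0 ∨ b = 1 ∨ b = 2 ∨ b = 3 := by decide

/-- LEAF D1 (part 5, medium). Case `tl 0 v = 1`, `v = ofb 0 x`: the values at `p = 4k, 4k + 1, 4k + 2, 4k + 3, 4k + 4` are `4 f x + 2 δ_k`, `4 f x + δ_k`, `4 f x`, `4 f x + δ_(k+1)`, `4 f x + 2 δ_(k+1)` with `δ_k = f (x t_k) - f x` (`lab_succ`, `blk_succ`, `hd 0 (ofb 0 x * T t p) = x * t (lab p)` for `blk p = 0`).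
Case `tl 0 v ≠ 1`: if `blk p = 0` then `hd 0 (v * T t p) = hd 0 v`, so the value at `p` is `4 f (hd 0 v)`; if `blk p ≠ 0` it is `4 f (hd 0 v)` too, except when `tl 0 (v * T t p) = 1`, then it differs by at most 1. This can happen only for one `p`: `v * T t p = ofb 0 x` with `x = hd 0 v`, and `T` is injective. -/
theorem Lam_lip (h : GI t) (f : H → ℤ) (hf : ∀ x k, |f (x * t k) - f x| ≤ 1) (v : F4 H) (p : ZMod 16) :
    |Lam t f v (p + 1) - Lam t f v p| ≤ 1 := by
  by_cases hv : tl 0 v = 1
  · have hvx : v = ofb 0 (hd 0 v) := by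
      have h1 := hd_tl 0 v
      rw [hv, mul_one] at h1
      exact h1.symm
    generalize hd 0 v = x at hvx
    subst hvx
    have hs := blk_succ p
    have hl := lab_succ p
    rcases D1_four (blk p) with hb | hb | hb | hb
    · rw [hb] at hs
      rw [if_neg (by rw [hb]; decide)] at hl
      rw [D1_val0 f x p hb, D1_val1 f x (p + 1) (by rw [hs]; decide)]
      unfold D1_c
      rw [if_pos (by rw [hs]; decide), hl]
      have h1 := hf x (lab p)
      rw [abs_le] at h1 ⊢
      constructor <;> linarith [h1.1, h1.2]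
    · rw [hb] at hs
      rw [D1_val1 f x p (by rw [hb]; decide), D1_val1 f x (p + 1) (by rw [hs]; decide)]
      have h2 : D1_c t f x (p + 1) = 0 := by
        unfold D1_c
        rw [if_neg (by rw [hs]; decide), if_neg (by rw [hs]; decide)]
      have h1 := D1_c_le f hf x p
      rw [h2]
      rw [abs_le] at h1 ⊢
      constructor <;> linarith [h1.1, h1.2]
    · rw [hb] at hs
      rw [D1_val1 f x p (by rw [hb]; decide), D1_val1 f x (p + 1) (by rw [hs]; decide)]
      have h2 : D1_c t f x p = 0 := by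
        unfold D1_c
        rw [if_neg (by rw [hb]; decide), if_neg (by rw [hb]; decide)]
      have h1 := D1_c_le f hf x (p + 1)
      rw [h2]
      rw [abs_le] at h1 ⊢
      constructor <;> linarith [h1.1, h1.2]
    · rw [hb] at hs
      rw [if_pos hb] at hl
      rw [D1_val1 f x p (by rw [hb]; decide), D1_val0 f x (p + 1) (by rw [hs]; decide)]
      unfold D1_c
      rw [if_neg (by rw [hb]; decide), if_pos hb, hl]
      have h1 := hf x (lab p + 1)
      rw [abs_le] at h1 ⊢
      constructor <;> linarith [h1.1, h1.2]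
  · -- the value at `q` is `4 f (hd 0 v) + e q`
    have hvn : v ≠ (1 : F4 H) * ofb 0 (br 1 0 v) := by
      intro h1
      unfold br at h1
      rw [inv_one, one_mul, one_mul] at h1
      apply hv
      have h2 := hd_tl 0 v
      rw [← h1] at h2
      exact mul_eq_left.1 h2
    have hval : ∀ q : ZMod 16, (Lam t f v q = 4 * f (hd 0 v)) ∨
        (|Lam t f v q - 4 * f (hd 0 v)| ≤ 1 ∧ v * T t q = ofb 0 (hd 0 v)) := by
      intro q
      by_cases hq : blk q = 0
      · left
        rw [D1_eq0 f v q hq]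
        have h1 := br_T_far (1 : F4 H) 0 v q hvn (t := t)
        unfold br at h1
        rw [inv_one, one_mul, one_mul] at h1
        rw [h1]
        ring
      · by_cases ht : tl 0 v = 1 ∨ tl 0 (v * T t q) = 1
        · right
          rw [D1_eq1 f v q hq ht]
          refine ⟨?_, ?_⟩
          · rw [add_sub_cancel_left]
            exact D1_c_le f hf _ _
          · have h1 := hd_tl 0 (v * T t q)
            rw [ht.resolve_left hv, mul_one, D1_hd_ne v q hq] at h1
            exact h1.symm
        · left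
          exact D1_eq2 f v q hq ht
    rcases hval p with h1 | ⟨h1, h1'⟩
    · rcases hval (p + 1) with h2 | ⟨h2, _⟩
      · rw [h1, h2, sub_self, abs_zero]
        exact zero_le_one
      · rw [h1]
        exact h2
    · rcases hval (p + 1) with h2 | ⟨_, h2'⟩
      · rw [h2, abs_sub_comm]
        exact h1
      · exfalso
        have h3 : T t p = T t (p + 1) := mul_left_cancel (h1'.trans h2'.symm)
        have h4 := T_inj h h3
        have h5 : (1 : ZMod 16) = 0 := by
          have h6 : p + 0 = p + 1 := by rw [add_zero]; exact h4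
          exact (add_left_cancel h6).symm
        exact absurd h5 (by decide)

/-- LEAF D1 (part 6, easy-medium). -/
theorem Lam_val (h : GI t) (f : H → ℤ) (hf : ∀ x k, |f (x * t k) - f x| ≤ 1) (x : H) (p : ZMod 16) :
    |Lam t f (ofb 0 x) p - 4 * f x| ≤ 2 := by
  by_cases hp : blk p = 0
  · rw [D1_val0 f x p hp, add_sub_cancel_left]
    have h1 := hf x (lab p)
    rw [abs_le] at h1 ⊢
    constructor <;> linarith [h1.1, h1.2]
  · rw [D1_val1 f x p hp, add_sub_cancel_left]
    exact (D1_c_le f hf x p).trans (by norm_num)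

end KPl
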