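import Pool.Agent.Lib.MP_d3a5e5_coK.D1

set_option autoImplicit false
set_option linter.unusedVariables false

namespace KPl

variable {H H' : Type} [Group H] [Group H'] {t : ZMod 4 → H} {t' : ZMod 4 → H'}

/-- The rings over the vertices of the sets (first copy of `H`). -/
def LiftZ (st : Step t t') (Z : ML → Set H) (a : ML) : Set H' := {m | ∃ x ∈ Z a, ∃ p, m = st.mv (ofb 0 x) p}

/-- `Λ m = Lam t f v p` for any `v`, `p` with `m = mv v p`. -/
theorem exists_Lam (h : GI t) (h' : GI t') (st : Step t t') (f : H → ℤ) (hf : ∀ x k, |f (x * t k) - f x| ≤ 1) :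
    ∃ Λ : H' → ℤ, (∀ m m', (HG h').graph.Adj m m' → |Λ m' - Λ m| ≤ 1) ∧ ∀ x p, |Λ (st.mv (ofb 0 x) p) - 4 * f x| ≤ 2 := by
  choose v p hvp using st.mv_surj
  have key : ∀ w q, Lam t f (v (st.mv w q)) (p (st.mv w q)) = Lam t f w q := by
    intro w q
    obtain ⟨h1, h2⟩ := st.mv_inj _ _ _ _ (hvp (st.mv w q))
    rw [h1] at h2 ⊢
    rcases h2 with h2 | h2
    · rw [← h2]
    · conv_rhs => rw [h2]
      rw [Lam_symm h]
  refine ⟨fun m => Lam t f (v m) (p m), ?_, ?_⟩
  · intro m m' hm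
    beta_reduce
    obtain ⟨w, q, ⟨rfl, rfl⟩ | ⟨rfl, rfl⟩⟩ := adj_ring h' st hm
    · rw [key, key]
      exact Lam_lip h f hf w q
    · rw [key, key, abs_sub_comm]
      exact Lam_lip h f hf w q
  · intro x q
    beta_reduce
    rw [key]
    exact Lam_val h f hf x q

private theorem D2_T (k : ZMod 4) : T t (pst 0 k) = ofb 0 (t k) := by
  unfold T
  rw [blk_pst, lab_pst]

/-- The ring of `x` and the ring of `x * t k` have a vertex in common. -/
private theorem D2_common (st : Step t t') (x : H) (k : ZMod 4) :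
    st.mv (ofb 0 x) (pst 0 k) = st.mv (ofb 0 (x * t k)) (pst 0 k) := by
  rw [← st.mv_T (ofb 0 x) (pst 0 k), D2_T, ← map_mul]

private theorem D2_ring_adj (h' : GI t') (st : Step t t') (v : F4 H) (p : ZMod 16) :
    (HG h').graph.Adj (st.mv v p) (st.mv v (p + 1)) :=
  ⟨colr (st.par v) p, st.mv_col v p⟩

private theorem D2_ring (h' : GI t') (st : Step t t') (S : Set H') (v : F4 H) (hS : ∀ p, st.mv v p ∈ S)
    (p : ZMod 16) (n : ℕ) :
    ∃ w : (HG h').graph.Walk (st.mv v p) (st.mv v (p + n)), ∀ z ∈ w.support, z ∈ S := by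
  induction n with
  | zero =>
    rw [Nat.cast_zero, add_zero]
    refine ⟨SimpleGraph.Walk.nil, fun z hz => ?_⟩
    rw [SimpleGraph.Walk.support_nil, List.mem_singleton] at hz
    rw [hz]
    exact hS p
  | succ n ih =>
    obtain ⟨w, hw⟩ := ih
    have e : p + ((n + 1 : ℕ) : ZMod 16) = (p + n) + 1 := by
      push_cast
      ring
    rw [e]
    refine ⟨w.concat (D2_ring_adj h' st v (p + n)), fun z hz => ?_⟩
    rw [SimpleGraph.Walk.support_concat] at hz
    rw [List.mem_append, List.mem_singleton] at hz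
    rcases hz with hz | hz
    · exact hw z hz
    · rw [hz]
      exact hS _

private theorem D2_ring' (h' : GI t') (st : Step t t') (S : Set H') (v : F4 H) (hS : ∀ p, st.mv v p ∈ S)
    (p q : ZMod 16) :
    ∃ w : (HG h').graph.Walk (st.mv v p) (st.mv v q), ∀ z ∈ w.support, z ∈ S := by
  have h1 := D2_ring h' st S v hS p (q - p).val
  have e : p + (((q - p).val : ℕ) : ZMod 16) = q := by
    rw [ZMod.natCast_zmod_val]
    ring
  rw [e] at h1
  exact h1

private theorem D2_walk (h : GI t) (h' : GI t') (st : Step t t') (Z : Set H) (S : Set H')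
    (hS : ∀ x ∈ Z, ∀ p, st.mv (ofb 0 x) p ∈ S) {x y : H} (w : (HG h).graph.Walk x y)
    (hw : ∀ z ∈ w.support, z ∈ Z) (p q : ZMod 16) :
    ∃ w' : (HG h').graph.Walk (st.mv (ofb 0 x) p) (st.mv (ofb 0 y) q), ∀ z ∈ w'.support, z ∈ S := by
  induction w generalizing p with
  | nil =>
    exact D2_ring' h' st S _ (hS _ (hw _ (SimpleGraph.Walk.start_mem_support _))) p q
  | @cons x x' y hadj w ih =>
    obtain ⟨k, hk⟩ := hadj
    have hk' : x * t k = x' := hk
    have hx : x ∈ Z := hw _ (by rw [SimpleGraph.Walk.support_cons]; exact List.mem_cons_self)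
    have e : st.mv (ofb 0 x) (pst 0 k) = st.mv (ofb 0 x') (pst 0 k) := by rw [D2_common, hk']
    obtain ⟨w1, hw1⟩ : ∃ w1 : (HG h').graph.Walk (st.mv (ofb 0 x) p) (st.mv (ofb 0 x') (pst 0 k)),
        ∀ z ∈ w1.support, z ∈ S := by
      rw [← e]
      exact D2_ring' h' st S (ofb 0 x) (hS x hx) p (pst 0 k)
    obtain ⟨w2, hw2⟩ := ih (fun z hz => hw z (by
      rw [SimpleGraph.Walk.support_cons]
      exact List.mem_cons_of_mem _ hz)) (pst 0 k)
    refine ⟨w1.append w2, fun z hz => ?_⟩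
    rcases (SimpleGraph.Walk.mem_support_append_iff _ _).1 hz with hz | hz
    · exact hw1 z hz
    · exact hw2 z hz

private theorem D2_lip {V : Type} {G : SimpleGraph V} {Λ : V → ℤ} (hΛ : ∀ m m', G.Adj m m' → |Λ m' - Λ m| ≤ 1)
    {x y : V} (w : G.Walk x y) : |Λ y - Λ x| ≤ w.length := by
  induction w with
  | nil => simp
  | @cons x x' y hadj w ih =>
    have h1 := hΛ _ _ hadj
    have h2 : |Λ y - Λ x| ≤ |Λ y - Λ x'| + |Λ x' - Λ x| := by
      have h3 : Λ y - Λ x = (Λ y - Λ x') + (Λ x' - Λ x) := by ring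
      rw [h3]
      exact abs_add_le _ _
    rw [SimpleGraph.Walk.length_cons]
    push_cast
    linarith

/-- The rings of a fat model. -/
theorem mdl_lift (h : GI t) (h' : GI t') (st : Step t t') (D : ℕ) (Z : ML → Set H)
    (hZ : Mdl (HG h).graph D Z) : Mdl (HG h').graph (4 * D - 4) (LiftZ st Z) where
  ne a := by
    obtain ⟨x, hx⟩ := hZ.ne a
    exact ⟨st.mv (ofb 0 x) 0, x, hx, 0, rfl⟩
  fin a := by
    refine (((hZ.fin a).prod (Set.finite_univ (α := ZMod 16))).image
      (fun q : H × ZMod 16 => st.mv (ofb 0 q.1) q.2)).subset ?_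
    rintro m ⟨x, hx, p, rfl⟩
    exact ⟨(x, p), ⟨hx, Set.mem_univ _⟩, rfl⟩
  conn a := by
    rintro m ⟨x, hx, p, rfl⟩ m' ⟨y, hy, q, rfl⟩
    obtain ⟨w, hw⟩ := hZ.conn a x hx y hy
    exact D2_walk h h' st (Z a) (LiftZ st Z a) (fun x hx p => ⟨x, hx, p, rfl⟩) w hw p q
  inc a b hab := by
    obtain ⟨x, hx, y, hy, hxy | ⟨k, hk⟩⟩ := hZ.inc a b hab
    · exact ⟨st.mv (ofb 0 x) 0, ⟨x, hx, 0, rfl⟩, st.mv (ofb 0 y) 0, ⟨y, hy, 0, rfl⟩, Or.inl (by rw [hxy])⟩
    · have hk' : x * t k = y := hk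
      exact ⟨st.mv (ofb 0 x) (pst 0 k), ⟨x, hx, _, rfl⟩, st.mv (ofb 0 y) (pst 0 k), ⟨y, hy, _, rfl⟩,
        Or.inl (by rw [D2_common, hk'])⟩
  far a b hab h1 h2 := by
    rintro m ⟨x, hx, p, rfl⟩ m' ⟨y, hy, q, rfl⟩
    have hD := hZ.far a b hab h1 h2 x hx y hy
    have hcon := cay_connected h
    obtain ⟨Λ, hΛ, hv⟩ := exists_Lam h h' st (fun z => ((HG h).graph.dist x z : ℤ)) (by
      intro z k
      have hadj : (HG h).graph.Adj z (z * t k) := ⟨k, rfl⟩
      have e1 : (HG h).graph.dist z (z * t k) = 1 := SimpleGraph.dist_eq_one_iff_adj.2 hadj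
      have e2 := hcon.dist_triangle (u := x) (v := z) (w := z * t k)
      have e3 := hcon.dist_triangle (u := x) (v := z * t k) (w := z)
      rw [SimpleGraph.dist_comm (u := z * t k) (v := z)] at e3
      rw [e1] at e2 e3
      rw [abs_le]
      constructor
      · omega
      · omega)
    obtain ⟨w, hw⟩ := (cay_connected h').exists_walk_length_eq_dist (st.mv (ofb 0 x) p) (st.mv (ofb 0 y) q)
    have g1 := D2_lip hΛ w
    have g2 := hv x p
    have g3 := hv y q
    beta_reduce at g2 g3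
    rw [SimpleGraph.dist_self] at g2
    rw [abs_le] at g1 g2 g3
    rw [hw] at g1
    omega

private theorem D2_word_ring (st : Step t t') (v : F4 H) (p : ZMod 16) (n : ℕ) :
    ∃ l : List (ZMod 4), l.length = n ∧ st.mv v (p + n) = st.mv v p * (l.map t').prod := by
  induction n with
  | zero => exact ⟨[], rfl, by simp⟩
  | succ n ih =>
    obtain ⟨l, hl, e⟩ := ih
    refine ⟨l ++ [colr (st.par v) (p + n)], by simp [hl], ?_⟩
    have e2 : p + ((n + 1 : ℕ) : ZMod 16) = (p + n) + 1 := by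
      push_cast
      ring
    rw [e2, ← st.mv_col, e, List.map_append, List.prod_append, List.map_singleton, List.prod_singleton, mul_assoc]

private theorem D2_word_ring' (st : Step t t') (v : F4 H) (p q : ZMod 16) :
    ∃ l : List (ZMod 4), l.length ≤ 15 ∧ st.mv v q = st.mv v p * (l.map t').prod := by
  obtain ⟨l, hl, e⟩ := D2_word_ring st v p (q - p).val
  have e2 : p + (((q - p).val : ℕ) : ZMod 16) = q := by
    rw [ZMod.natCast_zmod_val]
    ring
  rw [e2] at e
  refine ⟨l, ?_, e⟩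
  rw [hl]
  have := ZMod.val_lt (q - p)
  omega

/-- `mv ((l.map (T t)).prod) p` is a product of at most `16 * (l.length + 1)` generators. -/
theorem mv_word (h' : GI t') (st : Step t t') (l : List (ZMod 16)) (p : ZMod 16) :
    ∃ l' : List (ZMod 4), l'.length ≤ 16 * (l.length + 1) ∧ st.mv ((l.map (T t)).prod) p = (l'.map t').prod := by
  induction l using List.reverseRecOn generalizing p with
  | nil =>
    obtain ⟨l, hl, e⟩ := D2_word_ring' st (1 : F4 H) 0 p
    refine ⟨l, by simp; omega, ?_⟩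
    rw [List.map_nil, List.prod_nil, e, st.mv_one, one_mul]
  | append_singleton l q ih =>
    obtain ⟨l1, h1, e1⟩ := ih q
    obtain ⟨l2, h2, e2⟩ := D2_word_ring' st ((l.map (T t)).prod * T t q) q p
    refine ⟨l1 ++ l2, ?_, ?_⟩
    · rw [List.length_append, List.length_append, List.length_singleton]
      omega
    · rw [List.map_append, List.prod_append, List.map_singleton, List.prod_singleton, e2, st.mv_T, e1,
        List.map_append, List.prod_append]

/-- The rings over short words are short words. -/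
theorem rad_lift (h' : GI t') (st : Step t t') (R : ℕ) (Z : ML → Set H) (hZ : Rad t R Z) :
    Rad t' (16 * (R + 1)) (LiftZ st Z) := by
  rintro a m ⟨x, hx, p, rfl⟩
  obtain ⟨l, hl, rfl⟩ := hZ a x hx
  obtain ⟨l', h1, h2⟩ := mv_word h' st (l.map (pst 0)) p
  refine ⟨l', ?_, ?_⟩
  · rw [List.length_map] at h1
    omega
  · rw [← h2]
    congr 1
    rw [map_list_prod, List.map_map, List.map_map]
    congr 2
    funext k
    exact (D2_T k).symm

end KPl
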