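import Pool.Agent.Lib.MP_d3a5e5_coK.D2

set_option autoImplicit false

namespace KPl

variable {H H' : Type} [Group H] [Group H'] {t : ZMod 4 → H} {t' : ZMod 4 → H'}

/-- A ring in `H` through `1`: `y 0 = 1`, `y 1 = t k1`, `y 15 = t k2`, consecutive elements are adjacent, and no other element is adjacent to `1`. -/
structure Rg (t : ZMod 4 → H) (y : ZMod 16 → H) (k1 k2 : ZMod 4) : Prop where
  zero : y 0 = 1
  inj : Function.Injective y
  one : y 1 = t k1
  last : y (-1) = t k2
  ne : k1 ≠ k2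
  step : ∀ p, ∃ k, y (p + 1) = y p * t k
  far : ∀ p k, y p = t k → p = 1 ∨ p = -1

/-- The chord: the rings (of `H'`) over the elements `≠ 1` of the ring `y` in the copy `b`, without the ring of `1`. -/
def Chord (st : Step t t') (b : ZMod 4) (y : ZMod 16 → H) : Set H' :=
  {m | (∃ p, p ≠ 0 ∧ ∃ q, m = st.mv (ofb b (y p)) q) ∧ ∀ q, m ≠ st.mv 1 q}

variable (h : GI t) (h' : GI t') (st : Step t t')

private theorem d3_T_pst (b k : ZMod 4) : T t (pst b k) = ofb b (t k) := by
  unfold T
  rw [blk_pst, lab_pst]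

private theorem d3_hd_ne {b c : ZMod 4} (hbc : c ≠ b) (x : H) : hd b (ofb c x : F4 H) = 1 := by
  by_cases hx : x = 1
  · rw [hx, map_one, hd_one]
  · exact hd_ne (b := c) (b' := b) (fun e => hbc e.symm) (by rw [hd_ofb]; exact hx)

private theorem d3_hd_T {b : ZMod 4} {q : ZMod 16} (hq : blk q ≠ b) : hd b (T t q) = 1 := d3_hd_ne hq _

private theorem d3_one_ne {b : ZMod 4} {x : H} (hx : x ≠ 1) : (1 : F4 H) ≠ ofb b x := by
  intro e
  apply hx
  have h1 := congrArg (hd b) e
  rw [hd_one, hd_ofb] at h1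
  exact h1.symm

private theorem d3_one_ne' {b : ZMod 4} {x : H} (hx : x ≠ 1) {q : ZMod 16} (hq : blk q ≠ b) :
    (1 : F4 H) ≠ ofb b x * T t q := by
  intro e
  apply hx
  have h1 := congrArg (hd b) e
  rw [hd_one, hd_mul, d3_hd_T hq, mul_one] at h1
  exact h1.symm

private theorem d3_blk_succ (q : ZMod 16) : blk (q + 1) ≠ blk q := by
  rw [blk_succ]
  intro e
  have h1 : (1 : ZMod 4) = 0 := by
    have h2 : blk q + 1 = blk q + 0 := by rw [e, add_zero]
    exact add_left_cancel h2
  exact absurd h1 (by decide)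

private theorem d3_step (h' : GI t') (st : Step t t') (v : F4 H) (p : ZMod 16) :
    (HG h').graph.Adj (st.mv v p) (st.mv v (p + 1)) := ⟨_, st.mv_col v p⟩

private theorem d3_yne {k1 k2 : ZMod 4} {y : ZMod 16 → H} (hy : Rg t y k1 k2) {p : ZMod 16} (hp : p ≠ 0) :
    y p ≠ 1 := by
  intro e
  exact hp (hy.inj (e.trans hy.zero.symm))

/-- A vertex of a chord is only in rings behind the copy `b`. -/
private theorem d3_hd_chord {st : Step t t'} {b k1 k2 : ZMod 4} {y : ZMod 16 → H} (hy : Rg t y k1 k2) {m : H'}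
    (hm : m ∈ Chord st b y) {v : F4 H} {q : ZMod 16} (hv : m = st.mv v q) : hd b v ≠ 1 := by
  obtain ⟨⟨p, hp, q', h1⟩, h2⟩ := hm
  have hv1 : v ≠ 1 := by
    rintro rfl
    exact h2 q hv
  obtain ⟨-, h3⟩ := st.mv_inj _ _ _ _ (h1.symm.trans hv)
  rcases h3 with h3 | h3
  · rw [h3, hd_ofb]
    exact d3_yne hy hp
  · by_cases hb : blk q' = b
    · have h4 : v = ofb b (y p * t (lab q')) := by
        rw [h3]
        unfold T
        rw [hb, ← map_mul]
      rw [h4, hd_ofb]
      intro e
      rw [e, map_one] at h4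
      exact hv1 h4
    · rw [h3, hd_mul, d3_hd_T hb, mul_one]
      exact d3_yne hy hp

/-- LEAF D3 (part 1, easy-medium): neighbours in the ring of `1`. If `mv 1 p`, `mv 1 q` are adjacent they are in a common ring `v`; `v = 1`, or `v = T p = T q` and then `p = q`, impossible for neighbours in a ring. -/
theorem ring_adj (p q : ZMod 16) : (HG h').graph.Adj (st.mv 1 p) (st.mv 1 q) ↔ q = p + 1 ∨ q = p - 1 := by
  constructor
  · intro hadj
    obtain ⟨v, r, ⟨h1, h2⟩ | ⟨h1, h2⟩⟩ := adj_ring h' st hadj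
    · left
      rw [(st.mv_inj _ _ _ _ h2).1, (st.mv_inj _ _ _ _ h1).1]
    · right
      rw [(st.mv_inj _ _ _ _ h2).1, (st.mv_inj _ _ _ _ h1).1, add_sub_cancel_right]
  · rintro (rfl | rfl)
    · exact d3_step h' st 1 p
    · exact ⟨_, mv_down h' st 1 p⟩

include h in
/-- LEAF D3 (part 2, medium). A chord is adjacent to the ring of `1` only at the positions `pst b k1`, `pst b k2`. If `m = mv 1 q` is adjacent to `m' ∈ Chord`, both are in a ring `v` (`adj_ring`), `v ≠ 1` because `m'` is not in the ring of `1`, so `v = T q` (`mv_eq`), `m' = mv (T q) q'`, `q' = q ± 1`; `m' = mv (ofb b (y p)) q'`, so `ofb b (y p)` is `T q` or `T q * T q'`; the latter is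
impossible: `blk q' = blk q ± 1`, so `T q * T q'` has two syllables (compute `hd`). So `blk q = b`, `y p = t (lab q)`, `far`: `lab q = k1` or `k2`. -/
theorem chord_ring {b k1 k2 : ZMod 4} {y : ZMod 16 → H} (hy : Rg t y k1 k2) (q : ZMod 16) (m : H')
    (hm : m ∈ Chord st b y) (hq : q ≠ pst b k1) (hq' : q ≠ pst b k2) :
    ¬ (HG h').graph.Adj (st.mv 1 q) m ∧ ¬ (HG h').graph.Adj m (st.mv 1 q) := by
  have key : ∀ (v : F4 H) (q'' : ZMod 16), st.mv 1 q = st.mv v q → m = st.mv v q'' → blk q'' ≠ blk q → False := by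
    intro v q'' h1 h2 h3
    have hv1 : v ≠ 1 := by
      rintro rfl
      exact hm.2 q'' h2
    have hv : v = T t q := by
      rcases (st.mv_inj _ _ _ _ h1).2 with h4 | h4
      · exact absurd h4 hv1
      · rw [h4, one_mul]
    obtain ⟨⟨p, hp, q', h4⟩, h5⟩ := hm
    have hyp := d3_yne hy hp
    obtain ⟨h6, h7⟩ := st.mv_inj _ _ _ _ (h4.symm.trans h2)
    subst h6
    rw [hv] at h7
    rcases h7 with h7 | h7
    · -- `T q = ofb b (y p)`
      by_cases hb : blk q = b
      · have h8 : y p = t (lab q) := by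
          have h9 := congrArg (hd b) h7
          unfold T at h9
          rw [hb, hd_ofb, hd_ofb] at h9
          exact h9.symm
        have h9 := pst_blk_lab q
        rw [hb] at h9
        rcases hy.far p (lab q) h8 with h10 | h10
        · rw [h10, hy.one] at h8
          rw [← h.inj h8] at h9
          exact hq h9.symm
        · rw [h10, hy.last] at h8
          rw [← h.inj h8] at h9
          exact hq' h9.symm
      · have h9 := congrArg (hd b) h7
        rw [d3_hd_T hb, hd_ofb] at h9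
        exact hyp h9.symm
    · -- `T q = ofb b (y p) * T q'`
      have h9 := congrArg (hd b) h7
      rw [hd_mul] at h9
      by_cases hb : blk q = b
      · have hb' : blk q' ≠ b := by
          rw [← hb]
          exact h3
        rw [d3_hd_T hb', mul_one] at h9
        have h10 : T t q = ofb b (y p) := by
          unfold T at h9 ⊢
          rw [hb, hd_ofb] at h9
          rw [hb, h9]
        rw [h10] at h7
        exact T_ne h q' (left_eq_mul.1 h7)
      · rw [d3_hd_T hb] at h9
        by_cases hb' : blk q' = b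
        · have h10 : T t q' = ofb b (t (lab q')) := by
            unfold T
            rw [hb']
          rw [h10, hd_ofb] at h9
          rw [h10, ← map_mul, ← h9, map_one] at h7
          exact T_ne h q h7
        · rw [d3_hd_T hb', mul_one] at h9
          exact hyp h9.symm
  have main : ¬ (HG h').graph.Adj (st.mv 1 q) m := by
    intro hadj
    obtain ⟨v, r, ⟨h1, h2⟩ | ⟨h1, h2⟩⟩ := adj_ring h' st hadj
    · have e := (st.mv_inj _ _ _ _ h1).1
      subst e
      exact key v (q + 1) h1 h2 (d3_blk_succ q)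
    · have e := (st.mv_inj _ _ _ _ h1).1
      subst e
      exact key v r h1 h2 (d3_blk_succ r).symm
  exact ⟨main, fun h1 => main h1.symm⟩

/-- LEAF D3 (part 3, easy-medium). `mv 1 (pst b k1) = mv (ofb b (t k1)) (pst b k1)` is adjacent to `mv (ofb b (t k1)) (pst b k1 + 1)`, which is in the chord; the same for `k2`. -/
theorem chord_end {b k1 k2 : ZMod 4} {y : ZMod 16 → H} (hy : Rg t y k1 k2) :
    (∃ m ∈ Chord st b y, (HG h').graph.Adj (st.mv 1 (pst b k1)) m) ∧
      ∃ m ∈ Chord st b y, (HG h').graph.Adj (st.mv 1 (pst b k2)) m := by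
  have key : ∀ (p : ZMod 16) (k : ZMod 4), p ≠ 0 → y p = t k →
      ∃ m ∈ Chord st b y, (HG h').graph.Adj (st.mv 1 (pst b k)) m := by
    intro p k hp hk
    have e1 : st.mv 1 (pst b k) = st.mv (ofb b (y p)) (pst b k) := by
      have h1 := st.mv_T 1 (pst b k)
      rw [one_mul, d3_T_pst, ← hk] at h1
      exact h1.symm
    refine ⟨st.mv (ofb b (y p)) (pst b k + 1), ⟨⟨p, hp, _, rfl⟩, ?_⟩, ?_⟩
    · intro q hq
      have hb : blk (pst b k + 1) ≠ b := by
        have h1 := d3_blk_succ (pst b k)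
        rw [blk_pst] at h1
        exact h1
      rcases (st.mv_inj _ _ _ _ hq).2 with h2 | h2
      · exact d3_one_ne (d3_yne hy hp) h2
      · exact d3_one_ne' (d3_yne hy hp) hb h2
    · rw [e1]
      exact d3_step h' st _ _
  exact ⟨key 1 k1 (by decide) hy.one, key (-1) k2 (by decide) hy.last⟩

/-- LEAF D3 (part 4, medium). Chords in different copies are disjoint and not adjacent. Let `m ∈ Chord b y`, `m' ∈ Chord b' y'` be equal or adjacent, in a common ring `v`. From `m = mv (ofb b (y p)) q`, `y p ≠ 1`: `v = ofb b (y p)` or `v = ofb b (y p) * T q`; since `m` is not in the ring of `1`, `v ≠ 1`, and `hd b v ≠ 1` (`hd_mul_right` resp. `ofb b (y p * t k)`). In the same way `hd b' v ≠ 1`,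
contradiction (`hd_ne`). -/
theorem chord_chord {b b' k1 k2 k1' k2' : ZMod 4} {y y' : ZMod 16 → H} (hy : Rg t y k1 k2) (hy' : Rg t y' k1' k2')
    (hb : b ≠ b') (m m' : H') (hm : m ∈ Chord st b y) (hm' : m' ∈ Chord st b' y') :
    m ≠ m' ∧ ¬ (HG h').graph.Adj m m' := by
  have key : ∀ (v : F4 H) (q q' : ZMod 16), m = st.mv v q → m' = st.mv v q' → False := by
    intro v q q' h1 h2
    exact d3_hd_chord hy' hm' h2 (hd_ne (fun e => hb e.symm) (d3_hd_chord hy hm h1))
  refine ⟨?_, ?_⟩
  · rintro rfl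
    obtain ⟨p, -, q, h1⟩ := hm.1
    exact key _ q q h1 h1
  · intro hadj
    obtain ⟨v, r, ⟨h1, h2⟩ | ⟨h1, h2⟩⟩ := adj_ring h' st hadj
    · exact key v _ _ h1 h2
    · exact key v _ _ h1 h2

/-- Joined by a walk in the set `C`. -/
private def D3Cn (h' : GI t') (C : Set H') (x z : H') : Prop :=
  ∃ w : (HG h').graph.Walk x z, ∀ u ∈ w.support, u ∈ C

private theorem D3Cn.refl (h' : GI t') {C : Set H'} {x : H'} (hx : x ∈ C) : D3Cn h' C x x :=
  ⟨SimpleGraph.Walk.nil, fun u hu => by
    rw [SimpleGraph.Walk.support_nil, List.mem_singleton] at hu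
    rw [hu]
    exact hx⟩

private theorem D3Cn.trans {h' : GI t'} {C : Set H'} {x y z : H'} (h1 : D3Cn h' C x y) (h2 : D3Cn h' C y z) :
    D3Cn h' C x z := by
  obtain ⟨w, hw⟩ := h1
  obtain ⟨w', hw'⟩ := h2
  refine ⟨w.append w', fun u hu => ?_⟩
  rw [SimpleGraph.Walk.mem_support_append_iff] at hu
  exact hu.elim (hw u) (hw' u)

private theorem D3Cn.symm {h' : GI t'} {C : Set H'} {x y : H'} (h1 : D3Cn h' C x y) : D3Cn h' C y x := by
  obtain ⟨w, hw⟩ := h1
  refine ⟨w.reverse, fun u hu => ?_⟩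
  rw [SimpleGraph.Walk.support_reverse, List.mem_reverse] at hu
  exact hw u hu

private theorem D3Cn.adj (h' : GI t') {C : Set H'} {x y : H'} (hx : x ∈ C) (hy : y ∈ C)
    (hadj : (HG h').graph.Adj x y) : D3Cn h' C x y := by
  refine ⟨SimpleGraph.Walk.cons hadj SimpleGraph.Walk.nil, fun u hu => ?_⟩
  rw [SimpleGraph.Walk.support_cons, SimpleGraph.Walk.support_nil, List.mem_cons, List.mem_singleton] at hu
  rcases hu with rfl | rfl
  · exact hx
  · exact hy

include h in
/-- LEAF D3 (part 5, medium). A chord is connected. The ring of `ofb b (y p)`, `p ≠ 0`, has at most one vertex in the ring of `1` (only if `y p = t k`: `mv (ofb b (t k)) (pst b k)`; `mv_eq`), so the rest of this ring is connected (a path of 15 or a ring of 16); the rings of `y p` and `y (p + 1)`, `p, p + 1 ≠ 0`, have the vertex `mv (ofb b (y p)) (pst b k)`, `y (p + 1) = y p * t k`, in common, which is not in the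
ring of `1`. All `p ≠ 0` are joined by such steps `1, 2, ..., 15`. -/
theorem chord_conn {b k1 k2 : ZMod 4} {y : ZMod 16 → H} (hy : Rg t y k1 k2) :
    ∀ x ∈ Chord st b y, ∀ z ∈ Chord st b y, ∃ w : (HG h').graph.Walk x z, ∀ u ∈ w.support, u ∈ Chord st b y := by
  -- walks in the chord
  have wrefl : ∀ x ∈ Chord st b y, D3Cn h' (Chord st b y) x x := fun x hx => D3Cn.refl h' hx
  -- one ring
  have ring1 : ∀ p : ZMod 16, p ≠ 0 → ∃ β : ZMod 16, ∀ q, st.mv (ofb b (y p)) q ∈ Chord st b y →
      D3Cn h' (Chord st b y) (st.mv (ofb b (y p)) (β + 1)) (st.mv (ofb b (y p)) q) := by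
    intro p hp
    have hyp := d3_yne hy hp
    -- the position in the ring of `1`
    have hβ : ∃ β : ZMod 16, ∀ q, q ≠ β → st.mv (ofb b (y p)) q ∈ Chord st b y := by
      by_cases hbad : ∃ β : ZMod 16, (1 : F4 H) = ofb b (y p) * T t β
      · obtain ⟨β, hβ⟩ := hbad
        refine ⟨β, fun q hq => ⟨⟨p, hp, q, rfl⟩, fun q' h1 => ?_⟩⟩
        rcases (st.mv_inj _ _ _ _ h1).2 with h2 | h2
        · exact d3_one_ne hyp h2
        · rw [hβ] at h2
          exact hq (T_inj h (mul_left_cancel h2)).symm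
      · refine ⟨0, fun q _ => ⟨⟨p, hp, q, rfl⟩, fun q' h1 => ?_⟩⟩
        rcases (st.mv_inj _ _ _ _ h1).2 with h2 | h2
        · exact d3_one_ne hyp h2
        · exact hbad ⟨q, h2⟩
    obtain ⟨β, hβ⟩ := hβ
    have h16 : ∀ i : ℕ, 0 < i → i < 16 → β + (i : ZMod 16) ≠ β := by
      intro i h0 h1 e
      have e1 : (i : ZMod 16) = 0 := by
        have e2 : β + (i : ZMod 16) = β + 0 := by rw [e, add_zero]
        exact add_left_cancel e2
      rw [ZMod.natCast_eq_zero_iff] at e1
      exact absurd (Nat.le_of_dvd h0 e1) (by omega)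
    have hi : ∀ i : ℕ, i ≤ 14 → D3Cn h' (Chord st b y) (st.mv (ofb b (y p)) (β + 1))
        (st.mv (ofb b (y p)) (β + ((i + 1 : ℕ) : ZMod 16))) := by
      intro i
      induction i with
      | zero =>
        intro _
        have e1 : β + (((0 + 1 : ℕ)) : ZMod 16) = β + 1 := by
          rw [zero_add, Nat.cast_one]
        rw [e1]
        refine wrefl _ (hβ _ ?_)
        have h3 := h16 1 one_pos (by norm_num)
        rw [Nat.cast_one] at h3
        exact h3
      | succ i ih =>
        intro hi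
        refine (ih (by omega)).trans (D3Cn.adj h' (hβ _ (h16 _ (by omega) (by omega)))
          (hβ _ (h16 _ (by omega) (by omega))) ?_)
        have e1 : β + ((i + 1 + 1 : ℕ) : ZMod 16) = β + ((i + 1 : ℕ) : ZMod 16) + 1 := by
          rw [Nat.cast_succ (i + 1), add_assoc]
        rw [e1]
        exact d3_step h' st _ _
    refine ⟨β, fun q hq => ?_⟩
    by_cases hqβ : q = β
    · have h3 := h16 1 one_pos (by norm_num)
      rw [Nat.cast_one] at h3
      refine D3Cn.adj h' (hβ _ h3) hq ?_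
      rw [hqβ]
      exact (d3_step h' st _ _).symm
    · have h3 : (q - β).val ≠ 0 := by
        intro e
        rw [ZMod.val_eq_zero, sub_eq_zero] at e
        exact hqβ e
      have h4 : (q - β).val < 16 := ZMod.val_lt _
      have h5 := hi ((q - β).val - 1) (by omega)
      have e1 : β + (((q - β).val - 1 + 1 : ℕ) : ZMod 16) = q := by
        rw [Nat.sub_add_cancel (by omega), ZMod.natCast_zmod_val, add_sub_cancel]
      rw [e1] at h5
      exact h5
  have ring2 : ∀ p : ZMod 16, p ≠ 0 → ∀ q q', st.mv (ofb b (y p)) q ∈ Chord st b y →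
      st.mv (ofb b (y p)) q' ∈ Chord st b y →
      D3Cn h' (Chord st b y) (st.mv (ofb b (y p)) q) (st.mv (ofb b (y p)) q') := by
    intro p hp q q' hq hq'
    obtain ⟨β, hβ⟩ := ring1 p hp
    exact (hβ q hq).symm.trans (hβ q' hq')
  -- the first ring
  have hx0 : st.mv (ofb b (y 1)) (pst b k1 + 1) ∈ Chord st b y := by
    have hp : (1 : ZMod 16) ≠ 0 := by decide
    refine ⟨⟨1, hp, _, rfl⟩, ?_⟩
    intro q hq
    have hb : blk (pst b k1 + 1) ≠ b := by
      have h1 := d3_blk_succ (pst b k1)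
      rw [blk_pst] at h1
      exact h1
    rcases (st.mv_inj _ _ _ _ hq).2 with h2 | h2
    · exact d3_one_ne (d3_yne hy hp) h2
    · exact d3_one_ne' (d3_yne hy hp) hb h2
  -- all rings
  have hne : ∀ i : ℕ, 0 < i → i < 16 → (i : ZMod 16) ≠ 0 := by
    intro i h0 h1 e
    rw [ZMod.natCast_eq_zero_iff] at e
    exact absurd (Nat.le_of_dvd h0 e) (by omega)
  have all : ∀ i : ℕ, i ≤ 14 → ∀ q, st.mv (ofb b (y ((i + 1 : ℕ) : ZMod 16))) q ∈ Chord st b y →
      D3Cn h' (Chord st b y) (st.mv (ofb b (y 1)) (pst b k1 + 1))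
        (st.mv (ofb b (y ((i + 1 : ℕ) : ZMod 16))) q) := by
    intro i
    induction i with
    | zero =>
      intro _ q hq
      have e1 : ((0 + 1 : ℕ) : ZMod 16) = 1 := by
        rw [zero_add, Nat.cast_one]
      rw [e1] at hq ⊢
      exact ring2 1 (by decide) _ _ hx0 hq
    | succ i ih =>
      intro hi q hq
      have hp : ((i + 1 : ℕ) : ZMod 16) ≠ 0 := hne _ (by omega) (by omega)
      have hp' : ((i + 1 + 1 : ℕ) : ZMod 16) ≠ 0 := hne _ (by omega) (by omega)
      have e1 : ((i + 1 + 1 : ℕ) : ZMod 16) = ((i + 1 : ℕ) : ZMod 16) + 1 := Nat.cast_succ (i + 1)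
      obtain ⟨k, hk⟩ := hy.step ((i + 1 : ℕ) : ZMod 16)
      rw [← e1] at hk
      have e2 : st.mv (ofb b (y ((i + 1 + 1 : ℕ) : ZMod 16))) (pst b k) =
          st.mv (ofb b (y ((i + 1 : ℕ) : ZMod 16))) (pst b k) := by
        rw [hk, map_mul, ← d3_T_pst b k]
        exact st.mv_T _ _
      have hu : st.mv (ofb b (y ((i + 1 : ℕ) : ZMod 16))) (pst b k) ∈ Chord st b y := by
        refine ⟨⟨_, hp, _, rfl⟩, ?_⟩
        intro q' hq'
        rcases (st.mv_inj _ _ _ _ hq').2 with h2 | h2
        · exact d3_one_ne (d3_yne hy hp) h2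
        · rw [d3_T_pst, ← map_mul, ← hk] at h2
          exact d3_one_ne (d3_yne hy hp') h2
      refine (ih (by omega) _ hu).trans ?_
      rw [← e2] at hu ⊢
      exact ring2 _ hp' _ _ hu hq
  have fin : ∀ x ∈ Chord st b y, D3Cn h' (Chord st b y) (st.mv (ofb b (y 1)) (pst b k1 + 1)) x := by
    intro x hx
    obtain ⟨⟨p, hp, q, h1⟩, -⟩ := id hx
    have h3 : p.val ≠ 0 := fun e => hp ((ZMod.val_eq_zero p).1 e)
    have h4 : p.val < 16 := ZMod.val_lt _
    have h5 := all (p.val - 1) (by omega) q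
    have e1 : ((p.val - 1 + 1 : ℕ) : ZMod 16) = p := by
      rw [Nat.sub_add_cancel (by omega), ZMod.natCast_zmod_val]
    rw [e1, ← h1] at h5
    exact h5 hx
  intro x hx z hz
  exact (fin x hx).symm.trans (fin z hz)

/-- LEAF D3 (part 6, easy). -/
theorem chord_fin {b : ZMod 4} {y : ZMod 16 → H} : (Chord st b y).Finite := by
  refine (Set.finite_range fun z : ZMod 16 × ZMod 16 => st.mv (ofb b (y z.1)) z.2).subset ?_
  rintro m ⟨⟨p, -, q, h1⟩, -⟩
  exact ⟨(p, q), h1.symm⟩

end KPl
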