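import Pool.Agent.Lib.MP_d3a5e5_coK.D3

set_option autoImplicit false

namespace KPl

instance : DecidableRel Inc := fun a b => by unfold Inc; infer_instance

/-- The positions on the ring of `1` which belong to the fifteen sets. -/
def Pz : ML → List (ZMod 16)
  | Sum.inl (Sum.inl i) => if i = 0 then [0] else if i = 1 then [6] else [11]
  | Sum.inl (Sum.inr j) => if j = 0 then [3] else if j = 1 then [8] else [14]
  | Sum.inr (i, j) =>
    if i = 0 then (if j = 0 then [1, 2] else if j = 1 then [] else [15])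
    else if i = 1 then (if j = 0 then [4, 5] else if j = 1 then [7] else [])
    else (if j = 0 then [] else if j = 1 then [9, 10] else [12, 13])

/-- The three chords: copy, and the ring (`false`: the ring of `1` with colours 0, 2; `true`: the ring with colours 1, 3). -/
def Bz : ML → Option (ZMod 4 × Bool)
  | Sum.inl _ => none
  | Sum.inr (i, j) =>
    if i = 0 ∧ j = 1 then some (0, false) else if i = 1 ∧ j = 2 then some (2, true)
    else if i = 2 ∧ j = 0 then some (3, false) else none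

variable {H H' H'' : Type} [Group H] [Group H'] [Group H''] {t : ZMod 4 → H} {t' : ZMod 4 → H'} {t'' : ZMod 4 → H''}

/-- The two rings through `1` in `H'`. -/
def yr (st : Step t t') (u : Bool) (p : ZMod 16) : H' := if u then st.mv (T t 0) p else st.mv 1 p

/-- LEAF D4 (part 1, easy-medium). `mv T0 0 = mv 1 0 = 1`; `mv 1 1 = 1 * t' (colr false 0) = t' 0`, `mv 1 (-1) = t' (colr false (-1)) = t' 2`, `mv T0 1 = t' 1`, `mv T0 (-1) = t' 3`. `far`: `t' k` is `mv 1 1`, `mv 1 (-1)`, `mv T0 1` or `mv T0 (-1)`; `mv 1 p = mv T0 q` only for `p = q` and (`T0 = 1` or `T0 = T p`), so `p = 0`. -/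
theorem yr_Rg (h : GI t) (h' : GI t') (st : Step t t') :
    Rg t' (yr st false) 0 2 ∧ Rg t' (yr st true) 1 3 := by
  have e0 : st.mv (T t 0) 0 = 1 := by
    have h1 := st.mv_T 1 0
    rw [one_mul, st.mv_one] at h1
    exact h1
  have e1 : st.par (T t 0) = true := by
    have h1 := st.par_T 1 0
    rw [one_mul, st.par_one] at h1
    exact h1
  have c1 : st.mv 1 1 = t' 0 := by
    have h1 := st.mv_col 1 0
    rw [st.mv_one, st.par_one, one_mul, zero_add, show colr false 0 = 0 from by decide] at h1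
    exact h1.symm
  have c2 : st.mv 1 (-1) = t' 2 := by
    have h1 := mv_down h' st 1 0
    rw [st.mv_one, st.par_one, one_mul, zero_sub, show colr false (-1) = 2 from by decide] at h1
    exact h1.symm
  have c3 : st.mv (T t 0) 1 = t' 1 := by
    have h1 := st.mv_col (T t 0) 0
    rw [e0, e1, one_mul, zero_add, show colr true 0 = 1 from by decide] at h1
    exact h1.symm
  have c4 : st.mv (T t 0) (-1) = t' 3 := by
    have h1 := mv_down h' st (T t 0) 0
    rw [e0, e1, one_mul, zero_sub, show colr true (-1) = 3 from by decide] at h1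
    exact h1.symm
  have hfar : ∀ (v : F4 H) (p : ZMod 16) (k : ZMod 4), st.mv v p = t' k → p = 1 ∨ p = -1 := by
    intro v p k hk
    have h4 : ∀ k : ZMod 4, k = 0 ∨ k = 1 ∨ k = 2 ∨ k = 3 := by decide
    rcases h4 k with rfl | rfl | rfl | rfl
    · exact Or.inl (st.mv_inj _ _ _ _ (hk.trans c1.symm)).1
    · exact Or.inl (st.mv_inj _ _ _ _ (hk.trans c3.symm)).1
    · exact Or.inr (st.mv_inj _ _ _ _ (hk.trans c2.symm)).1
    · exact Or.inr (st.mv_inj _ _ _ _ (hk.trans c4.symm)).1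
  constructor
  · exact
      { zero := st.mv_one
        inj := fun p q hpq => (st.mv_inj _ _ _ _ hpq).1
        one := c1
        last := c2
        ne := by decide
        step := fun p => ⟨_, (st.mv_col 1 p).symm⟩
        far := fun p k hk => hfar _ _ _ hk }
  · exact
      { zero := e0
        inj := fun p q hpq => (st.mv_inj _ _ _ _ hpq).1
        one := c3
        last := c4
        ne := by decide
        step := fun p => ⟨_, (st.mv_col (T t 0) p).symm⟩
        far := fun p k hk => hfar _ _ _ hk }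

/-- The model in `H''`. -/
def BaseZ (st : Step t t') (st2 : Step t' t'') (a : ML) : Set H'' :=
  {m | (∃ p ∈ Pz a, m = st2.mv 1 p) ∨ ∃ b u, Bz a = some (b, u) ∧ m ∈ Chord st2 b (yr st u)}

private def D4_k1 (u : Bool) : ZMod 4 := if u then 1 else 0

private def D4_k2 (u : Bool) : ZMod 4 := if u then 3 else 2

set_option maxRecDepth 100000 in
private theorem D4_cases : ∀ a : ML, (Bz a = none ∧ Pz a ≠ []) ∨ (Pz a = [] ∧ ∃ b u, Bz a = some (b, u)) := by
  decide

set_option maxRecDepth 100000 in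
private theorem D4_conn : ∀ a : ML, ∀ p ∈ Pz a, ∀ q ∈ Pz a, p = q ∨ q = p + 1 ∨ q = p - 1 := by
  decide

set_option maxRecDepth 100000 in
private theorem D4_inc : ∀ a b : ML, Inc a b → (∃ p ∈ Pz a, ∃ q ∈ Pz b, q = p + 1 ∨ q = p - 1) ∨
    ∃ c u, Bz b = some (c, u) ∧ (pst c (D4_k1 u) ∈ Pz a ∨ pst c (D4_k2 u) ∈ Pz a) := by
  decide

set_option maxRecDepth 100000 in
private theorem D4_far1 : ∀ a b : ML, a ≠ b → ¬ Inc a b → ¬ Inc b a → ∀ p ∈ Pz a, ∀ q ∈ Pz b,
    p ≠ q ∧ ¬ (q = p + 1 ∨ q = p - 1) := by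
  decide

set_option maxRecDepth 100000 in
private theorem D4_far2' : ∀ a b : ML, ∀ c u, Bz b = some (c, u) →
    (pst c (D4_k1 u) ∈ Pz a ∨ pst c (D4_k2 u) ∈ Pz a) → Inc a b := by
  decide

private theorem D4_far2 (a b : ML) (h : ¬ Inc a b) (c : ZMod 4) (u : Bool) (hb : Bz b = some (c, u))
    (p : ZMod 16) (hp : p ∈ Pz a) : p ≠ pst c (D4_k1 u) ∧ p ≠ pst c (D4_k2 u) := by
  refine ⟨fun h1 => h (D4_far2' a b c u hb (Or.inl ?_)), fun h1 => h (D4_far2' a b c u hb (Or.inr ?_))⟩
  · rw [← h1]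
    exact hp
  · rw [← h1]
    exact hp

set_option maxRecDepth 100000 in
private theorem D4_far3 : ∀ a b : ML, a ≠ b → ∀ c u, Bz a = some (c, u) → ∀ c' u', Bz b = some (c', u') →
    c ≠ c' := by
  decide

private theorem D4_rg (h : GI t) (h' : GI t') (st : Step t t') (u : Bool) :
    Rg t' (yr st u) (D4_k1 u) (D4_k2 u) := by
  cases u with
  | false => exact (yr_Rg h h' st).1
  | true => exact (yr_Rg h h' st).2

private theorem D4_ring (h' : GI t') (h'' : GI t'') (st2 : Step t' t'') (p q : ZMod 16) :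
    (HG h'').graph.Adj (st2.mv 1 p) (st2.mv 1 q) ↔ q = p + 1 ∨ q = p - 1 := by
  first
    | exact ring_adj h'' st2 p q
    | exact ring_adj h' h'' st2 p q

private theorem D4_cring (h' : GI t') (h'' : GI t'') (st2 : Step t' t'') {b k1 k2 : ZMod 4}
    {y : ZMod 16 → H'} (hy : Rg t' y k1 k2) (q : ZMod 16) (m : H'') (hm : m ∈ Chord st2 b y)
    (hq : q ≠ pst b k1) (hq' : q ≠ pst b k2) :
    ¬ (HG h'').graph.Adj (st2.mv 1 q) m ∧ ¬ (HG h'').graph.Adj m (st2.mv 1 q) := by
  first
    | exact chord_ring h'' st2 hy q m hm hq hq'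
    | exact chord_ring h' h'' st2 hy q m hm hq hq'

private theorem D4_cend (h' : GI t') (h'' : GI t'') (st2 : Step t' t'') {b k1 k2 : ZMod 4}
    {y : ZMod 16 → H'} (hy : Rg t' y k1 k2) :
    (∃ m ∈ Chord st2 b y, (HG h'').graph.Adj (st2.mv 1 (pst b k1)) m) ∧
      ∃ m ∈ Chord st2 b y, (HG h'').graph.Adj (st2.mv 1 (pst b k2)) m := by
  first
    | exact chord_end h'' st2 hy
    | exact chord_end h' h'' st2 hy

private theorem D4_cchord (h' : GI t') (h'' : GI t'') (st2 : Step t' t'') {b b' k1 k2 k1' k2' : ZMod 4}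
    {y y' : ZMod 16 → H'} (hy : Rg t' y k1 k2) (hy' : Rg t' y' k1' k2') (hb : b ≠ b') (m m' : H'')
    (hm : m ∈ Chord st2 b y) (hm' : m' ∈ Chord st2 b' y') : m ≠ m' ∧ ¬ (HG h'').graph.Adj m m' := by
  first
    | exact chord_chord h'' st2 hy hy' hb m m' hm hm'
    | exact chord_chord h' h'' st2 hy hy' hb m m' hm hm'

private theorem D4_cconn (h' : GI t') (h'' : GI t'') (st2 : Step t' t'') {b k1 k2 : ZMod 4}
    {y : ZMod 16 → H'} (hy : Rg t' y k1 k2) :
    ∀ x ∈ Chord st2 b y, ∀ z ∈ Chord st2 b y, ∃ w : (HG h'').graph.Walk x z,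
      ∀ u ∈ w.support, u ∈ Chord st2 b y := by
  first
    | exact chord_conn h'' st2 hy
    | exact chord_conn h' h'' st2 hy

private theorem D4_cfin (h' : GI t') (h'' : GI t'') (st2 : Step t' t'') {b : ZMod 4} {y : ZMod 16 → H'} :
    (Chord st2 b y).Finite := by
  first
    | exact chord_fin st2
    | exact chord_fin h' h'' st2
    | exact chord_fin h' st2
    | exact chord_fin h'' st2

/-- LEAF D4 (part 2, medium). Every label has either positions (`Bz a = none`, `Pz a ≠ []`) or a chord (`Pz a = []`) (`decide`). `conn`: consecutive positions are adjacent (`ring_adj`), `chord_conn`. `inc`: `decide` on positions (`∃ p ∈ Pz a, ∃ q ∈ Pz b, q = p + 1 ∨ q = p - 1`), and `chord_end`: `Bz (inr (0, 1)) = (0, false)`: `pst 0 0 = 0`, `pst 0 2 = 8`;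
`(2, true)`: `pst 2 1 = 6`, `pst 2 3 = 14`; `(3, false)`: `pst 3 0 = 3`, `pst 3 2 = 11`. `far`: `2 ≤ dist x y` for `x ≠ y`, not adjacent (`cay_connected`): positions by `decide` and `ring_adj`, `mv_ne`; `chord_ring` (not incident: the position is different from the two end positions: `decide`; a chord element is not in the ring of `1` by definition); `chord_chord`. -/
theorem mdl_base (h : GI t) (h' : GI t') (h'' : GI t'') (st : Step t t') (st2 : Step t' t'') :
    Mdl (HG h'').graph 2 (BaseZ st st2) := by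
  classical
  have pos : ∀ a, Bz a = none → ∀ m ∈ BaseZ st st2 a, ∃ p ∈ Pz a, m = st2.mv 1 p := by
    intro a ha m hm
    rcases hm with hm | ⟨b, u, hb, _⟩
    · exact hm
    · rw [ha] at hb
      exact absurd hb (by simp)
  have cho : ∀ a b u, Pz a = [] → Bz a = some (b, u) → ∀ m ∈ BaseZ st st2 a, m ∈ Chord st2 b (yr st u) := by
    intro a b u ha hb m hm
    rcases hm with ⟨p, hp, _⟩ | ⟨b', u', hb', hm⟩
    · rw [ha] at hp
      exact absurd hp List.not_mem_nil
    · rw [hb, Option.some.injEq, Prod.mk.injEq] at hb'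
      obtain ⟨rfl, rfl⟩ := hb'
      exact hm
  have key : ∀ a b, a ≠ b → ¬ Inc a b → ¬ Inc b a → ∀ x ∈ BaseZ st st2 a, ∀ y ∈ BaseZ st st2 b,
      x ≠ y ∧ ¬ (HG h'').graph.Adj x y := by
    intro a b hab h1 h2 x hx y hy
    rcases D4_cases a with ⟨ha, _⟩ | ⟨ha, c, u, hc⟩
    · obtain ⟨p, hp, rfl⟩ := pos a ha x hx
      rcases D4_cases b with ⟨hb, _⟩ | ⟨hb, c', u', hc'⟩
      · obtain ⟨q, hq, rfl⟩ := pos b hb y hy
        obtain ⟨h3, h4⟩ := D4_far1 a b hab h1 h2 p hp q hq
        exact ⟨mv_ne h' st2 h3, fun h5 => h4 ((D4_ring h' h'' st2 p q).1 h5)⟩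
      · have hy' := cho b c' u' hb hc' y hy
        obtain ⟨h3, h4⟩ := D4_far2 a b h1 c' u' hc' p hp
        exact ⟨fun h5 => hy'.2 p h5.symm, (D4_cring h' h'' st2 (D4_rg h h' st u') p y hy' h3 h4).1⟩
    · have hx' := cho a c u ha hc x hx
      rcases D4_cases b with ⟨hb, _⟩ | ⟨hb, c', u', hc'⟩
      · obtain ⟨q, hq, rfl⟩ := pos b hb y hy
        obtain ⟨h3, h4⟩ := D4_far2 b a h2 c u hc q hq
        exact ⟨fun h5 => hx'.2 q h5, (D4_cring h' h'' st2 (D4_rg h h' st u) q x hx' h3 h4).2⟩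
      · exact D4_cchord h' h'' st2 (D4_rg h h' st u) (D4_rg h h' st u')
          (D4_far3 a b hab c u hc c' u' hc') x y hx' (cho b c' u' hb hc' y hy)
  refine ⟨?_, ?_, ?_, ?_, ?_⟩
  · -- ne
    intro a
    rcases D4_cases a with ⟨_, ha⟩ | ⟨_, c, u, hc⟩
    · obtain ⟨p, hp⟩ := List.exists_mem_of_ne_nil _ ha
      exact ⟨_, Or.inl ⟨p, hp, rfl⟩⟩
    · obtain ⟨⟨m, hm, _⟩, _⟩ := D4_cend (b := c) h' h'' st2 (D4_rg h h' st u)
      exact ⟨m, Or.inr ⟨c, u, hc, hm⟩⟩
  · -- fin
    intro a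
    have h1 : BaseZ st st2 a ⊆ (fun p => st2.mv 1 p) '' {p | p ∈ Pz a} ∪
        ⋃ bu : ZMod 4 × Bool, Chord st2 bu.1 (yr st bu.2) := by
      rintro m (⟨p, hp, rfl⟩ | ⟨b, u, _, hm⟩)
      · exact Or.inl ⟨p, hp, rfl⟩
      · exact Or.inr (Set.mem_iUnion.2 ⟨(b, u), hm⟩)
    refine Set.Finite.subset (((List.finite_toSet (Pz a)).image _).union ?_) h1
    exact Set.finite_iUnion fun bu => D4_cfin h' h'' st2
  · -- conn
    intro a x hx y hy
    rcases D4_cases a with ⟨ha, _⟩ | ⟨ha, c, u, hc⟩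
    · obtain ⟨p, hp, rfl⟩ := pos a ha x hx
      obtain ⟨q, hq, rfl⟩ := pos a ha y hy
      rcases D4_conn a p hp q hq with rfl | h1
      · refine ⟨SimpleGraph.Walk.nil, fun z hz => ?_⟩
        rw [SimpleGraph.Walk.support_nil, List.mem_singleton] at hz
        rw [hz]
        exact hx
      · refine ⟨SimpleGraph.Walk.cons ((D4_ring h' h'' st2 p q).2 h1) SimpleGraph.Walk.nil,
          fun z hz => ?_⟩
        rw [SimpleGraph.Walk.support_cons, SimpleGraph.Walk.support_nil, List.mem_cons,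
          List.mem_singleton] at hz
        rcases hz with rfl | rfl
        · exact hx
        · exact hy
    · obtain ⟨w, hw⟩ := D4_cconn h' h'' st2 (D4_rg h h' st u) x (cho a c u ha hc x hx) y
        (cho a c u ha hc y hy)
      exact ⟨w, fun z hz => Or.inr ⟨c, u, hc, hw z hz⟩⟩
  · -- inc
    intro a b hab
    rcases D4_inc a b hab with ⟨p, hp, q, hq, h1⟩ | ⟨c, u, hc, h1⟩
    · exact ⟨_, Or.inl ⟨p, hp, rfl⟩, _, Or.inl ⟨q, hq, rfl⟩, Or.inr ((D4_ring h' h'' st2 p q).2 h1)⟩
    · obtain ⟨⟨m, hm, hm'⟩, ⟨n, hn, hn'⟩⟩ := D4_cend (b := c) h' h'' st2 (D4_rg h h' st u)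
      rcases h1 with h1 | h1
      · exact ⟨_, Or.inl ⟨_, h1, rfl⟩, m, Or.inr ⟨c, u, hc, hm⟩, Or.inr hm'⟩
      · exact ⟨_, Or.inl ⟨_, h1, rfl⟩, n, Or.inr ⟨c, u, hc, hn⟩, Or.inr hn'⟩
  · -- far
    intro a b hab h1 h2 x hx y hy
    obtain ⟨h3, h4⟩ := key a b hab h1 h2 x hx y hy
    have hcon := cay_connected h''
    by_contra h5
    push Not at h5
    have h6 : (HG h'').graph.dist x y = 0 ∨ (HG h'').graph.dist x y = 1 := by omega
    rcases h6 with h6 | h6
    · exact h3 ((hcon.dist_eq_zero_iff).1 h6)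
    · exact h4 (SimpleGraph.dist_eq_one_iff_adj.1 h6)

/-- LEAF D4 (part 3, easy-medium). `mv_word`: `yr st u p` is a product of at most `16 * 2 = 32` generators of `H'`, so `ofb b (yr ..)` of at most 32 elements `T t' _` and `mv (ofb b (yr ..)) q` of at most `16 * 33`. -/
theorem rad_base (h' : GI t') (h'' : GI t'') (st : Step t t') (st2 : Step t' t'') :
    Rad t'' 1000 (BaseZ st st2) := by
  have hw1 : ∀ u p, ∃ l : List (ZMod 4), l.length ≤ 32 ∧ yr st u p = (l.map t').prod := by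
    intro u p
    cases u with
    | false =>
      obtain ⟨l, hl, hl'⟩ := mv_word h' st [] p
      refine ⟨l, hl.trans (by simp), ?_⟩
      rw [List.map_nil, List.prod_nil] at hl'
      exact hl'
    | true =>
      obtain ⟨l, hl, hl'⟩ := mv_word h' st [0] p
      refine ⟨l, hl.trans (by simp), ?_⟩
      rw [List.map_cons, List.map_nil, List.prod_cons, List.prod_nil, mul_one] at hl'
      exact hl'
  have hT : ∀ (b : ZMod 4) (l : List (ZMod 4)), ofb b ((l.map t').prod) =
      ((l.map (fun k => pst b k)).map (T t')).prod := by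
    intro b l
    induction l with
    | nil => rw [List.map_nil, List.map_nil, List.map_nil, List.prod_nil, List.prod_nil, map_one]
    | cons k l ih =>
      rw [List.map_cons, List.map_cons, List.map_cons, List.prod_cons, List.prod_cons, map_mul, ih]
      congr 1
      unfold T
      rw [blk_pst, lab_pst]
  intro a x hx
  rcases hx with ⟨p, _, rfl⟩ | ⟨b, u, _, ⟨p, _, q, rfl⟩, _⟩
  · obtain ⟨l, hl, hl'⟩ := mv_word h'' st2 [] p
    refine ⟨l, hl.trans (by simp), ?_⟩
    rw [List.map_nil, List.prod_nil] at hl'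
    exact hl'
  · obtain ⟨l1, hl1, hl1'⟩ := hw1 u p
    obtain ⟨l, hl, hl'⟩ := mv_word h'' st2 (l1.map (fun k => pst b k)) q
    refine ⟨l, hl.trans ?_, ?_⟩
    · rw [List.length_map]
      omega
    · rw [hl1', hT]
      exact hl'

end KPl
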