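import Mathlib
import Pool.Agent.Lib.MP_d3a5e5_co.Defs

set_option autoImplicit false

namespace KPl

open QPl

/-- A graph with a proper edge colouring such that every vertex has exactly one edge of every colour: `nb x k` is the other end of
the edge with colour `k` at `x`. -/
structure CGr (V C : Type) where
  nb : V → C → V
  inv : ∀ x k, nb (nb x k) k = x
  ne : ∀ x k, nb x k ≠ x
  inj : ∀ x k l, nb x k = nb x l → k = l

/-- The underlying simple graph. -/
def CGr.graph {V C : Type} (Γ : CGr V C) : SimpleGraph V where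
  Adj x y := ∃ k, Γ.nb x k = y
  symm := ⟨by
    rintro x y ⟨k, rfl⟩
    exact ⟨k, Γ.inv x k⟩⟩
  loopless := ⟨by
    rintro x ⟨k, h⟩
    exact Γ.ne x k h⟩

/-- Derivations (monotone drawings). The state is a set `S` of processed vertices and the list (from left to right) of the
alive edges; the alive edge with colour `k`, lower (processed) end `x` and upper (unprocessed) end `nb x k` is the dart `(x, k)`.
`Dr Γ S L cs S' L'`: there is a sequence of events from `(S, L)` to `(S', L')` and `cs` is the list of the crossings.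
Events: two neighbouring alive edges cross; an alive edge is killed; the vertex `y` is processed: the alive edges which end at `y`
(colours `Kx`, contiguous in the list) are replaced by the edges which start at `y` (colours `Ky`). -/
inductive Dr {V C : Type} (Γ : CGr V C) :
    Set V → List (V × C) → List ((V × C) × (V × C)) → Set V → List (V × C) → Prop
  | refl (S : Set V) (L : List (V × C)) : Dr Γ S L [] S L
  | cross (A B : List (V × C)) (a b : V × C) (S : Set V) (cs : List ((V × C) × (V × C))) (S' : Set V) (L' : List (V × C)) :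
      Dr Γ S (A ++ b :: a :: B) cs S' L' → Dr Γ S (A ++ a :: b :: B) ((a, b) :: cs) S' L'
  | kill (A B : List (V × C)) (a : V × C) (S : Set V) (cs : List ((V × C) × (V × C))) (S' : Set V) (L' : List (V × C)) :
      Dr Γ S (A ++ B) cs S' L' → Dr Γ S (A ++ a :: B) cs S' L'
  | vert (A B : List (V × C)) (y : V) (Kx Ky : List C) (S : Set V) (cs : List ((V × C) × (V × C))) (S' : Set V)
      (L' : List (V × C)) : y ∉ S → (Kx ++ Ky).Nodup → (∀ k, k ∈ Kx ++ Ky) → (∀ k ∈ Kx, Γ.nb y k ∈ S) →
      (∀ k ∈ Ky, Γ.nb y k ∉ S) →
      Dr Γ (insert y S) (A ++ Ky.map (fun k => (y, k)) ++ B) cs S' L' →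
      Dr Γ S (A ++ Kx.map (fun k => (Γ.nb y k, k)) ++ B) cs S' L'

open Classical in
/-- The number of crossings of the dart `l` in the log `cs`. -/
noncomputable def cnt {V C : Type} (cs : List ((V × C) × (V × C))) (l : V × C) : ℕ :=
  (cs.filter (fun c => decide (c.1 = l ∨ c.2 = l))).length

/-- Well formed states: no repetitions, every alive edge has a processed lower end and an unprocessed upper end. -/
def WF {V C : Type} (Γ : CGr V C) (S : Set V) (L : List (V × C)) : Prop :=
  L.Nodup ∧ ∀ l ∈ L, l.1 ∈ S ∧ Γ.nb l.1 l.2 ∉ S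

section groups

variable {H : Type} [Group H]

/-- `t` is a system of four different involutions which generate `H`. -/
structure GI (t : ZMod 4 → H) : Prop where
  sq : ∀ k, t k * t k = 1
  ne : ∀ k, t k ≠ 1
  inj : Function.Injective t
  gen : Subgroup.closure (Set.range t) = ⊤

/-- The coloured Cayley graph of `H`. -/
def HG {t : ZMod 4 → H} (h : GI t) : CGr H (ZMod 4) where
  nb x k := x * t k
  inv x k := by rw [mul_assoc, h.sq, mul_one]
  ne x k e := h.ne k (mul_eq_left.mp e)
  inj x k l e := h.inj (mul_left_cancel e)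

/-- The free product of four copies of `H`. -/
abbrev F4 (H : Type) [Group H] : Type := Monoid.CoprodI (fun _ : ZMod 4 => H)

/-- The block of the position `p`. -/
def blk (p : ZMod 16) : ZMod 4 := (p.val : ZMod 4)

/-- The colour of the position `p` in its block. -/
def lab (p : ZMod 16) : ZMod 4 := ((p.val / 4 : ℕ) : ZMod 4)

/-- The position with block `b` and colour `k`. -/
def pst (b k : ZMod 4) : ZMod 16 := ((b.val + 4 * k.val : ℕ) : ZMod 16)

/-- The copy with index `b` of `H`. -/
def ofb (b : ZMod 4) : H →* F4 H := Monoid.CoprodI.of (M := fun _ : ZMod 4 => H) (i := b)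

/-- The sixteen involutions of the free product. -/
def T (t : ZMod 4 → H) (p : ZMod 16) : F4 H := ofb (blk p) (t (lab p))

/-- The colour of the edge between `mv v p` and `mv v (p + 1)`, where `c` is the parity of `v`. -/
def colr (c : Bool) (p : ZMod 16) : ZMod 4 := (if c then 1 else 0) + (if p.val % 2 = 0 then 0 else 2)

/-- `H'` acts regularly on the edges of the Cayley graph of the free product of four copies of `H`: `mv v p` is the
edge at `v` with position `p`. -/
structure Step {H H' : Type} [Group H] [Group H'] (t : ZMod 4 → H) (t' : ZMod 4 → H') where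
  mv : F4 H → ZMod 16 → H'
  par : F4 H → Bool
  par_one : par 1 = false
  par_T : ∀ v p, par (v * T t p) = !par v
  mv_T : ∀ v p, mv (v * T t p) p = mv v p
  mv_inj : ∀ v p v' p', mv v p = mv v' p' → p = p' ∧ (v' = v ∨ v' = v * T t p)
  mv_surj : ∀ x, ∃ v p, mv v p = x
  mv_one : mv 1 0 = 1
  mv_col : ∀ v p, mv v p * t' (colr (par v) p) = mv v (p + 1)

/-- Every finite part of the Cayley graph of `H` has a drawing which starts at the root `1`, in which the four root edges
are not crossed and every edge has at most `K` crossings. The root edges leave the root in the order 3, 1, 2, 0. -/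
def GoodBlock {t : ZMod 4 → H} (h : GI t) (K : ℕ) : Prop :=
  ∀ A : Finset H, ∃ (cs : List ((H × ZMod 4) × (H × ZMod 4))) (S' : Set H),
    Dr (HG h) {1} (([3, 1, 2, 0] : List (ZMod 4)).map (fun k => ((1 : H), k))) cs S' [] ∧ (A : Set H) ⊆ S' ∧
    (∀ k, cnt cs ((1 : H), k) = 0) ∧ ∀ l, cnt cs l ≤ K

end groups

section models

/-- Labels for the models of `K_{3,3}`: six vertices and nine edges. -/
abbrev ML : Type := (Fin 3 ⊕ Fin 3) ⊕ (Fin 3 × Fin 3)

/-- Incidence of labels (a vertex and an edge). -/
def Inc (a b : ML) : Prop :=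
  ∃ i j, b = Sum.inr (i, j) ∧ (a = Sum.inl (Sum.inl i) ∨ a = Sum.inl (Sum.inr j))

/-- A `D`-fat model of `K_{3,3}`: fifteen finite connected sets; the sets of an incident pair meet or are adjacent, the sets of
all other pairs are at distance at least `D`. -/
structure Mdl {V : Type} (G : SimpleGraph V) (D : ℕ) (Z : ML → Set V) : Prop where
  ne : ∀ a, (Z a).Nonempty
  fin : ∀ a, (Z a).Finite
  conn : ∀ a, ∀ x ∈ Z a, ∀ y ∈ Z a, ∃ w : G.Walk x y, ∀ z ∈ w.support, z ∈ Z a
  inc : ∀ a b, Inc a b → ∃ x ∈ Z a, ∃ y ∈ Z b, x = y ∨ G.Adj x y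
  far : ∀ a b, a ≠ b → ¬ Inc a b → ¬ Inc b a → ∀ x ∈ Z a, ∀ y ∈ Z b, D ≤ G.dist x y

end models

end KPl
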