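import Pool.Agent.Lib.MP_d3a5e5_coK.Defs

set_option autoImplicit false

namespace KPl

section limit

variable {H : ℕ → Type} [∀ n, Group (H n)] (t : ∀ n, ZMod 4 → H n)

/-- The words which are trivial in almost all of the groups. -/
private def E1_N : Subgroup (FreeGroup (ZMod 4)) where
  carrier := {w | ∀ᶠ n in (Filter.hyperfilter ℕ : Filter ℕ), FreeGroup.lift (t n) w = 1}
  one_mem' := Filter.Eventually.of_forall fun n => map_one _
  mul_mem' := by
    intro a b ha hb
    filter_upwards [ha, hb] with n h1 h2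
    rw [map_mul, h1, h2, mul_one]
  inv_mem' := by
    intro a ha
    filter_upwards [ha] with n h1
    rw [map_inv, h1, inv_one]

private theorem E1_mem (w : FreeGroup (ZMod 4)) : w ∈ E1_N t ↔
    ∀ᶠ n in (Filter.hyperfilter ℕ : Filter ℕ), FreeGroup.lift (t n) w = 1 := Iff.rfl

private instance E1_normal : (E1_N t).Normal where
  conj_mem := by
    intro a ha g
    rw [E1_mem] at ha ⊢
    filter_upwards [ha] with n h1
    rw [map_mul, map_mul, map_inv, h1, mul_one, mul_inv_cancel]

/-- The generators of the limit. -/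
private def E1_t (k : ZMod 4) : FreeGroup (ZMod 4) ⧸ E1_N t :=
  QuotientGroup.mk' (E1_N t) (FreeGroup.of k)

private theorem E1_one (w : FreeGroup (ZMod 4)) : QuotientGroup.mk' (E1_N t) w = 1 ↔
    ∀ᶠ n in (Filter.hyperfilter ℕ : Filter ℕ), FreeGroup.lift (t n) w = 1 := by
  rw [← E1_mem, ← MonoidHom.mem_ker, QuotientGroup.ker_mk']

private theorem E1_word (l : List (ZMod 4)) : (l.map (E1_t t)).prod = 1 ↔
    ∀ᶠ n in (Filter.hyperfilter ℕ : Filter ℕ), (l.map (t n)).prod = 1 := by
  have h1 : (l.map (E1_t t)).prod = QuotientGroup.mk' (E1_N t) (l.map FreeGroup.of).prod := by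
    rw [map_list_prod, List.map_map]
    rfl
  have h2 : ∀ n, FreeGroup.lift (t n) (l.map FreeGroup.of).prod = (l.map (t n)).prod := by
    intro n
    rw [map_list_prod, List.map_map]
    congr 1
    refine List.map_congr_left fun k _ => ?_
    exact FreeGroup.lift_apply_of
  rw [h1, E1_one]
  simp only [h2]

private theorem E1_gi (gi : ∀ n, GI (t n)) : GI (E1_t t) where
  sq k := by
    have h := (E1_word t [k, k]).2 (Filter.Eventually.of_forall fun n => by
      simpa using (gi n).sq k)
    simpa using h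
  ne k h := by
    have h1 := (E1_word t [k]).1 (by simpa using h)
    obtain ⟨n, hn⟩ := h1.exists
    exact (gi n).ne k (by simpa using hn)
  inj := by
    intro k l h
    have h1 := (E1_one t ((FreeGroup.of k)⁻¹ * FreeGroup.of l)).1 (by
      rw [map_mul, map_inv]
      exact inv_mul_eq_one.2 h)
    obtain ⟨n, hn⟩ := h1.exists
    rw [map_mul, map_inv, FreeGroup.lift_apply_of, FreeGroup.lift_apply_of, inv_mul_eq_one] at hn
    exact (gi n).inj hn
  gen := by
    have h1 : Set.range (E1_t t) =
        QuotientGroup.mk' (E1_N t) '' Set.range (FreeGroup.of : ZMod 4 → FreeGroup (ZMod 4)) := by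
      rw [← Set.range_comp]
      rfl
    rw [h1, ← MonoidHom.map_closure, FreeGroup.closure_range_of]
    exact Subgroup.map_top_of_surjective _ (QuotientGroup.mk'_surjective _)

end limit

/-- LEAF E1 (medium). The limit group: `G` = the quotient of `FreeGroup (ZMod 4)` by the normal subgroup of all `w` with `FreeGroup.lift (t n) w = 1` for almost all `n` with respect to the ultrafilter `Filter.hyperfilter ℕ`; `τ k` = the class of the generator `k`. `sq`, `ne`, `inj`: for every `n` (`gi n`). For a finite set of words `l` (length at most `R`; a finite set because `ZMod 4`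
is finite): for almost all `n` all the equivalences hold (`Ultrafilter` decides `(l.map (t n)).prod = 1`; finite intersections), and almost all `n` are `≥ n0`, so there is one. -/
theorem exists_limit (H : ℕ → Type) [∀ n, Group (H n)] (t : ∀ n, ZMod 4 → H n) (gi : ∀ n, GI (t n)) :
    ∃ (G : Type) (_ : Group G) (τ : ZMod 4 → G) (_ : GI τ), ∀ R n0 : ℕ, ∃ n, n0 ≤ n ∧
      ∀ l : List (ZMod 4), l.length ≤ R → ((l.map τ).prod = 1 ↔ (l.map (t n)).prod = 1) := by
  refine ⟨FreeGroup (ZMod 4) ⧸ E1_N t, inferInstance, E1_t t, E1_gi t gi, fun R n0 => ?_⟩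
  have h1 : ∀ l : List (ZMod 4), ∀ᶠ n in (Filter.hyperfilter ℕ : Filter ℕ),
      ((l.map (E1_t t)).prod = 1 ↔ (l.map (t n)).prod = 1) := by
    intro l
    by_cases h : (l.map (E1_t t)).prod = 1
    · filter_upwards [(E1_word t l).1 h] with n hn
      exact ⟨fun _ => hn, fun _ => h⟩
    · have h2 : ∀ᶠ n in (Filter.hyperfilter ℕ : Filter ℕ), ¬ (l.map (t n)).prod = 1 := by
        rw [Ultrafilter.eventually_not]
        exact fun h3 => h ((E1_word t l).2 h3)
      filter_upwards [h2] with n hn
      exact ⟨fun h3 => absurd h3 h, fun h3 => absurd h3 hn⟩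
  have hfin : {l : List (ZMod 4) | l.length ≤ R}.Finite := List.finite_length_le (ZMod 4) R
  have h2 : ∀ᶠ n in (Filter.hyperfilter ℕ : Filter ℕ), ∀ l ∈ {l : List (ZMod 4) | l.length ≤ R},
      ((l.map (E1_t t)).prod = 1 ↔ (l.map (t n)).prod = 1) :=
    (Filter.eventually_all_finite hfin).2 fun l _ => h1 l
  have h3 : ∀ᶠ n in (Filter.hyperfilter ℕ : Filter ℕ), n0 ≤ n :=
    Nat.hyperfilter_le_atTop (Filter.eventually_ge_atTop n0)
  obtain ⟨n, hn, hn0⟩ := (h2.and h3).exists
  exact ⟨n, hn0, fun l hl => hn l hl⟩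

end KPl
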