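import Pool.Agent.Lib.MP_d3a5e5_coK.Defs
import Pool.Agent.Lib.MP_d3a5e5_co.Q3

set_option autoImplicit false

namespace KPl

open QPl

/-- LEAF F1c (easy). Drawings of a graph give drawings of graphs embedded in it. -/
theorem draw_comap {V V' : Type} (G : SimpleGraph V) (G' : SimpleGraph V') (j : V' → V) (hj : Function.Injective j)
    (hadj : ∀ a b, G'.Adj a b → G.Adj (j a) (j b)) {k : ℕ} (h : DrawK G k) : DrawK G' k := by
  obtain ⟨f, hf, γ, h1, h2⟩ := h
  refine ⟨fun v => f (j v), fun a b hab => hj (hf hab), fun u v => γ (j u) (j v), ?_, ?_⟩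
  · intro u v huv
    obtain ⟨a1, a2, a3, a4, a5⟩ := h1 (j u) (j v) (hadj u v huv)
    exact ⟨a1, a2, a3, a4, fun t t0 t1 w => a5 t t0 t1 (j w)⟩
  · intro u v huv
    refine le_trans ?_ (h2 (j u) (j v) (hadj u v huv))
    rw [← (Sym2.map.injective hj).encard_image]
    refine Set.encard_le_encard ?_
    rintro _ ⟨e, ⟨he, hne, x, y, rfl, s, t, s0, s1, t0, t1, hst⟩, rfl⟩
    refine ⟨?_, ?_, j x, j y, Sym2.map_mk .., s, t, s0, s1, t0, t1, hst⟩
    · rw [Sym2.map_mk]
      exact hadj x y he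
    · intro h3
      apply hne
      apply Sym2.map.injective hj
      rw [h3, Sym2.map_mk]

end KPl
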