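import Pool.Agent.Lib.MP_d3a5e5_coK.GDefs

set_option autoImplicit false

namespace KPl

open QPl

variable {V C : Type} {Γ : CGr V C}

/-- `l` is the dart of the edge `e` which goes upwards. -/
private def G2b_Q (Γ : CGr V C) (τ : V → ℝ) (e : Sym2 V) (l : V × C) : Prop :=
  s(l.1, Γ.nb l.1 l.2) = e ∧ τ l.1 < τ (Γ.nb l.1 l.2)

private theorem G2b_uniq {τ : V → ℝ} {e : Sym2 V} {l l' : V × C} (h : G2b_Q Γ τ e l)
    (h' : G2b_Q Γ τ e l') : l = l' := by
  obtain ⟨h1, h2⟩ := h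
  obtain ⟨h1', h2'⟩ := h'
  have h3 : s(l.1, Γ.nb l.1 l.2) = s(l'.1, Γ.nb l'.1 l'.2) := h1.trans h1'.symm
  rcases Sym2.eq_iff.mp h3 with ⟨ha, hb⟩ | ⟨ha, hb⟩
  · rw [← ha] at hb
    exact Prod.ext ha (Γ.inj _ _ _ hb)
  · exfalso
    rw [hb] at h2
    rw [← ha] at h2'
    exact lt_asymm h2 h2'

private theorem G2b_ex {S' : Set V} {τ : V → ℝ} (hτ : Set.InjOn τ (S' \ ∅)) {u v : V} (hu : u ∈ S')
    (hv : v ∈ S') (h : Γ.graph.Adj u v) : ∃ l, G2b_Q Γ τ s(u, v) l := by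
  obtain ⟨k, hk⟩ := h
  have hne : τ u ≠ τ v := by
    intro h
    have := hτ ⟨hu, fun h => h⟩ ⟨hv, fun h => h⟩ h
    apply Γ.ne u k
    rw [hk, this]
  rcases lt_or_gt_of_ne hne with h1 | h1
  · refine ⟨(u, k), ?_, ?_⟩
    · show s(u, Γ.nb u k) = s(u, v)
      rw [hk]
    · show τ u < τ (Γ.nb u k)
      rw [hk]
      exact h1
  · have hvu : Γ.nb v k = u := by rw [← hk, Γ.inv]
    refine ⟨(v, k), ?_, ?_⟩
    · show s(v, Γ.nb v k) = s(u, v)
      rw [hvu, Sym2.eq_swap]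
    · show τ v < τ (Γ.nb v k)
      rw [hvu]
      exact h1

open Classical in
private noncomputable def G2b_X {S' : Set V} {cs : List ((V × C) × (V × C))} (D : Drw Γ ∅ [] cs S')
    (e : Sym2 V) : ℝ → ℝ :=
  if h : ∃ l, G2b_Q Γ D.τ e l then D.X h.choose else fun _ => 0

private theorem G2b_X_eq {S' : Set V} {cs : List ((V × C) × (V × C))} (D : Drw Γ ∅ [] cs S')
    {e : Sym2 V} {l : V × C} (h : G2b_Q Γ D.τ e l) : G2b_X D e = D.X l := by
  have h' : ∃ l, G2b_Q Γ D.τ e l := ⟨l, h⟩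
  unfold G2b_X
  rw [dif_pos h', G2b_uniq h'.choose_spec h]

private theorem G2b_X_cont {S' : Set V} {cs : List ((V × C) × (V × C))} (D : Drw Γ ∅ [] cs S')
    (e : Sym2 V) : Continuous (G2b_X D e) := by
  unfold G2b_X
  split
  · exact D.cont _
  · exact continuous_const

/-- The time at the parameter `t`. -/
private noncomputable def G2b_T (τ : V → ℝ) (u v : V) (t : ℝ) : ℝ := τ u + t * (τ v - τ u)

private theorem G2b_T_symm (τ : V → ℝ) (u v : V) (t : ℝ) : G2b_T τ v u t = G2b_T τ u v (1 - t) := by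
  unfold G2b_T
  ring

private theorem G2b_btw {τ : V → ℝ} {u v : V} {l : V × C} (h : G2b_Q Γ τ s(u, v) l) {t : ℝ}
    (h0 : 0 < t) (h1 : t < 1) : τ l.1 < G2b_T τ u v t ∧ G2b_T τ u v t < τ (Γ.nb l.1 l.2) := by
  obtain ⟨h2, h3⟩ := h
  unfold G2b_T
  rcases Sym2.eq_iff.mp h2 with ⟨ha, hb⟩ | ⟨ha, hb⟩
  · rw [hb, ha] at h3
    rw [hb, ha]
    constructor <;> nlinarith
  · rw [hb, ha] at h3
    rw [hb, ha]
    constructor <;> nlinarith

private theorem G2b_Cp {S' : Set V} {τ : V → ℝ} {u v : V} {l : V × C} (h : G2b_Q Γ τ s(u, v) l)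
    (hu : u ∈ S') (hv : v ∈ S') : Cp Γ ∅ S' τ l := by
  obtain ⟨h2, h3⟩ := h
  rcases Sym2.eq_iff.mp h2 with ⟨ha, hb⟩ | ⟨ha, hb⟩
  · refine ⟨⟨?_, fun h => h⟩, Or.inr ⟨⟨?_, fun h => h⟩, h3⟩⟩
    · rw [hb]
      exact hv
    · rw [ha]
      exact hu
  · refine ⟨⟨?_, fun h => h⟩, Or.inr ⟨⟨?_, fun h => h⟩, h3⟩⟩
    · rw [hb]
      exact hu
    · rw [ha]
      exact hv

private theorem G2b_end {S' : Set V} {cs : List ((V × C) × (V × C))} (D : Drw Γ ∅ [] cs S')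
    {u v : V} {l : V × C} (h : G2b_Q Γ D.τ s(u, v) l) (hu : u ∈ S') (hv : v ∈ S') :
    D.X l (D.τ u) = D.ξ u := by
  have hc := G2b_Cp h hu hv
  rcases Sym2.eq_iff.mp h.1 with ⟨ha, hb⟩ | ⟨ha, hb⟩
  · have := D.beg l hc (fun h => h)
    rw [ha] at this
    exact this
  · have := D.fin l hc
    rw [hb] at this
    exact this

private theorem G2b_st {τ : V → ℝ} (l : V × C) : st ∅ τ l = τ l.1 := by
  unfold st
  rw [if_neg (Set.notMem_empty _)]

/-- The number of darts which cross `l`. -/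
private theorem G2b_count {W : Type} (cs : List ((V × C) × (V × C))) (l : V × C) (E : Set W)
    (g : V × C → W) (other : (V × C) × (V × C) → V × C)
    (hE : ∀ e ∈ E, ∃ c ∈ cs, (c.1 = l ∨ c.2 = l) ∧ g (other c) = e) (K : ℕ) (hK : cnt cs l ≤ K) :
    E.encard ≤ (K : ℕ∞) := by
  classical
  unfold cnt at hK
  generalize hL : (cs.filter _) = L at hK
  have hsub : E ⊆ ((L.map (fun c => g (other c))).toFinset : Set W) := by
    intro e he
    obtain ⟨c, hc, hc2, hc3⟩ := hE e he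
    rw [Finset.mem_coe, List.mem_toFinset, List.mem_map]
    refine ⟨c, ?_, hc3⟩
    rw [← hL, List.mem_filter]
    exact ⟨hc, by simpa using hc2⟩
  refine (Set.encard_le_encard hsub).trans ?_
  rw [Set.encard_coe_eq_coe_finsetCard]
  have h1 : (L.map (fun c => g (other c))).toFinset.card ≤ K :=
    (List.toFinset_card_le _).trans (by rw [List.length_map]; exact hK)
  exact_mod_cast h1

/-- LEAF G2b. From a drawing of a derivation which starts with nothing to `DrawK`. `f v = (ξ v, τ v)` (injective because `τ` is injective on `S' \ ∅`).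
For adjacent `u`, `v` in `S'` with `τ u < τ v` let `l = (u, k)`, `nb u k = v` (complete), `γ u v t = (X l s, s)` with `s = τ u + t (τ v - τ u)`;
if `τ v < τ u` then `γ u v t = γ v u (1 - t)`; if not adjacent, anything (constant). Injective because the second coordinate is. The other vertices are avoided by `vtx` (and
the second coordinate). If the curves of the edges with darts `l ≠ l'` meet at interior parameters then the times agree and `crs` gives `(l, l') ∈ cs` or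
`(l', l) ∈ cs`; the number of such `l'` is at most `cnt cs l ≤ K`. An edge has exactly one complete dart. -/
theorem draw_of_drw {S' : Set V} {cs : List ((V × C) × (V × C))} (D : Drw Γ ∅ [] cs S') (K : ℕ) (hK : ∀ l, cnt cs l ≤ K) :
    DrawK (Γ.graph.induce S') K := by
  classical
  have hadj : ∀ u v : S', (Γ.graph.induce S').Adj u v → Γ.graph.Adj u.1 v.1 := fun u v h => h
  refine ⟨fun v => (D.ξ v.1, D.τ v.1), ?_, fun u v =>
    ⟨fun t => (G2b_X D s(u.1, v.1) (G2b_T D.τ u.1 v.1 (t : ℝ)), G2b_T D.τ u.1 v.1 (t : ℝ)), ?_⟩, ?_, ?_⟩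
  · intro u v h
    exact Subtype.ext (D.tinj ⟨u.2, fun h => h⟩ ⟨v.2, fun h => h⟩ (Prod.ext_iff.mp h).2)
  · have hT : Continuous (fun t : unitInterval => G2b_T D.τ u.1 v.1 (t : ℝ)) := by
      unfold G2b_T
      fun_prop
    exact ((G2b_X_cont D _).comp hT).prodMk hT
  · intro u v huv
    obtain ⟨l, hl⟩ := G2b_ex D.tinj u.2 v.2 (hadj u v huv)
    have hl' : G2b_Q Γ D.τ s(v.1, u.1) l := by
      rw [Sym2.eq_swap]
      exact hl
    have hX := G2b_X_eq D hl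
    have hX' := G2b_X_eq D hl'
    have hc := G2b_Cp hl u.2 v.2
    have hne : D.τ v.1 - D.τ u.1 ≠ 0 := by
      intro h0
      have h1 : v.1 = u.1 := D.tinj ⟨v.2, fun h => h⟩ ⟨u.2, fun h => h⟩ (sub_eq_zero.mp h0)
      obtain ⟨k, hk⟩ := hadj u v huv
      apply Γ.ne u.1 k
      rw [hk, h1]
    refine ⟨?_, ?_, ?_, ?_, ?_⟩
    · show (G2b_X D s(u.1, v.1) (G2b_T D.τ u.1 v.1 ((0 : unitInterval) : ℝ)),
        G2b_T D.τ u.1 v.1 ((0 : unitInterval) : ℝ)) = (D.ξ u.1, D.τ u.1)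
      have h0 : G2b_T D.τ u.1 v.1 ((0 : unitInterval) : ℝ) = D.τ u.1 := by
        unfold G2b_T
        simp
      rw [h0, hX, G2b_end D hl u.2 v.2]
    · show (G2b_X D s(u.1, v.1) (G2b_T D.τ u.1 v.1 ((1 : unitInterval) : ℝ)),
        G2b_T D.τ u.1 v.1 ((1 : unitInterval) : ℝ)) = (D.ξ v.1, D.τ v.1)
      have h0 : G2b_T D.τ u.1 v.1 ((1 : unitInterval) : ℝ) = D.τ v.1 := by
        unfold G2b_T
        simp
      rw [h0, hX, G2b_end D hl' v.2 u.2]
    · intro s t hst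
      have h2 : G2b_T D.τ u.1 v.1 (s : ℝ) = G2b_T D.τ u.1 v.1 (t : ℝ) := (Prod.ext_iff.mp hst).2
      unfold G2b_T at h2
      have h3 : (s : ℝ) * (D.τ v.1 - D.τ u.1) = (t : ℝ) * (D.τ v.1 - D.τ u.1) := by linarith
      exact Subtype.ext (mul_right_cancel₀ hne h3)
    · intro t
      show (G2b_X D s(v.1, u.1) (G2b_T D.τ v.1 u.1 (t : ℝ)), G2b_T D.τ v.1 u.1 (t : ℝ)) =
        (G2b_X D s(u.1, v.1) (G2b_T D.τ u.1 v.1 ((unitInterval.symm t : unitInterval) : ℝ)),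
          G2b_T D.τ u.1 v.1 ((unitInterval.symm t : unitInterval) : ℝ))
      rw [hX, hX', G2b_T_symm, unitInterval.coe_symm_eq]
    · intro t h0 h1 w hw
      have hw' : (G2b_X D s(u.1, v.1) (G2b_T D.τ u.1 v.1 (t : ℝ)), G2b_T D.τ u.1 v.1 (t : ℝ)) =
        (D.ξ w.1, D.τ w.1) := hw
      have ht0 : (0 : ℝ) < t := unitInterval.pos_iff_ne_zero.mpr h0
      have ht1 : (t : ℝ) < 1 := unitInterval.lt_one_iff_ne_one.mpr h1
      obtain ⟨hb1, hb2⟩ := G2b_btw hl ht0 ht1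
      have hT : G2b_T D.τ u.1 v.1 (t : ℝ) = D.τ w.1 := (Prod.ext_iff.mp hw').2
      have hx : G2b_X D s(u.1, v.1) (G2b_T D.τ u.1 v.1 (t : ℝ)) = D.ξ w.1 := (Prod.ext_iff.mp hw').1
      rw [hX, hT] at hx
      rw [hT] at hb1 hb2
      exact D.vtx l hc w.1 ⟨w.2, fun h => h⟩ (by rw [G2b_st]; exact hb1) hb2 hx
  · intro u v huv
    obtain ⟨l, hl⟩ := G2b_ex D.tinj u.2 v.2 (hadj u v huv)
    have hX := G2b_X_eq D hl
    have hc := G2b_Cp hl u.2 v.2
    set E : Set (Sym2 S') := {e : Sym2 S' | e ∈ (Γ.graph.induce S').edgeSet ∧ e ≠ s(u, v) ∧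
          ∃ x y : S', e = s(x, y) ∧ ∃ s t : unitInterval,
            s ≠ 0 ∧ s ≠ 1 ∧ t ≠ 0 ∧ t ≠ 1 ∧
            (G2b_X D s(x.1, y.1) (G2b_T D.τ x.1 y.1 (s : ℝ)), G2b_T D.τ x.1 y.1 (s : ℝ)) =
            (G2b_X D s(u.1, v.1) (G2b_T D.τ u.1 v.1 (t : ℝ)), G2b_T D.τ u.1 v.1 (t : ℝ))} with hE
    show E.encard ≤ (K : ℕ∞)
    have hinj : Function.Injective (Sym2.map (Subtype.val : S' → V)) :=
      Sym2.map.injective Subtype.val_injective
    rw [← hinj.encard_image E]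
    refine G2b_count cs l _ (fun l => s(l.1, Γ.nb l.1 l.2))
      (fun c => if c.1 = l then c.2 else c.1) ?_ K (hK l)
    rintro _ ⟨e, ⟨he1, he2, x, y, rfl, s, t, hs0, hs1, ht0, ht1, hst⟩, rfl⟩
    have hxy : Γ.graph.Adj x.1 y.1 := hadj x y ((SimpleGraph.mem_edgeSet _).mp he1)
    obtain ⟨l', hl'⟩ := G2b_ex D.tinj x.2 y.2 hxy
    have hX' := G2b_X_eq D hl'
    have hc' := G2b_Cp hl' x.2 y.2
    have hll : l ≠ l' := by
      intro h
      subst h
      apply he2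
      apply hinj
      rw [Sym2.map_mk, Sym2.map_mk]
      exact hl'.1.symm.trans hl.1
    have hs0' : (0 : ℝ) < s := unitInterval.pos_iff_ne_zero.mpr hs0
    have hs1' : (s : ℝ) < 1 := unitInterval.lt_one_iff_ne_one.mpr hs1
    have ht0' : (0 : ℝ) < t := unitInterval.pos_iff_ne_zero.mpr ht0
    have ht1' : (t : ℝ) < 1 := unitInterval.lt_one_iff_ne_one.mpr ht1
    obtain ⟨ha1, ha2⟩ := G2b_btw hl ht0' ht1'
    obtain ⟨hb1, hb2⟩ := G2b_btw hl' hs0' hs1'
    have hT : G2b_T D.τ x.1 y.1 (s : ℝ) = G2b_T D.τ u.1 v.1 (t : ℝ) := (Prod.ext_iff.mp hst).2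
    have hx := (Prod.ext_iff.mp hst).1
    simp only at hx
    rw [hX, hX', hT] at hx
    rw [hT] at hb1 hb2
    rcases D.crs l l' hc hc' hll _ (by rw [G2b_st]; exact ha1) ha2 (by rw [G2b_st]; exact hb1) hb2 hx.symm
      with h | h
    · refine ⟨(l, l'), h, Or.inl rfl, ?_⟩
      simp only [if_true]
      exact hl'.1
    · refine ⟨(l', l), h, Or.inr rfl, ?_⟩
      simp only
      rw [if_neg (fun h => hll h.symm)]
      exact hl'.1

end KPl
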