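import Pool.Agent.Lib.MP_d3a5e5_coK.G2a
import Pool.Agent.Lib.MP_d3a5e5_coK.G2b

set_option autoImplicit false

namespace KPl

open QPl

variable {V C : Type} {Γ : CGr V C}

theorem draw_of_dr {S' : Set V} {L' : List (V × C)} {cs : List ((V × C) × (V × C))} (h : Dr Γ ∅ [] cs S' L') (K : ℕ)
    (hK : ∀ l, cnt cs l ≤ K) : DrawK (Γ.graph.induce S') K := by
  obtain ⟨D⟩ := exists_drw h ⟨List.nodup_nil, by simp⟩
  exact draw_of_drw D K hK

end KPl
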