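import Pool.Agent.Lib.MP_d3a5e5_coK.K1
import Pool.Agent.Lib.MP_d3a5e5_coK.G2
import Pool.Agent.Lib.MP_d3a5e5_coK.F1c
import Pool.Agent.Lib.MP_d3a5e5_coK.D1

set_option autoImplicit false

namespace KPl

open QPl

/-- LEAF E2 (part 1, easy-medium). From `GoodBlock`: the derivation starts with the event `vert` at `1` from `∅`, `[]` (`Kx = []`, `Ky = [3, 1, 2, 0]`); `draw_of_dr`, then `draw_comap` from `S'` to `B ⊆ S'`. -/
theorem draw_block {H : Type} [Group H] {t : ZMod 4 → H} (h : GI t) (K : ℕ) (hG : GoodBlock h K) (B : Finset H) :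
    DrawK ((HG h).graph.induce (B : Set H)) K := by
  obtain ⟨cs, S', hd, hsub, _, hK⟩ := hG B
  have h0 : Dr (HG h) (insert 1 ∅) ([] ++ ([3, 1, 2, 0] : List (ZMod 4)).map (fun k => ((1 : H), k)) ++ []) cs S' [] := by
    rw [insert_empty_eq, List.append_nil, List.nil_append]
    exact hd
  have h1 : Dr (HG h) ∅ [] cs S' [] :=
    Dr.vert (Γ := HG h) [] [] (1 : H) [] [3, 1, 2, 0] ∅ cs S' [] (Set.notMem_empty _) (by decide) (by decide)
      (fun k hk => absurd hk List.not_mem_nil) (fun k _ => Set.notMem_empty _) h0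
  have h2 := draw_of_dr h1 K hK
  refine draw_comap ((HG h).graph.induce S') ((HG h).graph.induce (B : Set H)) (fun x => ⟨x.1, hsub x.2⟩) ?_ ?_ h2
  · intro a b hab
    have h3 := congrArg Subtype.val hab
    exact Subtype.ext h3
  · intro a b hab
    exact hab

private theorem E2_rev {G : Type} [Group G] {τ : ZMod 4 → G} (g : GI τ) (l : List (ZMod 4)) :
    (l.reverse.map τ).prod = ((l.map τ).prod)⁻¹ := by
  induction l with
  | nil => simp
  | cons k l ih =>
    have h1 : (τ k)⁻¹ = τ k := inv_eq_of_mul_eq_one_left (g.sq k)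
    rw [List.reverse_cons, List.map_append, List.prod_append, ih, List.map_singleton, List.prod_singleton,
      List.map_cons, List.prod_cons, mul_inv_rev, h1]

private theorem E2_word {G : Type} [Group G] {τ : ZMod 4 → G} (g : GI τ) (x : G) :
    ∃ l : List (ZMod 4), (l.map τ).prod = x := by
  have hx : x ∈ Subgroup.closure (Set.range τ) := by
    rw [g.gen]
    exact Subgroup.mem_top x
  induction hx using Subgroup.closure_induction with
  | mem y hy =>
    obtain ⟨k, rfl⟩ := hy
    exact ⟨[k], by simp⟩
  | one => exact ⟨[], by simp⟩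
  | mul y z _ _ hy hz =>
    obtain ⟨l, rfl⟩ := hy
    obtain ⟨m, rfl⟩ := hz
    exact ⟨l ++ m, by simp⟩
  | inv y _ hy =>
    obtain ⟨l, rfl⟩ := hy
    exact ⟨l.reverse, E2_rev g l⟩

/-- LEAF E2 (part 2, medium). Every `x ∈ A` is a product of generators (`τ k` are involutions which generate `G`): choose words `l x` for `x ∈ A`, let `R` be larger than `2 * max length + 2`, and `n` as in the hypothesis. `j x = ((l x).map (t n)).prod` for `x ∈ A`: for `x, y ∈ A`: `x = y` iff `(l x ++ (l y).reverse).map τ` has product 1, iff `j x = j y`; `y = x * τ k` iff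
`j y = j x * t n k` (word `l x ++ [k] ++ (l y).reverse`). So the induced subgraph on `A` embeds in the induced subgraph of `H n` on the finite set `j '' A`; `draw_comap`. -/
theorem draw_limit (H : ℕ → Type) [∀ n, Group (H n)] (t : ∀ n, ZMod 4 → H n) (gi : ∀ n, GI (t n)) {G : Type} [Group G]
    {τ : ZMod 4 → G} (g : GI τ) (hl : ∀ R n0 : ℕ, ∃ n, n0 ≤ n ∧ ∀ l : List (ZMod 4), l.length ≤ R →
      ((l.map τ).prod = 1 ↔ (l.map (t n)).prod = 1)) (K : ℕ)
    (hd : ∀ n, ∀ B : Finset (H n), DrawK ((HG (gi n)).graph.induce (B : Set (H n))) K) (A : Finset G) :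
    DrawK ((HG g).graph.induce (A : Set G)) K := by
  classical
  choose w hw using fun x : G => E2_word g x
  have hlen : ∀ x ∈ A, (w x).length ≤ A.sup (fun x => (w x).length) := fun x hx =>
    Finset.le_sup (f := fun x => (w x).length) hx
  obtain ⟨n, _, hn⟩ := hl (2 * (A.sup (fun x => (w x).length)) + 2) 0
  set j : G → H n := fun x => ((w x).map (t n)).prod with hj
  have key1 : ∀ x ∈ A, ∀ y ∈ A, (x = y ↔ j x = j y) := by
    intro x hx y hy
    have h1 := hn (w x ++ (w y).reverse) (by
      have h2 := hlen x hx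
      have h3 := hlen y hy
      rw [List.length_append, List.length_reverse]
      omega)
    rw [List.map_append, List.prod_append, E2_rev g, hw, hw, List.map_append, List.prod_append, E2_rev (gi n),
      mul_inv_eq_one, mul_inv_eq_one] at h1
    exact h1
  have key2 : ∀ x ∈ A, ∀ y ∈ A, ∀ k, (x * τ k = y ↔ j x * t n k = j y) := by
    intro x hx y hy k
    have h1 := hn (w x ++ [k] ++ (w y).reverse) (by
      have h2 := hlen x hx
      have h3 := hlen y hy
      rw [List.length_append, List.length_append, List.length_reverse, List.length_singleton]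
      omega)
    rw [List.map_append, List.prod_append, E2_rev g, List.map_append, List.prod_append, hw, hw, List.map_append,
      List.prod_append, E2_rev (gi n), List.map_append, List.prod_append,
      mul_inv_eq_one, mul_inv_eq_one, List.map_singleton, List.map_singleton, List.prod_singleton,
      List.prod_singleton] at h1
    exact h1
  refine draw_comap ((HG (gi n)).graph.induce ((A.image j : Finset (H n)) : Set (H n))) ((HG g).graph.induce (A : Set G))
    (fun x => ⟨j x.1, Finset.mem_coe.mpr (Finset.mem_image_of_mem j (Finset.mem_coe.mp x.2))⟩) ?_ ?_ (hd n (A.image j))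
  · intro a b hab
    have h3 := congrArg Subtype.val hab
    exact Subtype.ext ((key1 a.1 (Finset.mem_coe.mp a.2) b.1 (Finset.mem_coe.mp b.2)).mpr h3)
  · intro a b hab
    obtain ⟨k, hk⟩ := hab
    exact ⟨k, (key2 a.1 (Finset.mem_coe.mp a.2) b.1 (Finset.mem_coe.mp b.2) k).mp hk⟩

end KPl
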