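import Pool.Agent.Lib.MP_d3a5e5_coK.D1

set_option autoImplicit false

namespace KPl

private theorem E3_rev {H : Type} [Group H] {t : ZMod 4 → H} (h : GI t) (l : List (ZMod 4)) :
    (l.map t).prod * (l.reverse.map t).prod = 1 := by
  induction l with
  | nil => simp
  | cons k l ih =>
    rw [List.map_cons, List.prod_cons, List.reverse_cons, List.map_append, List.prod_append,
      List.map_cons, List.map_nil, List.prod_singleton]
    calc t k * (l.map t).prod * ((l.reverse.map t).prod * t k)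
        = t k * ((l.map t).prod * (l.reverse.map t).prod) * t k := by simp only [mul_assoc]
      _ = 1 := by rw [ih, mul_one, h.sq]

private theorem E3_eq {H : Type} [Group H] {t : ZMod 4 → H} (h : GI t) (l l' : List (ZMod 4)) :
    ((l ++ l'.reverse).map t).prod = 1 ↔ (l.map t).prod = (l'.map t).prod := by
  have e : (l'.reverse.map t).prod = ((l'.map t).prod)⁻¹ :=
    eq_inv_of_mul_eq_one_right (E3_rev h l')
  rw [List.map_append, List.prod_append, e, mul_inv_eq_one]

section E3

variable {H G : Type} [Group H] [Group G] {t : ZMod 4 → H} {τ : ZMod 4 → G}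

private theorem E3_tr (h : GI t) (g : GI τ) {N : ℕ}
    (hw : ∀ l : List (ZMod 4), l.length ≤ N → ((l.map τ).prod = 1 ↔ (l.map t).prod = 1))
    (l l' : List (ZMod 4)) (hl : l.length + l'.length ≤ N) :
    (l.map τ).prod = (l'.map τ).prod ↔ (l.map t).prod = (l'.map t).prod := by
  rw [← E3_eq g, ← E3_eq h]
  exact hw _ (by rw [List.length_append, List.length_reverse]; exact hl)

private theorem E3_adj (h : GI t) (g : GI τ) {N : ℕ}
    (hw : ∀ l : List (ZMod 4), l.length ≤ N → ((l.map τ).prod = 1 ↔ (l.map t).prod = 1))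
    (l l' : List (ZMod 4)) (hl : l.length + 1 + l'.length ≤ N)
    (ha : (HG h).graph.Adj (l.map t).prod (l'.map t).prod) :
    (HG g).graph.Adj (l.map τ).prod (l'.map τ).prod := by
  obtain ⟨k, hk⟩ := ha
  refine ⟨k, ?_⟩
  have h1 := (E3_tr h g hw (l ++ [k]) l' (by rw [List.length_append, List.length_singleton]; exact hl)).2
    (by rw [List.map_append, List.prod_append, List.map_cons, List.map_nil, List.prod_singleton]; exact hk)
  rw [List.map_append, List.prod_append, List.map_cons, List.map_nil, List.prod_singleton] at h1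
  exact h1

private theorem E3_word (g : GI τ) {x y : G} (w : (HG g).graph.Walk x y) :
    ∃ l : List (ZMod 4), l.length = w.length ∧ y = x * (l.map τ).prod := by
  induction w with
  | nil => exact ⟨[], rfl, by simp⟩
  | cons h p ih =>
    obtain ⟨k, hk⟩ := h
    obtain ⟨l, hl, e⟩ := ih
    refine ⟨k :: l, by simp [hl], ?_⟩
    rw [e, List.map_cons, List.prod_cons, ← mul_assoc, ← hk]
    rfl

private theorem E3_walk (h : GI t) (l : List (ZMod 4)) (x : H) :
    ∃ w : (HG h).graph.Walk x (x * (l.map t).prod), w.length = l.length := by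
  induction l generalizing x with
  | nil => exact ⟨SimpleGraph.Walk.nil.copy rfl (by simp), by simp⟩
  | cons k l ih =>
    obtain ⟨w, hw⟩ := ih (x * t k)
    have ha : (HG h).graph.Adj x (x * t k) := ⟨k, rfl⟩
    exact ⟨(SimpleGraph.Walk.cons ha w).copy rfl (by rw [List.map_cons, List.prod_cons, mul_assoc]),
      by simp [hw]⟩

private theorem E3_conn (h : GI t) (g : GI τ) {R N : ℕ} (hN : 2 * R + 1 ≤ N)
    (hw : ∀ l : List (ZMod 4), l.length ≤ N → ((l.map τ).prod = 1 ↔ (l.map t).prod = 1))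
    {Za : Set H} (hR : ∀ x ∈ Za, ∃ l : List (ZMod 4), l.length ≤ R ∧ x = (l.map t).prod)
    {u v : H} (p : (HG h).graph.Walk u v) (hp : ∀ z ∈ p.support, z ∈ Za) :
    ∀ lu lv : List (ZMod 4), lu.length ≤ R → lv.length ≤ R → u = (lu.map t).prod →
      v = (lv.map t).prod → ∃ w : (HG g).graph.Walk (lu.map τ).prod (lv.map τ).prod,
        ∀ z ∈ w.support, ∃ l : List (ZMod 4), l.length ≤ R ∧ z = (l.map τ).prod ∧
          (l.map t).prod ∈ Za := by
  induction p with
  | nil =>
    intro lu lv hlu hlv hu hv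
    have e : (lu.map τ).prod = (lv.map τ).prod :=
      (E3_tr h g hw lu lv (by omega)).2 (hu.symm.trans hv)
    rw [e]
    refine ⟨SimpleGraph.Walk.nil, fun z hz => ?_⟩
    rw [SimpleGraph.Walk.support_nil, List.mem_singleton] at hz
    exact ⟨lv, hlv, hz, by rw [← hv]; exact hp _ (by simp)⟩
  | @cons a b c ha p ih =>
    intro lu lv hlu hlv hu hv
    have hb : b ∈ Za := hp b (by
      rw [SimpleGraph.Walk.support_cons]
      exact List.mem_cons_of_mem _ p.start_mem_support)
    obtain ⟨l', hl', e'⟩ := hR b hb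
    obtain ⟨w, hw'⟩ := ih (fun z hz => hp z (by
      rw [SimpleGraph.Walk.support_cons]
      exact List.mem_cons_of_mem _ hz)) l' lv hl' hlv e' hv
    have hadj : (HG g).graph.Adj (lu.map τ).prod (l'.map τ).prod :=
      E3_adj h g hw lu l' (by omega) (by rw [← hu, ← e']; exact ha)
    refine ⟨SimpleGraph.Walk.cons hadj w, fun z hz => ?_⟩
    rw [SimpleGraph.Walk.support_cons, List.mem_cons] at hz
    rcases hz with rfl | hz
    · exact ⟨lu, hlu, rfl, by rw [← hu]; exact hp _ (by simp)⟩
    · exact hw' z hz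

end E3

/-- LEAF E3 (medium+). Take `n ≥ n0` as in the hypothesis for words of length at most `2 * R + D + 2`. `Z' a` = all `x ∈ G` which have a word `l` of length at most `R` with `x = (l.map τ).prod` and `(l.map (t n)).prod ∈ Z a`. (Independent of the word: if `l`, `l'` have the same product in `G` then also in `H n`: word `l ++ l'.reverse`.) `ne`, `fin` clear. `conn`: a walk in `Z a` in `H n` from the image of `x` to the image of `y`: induction on the walk;
each vertex has a word of length at most `R`; neighbours `u`, `u * t n k` with words `l`, `l'`: `l ++ [k] ++ l'.reverse` has product 1 in `H n`, so also in `G`. `inc`: the same. `far`: if `dist x y < D` in `G` then `y = x * (w.map τ).prod` with `w.length < D` (`cay_connected`), so the images in `H n` are at distance `< D`. -/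
theorem mdl_limit (H : ℕ → Type) [∀ n, Group (H n)] (t : ∀ n, ZMod 4 → H n) (gi : ∀ n, GI (t n)) {G : Type} [Group G]
    {τ : ZMod 4 → G} (g : GI τ) (hl : ∀ R n0 : ℕ, ∃ n, n0 ≤ n ∧ ∀ l : List (ZMod 4), l.length ≤ R →
      ((l.map τ).prod = 1 ↔ (l.map (t n)).prod = 1)) (D R n0 : ℕ)
    (hm : ∀ n, n0 ≤ n → ∃ Z, Mdl (HG (gi n)).graph D Z ∧ Rad (t n) R Z) : ∃ Z, Mdl (HG g).graph D Z := by
  obtain ⟨n, hn, hw⟩ := hl (2 * R + D + 2) n0
  obtain ⟨Z, hZ, hR⟩ := hm n hn
  refine ⟨fun a => {x : G | ∃ l : List (ZMod 4), l.length ≤ R ∧ x = (l.map τ).prod ∧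
    (l.map (t n)).prod ∈ Z a}, ⟨?_, ?_, ?_, ?_, ?_⟩⟩
  · intro a
    obtain ⟨x, hx⟩ := hZ.ne a
    obtain ⟨l, hlen, e⟩ := hR a x hx
    exact ⟨(l.map τ).prod, l, hlen, rfl, by rw [← e]; exact hx⟩
  · intro a
    refine ((List.finite_length_le (ZMod 4) R).image fun l => (l.map τ).prod).subset ?_
    rintro x ⟨l, hlen, e, -⟩
    exact ⟨l, hlen, e.symm⟩
  · rintro a x ⟨lx, hlx, rfl, hx⟩ y ⟨ly, hly, rfl, hy⟩
    obtain ⟨p, hp⟩ := hZ.conn a _ hx _ hy
    exact E3_conn (gi n) g (by omega) hw (hR a) p hp lx ly hlx hly rfl rfl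
  · intro a b hab
    obtain ⟨x, hx, y, hy, hxy⟩ := hZ.inc a b hab
    obtain ⟨lx, hlx, ex⟩ := hR a x hx
    obtain ⟨ly, hly, ey⟩ := hR b y hy
    refine ⟨_, ⟨lx, hlx, rfl, by rw [← ex]; exact hx⟩, _, ⟨ly, hly, rfl, by rw [← ey]; exact hy⟩, ?_⟩
    rcases hxy with e | e
    · exact Or.inl ((E3_tr (gi n) g hw lx ly (by omega)).2 (by rw [← ex, ← ey, e]))
    · exact Or.inr (E3_adj (gi n) g hw lx ly (by omega) (by rw [← ex, ← ey]; exact e))
  · rintro a b hab h1 h2 x ⟨lx, hlx, rfl, hx⟩ y ⟨ly, hly, rfl, hy⟩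
    by_contra hlt
    rw [not_le] at hlt
    obtain ⟨w, hwl⟩ := (cay_connected g).exists_walk_length_eq_dist (lx.map τ).prod (ly.map τ).prod
    obtain ⟨l, hll, e⟩ := E3_word g w
    have h3 : (ly.map τ).prod = ((lx ++ l).map τ).prod := by
      rw [e, List.map_append, List.prod_append]
    have h4 := (E3_tr (gi n) g hw ly (lx ++ l) (by rw [List.length_append]; omega)).1 h3
    rw [List.map_append, List.prod_append] at h4
    obtain ⟨w', hw'⟩ := E3_walk (gi n) l ((lx.map (t n)).prod)
    have h5 := SimpleGraph.dist_le w'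
    rw [hw', ← h4] at h5
    have h6 := hZ.far a b hab h1 h2 _ hx _ hy
    omega

end KPl
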