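import Pool.Agent.Lib.MP_d3a5e5_coK.F3Defs

set_option autoImplicit false

namespace KPl

open QPl

/-- LEAF F3b. One stage: this is `QPl.stage` (file S3a) without the metric statements; the proof is the same, with `Std` replaced by connectedness and local finiteness, and with the first component of `pieces_local` instead of `hL`:
`τ = ctp T key inn` with `key`, `inn` from `contour`. -/
theorem stage_near {V : Type} {G : SimpleGraph V} (hc : G.Connected) (hi : Infinite V) (hf : ∀ v, (G.neighborSet v).Finite) {k : ℕ}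
    {ω : Dat V} (o : V) (n : ℕ) (B : Finset V) (hB : (B : Set V) = Bl G o (n + 1)) (ρ : GridRep G k B ω) (b m : ℕ)
    (T : Lab V → Finset Pt)
    (h1 : ∀ v, (∃ e ∈ EB G (B : Set V), v ∈ e) → T (Sum.inl v) = {ρ.p v})
    (h2 : ∀ v, (¬ ∃ e ∈ EB G (B : Set V), v ∈ e) → T (Sum.inl v) = ∅)
    (h3 : ∀ e i, (T (Sum.inr (e, i))).Nonempty → e ∈ EB G (B : Set V) ∧ i < b ∧ T (Sum.inr (e, i)) ⊆ ρ.K e)
    (hcn : ∀ l, GConn (T l : Set Pt)) (hd : ∀ l l', l ≠ l' → Disjoint (T l) (T l'))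
    (h5 : ∀ u v, s(u, v) ∈ EB G (B : Set V) → ∃ w : (PG T).Walk (Sum.inl u) (Sum.inl v), w.length ≤ m)
    (h6 : ∀ e i, (T (Sum.inr (e, i))).Nonempty → ∃ u ∈ e, ∃ w : (PG T).Walk (Sum.inr (e, i)) (Sum.inl u), w.length ≤ m) :
    ∃ τ : TP (Lab V × Lab V), τ.OK ∧
      (∀ x y, τ.adj x y → y = (x.2, x.1) ∨ x.1 = y.1) ∧
      (∀ x, τ.pres x → Nr G ω (pos x.1) (pos x.2) ∧ (∀ e i, x.2 = Sum.inr (e, i) → e ∈ G.edgeSet ∧ i < b)) ∧
      (∀ v v' x x', (v = v' ∨ (G.Adj v v' ∧ v ∈ B ∧ v' ∈ B)) → τ.pres (Sum.inl v, x) → τ.pres (Sum.inl v', x') →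
        τ.WalkLE ((m + 1) * (k * (b + 2) + 1)) (Sum.inl v, x) (Sum.inl v', x')) ∧
      (∀ v v', G.Adj v v' → v ∈ B → v' ∈ B → ∃ x, τ.pres (Sum.inl v, x)) := by
  have hmemB : ∀ v : V, v ∈ B ↔ G.dist o v ≤ n + 1 := by
    intro v
    have h : v ∈ (B : Set V) ↔ v ∈ Bl G o (n + 1) := by rw [hB]
    exact h
  obtain ⟨pl1, pl2, pl3⟩ := pieces_local ρ b T h1 h2 h3
  have hadj_ne : ∀ l m', (PG T).Adj l m' → (T l).Nonempty ∧ (T m').Nonempty := by
    rintro l m' ⟨_, z, hz, w, hw, _⟩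
    exact ⟨⟨z, hz⟩, ⟨w, hw⟩⟩
  obtain ⟨o', ho'⟩ : ∃ o', G.Adj o o' := by
    obtain ⟨x, hx⟩ := exists_ne o
    obtain ⟨w⟩ := hc.preconnected o x
    cases w with
    | nil => exact absurd rfl hx
    | cons h _ => exact ⟨_, h⟩
  have hoB : o ∈ B := by rw [hmemB, SimpleGraph.dist_self]; omega
  have ho'B : o' ∈ B := by
    rw [hmemB]
    have := SimpleGraph.dist_eq_one_iff_adj.mpr ho'
    omega
  have hEBadj : ∀ v v' : V, G.Adj v v' → v ∈ B → v' ∈ B → s(v, v') ∈ EB G (B : Set V) := by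
    intro v v' h hv hv'
    refine ⟨h, fun x hx => ?_⟩
    rcases Sym2.mem_iff.mp hx with rfl | rfl
    · exact hv
    · exact hv'
  have h0 : (T (Sum.inl o)).Nonempty := by
    rw [h1 o ⟨s(o, o'), hEBadj o o' ho' hoB ho'B, Sym2.mem_mk_left _ _⟩]
    exact Finset.singleton_nonempty _
  have h5r : ∀ u v, s(u, v) ∈ EB G (B : Set V) → (PG T).Reachable (Sum.inl u) (Sum.inl v) := by
    intro u v h
    obtain ⟨w, _⟩ := h5 u v h
    exact ⟨w⟩
  have hreachB : ∀ v, v ∈ B → (PG T).Reachable (Sum.inl o) (Sum.inl v) := by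
    intro v hv
    have ho1 : o ∈ Bl G o (n + 1) := by rw [← hB]; exact hoB
    have hv1 : v ∈ Bl G o (n + 1) := by rw [← hB]; exact hv
    obtain ⟨w, _, hw⟩ := walk_in_ball hc o (n + 1) ho1 hv1
    refine S3a_aux2 h5r w ?_
    intro e he
    rw [hB]
    exact hw e he
  have hconn : ∀ l, (T l).Nonempty → (PG T).Reachable (Sum.inl o) l := by
    intro l hl
    cases l with
    | inl v =>
      by_cases hv : ∃ e ∈ EB G (B : Set V), v ∈ e
      · obtain ⟨e, he, hve⟩ := hv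
        exact hreachB v (he.2 v hve)
      · rw [h2 v hv] at hl
        exact absurd hl Finset.not_nonempty_empty
    | inr x =>
      obtain ⟨e, i⟩ := x
      obtain ⟨he, _, _⟩ := h3 e i hl
      obtain ⟨u, hu, w, _⟩ := h6 e i hl
      exact (hreachB u (he.2 u hu)).trans ⟨w.reverse⟩
  obtain ⟨key, inn, c0, ci, c1, c2, c3⟩ := contour T hcn hd pl3 (Sum.inl o) h0 hconn
  have hwalk : ∀ {l l' : Lab V} (w : (PG T).Walk l l'), w.length ≤ m → ∀ {x y : Lab V},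
      (PG T).Adj l x → (PG T).Adj l' y →
      (ctp T key inn).WalkLE ((m + 1) * (k * (b + 2) + 1)) (l, x) (l', y) := by
    intro l l' w hw x y hx hy
    refine S3a_aux1 _ (port_walk T key inn ci (k * (b + 2)) pl2 w hx hy) _ ?_
    exact Nat.mul_le_mul_right _ (by omega)
  refine ⟨ctp T key inn, ctp_ok T key inn c0 ci c1 c2 c3, ?_, ?_, ?_, ?_⟩
  · rintro ⟨x1, x2⟩ ⟨y1, y2⟩ ⟨hx, hy, hxy⟩
    rcases hxy with ⟨h, h'⟩ | ⟨h, _⟩
    · simp only at h h' hx
      subst h; subst h'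
      exact Or.inl rfl
    · exact Or.inr h
  · rintro ⟨x1, x2⟩ hx
    have hx' : (PG T).Adj x1 x2 := hx
    refine ⟨?_, ?_⟩
    · obtain ⟨e, he, f, hf, hef, hle, hmf⟩ := pl1 x1 x2 hx'
      exact ⟨e, he.1, f, hf.1, hef, hle, hmf⟩
    · intro e i hei
      simp only at hei
      subst hei
      obtain ⟨he, hi, _⟩ := h3 e i (hadj_ne _ _ hx').2
      exact ⟨he.1, hi⟩
  · intro v v' x x' hvv hx hx'
    have hx1 : (PG T).Adj (Sum.inl v) x := hx
    have hx2 : (PG T).Adj (Sum.inl v') x' := hx'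
    rcases hvv with rfl | ⟨hadj, hv, hv'⟩
    · exact hwalk (SimpleGraph.Walk.nil : (PG T).Walk (Sum.inl v) (Sum.inl v)) (Nat.zero_le _) hx1 hx2
    · obtain ⟨w, hw⟩ := h5 v v' (hEBadj v v' hadj hv hv')
      exact hwalk w hw hx1 hx2
  · intro v v' hadj hv hv'
    obtain ⟨w, _⟩ := h5 v v' (hEBadj v v' hadj hv hv')
    have hne : v ≠ v' := hadj.ne
    clear hwalk
    generalize hl : (Sum.inl v' : Lab V) = l' at w
    cases w with
    | nil => exact absurd (Sum.inl.inj hl).symm hne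
    | @cons _ x _ h _ => exact ⟨x, h⟩

end KPl
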