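import Pool.Agent.Lib.MP_d3a5e5_coK.F3a
import Pool.Agent.Lib.MP_d3a5e5_coK.F3b

set_option autoImplicit false

namespace KPl

open QPl

private theorem F3c_near {V : Type} {G : SimpleGraph V} (hf : ∀ v, (G.neighborSet v).Finite)
    {k d : ℕ} (hd : ∀ v, (G.neighborSet v).ncard ≤ d) {ω : Dat V} (h : ω ∈ Om G k) (v : V) (b : ℕ) :
    {x : Lab V | Nr G ω v (pos x) ∧ ∀ e i, x = Sum.inr (e, i) → e ∈ G.edgeSet ∧ i < b}.Finite := by
  have h1 : {y | Nr G ω v y}.Finite := (nr_finite h hf hd v).1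
  have h2 : (⋃ u ∈ {y | Nr G ω v y}, (fun w => s(u, w)) '' G.neighborSet u).Finite :=
    Set.Finite.biUnion h1 (fun u _ => (hf u).image _)
  have h3 : (Set.Iio b).Finite := Set.finite_Iio b
  refine Set.Finite.subset ((h1.image (Sum.inl : V → Lab V)).union ((h2.prod h3).image (Sum.inr : _ → Lab V))) ?_
  rintro x ⟨hx1, hx2⟩
  rcases x with u | ⟨e, i⟩
  · exact Or.inl ⟨u, hx1, rfl⟩
  · right
    obtain ⟨he, hi⟩ := hx2 e i rfl
    refine ⟨(e, i), ⟨?_, hi⟩, rfl⟩
    have h4 : s((Quot.out e).1, (Quot.out e).2) = e := Quot.out_eq e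
    refine Set.mem_iUnion₂.2 ⟨(Quot.out e).1, hx1, (Quot.out e).2, ?_, h4⟩
    show G.Adj (Quot.out e).1 (Quot.out e).2
    rw [← SimpleGraph.mem_edgeSet, h4]
    exact he

private theorem F3c_exists_adj {V : Type} {G : SimpleGraph V} (hc : G.Connected) (hi : Infinite V) (v : V) :
    ∃ v', G.Adj v v' := by
  obtain ⟨w, hw⟩ := exists_ne v
  obtain ⟨p⟩ := hc.preconnected v w
  cases p with
  | nil => exact absurd rfl hw
  | cons h _ => exact ⟨_, h⟩

/-- LEAF F3c. The limit: as in `QPl.core` (file S3) and `limit_tp` (file L3): stages `τ n` from `pieces k` and `stage_near` for the balls `B n` of radius `n + 1` about `o`; `limTP τ` is `OK`; `tp_graph` gives the two page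
graph `P` on the present labels `W = {a // (limTP τ).pres a}` (countable); `ps a = pos a.1.1`; `ι v` = a label `(inl v, x)` which is present in the limit (for all large `n` there is such a present label, from the finite set of
`x` with `Nr G ω v (pos x)` and index `< b`); walks from `lim_walk` (finiteness hypothesis: `a` is adjacent only to its reverse or to `(a.1, x)` with `x` in a finite set, `nr_finite`) and `L3_aux1`. -/
theorem limit_near {V : Type} {G : SimpleGraph V} (hc : G.Connected) (hi : Infinite V) (hf : ∀ v, (G.neighborSet v).Finite)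
    {k d : ℕ} (hd : ∀ v, (G.neighborSet v).ncard ≤ d) {ω : Dat V} (h : ω ∈ Om G k) :
    ∃ (W : Type) (P : SimpleGraph W) (ι : V → W) (ps : W → V) (c : ℕ), Countable W ∧ TwoPage P ∧ (∀ v, ps (ι v) = v) ∧
      (∀ a b, P.Adj a b → ps a = ps b ∨ Nr G ω (ps a) (ps b)) ∧
      ∀ u v, G.Adj u v → ∃ w : P.Walk (ι u) (ι v), w.length ≤ c := by
  classical
  obtain ⟨b, m, hpc⟩ := pieces k
  obtain ⟨o⟩ : Nonempty V := inferInstance
  set B : ℕ → Finset V := fun n => (Bl_finite hc hf o (n + 1)).toFinset with hBdef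
  have hB : ∀ n, (B n : Set V) = Bl G o (n + 1) := fun n => Set.Finite.coe_toFinset _
  have hst : ∀ n, ∃ τ : TP (Lab V × Lab V), τ.OK ∧
      (∀ x y, τ.adj x y → y = (x.2, x.1) ∨ x.1 = y.1) ∧
      (∀ x, τ.pres x → Nr G ω (pos x.1) (pos x.2) ∧ (∀ e i, x.2 = Sum.inr (e, i) → e ∈ G.edgeSet ∧ i < b)) ∧
      (∀ v v' x x', (v = v' ∨ (G.Adj v v' ∧ v ∈ B n ∧ v' ∈ B n)) → τ.pres (Sum.inl v, x) → τ.pres (Sum.inl v', x') →
        τ.WalkLE ((m + 1) * (k * (b + 2) + 1)) (Sum.inl v, x) (Sum.inl v', x')) ∧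
      (∀ v v', G.Adj v v' → v ∈ B n → v' ∈ B n → ∃ x, τ.pres (Sum.inl v, x)) := by
    intro n
    obtain ⟨ρ⟩ := h (B n)
    obtain ⟨T, t1, t2, t3, t4, t5, t6, t7⟩ := hpc G (B n) ω ρ
    exact stage_near hc hi hf o n (B n) (hB n) ρ b m T t1 t2 t3 t4 t5 t6 t7
  choose τ ok hadj hpres hwalk hport using hst
  have hcV : Countable V := countable_V hc hf
  have hcS : Countable (Sym2 V) := inferInstanceAs (Countable (Quot _))
  have hmem : ∀ v, ∀ᶠ n in Filter.atTop, v ∈ B n := by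
    intro v
    refine Filter.eventually_atTop.mpr ⟨G.dist o v, fun n hn => ?_⟩
    rw [← Finset.mem_coe, hB n]
    show G.dist o v ≤ n + 1
    omega
  set C : ℕ := (m + 1) * (k * (b + 2) + 1) with hC
  set Bs : V → Finset (Lab V × Lab V) := fun v =>
    (F3c_near hf hd h v b).toFinset.image (fun x => ((Sum.inl v : Lab V), x)) with hBs
  have hBsmem : ∀ n v x, (τ n).pres (Sum.inl v, x) → ((Sum.inl v : Lab V), x) ∈ Bs v := by
    intro n v x hx
    refine Finset.mem_image.mpr ⟨x, ?_, rfl⟩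
    rw [Set.Finite.mem_toFinset]
    exact hpres n _ hx
  have fin : ∀ a, ∃ Nb : Finset (Lab V × Lab V), ∀ n c, (τ n).adj a c → c ∈ Nb := by
    intro a
    refine ⟨insert (a.2, a.1) ((F3c_near hf hd h (pos a.1) b).toFinset.image (fun x => (a.1, x))),
      fun n c hc => ?_⟩
    rcases hadj n a c hc with h1 | h1
    · rw [h1]
      exact Finset.mem_insert_self _ _
    · refine Finset.mem_insert_of_mem (Finset.mem_image.mpr ⟨c.2, ?_, ?_⟩)
      · rw [Set.Finite.mem_toFinset]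
        have h2 := hpres n c ((ok n).adjp c a ((ok n).asym a c hc))
        rw [← h1] at h2
        exact h2
      · rw [h1]
  have hle : (Filter.hyperfilter ℕ : Filter ℕ) ≤ Filter.atTop := Nat.hyperfilter_le_atTop
  obtain ⟨P, hP, hpage⟩ := tp_graph (limTP τ) (limTP_ok τ ok)
  have hbase : ∀ v, ∃ x : Lab V, (limTP τ).pres (Sum.inl v, x) := by
    intro v
    obtain ⟨v', hv'⟩ := F3c_exists_adj hc hi v
    have e0 : ∀ᶠ n in Filter.atTop, ∃ a ∈ (Bs v : Set (Lab V × Lab V)), (τ n).pres a := by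
      filter_upwards [hmem v, hmem v'] with n h1 h2
      obtain ⟨x, hx⟩ := hport n v v' hv' h1 h2
      exact ⟨_, hBsmem n v x hx, hx⟩
    have e1 : ∀ᶠ n in (Filter.hyperfilter ℕ : Filter ℕ), ∃ a ∈ (Bs v : Set (Lab V × Lab V)), (τ n).pres a :=
      e0.filter_mono hle
    obtain ⟨a, ha, ha'⟩ := (Ultrafilter.eventually_exists_mem_iff (Bs v).finite_toSet).1 e1
    obtain ⟨x, _, rfl⟩ := Finset.mem_image.mp (Finset.mem_coe.1 ha)
    exact ⟨x, ha'⟩
  choose φ hφ using hbase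
  refine ⟨{a // (limTP τ).pres a}, P, fun v => ⟨(Sum.inl v, φ v), hφ v⟩, fun a => pos a.1.1, C, inferInstance, hpage,
    fun v => rfl, ?_, ?_⟩
  · intro a c hac
    have e1 : ∀ᶠ n in (Filter.hyperfilter ℕ : Filter ℕ), (τ n).adj a.1 c.1 := (hP a c).1 hac
    obtain ⟨n, hn⟩ := e1.exists
    rcases hadj n a.1 c.1 hn with h1 | h1
    · right
      show Nr G ω (pos a.1.1) (pos c.1.1)
      rw [h1]
      exact (hpres n a.1 ((ok n).adjp _ _ hn)).1
    · left
      show pos a.1.1 = pos c.1.1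
      rw [h1]
  · intro u v huv
    have e1 : ∀ᶠ n in (Filter.hyperfilter ℕ : Filter ℕ), (τ n).WalkLE C (Sum.inl u, φ u) (Sum.inl v, φ v) := by
      have k1 : ∀ᶠ n in (Filter.hyperfilter ℕ : Filter ℕ), u ∈ B n := (hmem u).filter_mono hle
      have k2 : ∀ᶠ n in (Filter.hyperfilter ℕ : Filter ℕ), v ∈ B n := (hmem v).filter_mono hle
      have k3 : ∀ᶠ n in (Filter.hyperfilter ℕ : Filter ℕ), (τ n).pres (Sum.inl u, φ u) := hφ u
      have k4 : ∀ᶠ n in (Filter.hyperfilter ℕ : Filter ℕ), (τ n).pres (Sum.inl v, φ v) := hφ v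
      filter_upwards [k1, k2, k3, k4] with n g1 g2 g3 g4
      exact hwalk n u v (φ u) (φ v) (Or.inr ⟨huv, g1, g2⟩) g3 g4
    have e2 := lim_walk τ fin C _ _ e1
    obtain ⟨_, w, hw⟩ := L3_aux1 (limTP_ok τ ok) hP e2 (hφ u)
    exact ⟨w, hw⟩

end KPl
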