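import Pool.Agent.Lib.MP_d3a5e5_co.Q3
import Pool.Agent.Lib.MP_d3a5e5_coK.F3c
import Pool.Agent.Lib.MP_d3a5e5_coK.F2

set_option autoImplicit false

namespace KPl

open QPl

/-- at most `n` steps of the relation `R` -/
private def F3d_rc {V : Type} (R : V → V → Prop) : ℕ → V → V → Prop
  | 0, x, y => x = y
  | n + 1, x, y => ∃ z, F3d_rc R n x z ∧ (z = y ∨ R z y)

private theorem F3d_cons {V : Type} {R : V → V → Prop} (n : ℕ) : ∀ {x z y : V}, (x = z ∨ R x z) → F3d_rc R n z y →
    F3d_rc R (n + 1) x y := by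
  induction n with
  | zero =>
    rintro x z y h h'
    obtain rfl : z = y := h'
    exact ⟨x, rfl, h⟩
  | succ n ih =>
    rintro x z y h ⟨w, h1, h2⟩
    exact ⟨w, ih h h1, h2⟩

private theorem F3d_symm {V : Type} {R : V → V → Prop} (hR : ∀ x y, R x y → R y x) (n : ℕ) :
    ∀ {x y : V}, F3d_rc R n x y → F3d_rc R n y x := by
  induction n with
  | zero =>
    rintro x y h
    exact Eq.symm h
  | succ n ih =>
    rintro x y ⟨z, h1, h2⟩
    exact F3d_cons n (h2.elim (fun h => Or.inl h.symm) (fun h => Or.inr (hR _ _ h))) (ih h1)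

private theorem F3d_trans {V : Type} {R : V → V → Prop} (m n : ℕ) :
    ∀ {x y z : V}, F3d_rc R m x y → F3d_rc R n y z → F3d_rc R (m + n) x z := by
  induction n with
  | zero =>
    rintro x y z h h'
    obtain rfl : y = z := h'
    exact h
  | succ n ih =>
    rintro x y z h ⟨w, h1, h2⟩
    exact ⟨w, ih h h1, h2⟩

private theorem F3d_mono {V : Type} {R : V → V → Prop} {m n : ℕ} (hmn : m ≤ n) {x y : V} (h : F3d_rc R m x y) :
    F3d_rc R n x y := by
  induction hmn with
  | refl => exact h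
  | step _ ih => exact ⟨y, ih, Or.inl rfl⟩

/-- union of finitely many small sets -/
private theorem F3d_union {α β : Type} (S : Set α) (F : α → Set β) (m n : ℕ) (hS : S.encard ≤ (m : ℕ∞))
    (hF : ∀ x ∈ S, (F x).encard ≤ (n : ℕ∞)) : (⋃ x ∈ S, F x).encard ≤ ((m * n : ℕ) : ℕ∞) := by
  classical
  have key : ∀ s : Finset α, (∀ x ∈ s, (F x).encard ≤ (n : ℕ∞)) →
      (⋃ x ∈ s, F x).encard ≤ ((s.card * n : ℕ) : ℕ∞) := by
    intro s
    induction s using Finset.induction_on with
    | empty =>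
      intro _
      simp
    | insert a s ha ih =>
      intro h
      rw [Finset.set_biUnion_insert, Finset.card_insert_of_notMem ha]
      refine (Set.encard_union_le _ _).trans ?_
      have h1 := h a (Finset.mem_insert_self _ _)
      have h2 := ih fun x hx => h x (Finset.mem_insert_of_mem hx)
      calc (F a).encard + (⋃ x ∈ s, F x).encard ≤ (n : ℕ∞) + ((s.card * n : ℕ) : ℕ∞) := add_le_add h1 h2
        _ = (((s.card + 1) * n : ℕ) : ℕ∞) := by
            push_cast
            ring
  have hfin : S.Finite := Set.finite_of_encard_le_coe hS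
  have h1 := key hfin.toFinset fun x hx => hF x ((Set.Finite.mem_toFinset hfin).1 hx)
  have h2 : (⋃ x ∈ hfin.toFinset, F x) = ⋃ x ∈ S, F x := by
    ext y
    simp
  rw [h2] at h1
  refine h1.trans ?_
  have h3 : hfin.toFinset.card ≤ m := by
    have h4 : (hfin.toFinset.card : ℕ∞) = S.encard := by
      rw [← Set.encard_coe_eq_coe_finsetCard, Set.Finite.coe_toFinset]
    rw [← h4] at hS
    exact_mod_cast hS
  exact_mod_cast Nat.mul_le_mul_right n h3

/-- LEAF F3d. Compactness: `Om_nonempty` and `limit_near`, then `draw_of_walks` with `Z s(u, v)` = all `a` such that `ps a` can be reached from `u` or from `v` by at most `c` steps, each staying or going to a near vertex (near is symmetric: `TX_symm`).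
If `Z e` meets `Z f` then an end of `f` can be reached from an end of `e` by at most `2c` steps; there are at most `2 (2dk + 1)^(2c)` such ends and each has at most `d` edges. -/
theorem draw_of_reps {V : Type} {G : SimpleGraph V} (hc : G.Connected) (hi : Infinite V) (hf : ∀ v, (G.neighborSet v).Finite)
    {k d : ℕ} (hd : ∀ v, (G.neighborSet v).ncard ≤ d) (h : ∀ B : Finset V, ∃ ω : Dat V, Nonempty (GridRep G k B ω)) :
    ∃ k', DrawK G k' := by
  classical
  obtain ⟨ω, hω⟩ := Om_nonempty h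
  obtain ⟨W, P, ι, ps, c, hW, hP, hps, hadj, hwalk⟩ := limit_near hc hi hf hd hω
  have hV : Countable V := countable_V hc hf
  have hsym : ∀ x y, Nr G ω x y → Nr G ω y x := by
    rintro x y ⟨e, he, f, hf', hef, hx, hy⟩
    exact ⟨f, hf', e, he, TX_symm hω he hf' hef, hy, hx⟩
  have hnr : ∀ x, {y | Nr G ω x y}.encard ≤ ((2 * d * k : ℕ) : ℕ∞) := by
    intro x
    obtain ⟨h1, h2⟩ := nr_finite hω hf hd x
    rw [← h1.cast_ncard_eq]
    exact_mod_cast h2
  have hcard : ∀ (n : ℕ) (u : V), {y | F3d_rc (Nr G ω) n u y}.encard ≤ (((2 * d * k + 1) ^ n : ℕ) : ℕ∞) := by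
    intro n u
    induction n with
    | zero =>
      have h1 : {y | F3d_rc (Nr G ω) 0 u y} = {u} := by
        ext y
        exact ⟨fun h => (Eq.symm h : y = u), fun h => (Eq.symm h : u = y)⟩
      rw [h1]
      simp
    | succ n ih =>
      have h1 : {y | F3d_rc (Nr G ω) (n + 1) u y} ⊆
          ⋃ x ∈ {y | F3d_rc (Nr G ω) n u y}, insert x {y | Nr G ω x y} := by
        rintro y ⟨z, hz, hzy⟩
        simp only [Set.mem_iUnion]
        exact ⟨z, hz, hzy.elim (fun h => Or.inl h.symm) (fun h => Or.inr h)⟩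
      refine (Set.encard_le_encard h1).trans ?_
      rw [pow_succ]
      refine F3d_union _ _ _ _ ih fun x _ => ?_
      refine (Set.encard_insert_le _ _).trans ?_
      have h2 := hnr x
      calc {y | Nr G ω x y}.encard + 1 ≤ ((2 * d * k : ℕ) : ℕ∞) + 1 := add_le_add h2 le_rfl
        _ = ((2 * d * k + 1 : ℕ) : ℕ∞) := by push_cast; rfl
  have hinc : ∀ x : V, {f : Sym2 V | f ∈ G.edgeSet ∧ x ∈ f}.encard ≤ (d : ℕ∞) := by
    intro x
    have h1 : {f : Sym2 V | f ∈ G.edgeSet ∧ x ∈ f} ⊆ (fun y => s(x, y)) '' G.neighborSet x := by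
      rintro f ⟨hf1, hf2⟩
      obtain ⟨y, rfl⟩ := hf2
      exact ⟨y, hf1, rfl⟩
    refine (Set.encard_le_encard h1).trans ((Set.encard_image_le _ _).trans ?_)
    rw [← (hf x).cast_ncard_eq]
    exact_mod_cast hd x
  have hwr : ∀ {a b : W} (w : P.Walk a b), F3d_rc (Nr G ω) w.length (ps a) (ps b) := by
    intro a b w
    induction w with
    | nil => exact rfl
    | cons hab w ih => exact F3d_cons _ (hadj _ _ hab) ih
  set U : V → Set (Sym2 V) := fun v =>
    ⋃ x ∈ {y | F3d_rc (Nr G ω) (c + c) v y}, {f : Sym2 V | f ∈ G.edgeSet ∧ x ∈ f} with hU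
  have hUcard : ∀ v, (U v).encard ≤ (((2 * d * k + 1) ^ (c + c) * d : ℕ) : ℕ∞) := fun v =>
    F3d_union _ _ _ _ (hcard _ v) fun x _ => hinc x
  refine ⟨(2 * d * k + 1) ^ (c + c) * d + (2 * d * k + 1) ^ (c + c) * d,
    draw_of_walks G P hP ι (fun e => {a | ∃ v ∈ e, F3d_rc (Nr G ω) c v (ps a)}) ?_ _ ?_⟩
  · intro u v huv
    obtain ⟨w, hw⟩ := hwalk u v huv
    refine ⟨w, fun z hz => ⟨u, Sym2.mem_mk_left u v, ?_⟩⟩
    have h1 := hwr (w.takeUntil z hz)
    rw [hps] at h1
    exact F3d_mono ((w.length_takeUntil_le_length hz).trans hw) h1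
  · intro e he
    induction e using Sym2.ind with
    | _ a b =>
      have h1 : {f | f ∈ G.edgeSet ∧ ({x | ∃ v ∈ s(a, b), F3d_rc (Nr G ω) c v (ps x)} ∩
          {x | ∃ v ∈ f, F3d_rc (Nr G ω) c v (ps x)}).Nonempty} ⊆ U a ∪ U b := by
        rintro f ⟨hfG, x, ⟨v, hv, hvx⟩, v', hv', hvx'⟩
        have h2 : F3d_rc (Nr G ω) (c + c) v v' := F3d_trans c c hvx (F3d_symm hsym c hvx')
        have h3 : f ∈ U v := by
          rw [hU]
          simp only [Set.mem_iUnion]
          exact ⟨v', h2, hfG, hv'⟩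
        rcases Sym2.mem_iff.1 hv with rfl | rfl
        · exact Or.inl h3
        · exact Or.inr h3
      refine (Set.encard_le_encard h1).trans ((Set.encard_union_le _ _).trans ?_)
      calc (U a).encard + (U b).encard ≤ _ := add_le_add (hUcard a) (hUcard b)
        _ = _ := by push_cast; rfl

end KPl
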