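import Pool.Agent.Lib.MP_d3a5e5_coK.F1
import Pool.Agent.Lib.MP_d3a5e5_coK.F3d

set_option autoImplicit false

namespace KPl

open QPl

theorem draw_of_finite {V : Type} {G : SimpleGraph V} (hc : G.Connected) (hi : Infinite V) (hf : ∀ v, (G.neighborSet v).Finite)
    {k d : ℕ} (hd : ∀ v, (G.neighborSet v).ncard ≤ d) (h : ∀ B : Finset V, DrawK (G.induce (B : Set V)) k) :
    ∃ k', DrawK G k' :=
  draw_of_reps hc hi hf hd (rep_of_local G k d hf hd h)

end KPl
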