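import Pool.Agent.Lib.MP_d3a5e5_coK.H1
import Pool.Agent.Lib.MP_d3a5e5_co.Q1
import Pool.Agent.Lib.MP_d3a5e5_co.Q2
import Pool.Agent.Lib.MP_d3a5e5_co.Q3a

set_option autoImplicit false

namespace KPl

open QPl

private theorem I1b_corn (x y : ℝ) : ((⌊x⌋, ⌊y⌋) : Pt) ∈ corn x y := by
  unfold corn
  simp

private theorem I1b_pt {W : Type} {H : SimpleGraph W} (f : W → ℝ × ℝ) (hi : Function.Injective f)
    (γ : W → W → C(unitInterval, ℝ × ℝ))
    (hγ : ∀ u v : W, H.Adj u v → γ u v 0 = f u ∧ γ u v 1 = f v ∧ Function.Injective (γ u v) ∧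
        (∀ t : unitInterval, γ v u t = γ u v (unitInterval.symm t)) ∧
        (∀ t : unitInterval, t ≠ 0 → t ≠ 1 → ∀ w : W, γ u v t ≠ f w)) {e : Sym2 W} (he : e ∈ H.edgeSet) {v : W}
    (hv : v ∉ e) (t : unitInterval) : arc γ e t ≠ f v := by
  have hout := Q3a_out e
  unfold arc
  set x := (Quot.out e).1 with hx
  set y := (Quot.out e).2 with hy
  have hxy : H.Adj x y := by
    rw [← hout] at he
    exact he
  obtain ⟨g0, g1, -, -, gint⟩ := hγ x y hxy
  intro h
  by_cases h0 : t = 0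
  · rw [h0, g0] at h
    apply hv
    rw [← hi h, ← hout]
    exact Sym2.mem_mk_left x y
  · by_cases h1 : t = 1
    · rw [h1, g1] at h
      apply hv
      rw [← hi h, ← hout]
      exact Sym2.mem_mk_right x y
    · exact gint t h0 h1 v h

private theorem I1b_arc {W : Type} {H : SimpleGraph W} (f : W → ℝ × ℝ) (hi : Function.Injective f)
    (γ : W → W → C(unitInterval, ℝ × ℝ))
    (hγ : ∀ u v : W, H.Adj u v → γ u v 0 = f u ∧ γ u v 1 = f v ∧ Function.Injective (γ u v) ∧
        (∀ t : unitInterval, γ v u t = γ u v (unitInterval.symm t)) ∧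
        (∀ t : unitInterval, t ≠ 0 → t ≠ 1 → ∀ w : W, γ u v t ≠ f w))
    (hk : ∀ u v : W, H.Adj u v →
        {e : Sym2 W | e ∈ H.edgeSet ∧ e ≠ s(u, v) ∧
          ∃ x y : W, e = s(x, y) ∧ ∃ s t : unitInterval,
            s ≠ 0 ∧ s ≠ 1 ∧ t ≠ 0 ∧ t ≠ 1 ∧ γ x y s = γ u v t}.encard ≤ ((0 : ℕ) : ℕ∞)) {e e' : Sym2 W}
    (he : e ∈ H.edgeSet) (he' : e' ∈ H.edgeSet) (hd : ∀ v, v ∈ e → v ∉ e') (s t : unitInterval) :
    arc γ e s ≠ arc γ e' t := by
  intro hst
  have hout := Q3a_out e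
  have hout' := Q3a_out e'
  have hxm : (Quot.out e).1 ∈ e := by
    have h := Sym2.mem_mk_left (Quot.out e).1 (Quot.out e).2
    rwa [hout] at h
  have hym : (Quot.out e).2 ∈ e := by
    have h := Sym2.mem_mk_right (Quot.out e).1 (Quot.out e).2
    rwa [hout] at h
  have hxm' : (Quot.out e').1 ∈ e' := by
    have h := Sym2.mem_mk_left (Quot.out e').1 (Quot.out e').2
    rwa [hout'] at h
  have hym' : (Quot.out e').2 ∈ e' := by
    have h := Sym2.mem_mk_right (Quot.out e').1 (Quot.out e').2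
    rwa [hout'] at h
  have hne : e' ≠ e := fun h => hd _ hxm (by rw [h]; exact hxm)
  have hxy : H.Adj (Quot.out e).1 (Quot.out e).2 := by
    have h := he
    rw [← hout] at h
    exact h
  have hxy' : H.Adj (Quot.out e').1 (Quot.out e').2 := by
    have h := he'
    rw [← hout'] at h
    exact h
  obtain ⟨g0, g1, -, -, -⟩ := hγ _ _ hxy
  obtain ⟨k0, k1, -, -, -⟩ := hγ _ _ hxy'
  have hs0 : s ≠ 0 := by
    rintro rfl
    have h : arc γ e' t = f (Quot.out e).1 := by rw [← hst]; exact g0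
    exact I1b_pt f hi γ hγ he' (hd _ hxm) t h
  have hs1 : s ≠ 1 := by
    rintro rfl
    have h : arc γ e' t = f (Quot.out e).2 := by rw [← hst]; exact g1
    exact I1b_pt f hi γ hγ he' (hd _ hym) t h
  have ht0 : t ≠ 0 := by
    rintro rfl
    have h : arc γ e s = f (Quot.out e').1 := by rw [hst]; exact k0
    exact I1b_pt f hi γ hγ he (fun hm => hd _ hm hxm') s h
  have ht1 : t ≠ 1 := by
    rintro rfl
    have h : arc γ e s = f (Quot.out e').2 := by rw [hst]; exact k1
    exact I1b_pt f hi γ hγ he (fun hm => hd _ hm hym') s h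
  have hemp := hk _ _ hxy
  rw [Nat.cast_zero, nonpos_iff_eq_zero, Set.encard_eq_zero] at hemp
  have hmem : e' ∈ {e'' : Sym2 W | e'' ∈ H.edgeSet ∧ e'' ≠ s((Quot.out e).1, (Quot.out e).2) ∧
          ∃ x y : W, e'' = s(x, y) ∧ ∃ s t : unitInterval,
            s ≠ 0 ∧ s ≠ 1 ∧ t ≠ 0 ∧ t ≠ 1 ∧ γ x y s = γ (Quot.out e).1 (Quot.out e).2 t} := by
    refine ⟨he', by rw [hout]; exact hne, (Quot.out e').1, (Quot.out e').2, hout'.symm, t, s, ht0, ht1, hs0, hs1,
      hst.symm⟩
  rw [hemp] at hmem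
  exact hmem

/-- LEAF I1b. A planar graph has no such model. Family of maps `g : Sym2 W ⊕ W → C(I, ℝ × ℝ)`: `g (inl e) = arc γ e` and `g (inr v)` = the constant `f v`. Finite sets: the edges with both ends in some `U a` and the vertices of the `U a`.
In a drawing with 0 crossings two different edges without common end have disjoint arcs (end parameters: the ends are different points `f w` and are avoided at the inner parameters), an arc avoids `f v` if `v` is not an end. `fine_scale` gives `N`; `arc_cells` the grid sets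
`K i` (all corners `corn (N x) (N y)` of cells met by `g i`), connected. `P a = ⋃ K (inl e)` (edges `e` with both ends in `U a`) `∪ ⋃ K (inr v)` (`v ∈ U a`). Connected: `K (inr v) ⊆ K (inl e)` for `v ∈ e`, and a walk in `U a`. Incident: a common vertex. Not incident: `corn_far` with `fine_scale` gives `Far`. Then `grid_K33`. -/
theorem no_model_planar {W : Type} (H : SimpleGraph W) (hd : DrawK H 0) (U : ML → Set W) (h1 : ∀ a, (U a).Nonempty)
    (h2 : ∀ a, (U a).Finite) (h3 : ∀ a, ∀ x ∈ U a, ∀ y ∈ U a, ∃ w : H.Walk x y, ∀ z ∈ w.support, z ∈ U a)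
    (h4 : ∀ a b, Inc a b → (U a ∩ U b).Nonempty) (h5 : ∀ a b, a ≠ b → ¬ Inc a b → ¬ Inc b a → Disjoint (U a) (U b)) :
    False := by
  classical
  obtain ⟨f, hi, γ, hγ, hk⟩ := hd
  set g : Sym2 W ⊕ W → C(unitInterval, ℝ × ℝ) :=
    fun i => Sum.elim (fun e => arc γ e) (fun v => ContinuousMap.const _ (f v)) i with hg
  have hgl : ∀ e, g (Sum.inl e) = arc γ e := fun _ => rfl
  have hgr : ∀ v t, g (Sum.inr v) t = f v := fun _ _ => rfl
  set S : ML → Finset (Sym2 W ⊕ W) := fun a =>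
    (EB_finite H (h2 a)).toFinset.disjSum (h2 a).toFinset with hS
  have hSl : ∀ a e, Sum.inl e ∈ S a ↔ e ∈ EB H (U a) := by
    intro a e
    rw [hS]
    simp only [Finset.inl_mem_disjSum, Set.Finite.mem_toFinset]
  have hSr : ∀ a v, Sum.inr v ∈ S a ↔ v ∈ U a := by
    intro a v
    rw [hS]
    simp only [Finset.inr_mem_disjSum, Set.Finite.mem_toFinset]
  obtain ⟨N, hN0, hN1, -⟩ := fine_scale g (Finset.univ.biUnion S) f ∅ (by simp)
  have hKex := fun i : Sym2 W ⊕ W => arc_cells (g i) N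
  choose K hK hKc using hKex
  set p : W → Pt := fun v => (⌊N * (f v).1⌋, ⌊N * (f v).2⌋) with hp
  have hpr : ∀ v, p v ∈ K (Sum.inr v) := by
    intro v
    rw [hK]
    exact ⟨0, I1b_corn _ _⟩
  have hpl : ∀ e ∈ H.edgeSet, ∀ v ∈ e, p v ∈ K (Sum.inl e) := by
    intro e he v hv
    obtain ⟨t, ht⟩ := arc_ends f γ hγ he hv
    rw [hK]
    refine ⟨t, ?_⟩
    rw [hgl, ht]
    exact I1b_corn _ _
  set P : ML → Finset Pt := fun a => (S a).biUnion K with hP
  have hPm : ∀ a z, z ∈ P a ↔ ∃ i ∈ S a, z ∈ K i := by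
    intro a z
    rw [hP]
    simp only [Finset.mem_biUnion]
  have hpP : ∀ a, ∀ v ∈ U a, p v ∈ P a := fun a v hv => (hPm a _).2 ⟨_, (hSr a v).2 hv, hpr v⟩
  refine grid_K33 P ?_ ?_ ?_ ?_
  · intro a
    obtain ⟨v, hv⟩ := h1 a
    exact ⟨p v, hpP a v hv⟩
  · intro a
    have L1 : ∀ i ∈ S a, ∀ z ∈ K i, ∀ w ∈ K i,
        Relation.ReflTransGen (fun x y => GAdj x y ∧ y ∈ (P a : Set Pt)) z w := by
      intro i hia z hz w hw
      have hmono : ∀ x y, (GAdj x y ∧ y ∈ (K i : Set Pt)) → (GAdj x y ∧ y ∈ (P a : Set Pt)) := by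
        rintro x y ⟨hxy, hy⟩
        exact ⟨hxy, Finset.mem_coe.2 ((hPm a y).2 ⟨i, hia, Finset.mem_coe.1 hy⟩)⟩
      exact Relation.ReflTransGen.mono hmono _ _ (hKc i z (Finset.mem_coe.2 hz) w (Finset.mem_coe.2 hw))
    have L2 : ∀ (x y : W) (w : H.Walk x y), (∀ z ∈ w.support, z ∈ U a) →
        Relation.ReflTransGen (fun x y => GAdj x y ∧ y ∈ (P a : Set Pt)) (p x) (p y) := by
      intro x y w
      induction w with
      | nil => intro _; exact Relation.ReflTransGen.refl
      | @cons x1 y1 z1 hadj q ih =>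
        intro hsup
        have hx1 : x1 ∈ U a := hsup x1 (by simp)
        have hy1 : y1 ∈ U a := hsup y1 (by simp)
        refine Relation.ReflTransGen.trans ?_ (ih fun z hz => hsup z (by
          rw [SimpleGraph.Walk.support_cons]; exact List.mem_cons_of_mem _ hz))
        have hed : s(x1, y1) ∈ H.edgeSet := hadj
        refine L1 (Sum.inl s(x1, y1)) ((hSl a _).2 ⟨hed, ?_⟩) _ (hpl _ hed _ (Sym2.mem_mk_left _ _)) _
          (hpl _ hed _ (Sym2.mem_mk_right _ _))
        intro v hv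
        rcases Sym2.mem_iff.1 hv with h | h
        · rw [h]; exact hx1
        · rw [h]; exact hy1
    have L3 : ∀ z ∈ P a, ∃ v ∈ U a,
        Relation.ReflTransGen (fun x y => GAdj x y ∧ y ∈ (P a : Set Pt)) z (p v) ∧
        Relation.ReflTransGen (fun x y => GAdj x y ∧ y ∈ (P a : Set Pt)) (p v) z := by
      intro z hz
      obtain ⟨i, hia, hzi⟩ := (hPm a z).1 hz
      rcases i with e | v
      · have he := (hSl a e).1 hia
        have hxm : (Quot.out e).1 ∈ e := by
          have h := Sym2.mem_mk_left (Quot.out e).1 (Quot.out e).2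
          rwa [Q3a_out e] at h
        have hpm := hpl e he.1 _ hxm
        exact ⟨_, he.2 _ hxm, L1 _ hia z hzi _ hpm, L1 _ hia _ hpm z hzi⟩
      · exact ⟨v, (hSr a v).1 hia, L1 _ hia z hzi _ (hpr v), L1 _ hia _ (hpr v) z hzi⟩
    intro z hz w hw
    obtain ⟨u, hu, hzu, -⟩ := L3 z (Finset.mem_coe.1 hz)
    obtain ⟨v, hv, -, hvw⟩ := L3 w (Finset.mem_coe.1 hw)
    obtain ⟨q, hq⟩ := h3 a u hu v hv
    exact hzu.trans ((L2 u v q hq).trans hvw)
  · intro a b hab
    obtain ⟨v, hva, hvb⟩ := h4 a b hab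
    exact ⟨p v, hpP a v hva, hpP b v hvb⟩
  · intro a b hab hn1 hn2 z hz w hw
    have hdis := Set.disjoint_left.1 (h5 a b hab hn1 hn2)
    obtain ⟨i, hia, hzi⟩ := (hPm a z).1 hz
    obtain ⟨j, hjb, hwj⟩ := (hPm b w).1 hw
    obtain ⟨s, hs⟩ := (hK i z).1 hzi
    obtain ⟨t, ht⟩ := (hK j w).1 hwj
    have hne : ∀ s t, g i s ≠ g j t := by
      intro s t
      rcases i with e | u
      · have he := (hSl a e).1 hia
        rcases j with e' | v
        · have he' := (hSl b e').1 hjb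
          exact I1b_arc f hi γ hγ hk he.1 he'.1 (fun v hv hv' => hdis (he.2 v hv) (he'.2 v hv')) s t
        · rw [hgr]
          have hv := (hSr b v).1 hjb
          exact I1b_pt f hi γ hγ he.1 (fun hm => hdis (he.2 v hm) hv) s
      · have hu := (hSr a u).1 hia
        rcases j with e' | v
        · have he' := (hSl b e').1 hjb
          rw [hgr]
          exact (I1b_pt f hi γ hγ he'.1 (fun hm => hdis hu (he'.2 u hm)) t).symm
        · have hv := (hSr b v).1 hjb
          rw [hgr, hgr]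
          intro h
          have := hi h
          rw [this] at hu
          exact hdis hu hv
    exact corn_far (hN1 i (Finset.mem_biUnion.2 ⟨a, Finset.mem_univ _, hia⟩) j
      (Finset.mem_biUnion.2 ⟨b, Finset.mem_univ _, hjb⟩) hne s t) hs ht

end KPl
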