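import Pool.Agent.Lib.MP_d3a5e5_coK.I1a
import Pool.Agent.Lib.MP_d3a5e5_coK.I1b

set_option autoImplicit false

namespace KPl

open QPl

theorem not_QIPlanar {V : Type} (G : SimpleGraph V) (hG : G.Connected) (h : ∀ D, ∃ Z, Mdl G D Z) : ¬ QIPlanar G := by
  rintro ⟨W, H, hH, hd, hq⟩
  obtain ⟨U, h1, h2, h3, h4, h5⟩ := model_push G H hG hH hq h
  exact no_model_planar H hd U h1 h2 h3 h4 h5

end KPl
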