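import Pool.Agent.Lib.MP_d3a5e5_coK.A8
import Pool.Agent.Lib.MP_d3a5e5_coK.D4
import Pool.Agent.Lib.MP_d3a5e5_coK.E1
import Pool.Agent.Lib.MP_d3a5e5_coK.E2
import Pool.Agent.Lib.MP_d3a5e5_coK.E3
import Pool.Agent.Lib.MP_d3a5e5_coK.F3
import Pool.Agent.Lib.MP_d3a5e5_coK.I1

set_option autoImplicit false

namespace KPl

open QPl

private theorem E4_mono {V : Type} {G : SimpleGraph V} {D D' : ℕ} {Z : ML → Set V} (h : Mdl G D Z) (hD : D' ≤ D) :
    Mdl G D' Z where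
  ne := h.ne
  fin := h.fin
  conn := h.conn
  inc := h.inc
  far := fun a b h1 h2 h3 x hx y hy => hD.trans (h.far a b h1 h2 h3 x hx y hy)

/-- LEAF E4 (part 1, easy-medium). Induction on `D`: `mdl_base`, `rad_base` (`D ≤ 2`, `n0 = 2`), and `mdl_lift`, `rad_lift`: from `D ≥ 2` to `4 * D - 4 ≥ D + 1` (for `D = 2`: 4). A model for `D` is a model for every smaller number. -/
theorem models (H : ℕ → Type) [∀ n, Group (H n)] (t : ∀ n, ZMod 4 → H n) (gi : ∀ n, GI (t n))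
    (st : ∀ n, Nonempty (Step (t n) (t (n + 1)))) (D : ℕ) :
    ∃ n0 R : ℕ, ∀ n, n0 ≤ n → ∃ Z, Mdl (HG (gi n)).graph D Z ∧ Rad (t n) R Z := by
  have base : ∀ D : ℕ, D ≤ 2 → ∃ n0 R : ℕ, ∀ n, n0 ≤ n → ∃ Z, Mdl (HG (gi n)).graph D Z ∧ Rad (t n) R Z := by
    intro D hD
    refine ⟨2, 1000, fun n hn => ?_⟩
    obtain ⟨m, rfl⟩ := Nat.exists_eq_add_of_le' hn
    obtain ⟨s1⟩ := st m
    obtain ⟨s2⟩ := st (m + 1)
    exact ⟨BaseZ s1 s2, E4_mono (mdl_base (gi m) (gi (m + 1)) (gi (m + 2)) s1 s2) hD,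
      rad_base (gi (m + 1)) (gi (m + 2)) s1 s2⟩
  induction D with
  | zero => exact base 0 (by norm_num)
  | succ D ih =>
    by_cases hD : D + 1 ≤ 2
    · exact base _ hD
    · obtain ⟨n0, R, h⟩ := ih
      refine ⟨n0 + 1, 16 * (R + 1), fun n hn => ?_⟩
      obtain ⟨m, rfl⟩ := Nat.exists_eq_add_of_le' (show 1 ≤ n by omega)
      obtain ⟨Z, hZ, hR⟩ := h m (by omega)
      obtain ⟨s1⟩ := st m
      exact ⟨LiftZ s1 Z, E4_mono (mdl_lift (gi m) (gi (m + 1)) s1 D Z hZ) (by omega),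
        rad_lift (gi (m + 1)) s1 R Z hR⟩

/-- LEAF E4 (part 2, easy). The distances in a finite connected graph are bounded; `far` for two labels with no incidence. -/
theorem infinite_of_models {V : Type} (G : SimpleGraph V) (hG : G.Connected) (h : ∀ D, ∃ Z, Mdl G D Z) : Infinite V := by
  by_contra hn
  rw [not_infinite_iff_finite] at hn
  obtain ⟨M, hM⟩ := (Set.finite_range fun p : V × V => G.dist p.1 p.2).bddAbove
  obtain ⟨Z, hZ⟩ := h (M + 1)
  obtain ⟨x, hx⟩ := hZ.ne (Sum.inl (Sum.inl 0))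
  obtain ⟨y, hy⟩ := hZ.ne (Sum.inl (Sum.inl 1))
  have h1 := hZ.far (Sum.inl (Sum.inl 0)) (Sum.inl (Sum.inl 1)) (by simp) (by
    rintro ⟨i, j, h, -⟩
    exact absurd h (by simp)) (by
    rintro ⟨i, j, h, -⟩
    exact absurd h (by simp)) x hx y hy
  have h2 : G.dist x y ≤ M := hM ⟨(x, y), rfl⟩
  omega

/-- LEAF E4 (part 3, medium). `exists_seq`, `exists_limit`, `draw_block`, `draw_limit`, `draw_of_finite` (`cay_nbrs`, `d = 4`), `models`, `mdl_limit`, `not_QIPlanar`. -/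
theorem main : ∃ (V : Type) (G : SimpleGraph V), G.Connected ∧ (∀ v, (G.neighborSet v).Finite) ∧
    (∀ u v, ∃ φ : G ≃g G, φ u = v) ∧ (∃ k, DrawK G k) ∧ ¬ QIPlanar G := by
  obtain ⟨H, gH, t, gi, st, gd⟩ := exists_seq
  obtain ⟨G, gG, τ, g, hl⟩ := exists_limit H t gi
  have hm : ∀ D, ∃ Z, Mdl (HG g).graph D Z := by
    intro D
    obtain ⟨n0, R, hn⟩ := models H t gi st D
    exact mdl_limit H t gi g hl D R n0 hn
  have hc := cay_connected g
  refine ⟨G, (HG g).graph, hc, fun v => (cay_nbrs g v).1, cay_trans g, ?_, not_QIPlanar _ hc hm⟩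
  exact draw_of_finite hc (infinite_of_models _ hc hm) (fun v => (cay_nbrs g v).1) (fun v => (cay_nbrs g v).2)
    (draw_limit H t gi g hl 100000 fun n B => draw_block (gi n) 100000 (gd n) B)

end KPl
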