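import Pool.Agent.Lib.MP_d3a5e5_coK.Defs
import Pool.Agent.Lib.MP_d3a5e5_co.Q3

set_option autoImplicit false

namespace KPl

open QPl

/-- LEAF F1a (easy-medium). Transport of a grid drawing along an embedding of a finite graph. For `e ∈ EB G (image of j)` all ends of `e` are in the image of `j`; with a left inverse
`i : V → V'` of `j` (or any value outside the image) put `p v = ρ.p (i v)`, `K e = ρ.K (e.map i)`, `a e = ρ.a (e.map i)`, `ω e f = ω' (e.map i) (f.map i)`.
If `V'` is empty the claim is trivial (`EB` is empty, `ω` anything). -/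
theorem gridrep_push {V V' : Type} [Fintype V'] [DecidableEq V] (G : SimpleGraph V) (G' : SimpleGraph V') (j : V' → V)
    (hj : Function.Injective j) (hadj : ∀ a b, G'.Adj a b ↔ G.Adj (j a) (j b)) {k : ℕ} {ω' : Dat V'}
    (ρ : GridRep G' k Finset.univ ω') : ∃ ω : Dat V, Nonempty (GridRep G k (Finset.univ.image j) ω) := by
  classical
  rcases isEmpty_or_nonempty V' with hV | hV
  · have h0 : ∀ e : Sym2 V, e ∉ EB G ((Finset.univ.image j : Finset V) : Set V) := by
      intro e he
      induction e using Sym2.ind with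
      | _ u v =>
        have hu := he.2 u (Sym2.mem_mk_left u v)
        rw [Finset.mem_coe, Finset.mem_image] at hu
        obtain ⟨a, -, -⟩ := hu
        exact hV.elim a
    refine ⟨fun _ _ => (false, false), ⟨⟨fun _ => (0, 0), fun _ => ∅, fun _ => 0, ?_, ?_, ?_, ?_, ?_, ?_, ?_, ?_, ?_⟩⟩⟩
    · intro u hu
      rw [Finset.mem_coe, Finset.mem_image] at hu
      obtain ⟨a, -, -⟩ := hu
      exact hV.elim a
    · exact fun e he => absurd he (h0 e)
    · exact fun e he => absurd he (h0 e)
    · exact fun e he => absurd he (h0 e)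
    · exact fun u v he => absurd he (h0 _)
    · exact fun e he => absurd he (h0 e)
    · exact fun e he => absurd he (h0 e)
    · exact fun e he => absurd he (h0 e)
    · exact fun e he => absurd he (h0 e)
  · obtain ⟨i, hi⟩ : ∃ i : V → V', ∀ a, i (j a) = a := ⟨Function.invFun j, Function.leftInverse_invFun hj⟩
    have himg : ∀ v ∈ ((Finset.univ.image j : Finset V) : Set V), j (i v) = v := by
      intro v hv
      rw [Finset.mem_coe, Finset.mem_image] at hv
      obtain ⟨a, -, rfl⟩ := hv
      rw [hi]
    have hback : ∀ e ∈ EB G ((Finset.univ.image j : Finset V) : Set V), (e.map i).map j = e := by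
      intro e he
      induction e using Sym2.ind with
      | _ u v =>
        rw [Sym2.map_mk, Sym2.map_mk]
        show s(j (i u), j (i v)) = s(u, v)
        rw [himg u (he.2 u (Sym2.mem_mk_left u v)), himg v (he.2 v (Sym2.mem_mk_right u v))]
    have hEB : ∀ e ∈ EB G ((Finset.univ.image j : Finset V) : Set V), e.map i ∈ EB G' ((Finset.univ : Finset V') : Set V') := by
      intro e he
      refine ⟨?_, fun v _ => Finset.mem_coe.2 (Finset.mem_univ v)⟩
      induction e using Sym2.ind with
      | _ u v =>
        have h1 := he.1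
        rw [SimpleGraph.mem_edgeSet] at h1
        show s(i u, i v) ∈ G'.edgeSet
        rw [SimpleGraph.mem_edgeSet, hadj, himg u (he.2 u (Sym2.mem_mk_left u v)),
          himg v (he.2 v (Sym2.mem_mk_right u v))]
        exact h1
    refine ⟨fun e f => ω' (e.map i) (f.map i), ⟨⟨fun v => ρ.p (i v), fun e => ρ.K (e.map i), fun e => ρ.a (e.map i),
      ?_, ?_, ?_, ?_, ?_, ?_, ?_, ?_, ?_⟩⟩⟩
    · intro u hu v hv huv
      have h1 := ρ.inj (Finset.mem_coe.2 (Finset.mem_univ (i u))) (Finset.mem_coe.2 (Finset.mem_univ (i v))) huv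
      rw [← himg u hu, ← himg v hv, h1]
    · intro e he v hv
      exact ρ.mem _ (hEB e he) _ (Sym2.mem_map.2 ⟨v, hv, rfl⟩)
    · intro e he
      exact ρ.conn _ (hEB e he)
    · intro e he
      exact ρ.supp _ (hEB e he)
    · intro u v he
      exact ρ.bdy (i u) (i v) (hEB _ he)
    · intro e he f hf ht
      exact ρ.touch _ (hEB e he) _ (hEB f hf) ht
    · intro e he f hf ht
      exact ρ.sep _ (hEB e he) _ (hEB f hf) ht
    · intro e he f hf
      exact ρ.cross _ (hEB e he) _ (hEB f hf)
    · intro e he
      refine le_trans ?_ (ρ.deg _ (hEB e he))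
      refine Set.ncard_le_ncard_of_injOn (Sym2.map i) ?_ ?_ (Set.toFinite _)
      · rintro f ⟨hf, ht⟩
        exact ⟨hEB f hf, ht⟩
      · rintro f ⟨hf, -⟩ f' ⟨hf', -⟩ h
        rw [← hback f hf, ← hback f' hf', h]

end KPl
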