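import Pool.Agent.Lib.MP_d3a5e5_coK.F1a

set_option autoImplicit false

namespace KPl

open QPl

/-- LEAF F1b (easy). `rep_of_draw` for the induced graph (finite type, degrees at most `d`) and `gridrep_push`. -/
theorem rep_of_local {V : Type} (G : SimpleGraph V) (k d : ℕ) (hf : ∀ v, (G.neighborSet v).Finite)
    (hd : ∀ v, (G.neighborSet v).ncard ≤ d) (h : ∀ B : Finset V, DrawK (G.induce (B : Set V)) k) :
    ∀ B : Finset V, ∃ ω : Dat V, Nonempty (GridRep G (k + 2 * d + 1) B ω) := by
  classical
  intro B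
  have hB : Fintype ((B : Set V) : Set V).Elem := B.finite_toSet.fintype
  have h1 : ∀ v : (B : Set V).Elem, ∀ w ∈ (G.induce (B : Set V)).neighborSet v,
      (w : V) ∈ G.neighborSet (v : V) := by
    intro v w hw
    exact hw
  have h2 : ∀ v : (B : Set V).Elem, ((G.induce (B : Set V)).neighborSet v).Finite := fun v =>
    Set.toFinite _
  have h3 : ∀ v : (B : Set V).Elem, ((G.induce (B : Set V)).neighborSet v).ncard ≤ d := by
    intro v
    refine le_trans ?_ (hd (v : V))
    refine Set.ncard_le_ncard_of_injOn (fun w => (w : V)) (h1 v) ?_ (hf (v : V))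
    intro a _ b _ hab
    exact Subtype.ext hab
  obtain ⟨ω', ⟨ρ⟩⟩ := rep_of_draw h2 h3 (h B) Finset.univ
  obtain ⟨ω, hω⟩ := gridrep_push G (G.induce (B : Set V)) (fun w => (w : V))
    Subtype.val_injective (fun a b => Iff.rfl) ρ
  have h4 : Finset.univ.image (fun w : (B : Set V).Elem => (w : V)) = B := by
    ext v
    rw [Finset.mem_image]
    constructor
    · rintro ⟨w, _, rfl⟩
      exact w.2
    · intro hv
      exact ⟨⟨v, hv⟩, Finset.mem_univ _, rfl⟩
  rw [h4] at hω
  exact ⟨ω, hω⟩

end KPl
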