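import Pool.Agent.Lib.MP_d3a5e5_coK.Defs
import Pool.Agent.Lib.MP_d3a5e5_co.R1

set_option autoImplicit false

namespace KPl

open QPl

/-- There is an injective arc from `a` to `b` inside `R`. -/
def ArcIn (a b : ℝ × ℝ) (R : Set (ℝ × ℝ)) : Prop :=
  ∃ γ : C(unitInterval, ℝ × ℝ), γ 0 = a ∧ γ 1 = b ∧ Function.Injective γ ∧ ∀ t, γ t ∈ R

/-- The (half open) parabola over the pair `u`, `v`: all points of the arc, with the ends. -/
def Par {W : Type} (r : W → ℝ) (page : W → W → Prop) (u v : W) : Set (ℝ × ℝ) :=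
  Set.range (R1_arc r page u v)

end KPl
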