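import Pool.Agent.Lib.MP_d3a5e5_coK.F2Defs

set_option autoImplicit false

namespace KPl

open QPl

/-- LEAF F2a. Concatenation of arcs which meet only in the common end. (`t ≤ 1/2 : γ (2t)`, else `γ' (2t - 1)`.) -/
theorem arc_join {a b c : ℝ × ℝ} {R R' : Set (ℝ × ℝ)} (h : ArcIn a b R) (h' : ArcIn b c R') (hR : R ∩ R' ⊆ {b}) :
    ArcIn a c (R ∪ R') := by
  obtain ⟨γ, g0, g1, gi, gR⟩ := h
  obtain ⟨γ', g0', g1', gi', gR'⟩ := h'
  let p : Path a b := { toContinuousMap := γ, source' := g0, target' := g1 }
  let q : Path b c := { toContinuousMap := γ', source' := g0', target' := g1' }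
  have hmix : ∀ x y : unitInterval, γ x = γ' y → y = 0 := by
    intro x y hxy
    have h1 : γ' y ∈ R ∩ R' := ⟨hxy ▸ gR x, gR' y⟩
    have h2 : γ' y = b := hR h1
    exact gi' (h2.trans g0'.symm)
  refine ⟨(p.trans q).toContinuousMap, (p.trans q).source, (p.trans q).target, ?_, ?_⟩
  · intro t s hts
    have hts' : (p.trans q) t = (p.trans q) s := hts
    rw [Path.trans_apply, Path.trans_apply] at hts'
    split_ifs at hts' with h1 h2 h2
    · have := gi hts'
      have h3 := congrArg Subtype.val this
      apply Subtype.ext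
      have h4 : 2 * (t : ℝ) = 2 * (s : ℝ) := h3
      linarith
    · have h3 := hmix _ _ hts'
      have h4 := congrArg Subtype.val h3
      have h5 : 2 * (s : ℝ) - 1 = 0 := h4
      exact absurd (by linarith : (s : ℝ) ≤ 1 / 2) h2
    · have h3 := hmix _ _ hts'.symm
      have h4 := congrArg Subtype.val h3
      have h5 : 2 * (t : ℝ) - 1 = 0 := h4
      exact absurd (by linarith : (t : ℝ) ≤ 1 / 2) h1
    · have := gi' hts'
      have h3 := congrArg Subtype.val this
      apply Subtype.ext
      have h4 : 2 * (t : ℝ) - 1 = 2 * (s : ℝ) - 1 := h3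
      linarith
  · intro t
    show (p.trans q) t ∈ R ∪ R'
    rw [Path.trans_apply]
    split_ifs with h1
    · exact Or.inl (gR _)
    · exact Or.inr (gR' _)

end KPl
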