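import Pool.Agent.Lib.MP_d3a5e5_coK.F2Defs

set_option autoImplicit false

namespace KPl

open QPl

private theorem F2b_arc {W : Type} (r : W → ℝ) (page : W → W → Prop) (u v : W) (t : unitInterval) :
    R1_arc r page u v t = (r u + (t : ℝ) * (r v - r u),
      (open Classical in if page u v then (1 : ℝ) else -1) * ((t : ℝ) * (1 - (t : ℝ)) * (r v - r u) ^ 2)) := by
  change (_, _) = (_, _)
  congr 2

/-- ends of an arc are the points with second coordinate zero -/
private theorem F2b_ends {W : Type} {r : W → ℝ} {page : W → W → Prop} {u v : W} (hne : r v - r u ≠ 0)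
    {t : unitInterval} (h : (R1_arc r page u v t).2 = 0) :
    (t = 0 ∧ R1_arc r page u v t = (r u, 0)) ∨ (t = 1 ∧ R1_arc r page u v t = (r v, 0)) := by
  classical
  by_cases h0 : t = 0
  · left
    refine ⟨h0, ?_⟩
    rw [F2b_arc, h0]
    simp
  · by_cases h1 : t = 1
    · right
      refine ⟨h1, ?_⟩
      rw [F2b_arc, h1]
      simp
    · exfalso
      obtain ⟨t0, t1⟩ := R1_unit h0 h1
      rw [F2b_arc] at h
      change (if page u v then (1 : ℝ) else -1) * ((t : ℝ) * (1 - (t : ℝ)) * (r v - r u) ^ 2) = 0 at h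
      have h3 : (0 : ℝ) < (t : ℝ) * (1 - (t : ℝ)) * (r v - r u) ^ 2 := by
        have : 0 < 1 - (t : ℝ) := by linarith
        positivity
      rcases mul_eq_zero.1 h with h4 | h4
      · split_ifs at h4 <;> norm_num at h4
      · linarith

/-- LEAF F2b. In a two page drawing the arcs of two different edges meet only in the points of common ends (see `R1_core2` and the proof of `draw_of_twoPage`; at
parameters 0, 1 the second coordinate is 0, in between it is not). -/
theorem par_meet {W : Type} (P : SimpleGraph W) (r : W → ℝ) (page : W → W → Prop) (hr : Function.Injective r)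
    (hp : ∀ a b, page a b → page b a)
    (hn : ∀ a b c d, P.Adj a b → P.Adj c d → (page a b ↔ page c d) → r a < r c → r c < r b → r b < r d → False)
    {a b c d : W} (h1 : P.Adj a b) (h2 : P.Adj c d) (hne : s(a, b) ≠ s(c, d)) {z : ℝ × ℝ} (hz : z ∈ Par r page a b)
    (hz' : z ∈ Par r page c d) : ∃ w : W, w ∈ s(a, b) ∧ w ∈ s(c, d) ∧ z = (r w, 0) := by
  classical
  obtain ⟨s, hs⟩ := hz
  obtain ⟨t, ht⟩ := hz'
  have n1 : r b - r a ≠ 0 := fun h => h1.ne (hr (by linarith))
  have n2 : r d - r c ≠ 0 := fun h => h2.ne (hr (by linarith))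
  by_cases h0 : z.2 = 0
  · have e1 := F2b_ends (page := page) n1 (t := s) (by rw [hs]; exact h0)
    have e2 := F2b_ends (page := page) n2 (t := t) (by rw [ht]; exact h0)
    rw [hs] at e1
    rw [ht] at e2
    have key : ∀ p q : W, z = (r p, 0) → z = (r q, 0) → p = q := by
      intro p q hp hq
      rw [hp] at hq
      exact hr (congrArg Prod.fst hq)
    rcases e1 with ⟨-, e1⟩ | ⟨-, e1⟩ <;> rcases e2 with ⟨-, e2⟩ | ⟨-, e2⟩
    · exact ⟨a, Sym2.mem_mk_left _ _, by rw [key _ _ e1 e2]; exact Sym2.mem_mk_left _ _, e1⟩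
    · exact ⟨a, Sym2.mem_mk_left _ _, by rw [key _ _ e1 e2]; exact Sym2.mem_mk_right _ _, e1⟩
    · exact ⟨b, Sym2.mem_mk_right _ _, by rw [key _ _ e1 e2]; exact Sym2.mem_mk_left _ _, e1⟩
    · exact ⟨b, Sym2.mem_mk_right _ _, by rw [key _ _ e1 e2]; exact Sym2.mem_mk_right _ _, e1⟩
  · exfalso
    have s0 : s ≠ 0 := by
      rintro rfl
      apply h0
      rw [← hs, F2b_arc]
      simp
    have s1 : s ≠ 1 := by
      rintro rfl
      apply h0
      rw [← hs, F2b_arc]
      simp
    have t0 : t ≠ 0 := by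
      rintro rfl
      apply h0
      rw [← ht, F2b_arc]
      simp
    have t1 : t ≠ 1 := by
      rintro rfl
      apply h0
      rw [← ht, F2b_arc]
      simp
    apply hne
    obtain ⟨s0', s1'⟩ := R1_unit s0 s1
    obtain ⟨t0', t1'⟩ := R1_unit t0 t1
    have hst : R1_arc r page a b s = R1_arc r page c d t := by rw [hs, ht]
    rw [F2b_arc, F2b_arc] at hst
    have e1 : r a + (s : ℝ) * (r b - r a) = r c + (t : ℝ) * (r d - r c) := congrArg Prod.fst hst
    have e2 : (if page a b then (1 : ℝ) else -1) * ((s : ℝ) * (1 - (s : ℝ)) * (r b - r a) ^ 2) =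
        (if page c d then (1 : ℝ) else -1) * ((t : ℝ) * (1 - (t : ℝ)) * (r d - r c) ^ 2) := congrArg Prod.snd hst
    have p1 : (0 : ℝ) < (s : ℝ) * (1 - (s : ℝ)) * (r b - r a) ^ 2 := by
      have : 0 < 1 - (s : ℝ) := by linarith
      positivity
    have p2 : (0 : ℝ) < (t : ℝ) * (1 - (t : ℝ)) * (r d - r c) ^ 2 := by
      have : 0 < 1 - (t : ℝ) := by linarith
      positivity
    have hpage : page c d ↔ page a b := by
      by_cases h1 : page c d
      · by_cases h2 : page a b
        · exact ⟨fun _ => h2, fun _ => h1⟩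
        · rw [if_pos h1, if_neg h2] at e2
          linarith
      · by_cases h2 : page a b
        · rw [if_neg h1, if_pos h2] at e2
          linarith
        · exact ⟨fun h => absurd h h1, fun h => absurd h h2⟩
    have e3 : (s : ℝ) * (1 - (s : ℝ)) * (r b - r a) ^ 2 = (t : ℝ) * (1 - (t : ℝ)) * (r d - r c) ^ 2 := by
      by_cases h1 : page c d
      · rw [if_pos h1, if_pos (hpage.1 h1)] at e2
        linarith
      · rw [if_neg h1, if_neg (fun h => h1 (hpage.2 h))] at e2
        linarith
    set X : ℝ := r c + (t : ℝ) * (r d - r c) with hX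
    have e4 : (X - r c) * (r d - X) = (t : ℝ) * (1 - (t : ℝ)) * (r d - r c) ^ 2 := by
      rw [hX]; ring
    have e5 : (X - r a) * (r b - X) = (s : ℝ) * (1 - (s : ℝ)) * (r b - r a) ^ 2 := by
      rw [← e1]; ring
    refine R1_core2 hr hp hn h2 h1 hpage (X := X) ?_ ?_
    · rw [e4]; exact p2
    · rw [e4, e5]; exact e3

end KPl
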