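import Pool.Agent.Lib.MP_d3a5e5_coK.F2a
import Pool.Agent.Lib.MP_d3a5e5_coK.F2b

set_option autoImplicit false

namespace KPl

open QPl

private theorem F2c_edge {W : Type} (r : W → ℝ) (page : W → W → Prop) (hr : Function.Injective r)
    {u v : W} (hl : u ≠ v) : ArcIn (r u, 0) (r v, 0) (Par r page u v) := by
  classical
  refine ⟨R1_arc r page u v, ?_, ?_, ?_, fun t => ⟨t, rfl⟩⟩
  · show (r u + ((0 : unitInterval) : ℝ) * (r v - r u), _) = (r u, (0 : ℝ))
    simp
  · show (r u + ((1 : unitInterval) : ℝ) * (r v - r u), _) = (r v, (0 : ℝ))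
    simp
  · intro s t hst
    have h1 : r u + (s : ℝ) * (r v - r u) = r u + (t : ℝ) * (r v - r u) := congrArg Prod.fst hst
    have h2 : r v - r u ≠ 0 := fun h => hl (hr (by linarith))
    have h3 : (s : ℝ) = t := by
      have : (s : ℝ) * (r v - r u) = (t : ℝ) * (r v - r u) := by linarith
      exact mul_right_cancel₀ h2 this
    exact Subtype.ext h3

/-- LEAF F2c. An arc along a path (`IsPath`), by induction on the path with `arc_join` and `par_meet`: the arc of the first edge meets the arcs of the later edges only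
in the second vertex (the first vertex does not occur again). -/
theorem arc_path {W : Type} (P : SimpleGraph W) (r : W → ℝ) (page : W → W → Prop) (hr : Function.Injective r)
    (hp : ∀ a b, page a b → page b a)
    (hn : ∀ a b c d, P.Adj a b → P.Adj c d → (page a b ↔ page c d) → r a < r c → r c < r b → r b < r d → False)
    {u v : W} (w : P.Walk u v) (hw : w.IsPath) (hl : u ≠ v) :
    ArcIn (r u, 0) (r v, 0) (⋃ e ∈ w.darts, Par r page e.fst e.snd) := by
  induction w with
  | nil => exact absurd rfl hl
  | @cons u b v h p ih =>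
    rw [SimpleGraph.Walk.cons_isPath_iff] at hw
    obtain ⟨hp1, hu⟩ := hw
    have hset : (⋃ e ∈ (SimpleGraph.Walk.cons h p).darts, Par r page e.fst e.snd) =
        Par r page u b ∪ ⋃ e ∈ p.darts, Par r page e.fst e.snd := by
      ext z
      simp [SimpleGraph.Walk.darts_cons]
    rw [hset]
    have h1 := F2c_edge r page hr (u := u) (v := b) h.ne
    by_cases hb : b = v
    · subst hb
      obtain ⟨γ, a0, a1, a2, a3⟩ := h1
      exact ⟨γ, a0, a1, a2, fun t => Or.inl (a3 t)⟩
    · refine arc_join h1 (ih hp1 hb) ?_
      rintro z ⟨hz, hz'⟩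
      rw [Set.mem_iUnion₂] at hz'
      obtain ⟨e, he, hz'⟩ := hz'
      have e1 : e.fst ∈ p.support := p.dart_fst_mem_support_of_mem_darts he
      have e2 : e.snd ∈ p.support := p.dart_snd_mem_support_of_mem_darts he
      have hne : s(u, b) ≠ s(e.fst, e.snd) := by
        intro heq
        have : u ∈ s(e.fst, e.snd) := by rw [← heq]; exact Sym2.mem_mk_left u b
        rw [Sym2.mem_iff] at this
        rcases this with h5 | h5
        · exact hu (h5 ▸ e1)
        · exact hu (h5 ▸ e2)
      obtain ⟨w, w1, w2, w3⟩ := par_meet P r page hr hp hn h e.adj hne hz hz'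
      rw [Sym2.mem_iff] at w1 w2
      rw [Set.mem_singleton_iff, w3]
      rcases w1 with w1 | w1
      · exfalso
        subst w1
        rcases w2 with h5 | h5
        · exact hu (h5 ▸ e1)
        · exact hu (h5 ▸ e2)
      · rw [w1]

end KPl
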