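import Pool.Agent.Lib.MP_d3a5e5_coK.F2Defs

set_option autoImplicit false

namespace KPl

open QPl

/-- LEAF F2d. Pendant vertices. Put `W' = W ⊕ V`; `Sum.inr x` is adjacent only to `Sum.inl (ι x)`, edges inside `W` as in `P`. Two pages: a real position function for
`W'`: take a linear order on `W'` in which the vertices `inr x` with `ι x = w` follow immediately after `inl w` (lexicographic order from `r` on `W` and any injection `V → ℕ`), and embed this countable
order in `ℝ` (`Order.embedding_from_countable_to_dense`, see `tp_graph` in L2). Old edges keep their page, pendant edges are on the page `True`. The edge `inl w - inr x` crosses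
nothing: an edge with exactly one end strictly between `inl w` and `inr x` has as this end some `inr x'` with `ι x' = w`, and its other end is `inl w`. -/
theorem twoPage_pendant {V W : Type} [Countable V] [Countable W] (P : SimpleGraph W) (hP : TwoPage P) (ι : V → W) :
    ∃ P' : SimpleGraph (W ⊕ V), TwoPage P' ∧ (∀ a b, P'.Adj (Sum.inl a) (Sum.inl b) ↔ P.Adj a b) ∧
      (∀ a x, P'.Adj (Sum.inl a) (Sum.inr x) ↔ a = ι x) ∧ (∀ x y, ¬ P'.Adj (Sum.inr x) (Sum.inr y)) := by
  classical
  obtain ⟨r, page, hr, hps, hnc⟩ := hP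
  obtain ⟨n, hn⟩ := exists_injective_nat V
  let P' : SimpleGraph (W ⊕ V) :=
    { Adj := fun p q => match p, q with
        | Sum.inl a, Sum.inl b => P.Adj a b
        | Sum.inl a, Sum.inr x => a = ι x
        | Sum.inr x, Sum.inl a => a = ι x
        | Sum.inr _, Sum.inr _ => False
      symm := ⟨by
        rintro (a | x) (b | y) h
        · exact P.adj_symm h
        · exact h
        · exact h
        · exact h⟩
      loopless := ⟨by
        rintro (a | x) h
        · exact P.irrefl h
        · exact h⟩ }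
  refine ⟨P', ?_, fun a b => Iff.rfl, fun a x => Iff.rfl, fun x y h => h⟩
  let κ : W ⊕ V → ℝ ×ₗ ℕ := Sum.elim (fun w => toLex (r w, 0)) (fun x => toLex (r (ι x), n x + 1))
  have hκ : Function.Injective κ := by
    rintro (a | x) (b | y) h
    · have h1 : (r a, 0) = (r b, 0) := toLex.injective h
      rw [hr (congrArg Prod.fst h1)]
    · have h1 : (r a, 0) = (r (ι y), n y + 1) := toLex.injective h
      exact absurd (congrArg Prod.snd h1) (by simp)
    · have h1 : (r (ι x), n x + 1) = (r b, 0) := toLex.injective h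
      exact absurd (congrArg Prod.snd h1) (by simp)
    · have h1 : (r (ι x), n x + 1) = (r (ι y), n y + 1) := toLex.injective h
      have h2 : n x + 1 = n y + 1 := congrArg Prod.snd h1
      rw [hn (Nat.succ_injective h2)]
  let lo : LinearOrder (W ⊕ V) := LinearOrder.lift' κ hκ
  obtain ⟨e⟩ := @Order.embedding_from_countable_to_dense (W ⊕ V) ℝ lo _ _ _ _
  have key : ∀ a b : W ⊕ V, e a < e b → κ a < κ b := by
    intro a b h
    exact (@OrderEmbedding.lt_iff_lt _ _ lo.toPreorder _ e a b).1 h
  have hll : ∀ a b : W, κ (Sum.inl a) < κ (Sum.inl b) → r a < r b := by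
    intro a b h
    rcases (Prod.Lex.toLex_lt_toLex (x := (r a, 0)) (y := (r b, 0))).1 h with h | ⟨_, h⟩
    · exact h
    · exact absurd h (lt_irrefl _)
  -- the orientation of the pendant edges
  have hor : ∀ p q : W ⊕ V, P'.Adj p q → κ p < κ q →
      (∃ a b, p = Sum.inl a ∧ q = Sum.inl b) ∨ ∃ x, p = Sum.inl (ι x) ∧ q = Sum.inr x := by
    rintro (a | x) (b | y) h1 h2
    · exact Or.inl ⟨a, b, rfl, rfl⟩
    · have h3 : a = ι y := h1
      exact Or.inr ⟨y, by rw [h3], rfl⟩
    · exfalso
      have h3 : b = ι x := h1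
      rw [h3] at h2
      rcases (Prod.Lex.toLex_lt_toLex (x := (r (ι x), n x + 1)) (y := (r (ι x), 0))).1 h2 with h | ⟨_, h⟩
      · exact lt_irrefl _ h
      · exact absurd h (Nat.not_lt_zero _)
    · exact absurd h1 id
  -- the vertices between the ends of a pendant edge
  have hbt : ∀ (x : V) (p : W ⊕ V), κ (Sum.inl (ι x)) < κ p → κ p < κ (Sum.inr x) →
      ∃ y, p = Sum.inr y ∧ ι y = ι x := by
    rintro x (a | y) h1 h2
    · exfalso
      have h3 := hll _ _ h1
      rcases (Prod.Lex.toLex_lt_toLex (x := (r a, 0)) (y := (r (ι x), n x + 1))).1 h2 with h | ⟨h, _⟩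
      · exact lt_asymm h3 h
      · exact absurd h (ne_of_gt h3)
    · refine ⟨y, rfl, hr (le_antisymm ?_ ?_)⟩
      · rcases (Prod.Lex.toLex_lt_toLex (x := (r (ι y), n y + 1)) (y := (r (ι x), n x + 1))).1 h2 with
          h | ⟨h, _⟩
        · exact h.le
        · exact h.le
      · rcases (Prod.Lex.toLex_lt_toLex (x := (r (ι x), 0)) (y := (r (ι y), n y + 1))).1 h1 with
          h | ⟨h, _⟩
        · exact h.le
        · exact h.le
  have hnb : ∀ (y : V) (p : W ⊕ V), P'.Adj (Sum.inr y) p → p = Sum.inl (ι y) := by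
    rintro y (a | z) h
    · have h1 : a = ι y := h
      rw [h1]
    · exact absurd h id
  let pg : W ⊕ V → W ⊕ V → Prop := fun p q => match p, q with
    | Sum.inl a, Sum.inl b => page a b
    | _, _ => True
  refine ⟨e, pg, e.injective, ?_, ?_⟩
  · rintro (a | x) (b | y) h
    · exact hps a b h
    · exact trivial
    · exact trivial
    · exact trivial
  · intro a b c d h1 h2 h3 h4 h5 h6
    have k4 := key _ _ h4
    have k5 := key _ _ h5
    have k6 := key _ _ h6
    rcases hor a b h1 (k4.trans k5) with ⟨a', b', rfl, rfl⟩ | ⟨x, rfl, rfl⟩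
    · rcases hor c d h2 (k5.trans k6) with ⟨c', d', rfl, rfl⟩ | ⟨x, rfl, rfl⟩
      · exact hnc a' b' c' d' h1 h2 h3 (hll _ _ k4) (hll _ _ k5) (hll _ _ k6)
      · obtain ⟨y, hy, _⟩ := hbt x _ k5 k6
        exact absurd hy (by simp)
    · obtain ⟨y, hy, hyx⟩ := hbt x c k4 k5
      rw [hy] at h2
      have h7 := hnb y d h2
      rw [hyx] at h7
      rw [h7] at k6
      exact lt_irrefl _ (k4.trans (k5.trans k6))

end KPl
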