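import Pool.Agent.Lib.MP_d3a5e5_coK.F2c
import Pool.Agent.Lib.MP_d3a5e5_coK.F2d

set_option autoImplicit false

namespace KPl

open QPl

private theorem F2e_arc {W : Type} (r : W → ℝ) (page : W → W → Prop) (u v : W) (t : unitInterval) :
    ∃ s : ℝ, s ≠ 0 ∧ R1_arc r page u v t =
      (r u + (t : ℝ) * (r v - r u), s * ((t : ℝ) * (1 - (t : ℝ)) * (r v - r u) ^ 2)) := by
  classical
  refine ⟨if page u v then (1 : ℝ) else -1, ?_, ?_⟩
  · split_ifs <;> norm_num
  · change (_, _) = (_, _)
    congr 2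

private theorem F2e_end {W : Type} {r : W → ℝ} {page : W → W → Prop} {a b : W} (hab : r a ≠ r b)
    {X : ℝ} (h : (X, (0 : ℝ)) ∈ Par r page a b) : X = r a ∨ X = r b := by
  obtain ⟨t, ht⟩ := h
  obtain ⟨s, hs, h1⟩ := F2e_arc r page a b t
  rw [h1] at ht
  have h2 : s * ((t : ℝ) * (1 - (t : ℝ)) * (r b - r a) ^ 2) = 0 := congrArg Prod.snd ht
  have h3 : r a + (t : ℝ) * (r b - r a) = X := congrArg Prod.fst ht
  have h4 : (r b - r a) ^ 2 ≠ 0 := pow_ne_zero _ (sub_ne_zero.2 hab.symm)
  rcases mul_eq_zero.1 h2 with h | h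
  · exact absurd h hs
  · rcases mul_eq_zero.1 h with h | h
    · rcases mul_eq_zero.1 h with h | h
      · left
        rw [← h3, h, zero_mul, add_zero]
      · right
        have h5 : (t : ℝ) = 1 := by linarith
        rw [← h3, h5]
        ring
    · exact absurd h h4

/-- The properties of the arc of the edge `u v`. -/
private def F2e_Q {V W : Type} (P' : SimpleGraph (W ⊕ V)) (r : W ⊕ V → ℝ)
    (page : W ⊕ V → W ⊕ V → Prop) (Z : Sym2 V → Set W) (u v : V) (γ : C(unitInterval, ℝ × ℝ)) : Prop :=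
  γ 0 = (r (Sum.inr u), 0) ∧ γ 1 = (r (Sum.inr v), 0) ∧ Function.Injective γ ∧
    ∃ E : Set (Sym2 (W ⊕ V)), (∀ e ∈ E, e ∈ P'.edgeSet) ∧
      (∀ e ∈ E, ∀ z ∈ e, z = Sum.inr u ∨ z = Sum.inr v ∨ ∃ a ∈ Z s(u, v), z = Sum.inl a) ∧
      ∀ t, ∃ a b, s(a, b) ∈ E ∧ γ t ∈ Par r page a b

private theorem F2e_symm {V W : Type} {P' : SimpleGraph (W ⊕ V)} {r : W ⊕ V → ℝ}
    {page : W ⊕ V → W ⊕ V → Prop} {Z : Sym2 V → Set W} {u v : V} {γ : C(unitInterval, ℝ × ℝ)}
    (h : F2e_Q P' r page Z u v γ) :
    F2e_Q P' r page Z v u (γ.comp ⟨unitInterval.symm, unitInterval.continuous_symm⟩) := by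
  obtain ⟨h0, h1, hi, E, hE1, hE2, hE3⟩ := h
  refine ⟨?_, ?_, ?_, E, hE1, ?_, ?_⟩
  · change γ (unitInterval.symm 0) = _
    rw [unitInterval.symm_zero]
    exact h1
  · change γ (unitInterval.symm 1) = _
    rw [unitInterval.symm_one]
    exact h0
  · intro s t hst
    exact unitInterval.symm_bijective.injective (hi hst)
  · intro e he z hz
    rw [Sym2.eq_swap (a := v)]
    rcases hE2 e he z hz with h | h | h
    · exact Or.inr (Or.inl h)
    · exact Or.inl h
    · exact Or.inr (Or.inr h)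
  · intro t
    exact hE3 (unitInterval.symm t)

private theorem F2e_exists {V W : Type} {G : SimpleGraph V} {P : SimpleGraph W} {ι : V → W}
    {Z : Sym2 V → Set W}
    (hw : ∀ u v, G.Adj u v → ∃ w : P.Walk (ι u) (ι v), ∀ z ∈ w.support, z ∈ Z s(u, v))
    {P' : SimpleGraph (W ⊕ V)} {r : W ⊕ V → ℝ} {page : W ⊕ V → W ⊕ V → Prop}
    (hr : Function.Injective r) (hp : ∀ a b, page a b → page b a)
    (hn : ∀ a b c d, P'.Adj a b → P'.Adj c d → (page a b ↔ page c d) → r a < r c → r c < r b →
      r b < r d → False)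
    (h1 : ∀ a b, P'.Adj (Sum.inl a) (Sum.inl b) ↔ P.Adj a b)
    (h2 : ∀ a x, P'.Adj (Sum.inl a) (Sum.inr x) ↔ a = ι x) {u v : V} (huv : G.Adj u v) :
    ∃ γ, F2e_Q P' r page Z u v γ := by
  classical
  obtain ⟨w, hw⟩ := hw u v huv
  let φ : P →g P' := ⟨Sum.inl, fun {a b} h => (h1 a b).2 h⟩
  have ha : P'.Adj (Sum.inr u) (Sum.inl (ι u)) := ((h2 (ι u) u).2 rfl).symm
  have hb : P'.Adj (Sum.inl (ι v)) (Sum.inr v) := (h2 (ι v) v).2 rfl
  let w1 : P'.Walk (Sum.inr u) (Sum.inr v) := SimpleGraph.Walk.cons ha ((w.map φ).concat hb)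
  have hsup : ∀ z ∈ w1.bypass.support, z = Sum.inr u ∨ z = Sum.inr v ∨ ∃ a ∈ Z s(u, v), z = Sum.inl a := by
    intro z hz
    have hz1 : z ∈ w1.support := w1.support_bypass_subset_support hz
    have hz2 : z ∈ Sum.inr u :: ((w.map φ).concat hb).support := hz1
    rcases List.mem_cons.1 hz2 with h | h
    · exact Or.inl h
    · rw [SimpleGraph.Walk.support_concat, List.mem_append,
        List.mem_singleton, SimpleGraph.Walk.support_map, List.mem_map] at h
      rcases h with ⟨a, ha, h⟩ | h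
      · exact Or.inr (Or.inr ⟨a, hw a ha, h.symm⟩)
      · exact Or.inr (Or.inl h)
  have hne : (Sum.inr u : W ⊕ V) ≠ Sum.inr v := fun h => huv.ne (Sum.inr_injective h)
  obtain ⟨γ, g0, g1, gi, gR⟩ := arc_path P' r page hr hp hn w1.bypass w1.bypass_isPath hne
  refine ⟨γ, g0, g1, gi, {e | e ∈ w1.bypass.edges}, fun e he => w1.bypass.edges_subset_edgeSet he, ?_, ?_⟩
  · intro e he z hz
    obtain ⟨y, rfl⟩ := hz
    exact hsup z (w1.bypass.fst_mem_support_of_mem_edges he)
  · intro t
    have h := gR t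
    simp only [Set.mem_iUnion] at h
    obtain ⟨d, hd, h⟩ := h
    exact ⟨d.fst, d.snd, List.mem_map_of_mem (f := SimpleGraph.Dart.edge) hd, h⟩

/-- The arcs of two edges which meet at interior points. -/
private theorem F2e_meet {V W : Type} {Z : Sym2 V → Set W}
    {P' : SimpleGraph (W ⊕ V)} {r : W ⊕ V → ℝ} {page : W ⊕ V → W ⊕ V → Prop}
    (hr : Function.Injective r) (hp : ∀ a b, page a b → page b a)
    (hn : ∀ a b c d, P'.Adj a b → P'.Adj c d → (page a b ↔ page c d) → r a < r c → r c < r b →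
      r b < r d → False)
    (h3 : ∀ x y, ¬ P'.Adj (Sum.inr x) (Sum.inr y)) {u v x y : V} {γ δ : C(unitInterval, ℝ × ℝ)}
    (hγ : F2e_Q P' r page Z u v γ) (hδ : F2e_Q P' r page Z x y δ) {s t : unitInterval}
    (s0 : s ≠ 0) (s1 : s ≠ 1) (hst : δ s = γ t) :
    (Z s(u, v) ∩ Z s(x, y)).Nonempty := by
  obtain ⟨a0, a1, ai, E, hE1, hE2, hE3⟩ := hγ
  obtain ⟨b0, b1, bi, E', hE1', hE2', hE3'⟩ := hδ
  obtain ⟨a, b, hab, hz⟩ := hE3 t
  obtain ⟨c, d, hcd, hz'⟩ := hE3' s
  rw [hst] at hz'
  -- a common vertex of the form `inl w`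
  have key : ∀ w : W, Sum.inl w ∈ s(a, b) → Sum.inl w ∈ s(c, d) → (Z s(u, v) ∩ Z s(x, y)).Nonempty := by
    intro w h h'
    refine ⟨w, ?_, ?_⟩
    · rcases hE2 _ hab _ h with h | h | ⟨w', hw', h⟩
      · cases h
      · cases h
      · rw [Sum.inl_injective h]
        exact hw'
    · rcases hE2' _ hcd _ h' with h | h | ⟨w', hw', h⟩
      · cases h
      · cases h
      · rw [Sum.inl_injective h]
        exact hw'
  have hab' : P'.Adj a b := hE1 _ hab
  have hcd' : P'.Adj c d := hE1' _ hcd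
  by_cases hne : s(a, b) = s(c, d)
  · rcases a with w | p
    · exact key w (Sym2.mem_mk_left _ _) (by rw [← hne]; exact Sym2.mem_mk_left _ _)
    · rcases b with w | q
      · exact key w (Sym2.mem_mk_right _ _) (by rw [← hne]; exact Sym2.mem_mk_right _ _)
      · exact absurd hab' (h3 p q)
  · obtain ⟨w, hw1, hw2, hw3⟩ := par_meet P' r page hr hp hn hab' hcd' hne hz hz'
    rcases hE2' _ hcd _ hw2 with h | h | ⟨w', hw', h⟩
    · exfalso
      apply s0
      apply bi
      rw [b0, hst, hw3, h]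
    · exfalso
      apply s1
      apply bi
      rw [b1, hst, hw3, h]
    · rw [h] at hw1 hw2
      exact key w' hw1 hw2

/-- LEAF F2e. A graph `G` whose edges are represented by walks in a two page graph `P`, such that for every edge `e` at most `k` edges `f` (with `e` itself) have `Z f` meeting `Z e`, has a drawing with at most `k` crossings per edge.
Pendant vertices `inr x` (`twoPage_pendant`) represent the vertices of `G`: `f x = (r (inr x), 0)`. For an edge `u v`: the walk from `ι u` to `ι v` with support in `Z s(u, v)` extended by the two pendant edges,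
made a path (`Walk.bypass`); the arc is given by `arc_path`; choose it for one orientation of each edge and reverse it for the other. Other vertices `(r (inr x), 0)` are avoided: a point with second coordinate 0 of an arc
`Par` is one of the two ends, and `inr x` is not on the path. Two arcs of edges `e ≠ f` of `G` which meet at interior parameters: the darts of the two paths have a common vertex (`par_meet`, or the same edge of `P'`); the common vertex or one of the ends of a common edge
is some `inl w` with `w ∈ Z e ∩ Z f` (a common vertex `inr x` is an end of both arcs, so the parameter would be an end; careful: the point of the common vertex `inr x` is `f x`, which both arcs have only at the end parameters, by injectivity). -/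
theorem draw_of_walks {V W : Type} [Countable V] [Countable W] (G : SimpleGraph V) (P : SimpleGraph W) (hP : TwoPage P)
    (ι : V → W) (Z : Sym2 V → Set W)
    (hw : ∀ u v, G.Adj u v → ∃ w : P.Walk (ι u) (ι v), ∀ z ∈ w.support, z ∈ Z s(u, v)) (k : ℕ)
    (hk : ∀ e ∈ G.edgeSet, {f | f ∈ G.edgeSet ∧ (Z e ∩ Z f).Nonempty}.encard ≤ (k : ℕ∞)) : DrawK G k := by
  classical
  obtain ⟨P', ⟨r, page, hr, hp, hn⟩, h1, h2, h3⟩ := twoPage_pendant P hP ι
  have hex : ∀ u v : V, ∃ γ : C(unitInterval, ℝ × ℝ), G.Adj u v → F2e_Q P' r page Z u v γ := by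
    intro u v
    by_cases huv : G.Adj u v
    · obtain ⟨γ, hγ⟩ := F2e_exists hw hr hp hn h1 h2 huv
      exact ⟨γ, fun _ => hγ⟩
    · exact ⟨ContinuousMap.const _ (0, 0), fun h => absurd h huv⟩
  choose γ₀ hγ₀ using hex
  obtain ⟨g, hg⟩ := Countable.exists_injective_nat V
  let σ : C(unitInterval, unitInterval) := ⟨unitInterval.symm, unitInterval.continuous_symm⟩
  let γ : V → V → C(unitInterval, ℝ × ℝ) := fun u v => if g u < g v then γ₀ u v else (γ₀ v u).comp σ
  have hQ : ∀ u v, G.Adj u v → F2e_Q P' r page Z u v (γ u v) := by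
    intro u v huv
    by_cases h : g u < g v
    · have h4 : γ u v = γ₀ u v := if_pos h
      rw [h4]
      exact hγ₀ u v huv
    · have h4 : γ u v = (γ₀ v u).comp σ := if_neg h
      rw [h4]
      exact F2e_symm (hγ₀ v u huv.symm)
  refine ⟨fun x => (r (Sum.inr x), 0), fun x y h => Sum.inr_injective (hr (congrArg Prod.fst h)), γ, ?_, ?_⟩
  · intro u v huv
    obtain ⟨q0, q1, qi, E, hE1, hE2, hE3⟩ := hQ u v huv
    refine ⟨q0, q1, qi, ?_, ?_⟩
    · intro t
      have hne : g u ≠ g v := fun h => huv.ne (hg h)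
      rcases lt_or_gt_of_ne hne with h | h
      · have h4 : γ u v = γ₀ u v := if_pos h
        have h5 : γ v u = (γ₀ u v).comp σ := if_neg (not_lt.2 h.le)
        rw [h4, h5]
        rfl
      · have h4 : γ u v = (γ₀ v u).comp σ := if_neg (not_lt.2 h.le)
        have h5 : γ v u = γ₀ v u := if_pos h
        rw [h4, h5]
        change γ₀ v u t = γ₀ v u (unitInterval.symm (unitInterval.symm t))
        rw [unitInterval.symm_symm]
    · intro t t0 t1 w hw'
      replace hw' : γ u v t = (r (Sum.inr w), 0) := hw'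
      obtain ⟨a, b, hab, hz⟩ := hE3 t
      rw [hw'] at hz
      have hab' : P'.Adj a b := hE1 _ hab
      have hrab : r a ≠ r b := fun h => hab'.ne (hr h)
      have hmem : (Sum.inr w : W ⊕ V) ∈ s(a, b) := by
        rcases F2e_end hrab hz with h | h
        · rw [hr h]
          exact Sym2.mem_mk_left _ _
        · rw [hr h]
          exact Sym2.mem_mk_right _ _
      rcases hE2 _ hab _ hmem with h | h | ⟨w', _, h⟩
      · apply t0
        apply qi
        rw [hw', q0, h]
      · apply t1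
        apply qi
        rw [hw', q1, h]
      · cases h
  · intro u v huv
    refine le_trans (Set.encard_le_encard ?_) (hk s(u, v) huv)
    rintro e ⟨he, _, x, y, rfl, s, t, s0, s1, _, _, hst⟩
    exact ⟨he, F2e_meet hr hp hn h3 (hQ u v huv) (hQ x y he) s0 s1 hst⟩

end KPl
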