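import Pool.Agent.Lib.MP_d3a5e5_coK.Defs
import Pool.Agent.Lib.MP_d3a5e5_co.S3a
import Pool.Agent.Lib.MP_d3a5e5_co.S3b
import Pool.Agent.Lib.MP_d3a5e5_co.L3

set_option autoImplicit false

namespace KPl

open QPl

/-- Two vertices are near if they are on touching edges. -/
def Nr {V : Type} (G : SimpleGraph V) (ω : Dat V) (x y : V) : Prop :=
  ∃ e ∈ G.edgeSet, ∃ f ∈ G.edgeSet, TX ω e f ∧ x ∈ e ∧ y ∈ f

end KPl
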