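import Pool.Agent.Lib.MP_d3a5e5_coK.F3Defs

set_option autoImplicit false

namespace KPl

open QPl

/-- LEAF F3a. Every vertex has finitely many (at most `N`) near vertices, for realizable `ω` (see `C1.lean`: `C1_aux_card`: every edge touches at most `k` edges; `TX_symm`). -/
theorem nr_finite {V : Type} {G : SimpleGraph V} {k d : ℕ} {ω : Dat V} (h : ω ∈ Om G k)
    (hf : ∀ v, (G.neighborSet v).Finite) (hd : ∀ v, (G.neighborSet v).ncard ≤ d) (x : V) :
    {y | Nr G ω x y}.Finite ∧ {y | Nr G ω x y}.ncard ≤ 2 * d * k := by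
  classical
  obtain ⟨S, hS⟩ : ∃ S : Set (Sym2 V), S = (fun y => s(x, y)) '' G.neighborSet x := ⟨_, rfl⟩
  have hSf : S.Finite := by
    rw [hS]
    exact (hf x).image _
  have hSd : S.ncard ≤ d := by
    rw [hS]
    exact (Set.ncard_image_le (hf x)).trans (hd x)
  have hSG : S ⊆ G.edgeSet := by
    rw [hS]
    rintro _ ⟨y, hy, rfl⟩
    exact hy
  obtain ⟨h1, h2⟩ := TS_finite h hSf hSG
  obtain ⟨U, hU⟩ : ∃ U : Finset V, U = h1.toFinset.biUnion fun f => f.toFinset := ⟨_, rfl⟩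
  have h3 : {y | Nr G ω x y} ⊆ (U : Set V) := by
    rintro y ⟨e, he, f, hf', hef, hx, hy⟩
    rw [hU, Finset.mem_coe, Finset.mem_biUnion]
    refine ⟨f, ?_, Sym2.mem_toFinset.2 hy⟩
    rw [Set.Finite.mem_toFinset]
    refine ⟨hf', e, ?_, hef⟩
    rw [hS]
    obtain ⟨z, rfl⟩ := hx
    exact ⟨z, he, rfl⟩
  have h4 : U.card ≤ h1.toFinset.card * 2 := by
    rw [hU]
    refine Finset.card_biUnion_le_card_mul _ _ _ fun f _ => ?_
    rw [Sym2.card_toFinset]
    split_ifs <;> omega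
  refine ⟨U.finite_toSet.subset h3, ?_⟩
  have h5 := Set.ncard_le_ncard h3 U.finite_toSet
  rw [Set.ncard_coe_finset] at h5
  rw [Set.ncard_eq_toFinset_card _ h1] at h2
  have h6 : k * S.ncard ≤ k * d := Nat.mul_le_mul_left k hSd
  calc {y | Nr G ω x y}.ncard ≤ U.card := h5
    _ ≤ h1.toFinset.card * 2 := h4
    _ ≤ (k * d) * 2 := Nat.mul_le_mul_right 2 (h2.trans h6)
    _ = 2 * d * k := by ring

end KPl
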