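import Pool.Agent.Lib.MP_d3a5e5_coK.GDefs

set_option autoImplicit false

namespace KPl

open QPl

variable {V C : Type} {Γ : CGr V C}

/-- Positions of a dart before and after the crossing. -/
private theorem G1b_pos (A B : List (V × C)) (a b l : V × C) (hl : l ∈ A ++ a :: b :: B) :
    ∃ i j : ℕ, (A ++ a :: b :: B)[i]? = some l ∧ (A ++ b :: a :: B)[j]? = some l ∧
      ((i = j ∧ (i < A.length ∨ A.length + 2 ≤ i)) ∨ (i = A.length ∧ j = A.length + 1 ∧ l = a) ∨
        (i = A.length + 1 ∧ j = A.length ∧ l = b)) := by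
  rw [List.mem_append, List.mem_cons, List.mem_cons] at hl
  rcases hl with h | h | h | h
  · obtain ⟨i, hi, hil⟩ := List.getElem_of_mem h
    refine ⟨i, i, ?_, ?_, Or.inl ⟨rfl, Or.inl hi⟩⟩
    · rw [List.getElem?_append_left hi, List.getElem?_eq_getElem hi, hil]
    · rw [List.getElem?_append_left hi, List.getElem?_eq_getElem hi, hil]
  · refine ⟨A.length, A.length + 1, ?_, ?_, Or.inr (Or.inl ⟨rfl, rfl, h⟩)⟩
    · rw [List.getElem?_append_right le_rfl, h]
      simp
    · rw [List.getElem?_append_right (Nat.le_succ _), h]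
      simp
  · refine ⟨A.length + 1, A.length, ?_, ?_, Or.inr (Or.inr ⟨rfl, rfl, h⟩)⟩
    · rw [List.getElem?_append_right (Nat.le_succ _), h]
      simp
    · rw [List.getElem?_append_right le_rfl, h]
      simp
  · obtain ⟨i, hi, hil⟩ := List.getElem_of_mem h
    have h2 : A.length + 2 + i - A.length = i + 1 + 1 := by omega
    refine ⟨A.length + 2 + i, A.length + 2 + i, ?_, ?_, Or.inl ⟨rfl, Or.inr (by omega)⟩⟩
    · rw [List.getElem?_append_right (by omega), h2, List.getElem?_cons_succ, List.getElem?_cons_succ,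
        List.getElem?_eq_getElem hi, hil]
    · rw [List.getElem?_append_right (by omega), h2, List.getElem?_cons_succ, List.getElem?_cons_succ,
        List.getElem?_eq_getElem hi, hil]

private theorem G1b_ne {n i j i' j' : ℕ} {t : ℝ} (ht0 : 0 < t) (ht1 : t ≤ 1) (hij : i ≠ i')
    (h : (i = j ∧ (i < n ∨ n + 2 ≤ i)) ∨ (i = n ∧ j = n + 1) ∨ (i = n + 1 ∧ j = n))
    (h' : (i' = j' ∧ (i' < n ∨ n + 2 ≤ i')) ∨ (i' = n ∧ j' = n + 1) ∨ (i' = n + 1 ∧ j' = n))
    (hab : ¬ ((i = n ∧ i' = n + 1) ∨ (i = n + 1 ∧ i' = n)))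
    (he : (j : ℝ) + (1 - t) * ((i : ℝ) - j) = j' + (1 - t) * ((i' : ℝ) - j')) : False := by
  rcases h with ⟨rfl, h1⟩ | ⟨rfl, rfl⟩ | ⟨rfl, rfl⟩ <;> rcases h' with ⟨rfl, h2⟩ | ⟨rfl, rfl⟩ | ⟨rfl, rfl⟩
  · apply hij
    have h3 : (i : ℝ) = i' := by linarith
    exact_mod_cast h3
  · rcases h1 with h1 | h1
    · have h3 : (i : ℝ) + 1 ≤ i' := by exact_mod_cast h1
      push_cast at he
      nlinarith
    · have h3 : (i' : ℝ) + 2 ≤ i := by exact_mod_cast h1
      push_cast at he
      nlinarith
  · rcases h1 with h1 | h1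
    · have h3 : (i : ℝ) + 1 ≤ j' := by exact_mod_cast h1
      push_cast at he
      nlinarith
    · have h3 : (j' : ℝ) + 2 ≤ i := by exact_mod_cast h1
      push_cast at he
      nlinarith
  · rcases h2 with h1 | h1
    · have h3 : (i' : ℝ) + 1 ≤ i := by exact_mod_cast h1
      push_cast at he
      nlinarith
    · have h3 : (i : ℝ) + 2 ≤ i' := by exact_mod_cast h1
      push_cast at he
      nlinarith
  · exact hij rfl
  · exact hab (Or.inl ⟨rfl, rfl⟩)
  · rcases h2 with h1 | h1
    · have h3 : (i' : ℝ) + 1 ≤ j := by exact_mod_cast h1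
      push_cast at he
      nlinarith
    · have h3 : (j : ℝ) + 2 ≤ i' := by exact_mod_cast h1
      push_cast at he
      nlinarith
  · exact hab (Or.inr ⟨rfl, rfl⟩)
  · exact hij rfl

/-- LEAF G1b. The first event is a crossing of `a` and `b`, `D` draws the rest. New drawing: the rest is shifted by 1 in time (`τ v = D.τ v + 1` for
all `v`, `ξ` the same). For `t ≥ 1`: `X l t = D.X l (t - 1)`. For `t ≤ 1` (`t ≥ 0`): linear from the index of `l` in
`A ++ a :: b :: B` (at `t = 0`) to the index in `A ++ b :: a :: B` (at `t = 1`), so the darts of `A` and `B` are constant and `a`, `b` are exchanged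
linearly; for a dart which is not in the list put `X l t = D.X l 0` for `t ≤ 1` (for all `t ≤ 1` this is continuous, `Continuous.if_le`).
For `t ≤ 0` anything continuous. A complete dart of the whole with `l.1 ∈ S` is in the list (`Dr.alive` for the whole derivation).
All darts in the list have different positions at every time in `(0, 1]`, except `a`, `b` (at `t = 1/2`), which is allowed because
`(a, b)` is in the log. A dart complete in the whole is complete in the rest (the same `S`, `S'`; the times are shifted). -/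
theorem drw_cross (A B : List (V × C)) (a b : V × C) (S S' : Set V) (cs : List ((V × C) × (V × C))) (L' : List (V × C))
    (hw : WF Γ S (A ++ a :: b :: B)) (h : Dr Γ S (A ++ b :: a :: B) cs S' L')
    (D : Drw Γ S (A ++ b :: a :: B) cs S') : Nonempty (Drw Γ S (A ++ a :: b :: B) ((a, b) :: cs) S') := by
  classical
  have hnd := hw.1
  set L : List (V × C) := A ++ a :: b :: B with hL
  set L1 : List (V × C) := A ++ b :: a :: B with hL1
  -- the position at time zero
  let i0 : V × C → ℝ := fun l => if hl : ∃ i : ℕ, L[i]? = some l then (hl.choose : ℝ) else D.X l 0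
  have hi0 : ∀ (l : V × C) (i : ℕ), L[i]? = some l → i0 l = i := by
    intro l i hi
    have hex : ∃ i : ℕ, L[i]? = some l := ⟨i, hi⟩
    have h1 : i0 l = (hex.choose : ℝ) := dif_pos hex
    have h2 := hex.choose_spec
    have hlt : i < L.length := (List.getElem?_eq_some_iff.1 hi).1
    have h3 : i = hex.choose := (List.getElem?_inj hlt hnd).1 (hi.trans h2.symm)
    rw [h1, ← h3]
  have hj0 : ∀ (l : V × C) (j : ℕ), L1[j]? = some l → D.X l 0 = j := by
    intro l j hj
    obtain ⟨hlt, hjl⟩ := List.getElem?_eq_some_iff.1 hj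
    rw [← hjl]
    exact D.start j hlt
  let X' : V × C → ℝ → ℝ := fun l t => D.X l (max (t - 1) 0) + max (1 - t) 0 * (i0 l - D.X l 0)
  have hX1 : ∀ l t, 1 ≤ t → X' l t = D.X l (t - 1) := by
    intro l t ht
    show D.X l (max (t - 1) 0) + max (1 - t) 0 * (i0 l - D.X l 0) = _
    rw [max_eq_left (by linarith), max_eq_right (by linarith)]
    ring
  have hX0 : ∀ l t, t ≤ 1 → X' l t = D.X l 0 + (1 - t) * (i0 l - D.X l 0) := by
    intro l t ht
    show D.X l (max (t - 1) 0) + max (1 - t) 0 * (i0 l - D.X l 0) = _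
    rw [max_eq_right (by linarith), max_eq_left (by linarith)]
  have hCp : ∀ l, Cp Γ S S' (fun v => D.τ v + 1) l → Cp Γ S S' D.τ l := by
    rintro l ⟨h1, h2⟩
    refine ⟨h1, ?_⟩
    rcases h2 with h2 | ⟨h2, h3⟩
    · exact Or.inl h2
    · exact Or.inr ⟨h2, by simpa using h3⟩
  have hst : ∀ l, Cp Γ S S' D.τ l → ∀ t, 1 ≤ t → 0 < t - 1 → st S (fun v => D.τ v + 1) l < t →
      st S D.τ l < t - 1 := by
    intro l _ t _ ht h1
    unfold st at h1 ⊢
    by_cases hl : l.1 ∈ S
    · rw [if_pos hl]
      exact ht
    · rw [if_neg hl] at h1 ⊢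
      simp only at h1
      linarith
  refine ⟨⟨fun v => D.τ v + 1, D.ξ, X', ?_, ?_, ?_, ?_, ?_, ?_, ?_, ?_⟩⟩
  · intro l
    have hc := D.cont l
    show Continuous (fun t : ℝ => D.X l (max (t - 1) 0) + max (1 - t) 0 * (i0 l - D.X l 0))
    fun_prop
  · intro v hv
    have h1 := D.tpos v hv
    show 0 < D.τ v + 1
    linarith
  · intro v hv w hw' hvw
    exact D.tinj hv hw' (by simpa using hvw)
  · intro i hi
    rw [hX0 _ _ zero_le_one, hi0 _ i (List.getElem?_eq_getElem hi)]
    ring
  · intro l hl
    have h1 := D.tpos _ (hCp l hl).1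
    show X' l (D.τ (Γ.nb l.1 l.2) + 1) = D.ξ (Γ.nb l.1 l.2)
    rw [hX1 _ _ (by linarith), add_sub_cancel_right]
    exact D.fin l (hCp l hl)
  · intro l hl hlS
    have h0 : l.1 ∈ S' \ S := by
      rcases (hCp l hl).2 with h2 | h2
      · exact absurd h2 hlS
      · exact h2.1
    have h1 := D.tpos _ h0
    show X' l (D.τ l.1 + 1) = D.ξ l.1
    rw [hX1 _ _ (by linarith), add_sub_cancel_right]
    exact D.beg l (hCp l hl) hlS
  · intro l hl v hv h1 h2
    have h3 := D.tpos v hv
    have h4 : D.τ v < D.τ (Γ.nb l.1 l.2) := by simpa using h2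
    have h5 := hst l (hCp l hl) (D.τ v + 1) (by linarith) (by linarith) h1
    rw [add_sub_cancel_right] at h5
    show X' l (D.τ v + 1) ≠ D.ξ v
    rw [hX1 _ _ (by linarith), add_sub_cancel_right]
    exact D.vtx l (hCp l hl) v hv h5 h4
  · intro l l' hl hl' hne t h1 h2 h1' h2' hXX
    have h2 : t < D.τ (Γ.nb l.1 l.2) + 1 := h2
    have h2' : t < D.τ (Γ.nb l'.1 l'.2) + 1 := h2'
    by_cases ht : 1 < t
    · rw [hX1 _ _ ht.le, hX1 _ _ ht.le] at hXX
      rcases D.crs l l' (hCp l hl) (hCp l' hl') hne (t - 1)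
        (hst l (hCp l hl) t ht.le (by linarith) h1) (by linarith)
        (hst l' (hCp l' hl') t ht.le (by linarith) h1') (by linarith) hXX with h3 | h3
      · exact Or.inl (List.mem_cons_of_mem _ h3)
      · exact Or.inr (List.mem_cons_of_mem _ h3)
    · have ht1 : t ≤ 1 := not_lt.1 ht
      have hin : ∀ m, Cp Γ S S' D.τ m → st S (fun v => D.τ v + 1) m < t → 0 < t ∧ m ∈ L := by
        intro m hm hmt
        have hmS : m.1 ∈ S := by
          by_contra hmS
          unfold st at hmt
          rw [if_neg hmS] at hmt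
          simp only at hmt
          rcases hm.2 with h5 | h5
          · exact hmS h5
          · have h6 := D.tpos _ h5.1
            linarith
        refine ⟨?_, ?_⟩
        · unfold st at hmt
          rwa [if_pos hmS] at hmt
        · have h5 : (m.1, m.2) ∈ L1 := Dr.alive h hmS hm.1.1 hm.1.2
          have h6 : m ∈ L1 := h5
          rw [hL1, List.mem_append, List.mem_cons, List.mem_cons] at h6
          rw [hL, List.mem_append, List.mem_cons, List.mem_cons]
          tauto
      obtain ⟨ht0, hlL⟩ := hin l (hCp l hl) h1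
      obtain ⟨-, hlL'⟩ := hin l' (hCp l' hl') h1'
      obtain ⟨i, j, hi, hj, hij⟩ := G1b_pos A B a b l hlL
      obtain ⟨i', j', hi', hj', hij'⟩ := G1b_pos A B a b l' hlL'
      rw [hX0 _ _ ht1, hX0 _ _ ht1, hi0 l i hi, hi0 l' i' hi', hj0 l j hj, hj0 l' j' hj'] at hXX
      by_cases hab : (i = A.length ∧ i' = A.length + 1) ∨ (i = A.length + 1 ∧ i' = A.length)
      · rcases hab with ⟨h3, h4⟩ | ⟨h3, h4⟩
        · left
          have h5 : l = a := by
            rcases hij with h6 | h6 | h6
            · omega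
            · exact h6.2.2
            · omega
          have h7 : l' = b := by
            rcases hij' with h6 | h6 | h6
            · omega
            · omega
            · exact h6.2.2
          rw [h5, h7]
          exact List.mem_cons_self
        · right
          have h5 : l = b := by
            rcases hij with h6 | h6 | h6
            · omega
            · omega
            · exact h6.2.2
          have h7 : l' = a := by
            rcases hij' with h6 | h6 | h6
            · omega
            · exact h6.2.2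
            · omega
          rw [h5, h7]
          exact List.mem_cons_self
      · exfalso
        have hii : i ≠ i' := by
          rintro rfl
          exact hne (Option.some.inj (hi.symm.trans hi'))
        refine G1b_ne (n := A.length) ht0 ht1 hii ?_ ?_ hab hXX
        · rcases hij with h6 | h6 | h6
          · exact Or.inl h6
          · exact Or.inr (Or.inl ⟨h6.1, h6.2.1⟩)
          · exact Or.inr (Or.inr ⟨h6.1, h6.2.1⟩)
        · rcases hij' with h6 | h6 | h6
          · exact Or.inl h6
          · exact Or.inr (Or.inl ⟨h6.1, h6.2.1⟩)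
          · exact Or.inr (Or.inr ⟨h6.1, h6.2.1⟩)

end KPl
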