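import Pool.Agent.Lib.MP_d3a5e5_coK.GDefs

set_option autoImplicit false

namespace KPl

open QPl

variable {V C : Type} {Γ : CGr V C}

open Classical in
/-- The new curve of the dart `l`. -/
private noncomputable def G1cX (L : List (V × C)) (Y : V × C → ℝ → ℝ) (l : V × C) (t : ℝ) : ℝ :=
  if t ≤ 1 then (1 - t) * ((List.idxOf l L : ℕ) : ℝ) + t * Y l 0 else Y l (t - 1)

private theorem G1c_cont (L : List (V × C)) (Y : V × C → ℝ → ℝ) (l : V × C) (h : Continuous (Y l)) :
    Continuous (G1cX L Y l) := by
  unfold G1cX
  refine Continuous.if_le ?_ ?_ continuous_id continuous_const ?_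
  · fun_prop
  · exact h.comp (continuous_id.sub continuous_const)
  · intro t ht
    have ht' : t = 1 := ht
    subst ht'
    simp

private theorem G1c_big (L : List (V × C)) (Y : V × C → ℝ → ℝ) (l : V × C) (t : ℝ) (h : 0 < t) :
    G1cX L Y l (t + 1) = Y l t := by
  unfold G1cX
  rw [if_neg (by linarith)]
  congr 1
  ring

/-- Indices after the insertion of one element. -/
private theorem G1c_get (A B : List (V × C)) (a : V × C) (i : ℕ) (hi : i < (A ++ B).length) :
    ∃ h : (if i < A.length then i else i + 1) < (A ++ a :: B).length,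
      (A ++ a :: B)[if i < A.length then i else i + 1] = (A ++ B)[i] := by
  have hl : (A ++ a :: B).length = (A ++ B).length + 1 := by
    simp only [List.length_append, List.length_cons]
    ring
  by_cases h : i < A.length
  · simp only [h, if_true]
    refine ⟨by omega, ?_⟩
    rw [List.getElem_append_left h, List.getElem_append_left h]
  · simp only [h, if_false]
    refine ⟨by omega, ?_⟩
    rw [List.getElem_append_right (by omega), List.getElem_append_right (by omega)]
    have e : i + 1 - A.length = (i - A.length) + 1 := by omega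
    simp only [e, List.getElem_cons_succ]

open Classical in
private theorem G1c_idx (A B : List (V × C)) (a : V × C) (hn : (A ++ a :: B).Nodup) (i : ℕ)
    (hi : i < (A ++ B).length) :
    List.idxOf ((A ++ B)[i]) (A ++ a :: B) = if i < A.length then i else i + 1 := by
  obtain ⟨h, e⟩ := G1c_get A B a i hi
  rw [← e]
  exact List.Nodup.idxOf_getElem hn _ h

/-- LEAF G1c. The first event kills `a`. As in `drw_cross`; the darts of `B` move linearly from the index `|A| + 1 + j` to `|A| + j`. The
dart `a` is not complete: if it were, its upper end would be in `S' \ S` and its lower end is in `S`, so by `Dr.alive` for the rest `a` would be in `A ++ B`,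
which contradicts `hw.1` (nodup). So the values of `X a` do not matter (`start` fixes `X a 0`; take it constant). -/
theorem drw_kill (A B : List (V × C)) (a : V × C) (S S' : Set V) (cs : List ((V × C) × (V × C))) (L' : List (V × C))
    (hw : WF Γ S (A ++ a :: B)) (h : Dr Γ S (A ++ B) cs S' L') (D : Drw Γ S (A ++ B) cs S') :
    Nonempty (Drw Γ S (A ++ a :: B) cs S') := by
  classical
  -- completeness for the shifted times
  have hcp : ∀ l, Cp Γ S S' (fun v => D.τ v + 1) l → Cp Γ S S' D.τ l := by
    rintro l ⟨h1, h2⟩
    refine ⟨h1, h2.imp id ?_⟩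
    rintro ⟨h3, h4⟩
    exact ⟨h3, by simpa using h4⟩
  have hst : ∀ l, Cp Γ S S' D.τ l → ∀ t : ℝ, 1 < t → st S (fun v => D.τ v + 1) l < t → st S D.τ l < t - 1 := by
    intro l hl t ht hs
    unfold st at hs ⊢
    split_ifs with hS
    · linarith
    · rw [if_neg hS] at hs
      linarith
  have hlow : ∀ l, Cp Γ S S' D.τ l → ∀ t : ℝ, t ≤ 1 → st S (fun v => D.τ v + 1) l < t →
      0 < t ∧ ∃ (i : ℕ) (hi : i < (A ++ B).length), l = (A ++ B)[i] := by
    intro l hl t ht hs
    have hS : l.1 ∈ S := by
      by_contra hS
      unfold st at hs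
      rw [if_neg hS] at hs
      rcases hl.2 with h2 | ⟨h2, -⟩
      · exact hS h2
      · have := D.tpos _ h2
        linarith
    unfold st at hs
    rw [if_pos hS] at hs
    refine ⟨hs, ?_⟩
    have hm : (l.1, l.2) ∈ A ++ B := h.alive hS hl.1.1 hl.1.2
    obtain ⟨i, hi, e⟩ := List.mem_iff_getElem.1 hm
    exact ⟨i, hi, e.symm⟩
  refine ⟨{
    τ := fun v => D.τ v + 1
    ξ := D.ξ
    X := G1cX (A ++ a :: B) D.X
    cont := fun l => G1c_cont _ _ _ (D.cont l)
    tpos := fun v hv => by
      have := D.tpos v hv
      linarith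
    tinj := fun v hv w hw' e => D.tinj hv hw' (by simpa using e)
    start := ?_
    fin := ?_
    beg := ?_
    vtx := ?_
    crs := ?_ }⟩
  · intro i hi
    unfold G1cX
    rw [if_pos (by norm_num), List.Nodup.idxOf_getElem hw.1 _ hi]
    ring
  · intro l hl
    have hl' := hcp l hl
    rw [G1c_big _ _ _ _ (D.tpos _ hl'.1)]
    exact D.fin l hl'
  · intro l hl hS
    have hl' := hcp l hl
    have h2 : l.1 ∈ S' \ S := by
      rcases hl'.2 with h2 | ⟨h2, -⟩
      · exact absurd h2 hS
      · exact h2
    rw [G1c_big _ _ _ _ (D.tpos _ h2)]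
    exact D.beg l hl' hS
  · intro l hl v hv h1 h2
    have hl' := hcp l hl
    have h0 := D.tpos v hv
    rw [G1c_big _ _ _ _ h0]
    refine D.vtx l hl' v hv ?_ (by simpa using h2)
    have := hst l hl' (D.τ v + 1) (by linarith) h1
    linarith
  · intro l l' hl hl' hne t h1 h2 h3 h4 e
    have hc := hcp l hl
    have hc' := hcp l' hl'
    rcases le_or_gt t 1 with ht | ht
    · exfalso
      obtain ⟨h0, i, hi, rfl⟩ := hlow l hc t ht h1
      obtain ⟨-, j, hj, rfl⟩ := hlow l' hc' t ht h3
      unfold G1cX at e
      rw [if_pos ht, if_pos ht, D.start i hi, D.start j hj, G1c_idx A B a hw.1 i hi, G1c_idx A B a hw.1 j hj] at e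
      have hij : i ≠ j := by
        rintro rfl
        exact hne rfl
      rcases lt_or_gt_of_ne hij with hlt | hlt
      · have e1 : (if i < A.length then i else i + 1) ≤ (if j < A.length then j else j + 1) := by
          split_ifs <;> omega
        have e2 : ((if i < A.length then i else i + 1 : ℕ) : ℝ) ≤ ((if j < A.length then j else j + 1 : ℕ) : ℝ) := by
          exact_mod_cast e1
        have e3 : (i : ℝ) < j := by exact_mod_cast hlt
        have e4 := mul_le_mul_of_nonneg_left e2 (by linarith : (0 : ℝ) ≤ 1 - t)
        have e5 := mul_lt_mul_of_pos_left e3 h0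
        linarith
      · have e1 : (if j < A.length then j else j + 1) ≤ (if i < A.length then i else i + 1) := by
          split_ifs <;> omega
        have e2 : ((if j < A.length then j else j + 1 : ℕ) : ℝ) ≤ ((if i < A.length then i else i + 1 : ℕ) : ℝ) := by
          exact_mod_cast e1
        have e3 : (j : ℝ) < i := by exact_mod_cast hlt
        have e4 := mul_le_mul_of_nonneg_left e2 (by linarith : (0 : ℝ) ≤ 1 - t)
        have e5 := mul_lt_mul_of_pos_left e3 h0
        linarith
    · have e' : D.X l (t - 1) = D.X l' (t - 1) := by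
        have e1 := G1c_big (A ++ a :: B) D.X l (t - 1) (by linarith)
        have e2 := G1c_big (A ++ a :: B) D.X l' (t - 1) (by linarith)
        rw [sub_add_cancel] at e1 e2
        rw [← e1, ← e2, e]
      exact D.crs l l' hc hc' hne (t - 1) (hst l hc t ht h1) (by linarith) (hst l' hc' t ht h3) (by linarith) e'

end KPl
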