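import Pool.Agent.Lib.MP_d3a5e5_coK.GDefs

set_option autoImplicit false

namespace KPl

open QPl

variable {V C : Type} {Γ : CGr V C}

open Classical in
/-- The part of a curve with `t ≤ 1`. -/
private noncomputable def G1d_P (str : Prop) (p q c t : ℝ) : ℝ :=
  if str then (1 - t) * p + t * q
  else if t ≤ 1 / 2 then (1 - 2 * t) * p + 2 * t * c else (2 - 2 * t) * c + (2 * t - 1) * q

private theorem G1d_str {str : Prop} (h : str) (p q c t : ℝ) :
    G1d_P str p q c t = (1 - t) * p + t * q := if_pos h

private theorem G1d_lo {str : Prop} (h : ¬ str) (p q c : ℝ) {t : ℝ} (ht : t ≤ 1 / 2) :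
    G1d_P str p q c t = (1 - 2 * t) * p + 2 * t * c := by
  unfold G1d_P
  rw [if_neg h, if_pos ht]

private theorem G1d_hi {str : Prop} (h : ¬ str) (p q c : ℝ) {t : ℝ} (ht : 1 / 2 < t) :
    G1d_P str p q c t = (2 - 2 * t) * c + (2 * t - 1) * q := by
  unfold G1d_P
  rw [if_neg h, if_neg (not_le.2 ht)]

private theorem G1d_contP (str : Prop) (p q c : ℝ) : Continuous (G1d_P str p q c) := by
  by_cases h : str
  · have h1 : G1d_P str p q c = fun t => (1 - t) * p + t * q := funext fun t => G1d_str h p q c t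
    rw [h1]
    fun_prop
  · have h1 : G1d_P str p q c = fun t => if t ≤ 1 / 2 then (1 - 2 * t) * p + 2 * t * c
        else (2 - 2 * t) * c + (2 * t - 1) * q := by
      funext t
      unfold G1d_P
      rw [if_neg h]
    rw [h1]
    refine Continuous.if_le (by fun_prop) (by fun_prop) continuous_id continuous_const ?_
    intro t ht
    have h2 : t = 1 / 2 := ht
    rw [h2]
    ring

private theorem G1d_P_zero (str : Prop) (p q c : ℝ) : G1d_P str p q c 0 = p := by
  by_cases h : str
  · rw [G1d_str h]
    ring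
  · rw [G1d_lo h _ _ _ (by norm_num)]
    ring

private theorem G1d_P_one (str : Prop) (p q c : ℝ) : G1d_P str p q c 1 = q := by
  by_cases h : str
  · rw [G1d_str h]
    ring
  · rw [G1d_hi h _ _ _ (by norm_num)]
    ring

open Classical in
/-- The curve. -/
private noncomputable def G1d_X (str : Prop) (p c : ℝ) (Y : ℝ → ℝ) (t : ℝ) : ℝ :=
  if t ≤ 1 then G1d_P str p (Y 0) c t else Y (t - 1)

private theorem G1d_contX (str : Prop) (p c : ℝ) {Y : ℝ → ℝ} (hY : Continuous Y) :
    Continuous (G1d_X str p c Y) := by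
  have h1 : G1d_X str p c Y = fun t => if t ≤ 1 then G1d_P str p (Y 0) c t else Y (t - 1) := rfl
  rw [h1]
  refine Continuous.if_le (G1d_contP str p (Y 0) c) (hY.comp (by fun_prop)) continuous_id
    continuous_const ?_
  intro t ht
  have h2 : t = 1 := ht
  rw [h2, G1d_P_one, sub_self]

private theorem G1d_idx {α : Type} (A M B : List α) {f : α → ℝ}
    (hf : ∀ (i : ℕ) (h : i < (A ++ M ++ B).length), f ((A ++ M ++ B)[i]) = (i : ℝ)) :
    (∀ l ∈ A, ∃ (j : ℕ) (hj : j < A.length), A[j] = l ∧ f l = j) ∧
    (∀ l ∈ M, ∃ (j : ℕ) (hj : j < M.length), M[j] = l ∧ f l = A.length + j) ∧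
    (∀ l ∈ B, ∃ (j : ℕ) (hj : j < B.length), B[j] = l ∧ f l = A.length + M.length + j) := by
  refine ⟨fun l hl => ?_, fun l hl => ?_, fun l hl => ?_⟩
  · obtain ⟨j, hj, rfl⟩ := List.mem_iff_getElem.1 hl
    refine ⟨j, hj, rfl, ?_⟩
    have h1 := hf j (by simp only [List.length_append]; omega)
    rwa [List.getElem_append_left (by simp only [List.length_append]; omega),
      List.getElem_append_left hj] at h1
  · obtain ⟨j, hj, rfl⟩ := List.mem_iff_getElem.1 hl
    refine ⟨j, hj, rfl, ?_⟩
    have h1 := hf (A.length + j) (by simp only [List.length_append]; omega)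
    rw [List.getElem_append_left (by simp only [List.length_append]; omega),
      List.getElem_append_right (by omega)] at h1
    simp only [Nat.add_sub_cancel_left] at h1
    rw [h1]
    push_cast
    ring
  · obtain ⟨j, hj, rfl⟩ := List.mem_iff_getElem.1 hl
    refine ⟨j, hj, rfl, ?_⟩
    have h1 := hf (A.length + M.length + j) (by simp only [List.length_append]; omega)
    rw [List.getElem_append_right (by simp only [List.length_append]; omega)] at h1
    simp only [List.length_append, Nat.add_sub_cancel_left] at h1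
    rw [h1]
    push_cast
    ring

/-- LEAF G1d. The first event processes `y`. `D` (the rest) starts with `S ∪ {y}`. New times: `τ y = 1/2`, `τ v = D.τ v + 1` for `v ≠ y` (as a function: `if v = y`),
`ξ y = |A| - 1/2`, `ξ v = D.ξ v` otherwise. Let `m = |Kx|`, `m' = |Ky|`. Positions for `t ∈ [0, 1]`:
* darts of `A` (index `j`): constant `j`;
* darts of `B` (`j`-th of `B`): linear from `|A| + m + j` (`t = 0`) to `|A| + m' + j` (`t = 1`);
* darts `(nb y k, k)`, `k` the `i`-th of `Kx`: linear from `|A| + i` at `t = 0` to `ξ y` at `t = 1/2`; they are complete and end here (their upper end is `y`);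
* darts `(y, k)`, `k` the `i`-th of `Ky`: linear from `ξ y` at `t = 1/2` to `|A| + i` at `t = 1` (index in the new list); `st = τ y = 1/2`.
For `t ≥ 1`: `D.X l (t - 1)`; darts in neither list: `D.X l 0` for `t ≤ 1`.
Order at the times of `(0, 1/2)`, `(1/2, 1)` and at `1/2`: `A` < (the darts of `Kx` resp. `Ky`, strictly ordered off `t = 1/2`) < `B`; at `t = 1/2`: the vertex `y` is at `|A| - 1/2`,
right of all of `A` (`≤ |A| - 1`) and left of all of `B` (`≥ |A| + (m + m')/2 + j ≥ |A|`). In the first half the `i`-th dart of `Kx` is at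
`(1 - 2t)(|A| + i) + 2t (|A| - 1/2)` and the `j`-th of `B` at `|A| + m + j + t (m' - m)`.
Completeness: a complete dart of the whole either ends at `y` (then it is one of the `(nb y k, k)`: its lower end is in `S`, because `y` is the first vertex processed; `nb y k ∈ S` gives `k ∈ Kx`
since `k ∈ Kx ++ Ky` and the darts of `Ky` have `nb y k ∉ S`), or its upper end is in `S' \ insert y S` and then it is complete in the rest: if its lower end is `y` it is `(y, k)` with `k ∈ Ky` or
`k ∈ Kx`, but `k ∈ Kx` means that the upper end is in `S`, impossible. `Dr.wf`, `Dr.alive` for the rest show which darts are in the new list. -/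
theorem drw_vert (A B : List (V × C)) (y : V) (Kx Ky : List C) (S S' : Set V) (cs : List ((V × C) × (V × C)))
    (L' : List (V × C)) (hy : y ∉ S) (h1 : (Kx ++ Ky).Nodup) (h2 : ∀ k, k ∈ Kx ++ Ky)
    (h3 : ∀ k ∈ Kx, Γ.nb y k ∈ S) (h4 : ∀ k ∈ Ky, Γ.nb y k ∉ S)
    (hw : WF Γ S (A ++ Kx.map (fun k => (Γ.nb y k, k)) ++ B))
    (h : Dr Γ (insert y S) (A ++ Ky.map (fun k => (y, k)) ++ B) cs S' L')
    (D : Drw Γ (insert y S) (A ++ Ky.map (fun k => (y, k)) ++ B) cs S') :
    Nonempty (Drw Γ S (A ++ Kx.map (fun k => (Γ.nb y k, k)) ++ B) cs S') := by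
  classical
  set M : List (V × C) := Kx.map (fun k => (Γ.nb y k, k)) with hM
  set M' : List (V × C) := Ky.map (fun k => (y, k)) with hM'
  have hS1 : insert y S ⊆ S' := h.subset
  have hyS' : y ∈ S' := hS1 (Set.mem_insert _ _)
  have hyD : y ∈ S' \ S := ⟨hyS', hy⟩
  set a : ℝ := (A.length : ℝ) with ha
  have hm0 : (0 : ℝ) ≤ M.length := Nat.cast_nonneg _
  have hm0' : (0 : ℝ) ≤ M'.length := Nat.cast_nonneg _
  let p : V × C → ℝ := fun l => ((A ++ M ++ B).idxOf l : ℝ)
  have hp : ∀ (i : ℕ) (h : i < (A ++ M ++ B).length), p ((A ++ M ++ B)[i]) = (i : ℝ) := by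
    intro i hi
    show (((A ++ M ++ B).idxOf ((A ++ M ++ B)[i]) : ℕ) : ℝ) = (i : ℝ)
    rw [hw.1.idxOf_getElem]
  obtain ⟨pA, pM, pB⟩ := G1d_idx A M B hp
  obtain ⟨qA, qM, qB⟩ := G1d_idx A M' B (f := fun l => D.X l 0) D.start
  let str : V × C → Prop := fun l => l ∈ A ∨ l ∈ B
  let τ : V → ℝ := fun v => if v = y then 1 / 2 else D.τ v + 1
  let ξ : V → ℝ := fun v => if v = y then a - 1 / 2 else D.ξ v
  let X : V × C → ℝ → ℝ := fun l => G1d_X (str l) (p l) (a - 1 / 2) (D.X l)
  have τy : τ y = 1 / 2 := if_pos rfl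
  have τn : ∀ v, v ≠ y → τ v = D.τ v + 1 := fun v hv => if_neg hv
  have ξy : ξ y = a - 1 / 2 := if_pos rfl
  have ξn : ∀ v, v ≠ y → ξ v = D.ξ v := fun v hv => if_neg hv
  have mem1 : ∀ v ∈ S' \ S, v ≠ y → v ∈ S' \ insert y S := by
    intro v hv hvy
    refine ⟨hv.1, fun h1 => ?_⟩
    rcases Set.mem_insert_iff.1 h1 with h2 | h2
    · exact hvy h2
    · exact hv.2 h2
  have τ1 : ∀ v ∈ S' \ S, v ≠ y → 1 < τ v := by
    intro v hv hvy
    rw [τn v hvy]
    have := D.tpos v (mem1 v hv hvy)
    linarith
  have XS : ∀ (l : V × C) (t : ℝ), 1 < t → X l t = D.X l (t - 1) := fun l t ht => if_neg (not_le.2 ht)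
  have XP : ∀ (l : V × C) (t : ℝ), t ≤ 1 → X l t = G1d_P (str l) (p l) (D.X l 0) (a - 1 / 2) t :=
    fun l t ht => if_pos ht
  have hMstr : ∀ l ∈ M, ¬ str l := by
    intro l hl h3
    have h4 := hw.1
    rcases h3 with h3 | h3
    · rw [List.append_assoc, List.nodup_append'] at h4
      exact h4.2.2 h3 (List.mem_append_left _ hl)
    · rw [List.nodup_append'] at h4
      exact h4.2.2 (List.mem_append_right _ hl) h3
  have hstrS : ∀ l, str l → l.1 ∈ S := by
    intro l hl
    refine (hw.2 l ?_).1
    rcases hl with hl | hl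
    · exact List.mem_append_left _ (List.mem_append_left _ hl)
    · exact List.mem_append_right _ hl
  have hM'1 : ∀ l ∈ M', l.1 = y := by
    intro l hl
    rw [hM', List.mem_map] at hl
    obtain ⟨k, _, rfl⟩ := hl
    rfl
  have hM'str : ∀ l, l.1 = y → ¬ str l := fun l hl h3 => hy (hl ▸ hstrS l h3)
  have hup : ∀ l : V × C, l.1 ∈ S → Γ.nb l.1 l.2 = y → l ∈ M := by
    intro l hl hu
    have h3 : Γ.nb y l.2 = l.1 := by rw [← hu, Γ.inv]
    have h4 : l.2 ∈ Kx := by
      rcases List.mem_append.1 (h2 l.2) with h5 | h5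
      · exact h5
      · exact absurd (h3 ▸ hl) (h4 l.2 h5)
    rw [hM, List.mem_map]
    exact ⟨l.2, h4, by rw [h3]⟩
  -- a complete dart whose upper end is not `y` is complete in the rest
  have tCp : ∀ l, Cp Γ S S' τ l → Γ.nb l.1 l.2 ≠ y → Cp Γ (insert y S) S' D.τ l := by
    intro l hl hu
    refine ⟨mem1 _ hl.1 hu, ?_⟩
    rcases hl.2 with h3 | ⟨h3, h4⟩
    · exact Or.inl (Set.mem_insert_of_mem _ h3)
    · by_cases h5 : l.1 = y
      · exact Or.inl (h5 ▸ Set.mem_insert _ _)
      · refine Or.inr ⟨mem1 _ h3 h5, ?_⟩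
        rw [τn _ h5, τn _ hu] at h4
        linarith
  have yCp : ∀ l, Cp Γ S S' τ l → Γ.nb l.1 l.2 = y → l.1 ∈ S ∧ l ∈ M := by
    intro l hl hu
    have h3 : l.1 ∈ S := by
      rcases hl.2 with h3 | ⟨h3, h4⟩
      · exact h3
      · rw [hu, τy] at h4
        have h5 : l.1 ≠ y := by
          intro h5
          apply Γ.ne l.1 l.2
          rw [hu, h5]
        have := τ1 _ h3 h5
        linarith
    exact ⟨h3, hup l h3 hu⟩
  have alv : ∀ l, Cp Γ S S' τ l → Γ.nb l.1 l.2 ≠ y → (l.1 ∈ S ∨ l.1 = y) → l ∈ A ++ M' ++ B := by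
    intro l hl hu h3
    have h4 := mem1 _ hl.1 hu
    refine h.alive (x := l.1) (k := l.2) ?_ h4.1 h4.2
    rcases h3 with h3 | h3
    · exact Set.mem_insert_of_mem _ h3
    · exact h3 ▸ Set.mem_insert _ _
  have low : ∀ l, Cp Γ S S' τ l → l.1 ∉ S → l.1 ∈ S' \ S := by
    intro l hl h3
    rcases hl.2 with h4 | h4
    · exact absurd h4 h3
    · exact h4.1
  have stS : ∀ l : V × C, l.1 ∈ S → st S τ l = 0 := by
    intro l hl
    unfold st
    rw [if_pos hl]
  have stN : ∀ l : V × C, l.1 ∉ S → st S τ l = τ l.1 := by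
    intro l hl
    unfold st
    rw [if_neg hl]
  have stD : ∀ l, Cp Γ S S' τ l → ∀ t, 0 < t → st S τ l < t + 1 → st (insert y S) D.τ l < t := by
    intro l hl t ht h3
    unfold st
    split_ifs with h4
    · exact ht
    · have h5 : l.1 ∉ S := fun h5 => h4 (Set.mem_insert_of_mem _ h5)
      have h6 : l.1 ≠ y := fun h6 => h4 (h6 ▸ Set.mem_insert _ _)
      rw [stN l h5, τn _ h6] at h3
      linarith
  -- the classes of the darts which are present at a time `t ≤ 1`
  set c : ℝ → ℝ := fun t => a + (1 - t) * M.length + t * M'.length with hc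
  have cls : ∀ l, Cp Γ S S' τ l → ∀ t, 0 < t → t ≤ 1 → st S τ l < t → t < τ (Γ.nb l.1 l.2) →
      (∃ (j : ℕ) (hj : j < A.length), A[j] = l ∧ X l t = j ∧ (j : ℝ) ≤ a - 1) ∨
      (∃ (j : ℕ) (hj : j < B.length), B[j] = l ∧ X l t = c t + j) ∨
      (t < 1 / 2 ∧ ∃ (j : ℕ) (hj : j < M.length), M[j] = l ∧ X l t = a - t + (1 - 2 * t) * j ∧
        (j : ℝ) ≤ M.length - 1) ∨
      (1 / 2 < t ∧ ∃ (j : ℕ) (hj : j < M'.length), M'[j] = l ∧
        X l t = a - (1 - t) + (2 * t - 1) * j ∧ (j : ℝ) ≤ M'.length - 1) := by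
    intro l hl t ht0 ht1 h3 h5
    by_cases hu : Γ.nb l.1 l.2 = y
    · obtain ⟨h6, h7⟩ := yCp l hl hu
      rw [hu, τy] at h5
      obtain ⟨j, hj, e1, e2⟩ := pM l h7
      refine Or.inr (Or.inr (Or.inl ⟨h5, j, hj, e1, ?_, ?_⟩))
      · rw [XP l t ht1, G1d_lo (hMstr l h7) _ _ _ h5.le, e2, ← ha]
        ring
      · have : (j : ℝ) + 1 ≤ M.length := by exact_mod_cast hj
        linarith
    · have h6 : l.1 ∈ S ∨ l.1 = y := by
        by_contra h7
        push Not at h7
        have h8 := τ1 _ (low l hl h7.1) h7.2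
        rw [stN l h7.1] at h3
        linarith
      have h7 := alv l hl hu h6
      rcases List.mem_append.1 h7 with h8 | h8
      · rcases List.mem_append.1 h8 with h9 | h9
        · obtain ⟨j, hj, e1, e2⟩ := pA l h9
          obtain ⟨j', hj', e1', e2'⟩ := qA l h9
          refine Or.inl ⟨j, hj, e1, ?_, ?_⟩
          · have e3 : j' = j := by
              have h10 : A.Nodup := by
                have h11 := hw.1
                rw [List.append_assoc, List.nodup_append'] at h11
                exact h11.1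
              exact h10.getElem_inj_iff.1 (e1'.trans e1.symm)
            rw [XP l t ht1, G1d_str (Or.inl h9), e2]
            rw [e2', e3]
            ring
          · have : (j : ℝ) + 1 ≤ A.length := by exact_mod_cast hj
            rw [ha]
            linarith
        · have h10 := hM'1 l h9
          obtain ⟨j, hj, e1, e2⟩ := qM l h9
          have h11 : 1 / 2 < t := by
            rwa [stN l (h10 ▸ hy), h10, τy] at h3
          refine Or.inr (Or.inr (Or.inr ⟨h11, j, hj, e1, ?_, ?_⟩))
          · rw [XP l t ht1, G1d_hi (hM'str l h10) _ _ _ h11, e2, ← ha]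
            ring
          · have : (j : ℝ) + 1 ≤ M'.length := by exact_mod_cast hj
            linarith
      · obtain ⟨j, hj, e1, e2⟩ := pB l h8
        obtain ⟨j', hj', e1', e2'⟩ := qB l h8
        refine Or.inr (Or.inl ⟨j, hj, e1, ?_⟩)
        have e3 : j' = j := by
          have h10 : B.Nodup := by
            have h11 := hw.1
            rw [List.nodup_append'] at h11
            exact h11.2.1
          exact h10.getElem_inj_iff.1 (e1'.trans e1.symm)
        rw [XP l t ht1, G1d_str (Or.inr h8), e2]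
        rw [e2', e3, hc, ← ha]
        ring
  refine ⟨⟨τ, ξ, X, fun l => G1d_contX _ _ _ (D.cont l), ?_, ?_, ?_, ?_, ?_, ?_, ?_⟩⟩
  · -- tpos
    intro v hv
    by_cases hvy : v = y
    · rw [hvy, τy]
      norm_num
    · have := τ1 v hv hvy
      linarith
  · -- tinj
    intro v hv w hw' hvw
    by_cases hvy : v = y
    · by_cases hwy : w = y
      · rw [hvy, hwy]
      · have h3 := τ1 w hw' hwy
        rw [hvy, τy] at hvw
        linarith
    · by_cases hwy : w = y
      · have h3 := τ1 v hv hvy
        rw [hwy, τy] at hvw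
        linarith
      · rw [τn v hvy, τn w hwy] at hvw
        exact D.tinj (mem1 v hv hvy) (mem1 w hw' hwy) (by linarith)
  · -- start
    intro i hi
    rw [XP _ _ zero_le_one, G1d_P_zero]
    exact hp i hi
  · -- fin
    intro l hl
    by_cases hu : Γ.nb l.1 l.2 = y
    · obtain ⟨_, h7⟩ := yCp l hl hu
      rw [hu, τy, ξy, XP l _ (by norm_num), G1d_lo (hMstr l h7) _ _ _ le_rfl]
      ring
    · rw [ξn _ hu, τn _ hu]
      have h3 := D.tpos _ (mem1 _ hl.1 hu)
      rw [XS l _ (by linarith), add_sub_cancel_right]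
      exact D.fin l (tCp l hl hu)
  · -- beg
    intro l hl h3
    by_cases h4 : l.1 = y
    · rw [h4, τy, ξy, XP l _ (by norm_num), G1d_lo (hM'str l h4) _ _ _ le_rfl]
      ring
    · have h5 := low l hl h3
      have hu : Γ.nb l.1 l.2 ≠ y := fun hu => h3 (yCp l hl hu).1
      have h6 := D.tpos _ (mem1 _ h5 h4)
      rw [ξn _ h4, τn _ h4, XS l _ (by linarith), add_sub_cancel_right]
      exact D.beg l (tCp l hl hu) fun h7 => by
        rcases Set.mem_insert_iff.1 h7 with h8 | h8
        · exact h4 h8
        · exact h3 h8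
  · -- vtx
    intro l hl v hv h3 h5
    by_cases hvy : v = y
    · rw [hvy, τy] at h3 h5 ⊢
      rw [ξy]
      rcases cls l hl (1 / 2) (by norm_num) (by norm_num) h3 h5 with
        ⟨j, _, _, e1, e2⟩ | ⟨j, _, _, e1⟩ | ⟨e0, _⟩ | ⟨e0, _⟩
      · rw [e1]
        intro h6
        linarith
      · rw [e1, hc]
        intro h6
        have : (0 : ℝ) ≤ j := Nat.cast_nonneg j
        simp only at h6
        linarith
      · exact absurd e0 (lt_irrefl _)
      · exact absurd e0 (lt_irrefl _)
    · have h6 := τ1 v hv hvy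
      have hu : Γ.nb l.1 l.2 ≠ y := by
        intro hu
        rw [hu, τy] at h5
        linarith
      have h7 := D.tpos _ (mem1 v hv hvy)
      rw [XS l _ h6, ξn v hvy, τn v hvy, add_sub_cancel_right]
      refine D.vtx l (tCp l hl hu) v (mem1 v hv hvy) (stD l hl _ h7 ?_) ?_
      · rwa [τn v hvy] at h3
      · rw [τn v hvy, τn _ hu] at h5
        linarith
  · -- crs
    intro l l' hl hl' hne t h3 h5 h3' h5' hX
    rcases lt_or_ge 1 t with ht | ht
    · have hu : ∀ l, Cp Γ S S' τ l → t < τ (Γ.nb l.1 l.2) → Γ.nb l.1 l.2 ≠ y := by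
        intro l _ h6 hu
        rw [hu, τy] at h6
        linarith
      have hul := hu l hl h5
      have hul' := hu l' hl' h5'
      rw [XS l t ht, XS l' t ht] at hX
      refine D.crs l l' (tCp l hl hul) (tCp l' hl' hul') hne (t - 1)
        (stD l hl _ (by linarith) (by rwa [sub_add_cancel])) ?_
        (stD l' hl' _ (by linarith) (by rwa [sub_add_cancel])) ?_ hX
      · rw [τn _ hul] at h5
        linarith
      · rw [τn _ hul'] at h5'
        linarith
    · exfalso
      have ht0 : 0 < t := by
        by_cases h6 : l.1 ∈ S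
        · rwa [stS l h6] at h3
        · rw [stN l h6] at h3
          have h7 : 0 < τ l.1 := by
            by_cases h8 : l.1 = y
            · rw [h8, τy]
              norm_num
            · have := τ1 _ (low l hl h6) h8
              linarith
          linarith
      have hac : a ≤ c t := by
        rw [hc]
        simp only
        have e1 : 0 ≤ (1 - t) * M.length := mul_nonneg (by linarith) hm0
        have e2 : 0 ≤ t * M'.length := mul_nonneg ht0.le hm0'
        linarith
      have hmid : ∀ j : ℕ, (j : ℝ) ≤ M.length - 1 → t < 1 / 2 →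
          a - 1 < a - t + (1 - 2 * t) * j ∧ a - t + (1 - 2 * t) * j < c t := by
        intro j hj h6
        have e0 : (0 : ℝ) ≤ j := Nat.cast_nonneg j
        have e1 : 0 ≤ (1 - 2 * t) * j := mul_nonneg (by linarith) e0
        have e2 : (1 - 2 * t) * j ≤ (1 - t) * M.length := by
          refine (mul_le_mul_of_nonneg_left (by linarith : (j : ℝ) ≤ M.length) (by linarith)).trans ?_
          exact mul_le_mul_of_nonneg_right (by linarith) hm0
        have e3 : 0 ≤ t * M'.length := mul_nonneg ht0.le hm0'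
        rw [hc]
        simp only
        constructor <;> linarith
      have hmid' : ∀ j : ℕ, (j : ℝ) ≤ M'.length - 1 → 1 / 2 < t →
          a - 1 < a - (1 - t) + (2 * t - 1) * j ∧ a - (1 - t) + (2 * t - 1) * j < c t := by
        intro j hj h6
        have e0 : (0 : ℝ) ≤ j := Nat.cast_nonneg j
        have e1 : 0 ≤ (2 * t - 1) * j := mul_nonneg (by linarith) e0
        have e2 : (2 * t - 1) * j ≤ t * (M'.length - 1) := by
          refine (mul_le_mul_of_nonneg_left hj (by linarith)).trans ?_
          exact mul_le_mul_of_nonneg_right (by linarith) (by linarith)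
        have e3 : 0 ≤ (1 - t) * M.length := mul_nonneg (by linarith) hm0
        rw [hc]
        simp only
        constructor <;> linarith
      have c1 := cls l hl t ht0 ht h3 h5
      have c2 := cls l' hl' t ht0 ht h3' h5'
      rw [hX] at c1
      rcases c1 with ⟨j, hj, e1, e2, e3⟩ | ⟨j, hj, e1, e2⟩ | ⟨e0, j, hj, e1, e2, e3⟩ |
        ⟨e0, j, hj, e1, e2, e3⟩ <;>
      rcases c2 with ⟨j', hj', f1, f2, f3⟩ | ⟨j', hj', f1, f2⟩ | ⟨f0, j', hj', f1, f2, f3⟩ |
        ⟨f0, j', hj', f1, f2, f3⟩
      · have e4 : j = j' := by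
          have : (j : ℝ) = j' := by linarith
          exact_mod_cast this
        subst e4
        exact hne (e1.symm.trans f1)
      · have : (0 : ℝ) ≤ j' := Nat.cast_nonneg j'
        linarith
      · have := hmid j' f3 f0
        linarith
      · have := hmid' j' f3 f0
        linarith
      · have : (0 : ℝ) ≤ j := Nat.cast_nonneg j
        linarith
      · have e4 : j = j' := by
          have : (j : ℝ) = j' := by linarith
          exact_mod_cast this
        subst e4
        exact hne (e1.symm.trans f1)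
      · have := hmid j' f3 f0
        have : (0 : ℝ) ≤ j := Nat.cast_nonneg j
        linarith
      · have := hmid' j' f3 f0
        have : (0 : ℝ) ≤ j := Nat.cast_nonneg j
        linarith
      · have := hmid j e3 e0
        linarith
      · have := hmid j e3 e0
        have : (0 : ℝ) ≤ j' := Nat.cast_nonneg j'
        linarith
      · have e4 : j = j' := by
          have h6 : (1 - 2 * t) * (j : ℝ) = (1 - 2 * t) * j' := by linarith
          have : (j : ℝ) = j' := mul_left_cancel₀ (by linarith) h6
          exact_mod_cast this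
        subst e4
        exact hne (e1.symm.trans f1)
      · linarith
      · have := hmid' j e3 e0
        linarith
      · have := hmid' j e3 e0
        have : (0 : ℝ) ≤ j' := Nat.cast_nonneg j'
        linarith
      · linarith
      · have e4 : j = j' := by
          have h6 : (2 * t - 1) * (j : ℝ) = (2 * t - 1) * j' := by linarith
          have : (j : ℝ) = j' := mul_left_cancel₀ (by linarith) h6
          exact_mod_cast this
        subst e4
        exact hne (e1.symm.trans f1)

end KPl
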