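import Pool.Agent.Lib.MP_d3a5e5_coK.GDefs

set_option autoImplicit false

namespace KPl

open QPl

variable {V C : Type} {Γ : CGr V C}

/-- LEAF G1a. No vertex is processed: `S' \ S = ∅`, so all fields except `start` are vacuous. `X l` = the constant (index of `l` in `L`)
(`L` has no repetitions). -/
theorem drw_refl (S : Set V) (L : List (V × C)) (hw : WF Γ S L) : Nonempty (Drw Γ S L [] S) := by
  classical
  have hno : ∀ v : V, v ∉ S \ S := fun v hv => hv.2 hv.1
  exact ⟨{
    τ := fun _ => 0
    ξ := fun _ => 0
    X := fun l _ => (L.idxOf l : ℝ)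
    cont := fun _ => continuous_const
    tpos := fun v hv => absurd hv (hno v)
    tinj := fun v hv => absurd hv (hno v)
    start := fun i h => by
      have h1 : L.idxOf L[i] = i := List.Nodup.idxOf_getElem hw.1 i h
      show ((L.idxOf L[i] : ℕ) : ℝ) = (i : ℝ)
      rw [h1]
    fin := fun l hl => absurd hl.1 (hno _)
    beg := fun l hl => absurd hl.1 (hno _)
    vtx := fun l hl => absurd hl.1 (hno _)
    crs := fun l _ hl => absurd hl.1 (hno _) }⟩

end KPl
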