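import Pool.Agent.Lib.MP_d3a5e5_coK.G1

set_option autoImplicit false

namespace KPl

open QPl

variable {V C : Type} {Γ : CGr V C}

/-- LEAF G2a (easy). Induction on the derivation with `drw_refl`, `drw_cross`, `drw_kill`, `drw_vert`; `Dr.wf` for the one-step derivations. -/
theorem exists_drw {S S' : Set V} {L L' : List (V × C)} {cs : List ((V × C) × (V × C))} (h : Dr Γ S L cs S' L')
    (hw : WF Γ S L) : Nonempty (Drw Γ S L cs S') := by
  induction h with
  | refl S L => exact drw_refl S L hw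
  | cross A B a b S cs S' L' h ih =>
    have hw' : WF Γ S (A ++ b :: a :: B) := (Dr.cross A B a b S [] S _ (Dr.refl S _)).wf hw
    obtain ⟨D⟩ := ih hw'
    exact drw_cross A B a b S S' cs L' hw h D
  | kill A B a S cs S' L' h ih =>
    have hw' : WF Γ S (A ++ B) := (Dr.kill A B a S [] S _ (Dr.refl S _)).wf hw
    obtain ⟨D⟩ := ih hw'
    exact drw_kill A B a S S' cs L' hw h D
  | vert A B y Kx Ky S cs S' L' hy h1 h2 h3 h4 h ih =>
    have hw' : WF Γ (insert y S) (A ++ Ky.map (fun k => (y, k)) ++ B) :=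
      (Dr.vert A B y Kx Ky S [] (insert y S) _ hy h1 h2 h3 h4 (Dr.refl (insert y S) _)).wf hw
    obtain ⟨D⟩ := ih hw'
    exact drw_vert A B y Kx Ky S S' cs L' hy h1 h2 h3 h4 hw h D

end KPl
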