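import Pool.Agent.Lib.MP_d3a5e5_coK.K1

set_option autoImplicit false

namespace KPl

open QPl

variable {V C : Type}

/-- The dart `l` is complete in the part of the drawing in which the vertices of `S' \ S` are processed at the times `τ`: its upper end is
processed in this part, its lower end was processed before. -/
def Cp (Γ : CGr V C) (S S' : Set V) (τ : V → ℝ) (l : V × C) : Prop :=
  Γ.nb l.1 l.2 ∈ S' \ S ∧ (l.1 ∈ S ∨ (l.1 ∈ S' \ S ∧ τ l.1 < τ (Γ.nb l.1 l.2)))

open Classical in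
/-- The starting time of a dart: `0` if the lower end is processed before. -/
noncomputable def st (S : Set V) (τ : V → ℝ) (l : V × C) : ℝ := if l.1 ∈ S then 0 else τ l.1

/-- A drawing of a derivation by monotone curves. Time is the second coordinate; the vertex `v` is at `(ξ v, τ v)`, the dart `l` is at
`(X l t, t)` at the time `t`, between its starting time and the time of its upper end. At the time 0 the alive darts are at the positions
`0, 1, 2, ...` (their index in the list). -/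
structure Drw (Γ : CGr V C) (S : Set V) (L : List (V × C)) (cs : List ((V × C) × (V × C))) (S' : Set V) where
  τ : V → ℝ
  ξ : V → ℝ
  X : V × C → ℝ → ℝ
  cont : ∀ l, Continuous (X l)
  tpos : ∀ v ∈ S' \ S, 0 < τ v
  tinj : Set.InjOn τ (S' \ S)
  start : ∀ (i : ℕ) (h : i < L.length), X (L[i]) 0 = (i : ℝ)
  fin : ∀ l, Cp Γ S S' τ l → X l (τ (Γ.nb l.1 l.2)) = ξ (Γ.nb l.1 l.2)
  beg : ∀ l, Cp Γ S S' τ l → l.1 ∉ S → X l (τ l.1) = ξ l.1
  vtx : ∀ l, Cp Γ S S' τ l → ∀ v ∈ S' \ S, st S τ l < τ v → τ v < τ (Γ.nb l.1 l.2) → X l (τ v) ≠ ξ v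
  crs : ∀ l l', Cp Γ S S' τ l → Cp Γ S S' τ l' → l ≠ l' → ∀ t, st S τ l < t → t < τ (Γ.nb l.1 l.2) →
    st S τ l' < t → t < τ (Γ.nb l'.1 l'.2) → X l t = X l' t → (l, l') ∈ cs ∨ (l', l) ∈ cs

end KPl
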