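import Pool.Agent.Lib.MP_d3a5e5_coK.Defs
import Pool.Agent.Lib.MP_d3a5e5_co.T0
import Pool.Agent.Lib.MP_d3a5e5_co.A4
import Pool.Agent.Lib.MP_d3a5e5_co.A5

set_option autoImplicit false

namespace KPl

open QPl Finsupp

/-- The value of the 1-chain `a` on the edge from `z` to the right. -/
def vR (a : C1) (z : Pt) : ZMod 2 := a (z, false)
/-- The value of the 1-chain `a` on the edge from `z` down. -/
def vD (a : C1) (z : Pt) : ZMod 2 := a ((z.1, z.2 - 1), true)

end KPl
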