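import Pool.Agent.Lib.MP_d3a5e5_coK.H1Defs

set_option autoImplicit false

namespace KPl

open QPl Finsupp

private def H1a_U (a : C1) (z : Pt) : ZMod 2 := a (z, true)

private def H1a_L (a : C1) (z : Pt) : ZMod 2 := a ((z.1 - 1, z.2), false)

private theorem H1a_bd (a : C1) (z : Pt) :
    bd a z = vR a z + H1a_U a z + H1a_L a z + vD a z := by
  unfold vR vD H1a_U H1a_L
  induction a using Finsupp.induction_linear with
  | zero => simp
  | add f g hf hg =>
    rw [map_add, Finsupp.add_apply, hf, hg, Finsupp.add_apply, Finsupp.add_apply, Finsupp.add_apply,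
      Finsupp.add_apply]
    ring
  | single g c =>
    obtain ⟨⟨x, y⟩, b⟩ := g
    obtain ⟨u, v⟩ := z
    unfold bd
    rw [Finsupp.linearCombination_single, Finsupp.smul_apply, Finsupp.add_apply, smul_eq_mul]
    unfold pt tgt
    simp only [Finsupp.single_apply, Prod.mk.injEq]
    cases b
    · have e1 : ((if false = true then (x, y + 1) else (x + 1, y)) = (u, v)) ↔ (x = u - 1 ∧ y = v) := by
        rw [if_neg Bool.false_ne_true, Prod.mk.injEq]
        omega
      have e2 : ∀ Q : Prop, (Q ∧ false = false) ↔ Q := fun Q => and_iff_left rfl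
      have e3 : ∀ Q : Prop, (Q ∧ false = true) ↔ False := fun Q =>
        ⟨fun h => Bool.false_ne_true h.2, False.elim⟩
      rw [if_congr e1 rfl rfl, if_congr (e2 _) rfl rfl, if_congr (e3 _) rfl rfl,
        if_congr (e2 _) rfl rfl, if_congr (e3 _) rfl rfl, if_false, mul_add, mul_ite,
        mul_ite, mul_one, mul_zero]
      ring
    · have e1 : ((if true = true then (x, y + 1) else (x + 1, y)) = (u, v)) ↔ (x = u ∧ y = v - 1) := by
        rw [if_pos rfl, Prod.mk.injEq]
        omega
      have e2 : ∀ Q : Prop, (Q ∧ true = true) ↔ Q := fun Q => and_iff_left rfl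
      have e3 : ∀ Q : Prop, (Q ∧ true = false) ↔ False := fun Q =>
        ⟨fun h => Bool.false_ne_true h.2.symm, False.elim⟩
      rw [if_congr e1 rfl rfl, if_congr (e3 _) rfl rfl, if_congr (e2 _) rfl rfl,
        if_congr (e3 _) rfl rfl, if_congr (e2 _) rfl rfl, if_false, mul_add, mul_ite,
        mul_ite, mul_one, mul_zero]
      ring

private theorem H1a_I0 (g h : GE) :
    I0 g h = if h = (if g.2 = false then ((g.1.1, g.1.2 - 1), true) else ((g.1.1 - 1, g.1.2), false))
      then 1 else 0 := by
  obtain ⟨⟨x, y⟩, b⟩ := g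
  obtain ⟨⟨u, v⟩, d⟩ := h
  unfold I0
  cases b <;> cases d <;> simp

private theorem H1a_II (a b : C1) (Z : Finset Pt) (hZ : ∀ g, a g ≠ 0 → g.1 ∈ Z) :
    II a b = ∑ z ∈ Z, (vR a z * vD b z + H1a_U a z * H1a_L b z) := by
  have h1 : ∀ g : GE, ∑ h ∈ b.support, b h * I0 g h =
      if g.2 = false then vD b g.1 else H1a_L b g.1 := by
    intro g
    have h2 : ∀ h : GE, b h * I0 g h = if h = (if g.2 = false then ((g.1.1, g.1.2 - 1), true)
        else ((g.1.1 - 1, g.1.2), false)) then b h else 0 := by
      intro h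
      rw [H1a_I0, mul_ite, mul_one, mul_zero]
    rw [Finset.sum_congr rfl fun h _ => h2 h, Finset.sum_ite_eq' (b.support)]
    unfold vD H1a_L
    by_cases hg : g.2 = false
    · simp only [if_pos hg]
      split_ifs with h3
      · rfl
      · rw [Finsupp.mem_support_iff, not_not] at h3
        exact h3.symm
    · simp only [if_neg hg]
      split_ifs with h3
      · rfl
      · rw [Finsupp.mem_support_iff, not_not] at h3
        exact h3.symm
  rw [A5_aux2, Finset.sum_congr rfl fun g _ => by rw [h1 g]]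
  have h3 : a.support ⊆ Z ×ˢ (Finset.univ : Finset Bool) := by
    intro g hg
    rw [Finsupp.mem_support_iff] at hg
    exact Finset.mem_product.2 ⟨hZ g hg, Finset.mem_univ _⟩
  rw [Finset.sum_subset h3 fun g _ hg => by
    rw [Finsupp.mem_support_iff, not_not] at hg
    rw [hg, zero_mul]]
  rw [Finset.sum_product]
  refine Finset.sum_congr rfl fun z _ => ?_
  rw [Fintype.sum_bool, add_comm]
  rfl

private theorem H1a_shift (f : Pt → ZMod 2) (Z : Finset Pt) (v : Pt) (h1 : ∀ z, f z ≠ 0 → z ∈ Z)
    (h2 : ∀ z, f z ≠ 0 → z + v ∈ Z) : ∑ z ∈ Z, f (z - v) = ∑ z ∈ Z, f z := by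
  have h3 : Function.support f ⊆ ↑Z := fun z hz => h1 z hz
  have h4 : (Function.support fun z => f (z - v)) ⊆ ↑Z := by
    intro z hz
    have h5 := h2 (z - v) hz
    rw [sub_add_cancel] at h5
    exact h5
  rw [← finsum_eq_sum_of_support_subset f h3, ← finsum_eq_sum_of_support_subset _ h4]
  exact finsum_comp_equiv (Equiv.subRight v)

/-- LEAF H1a. The symmetry defect of the crossing form:
`II a b + II b a = Σ_z [ ∂b(z) (a_R + a_D)(z) + ∂a(z) (b_R + b_D)(z) + ∂a(z) ∂b(z) ]`.
Both sides are bilinear (note that `z ↦ ∂a(z) ∂b(z)` etc. have finite support), so it is enough to check single edges `a = single g 1`, `b = single h 1`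
(`Finsupp.induction_linear` twice). `bd (single g 1) = pt g.1 + pt (tgt g)`. `I0 g h = 1` iff `g`, `h` have a common vertex `z` and (`g` is the right edge and `h` the down edge at `z`) or
(`g` is the up edge and `h` the left edge at `z`). If `g`, `h` have no common vertex both sides are 0. If `g = h` the left side is 0 and the two ends give `1 + 1 + 1` and `0 + 0 + 1`, sum 0 (for `g` horizontal; for `g` vertical: the upper end
sees the down edge). If they have exactly one common vertex `z` the right side is `(a_R + a_D)(z) + (b_R + b_D)(z) + 1`, which is 1 iff the edges are {right, down} or {up, left} at `z`. -/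
theorem II_symm_defect (a b : C1) :
    II a b + II b a = (bd b).sum (fun z c => c * (vR a z + vD a z)) + (bd a).sum (fun z c => c * (vR b z + vD b z)) +
      (bd a).sum (fun z c => c * bd b z) := by
  classical
  set S : Finset GE := a.support ∪ b.support with hS
  set Z : Finset Pt := S.image Prod.fst ∪ S.image tgt with hZ
  have hZa : ∀ g, a g ≠ 0 → g.1 ∈ Z ∧ tgt g ∈ Z := by
    intro g hg
    have h1 : g ∈ S := Finset.mem_union_left _ (Finsupp.mem_support_iff.2 hg)
    exact ⟨Finset.mem_union_left _ (Finset.mem_image_of_mem _ h1),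
      Finset.mem_union_right _ (Finset.mem_image_of_mem _ h1)⟩
  have hZb : ∀ g, b g ≠ 0 → g.1 ∈ Z ∧ tgt g ∈ Z := by
    intro g hg
    have h1 : g ∈ S := Finset.mem_union_right _ (Finsupp.mem_support_iff.2 hg)
    exact ⟨Finset.mem_union_left _ (Finset.mem_image_of_mem _ h1),
      Finset.mem_union_right _ (Finset.mem_image_of_mem _ h1)⟩
  have hbd : ∀ c : C1, (∀ g, c g ≠ 0 → g.1 ∈ Z ∧ tgt g ∈ Z) → (bd c).support ⊆ Z := by
    intro c hc z hz
    rw [Finsupp.mem_support_iff, H1a_bd] at hz
    by_contra hn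
    apply hz
    have h1 : vR c z = 0 := by
      by_contra h
      exact hn (hc _ h).1
    have h2 : H1a_U c z = 0 := by
      by_contra h
      exact hn (hc _ h).1
    have h3 : H1a_L c z = 0 := by
      by_contra h
      have h4 := (hc _ h).2
      unfold tgt at h4
      rw [if_neg Bool.false_ne_true] at h4
      have h5 : (z.1 - 1 + 1, z.2) = z := by
        rw [sub_add_cancel]
      exact hn (h5 ▸ h4)
    have h4 : vD c z = 0 := by
      by_contra h
      have h4 := (hc _ h).2
      unfold tgt at h4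
      rw [if_pos rfl] at h4
      have h5 : (z.1, z.2 - 1 + 1) = z := by
        rw [sub_add_cancel]
      exact hn (h5 ▸ h4)
    rw [h1, h2, h3, h4]
    simp
  have hh : ∑ z ∈ Z, H1a_L a z * H1a_L b z = ∑ z ∈ Z, vR a z * vR b z := by
    have h1 := H1a_shift (fun z => vR a z * vR b z) Z (1, 0)
      (fun z hz => (hZa _ (left_ne_zero_of_mul hz)).1)
      (fun z hz => by
        have h2 := (hZa _ (left_ne_zero_of_mul hz)).2
        unfold tgt at h2
        rw [if_neg Bool.false_ne_true] at h2
        have h3 : z + (1, 0) = (z.1 + 1, z.2) := by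
          ext <;> simp
        rw [h3]
        exact h2)
    rw [← h1]
    refine Finset.sum_congr rfl fun z _ => ?_
    have h3 : z - (1, 0) = (z.1 - 1, z.2) := by
      ext <;> simp
    show _ = vR a (z - (1, 0)) * vR b (z - (1, 0))
    rw [h3]
    rfl
  have hv : ∑ z ∈ Z, vD a z * vD b z = ∑ z ∈ Z, H1a_U a z * H1a_U b z := by
    have h1 := H1a_shift (fun z => H1a_U a z * H1a_U b z) Z (0, 1)
      (fun z hz => (hZa _ (left_ne_zero_of_mul hz)).1)
      (fun z hz => by
        have h2 := (hZa _ (left_ne_zero_of_mul hz)).2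
        unfold tgt at h2
        rw [if_pos rfl] at h2
        have h3 : z + (0, 1) = (z.1, z.2 + 1) := by
          ext <;> simp
        rw [h3]
        exact h2)
    rw [← h1]
    refine Finset.sum_congr rfl fun z _ => ?_
    have h3 : z - (0, 1) = (z.1, z.2 - 1) := by
      ext <;> simp
    show _ = H1a_U a (z - (0, 1)) * H1a_U b (z - (0, 1))
    rw [h3]
    rfl
  have hs : ∀ (c : C0) (f : Pt → ZMod 2), c.support ⊆ Z →
      c.sum (fun z x => x * f z) = ∑ z ∈ Z, c z * f z :=
    fun c f hc => Finsupp.sum_of_support_subset c hc _ (fun z _ => zero_mul _)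
  rw [H1a_II a b Z fun g hg => (hZa g hg).1, H1a_II b a Z fun g hg => (hZb g hg).1,
    hs (bd b) (fun z => vR a z + vD a z) (hbd b hZb),
    hs (bd a) (fun z => vR b z + vD b z) (hbd a hZa),
    hs (bd a) (fun z => bd b z) (hbd a hZa)]
  have h2 : (2 : ZMod 2) = 0 := by decide
  have hkey : ∑ z ∈ Z, bd b z * (vR a z + vD a z) + ∑ z ∈ Z, bd a z * (vR b z + vD b z) +
      ∑ z ∈ Z, bd a z * bd b z =
      (∑ z ∈ Z, (vR a z * vD b z + H1a_U a z * H1a_L b z) +
        ∑ z ∈ Z, (vR b z * vD a z + H1a_U b z * H1a_L a z)) +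
      ((∑ z ∈ Z, vR a z * vR b z + ∑ z ∈ Z, H1a_L a z * H1a_L b z) +
        (∑ z ∈ Z, H1a_U a z * H1a_U b z + ∑ z ∈ Z, vD a z * vD b z)) := by
    simp only [← Finset.sum_add_distrib]
    refine Finset.sum_congr rfl fun z _ => ?_
    rw [H1a_bd, H1a_bd]
    linear_combination ((vR a z + vD a z) * (vR b z + vD b z) +
      (vR a z + vD a z) * (H1a_U b z + H1a_L b z) +
      (H1a_U a z + H1a_L a z) * (vR b z + vD b z)) * h2
  rw [hkey, hh, hv]
  linear_combination (-(∑ z ∈ Z, vR a z * vR b z) - ∑ z ∈ Z, H1a_U a z * H1a_U b z) * h2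

end KPl
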