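import Pool.Agent.Lib.MP_d3a5e5_coK.H1a

set_option autoImplicit false

namespace KPl

open QPl Finsupp

private theorem H1b_sum (y z : Pt) (f : Pt → ZMod 2) :
    (pt y + pt z).sum (fun w c => c * f w) = f y + f z := by
  rw [Finsupp.sum_add_index' (fun w => zero_mul _) (fun w b c => add_mul _ _ _)]
  unfold pt
  rw [Finsupp.sum_single_index (zero_mul _), Finsupp.sum_single_index (zero_mul _), one_mul, one_mul]

private theorem H1b_vR (a b : C1) (z : Pt) : vR (a + b) z = vR a z + vR b z := rfl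

private theorem H1b_vD (a b : C1) (z : Pt) : vD (a + b) z = vD a z + vD b z := rfl

private theorem H1b_pt {y z : Pt} (h : y ≠ z) : pt y z = 0 := by
  unfold pt
  exact Finsupp.single_eq_of_ne (Ne.symm h)

private theorem H1b_pt_self (y : Pt) : pt y y = 1 := by
  unfold pt
  exact Finsupp.single_eq_same

/-- LEAF H1b. Three chains `a 0`, `a 1`, `a 2` from a common point `p` to points `y 0`, `y 1`, `y 2`; the chain `a i` has no edge at `y j` for `j ≠ i`, and the points `y i` are different from each other and from `p`. Then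
`Σ_{i ≠ j} II (a i) (a j) = 1`. Proof: with `r = a 0` put `b = a 0 + a 1`, `c = a 0 + a 2`. Over `ZMod 2`:
`Σ_{i ≠ j} II (a i) (a j) = II b c + II c b` (expand: `II b c = II (a0) (a0) + II (a0) (a2) + II (a1) (a0) + II (a1) (a2)`, and `2 II (a0) (a0) = 0`). By `II_symm_defect`: `bd b = pt (y 0) + pt (y 1)`, `bd c = pt (y 0) + pt (y 2)`.
At `y 0`: `b` and `c` have the same edges as `a 0`, so the three terms are `x + x + 1 = 1`; at `y 1`: `c` has no edge there and `bd c (y 1) = 0`; at `y 2`: the same. -/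
theorem theta (a : Fin 3 → C1) (p : Pt) (y : Fin 3 → Pt) (hb : ∀ i, bd (a i) = pt p + pt (y i))
    (hy : Function.Injective y) (hp : ∀ i, y i ≠ p)
    (hf : ∀ i j, i ≠ j → vR (a i) (y j) = 0 ∧ vD (a i) (y j) = 0) :
    II (a 0) (a 1) + II (a 1) (a 0) + (II (a 0) (a 2) + II (a 2) (a 0)) + (II (a 1) (a 2) + II (a 2) (a 1)) = 1 := by
  have two : ∀ t : ZMod 2, t + t = 0 := fun t => CharTwo.add_self_eq_zero t
  have hb1 : bd (a 0 + a 1) = pt (y 0) + pt (y 1) := by
    rw [map_add, hb, hb]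
    have h1 : pt p + pt p = 0 := by
      ext z
      exact two _
    calc pt p + pt (y 0) + (pt p + pt (y 1)) = (pt p + pt p) + (pt (y 0) + pt (y 1)) := by abel
      _ = _ := by rw [h1, zero_add]
  have hb2 : bd (a 0 + a 2) = pt (y 0) + pt (y 2) := by
    rw [map_add, hb, hb]
    have h1 : pt p + pt p = 0 := by
      ext z
      exact two _
    calc pt p + pt (y 0) + (pt p + pt (y 2)) = (pt p + pt p) + (pt (y 0) + pt (y 2)) := by abel
      _ = _ := by rw [h1, zero_add]
  have y01 : y 0 ≠ y 1 := hy.ne (by decide)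
  have y02 : y 0 ≠ y 2 := hy.ne (by decide)
  have y12 : y 1 ≠ y 2 := hy.ne (by decide)
  have key := II_symm_defect (a 0 + a 1) (a 0 + a 2)
  rw [hb1, hb2, H1b_sum, H1b_sum, H1b_sum] at key
  simp only [H1b_vR, H1b_vD] at key
  rw [(hf 2 0 (by decide)).1, (hf 2 0 (by decide)).2, (hf 0 1 (by decide)).1, (hf 0 1 (by decide)).2,
    (hf 2 1 (by decide)).1, (hf 2 1 (by decide)).2, (hf 1 0 (by decide)).1, (hf 1 0 (by decide)).2,
    (hf 0 2 (by decide)).1, (hf 0 2 (by decide)).2, (hf 1 2 (by decide)).1, (hf 1 2 (by decide)).2] at key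
  rw [Finsupp.add_apply, Finsupp.add_apply, H1b_pt_self, H1b_pt y02.symm, H1b_pt y01,
    H1b_pt y12.symm] at key
  simp only [map_add, LinearMap.add_apply] at key
  have h0 := two (II (a 0) (a 0))
  have h1 := two (vR (a 0) (y 0))
  have h2 := two (vD (a 0) (y 0))
  have e1 : II (a 0) (a 1) + II (a 1) (a 0) + (II (a 0) (a 2) + II (a 2) (a 0)) +
      (II (a 1) (a 2) + II (a 2) (a 1)) =
      (II (a 0) (a 0) + II (a 1) (a 0) + (II (a 0) (a 2) + II (a 1) (a 2)) +
        (II (a 0) (a 0) + II (a 2) (a 0) + (II (a 0) (a 1) + II (a 2) (a 1)))) -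
        (II (a 0) (a 0) + II (a 0) (a 0)) := by abel
  rw [e1, h0, sub_zero, key]
  have e2 : vR (a 0) (y 0) + 0 + (vD (a 0) (y 0) + 0) + (0 + 0 + (0 + 0)) +
      (vR (a 0) (y 0) + 0 + (vD (a 0) (y 0) + 0) + (0 + 0 + (0 + 0))) + (1 + 0 + (0 + 0)) =
      (vR (a 0) (y 0) + vR (a 0) (y 0)) + (vD (a 0) (y 0) + vD (a 0) (y 0)) + 1 := by ring
  rw [e2, h1, h2]
  ring

end KPl
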