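import Pool.Agent.Lib.MP_d3a5e5_coK.H1b

set_option autoImplicit false

namespace KPl

open QPl Finsupp

/-- Two different labels which are not incident have disjoint sets. -/
private theorem H1c_disj {P : ML → Finset Pt}
    (hf : ∀ a b, a ≠ b → ¬ Inc a b → ¬ Inc b a → ∀ z ∈ P a, ∀ w ∈ P b, Far z w) {a b : ML} (h1 : a ≠ b)
    (h2 : ¬ Inc a b) (h3 : ¬ Inc b a) {z : Pt} (ha : z ∈ P a) (hb : z ∈ P b) : False := by
  have h := hf a b h1 h2 h3 z ha z hb
  unfold Far at h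
  simp at h

/-- The union of the three sets on the way from the first vertex `i` to the second vertex `j`. -/
private def H1c_U (P : ML → Finset Pt) (i j : Fin 3) : Set Pt :=
  {z | z ∈ P (Sum.inl (Sum.inl i)) ∨ z ∈ P (Sum.inr (i, j)) ∨ z ∈ P (Sum.inl (Sum.inr j))}

private theorem H1c_noinc1 (a b : Fin 3 ⊕ Fin 3) : ¬ Inc (Sum.inl a) (Sum.inl b) := by
  rintro ⟨i, j, h, -⟩
  cases h

private theorem H1c_noinc2 (x : Fin 3 × Fin 3) (b : ML) : ¬ Inc (Sum.inr x) b := by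
  rintro ⟨i, j, -, h | h⟩ <;> cases h

private theorem H1c_noinc3 {i j k : Fin 3} (h : i ≠ j) : ¬ Inc (Sum.inl (Sum.inl i)) (Sum.inr (j, k)) := by
  rintro ⟨a, b, h1, h2 | h2⟩
  · simp only [Sum.inr.injEq, Prod.mk.injEq] at h1
    simp only [Sum.inl.injEq] at h2
    exact h (h2.trans h1.1.symm)
  · simp at h2

private theorem H1c_noinc4 {i j k : Fin 3} (h : i ≠ k) : ¬ Inc (Sum.inl (Sum.inr i)) (Sum.inr (j, k)) := by
  rintro ⟨a, b, h1, h2 | h2⟩
  · simp at h2
  · simp only [Sum.inr.injEq, Prod.mk.injEq] at h1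
    simp only [Sum.inl.injEq, Sum.inr.injEq] at h2
    exact h (h2.trans h1.2.symm)

private theorem H1c_vU {P : ML → Finset Pt}
    (hf : ∀ a b, a ≠ b → ¬ Inc a b → ¬ Inc b a → ∀ z ∈ P a, ∀ w ∈ P b, Far z w) {i j k : Fin 3} (hij : i ≠ j)
    {z : Pt} (hz : z ∈ P (Sum.inl (Sum.inl j))) (hU : z ∈ H1c_U P i k) : False := by
  rcases hU with h | h | h
  · exact H1c_disj hf (by simpa using hij) (H1c_noinc1 _ _) (H1c_noinc1 _ _) h hz
  · exact H1c_disj hf (by simp) (H1c_noinc2 _ _) (H1c_noinc3 (Ne.symm hij)) h hz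
  · exact H1c_disj hf (by simp) (H1c_noinc1 _ _) (H1c_noinc1 _ _) h hz

private theorem H1c_wU {P : ML → Finset Pt}
    (hf : ∀ a b, a ≠ b → ¬ Inc a b → ¬ Inc b a → ∀ z ∈ P a, ∀ w ∈ P b, Far z w) {i k l : Fin 3} (hkl : k ≠ l)
    {z : Pt} (hz : z ∈ P (Sum.inl (Sum.inr l))) (hU : z ∈ H1c_U P i k) : False := by
  rcases hU with h | h | h
  · exact H1c_disj hf (by simp) (H1c_noinc1 _ _) (H1c_noinc1 _ _) h hz
  · exact H1c_disj hf (by simp) (H1c_noinc2 _ _) (H1c_noinc4 (Ne.symm hkl)) h hz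
  · exact H1c_disj hf (by simpa using hkl) (H1c_noinc1 _ _) (H1c_noinc1 _ _) h hz

private theorem H1c_UU {P : ML → Finset Pt}
    (hf : ∀ a b, a ≠ b → ¬ Inc a b → ¬ Inc b a → ∀ z ∈ P a, ∀ w ∈ P b, Far z w) {i j k l : Fin 3} (hij : i ≠ j)
    (hkl : k ≠ l) : Disjoint (H1c_U P i k) (H1c_U P j l) := by
  rw [Set.disjoint_left]
  intro z hz hz'
  rcases hz' with h | h | h
  · exact H1c_vU hf hij h hz
  · rcases hz with h' | h' | h'
    · exact H1c_disj hf (by simp) (H1c_noinc3 hij) (H1c_noinc2 _ _) h' h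
    · refine H1c_disj hf ?_ (H1c_noinc2 _ _) (H1c_noinc2 _ _) h' h
      simp [hij]
    · exact H1c_disj hf (by simp) (H1c_noinc4 hkl) (H1c_noinc2 _ _) h' h
  · exact H1c_wU hf hkl h hz

/-- The chain along `v i`, `e i j`, `w j`. -/
private theorem H1c_chain {P : ML → Finset Pt} (hc : ∀ a, GConn (P a : Set Pt))
    (hi : ∀ a b, Inc a b → ∃ z, z ∈ P a ∧ z ∈ P b) (i j : Fin 3) {p q : Pt} (hp : p ∈ P (Sum.inl (Sum.inl i)))
    (hq : q ∈ P (Sum.inl (Sum.inr j))) : ∃ a : C1, SuppIn (H1c_U P i j) a ∧ bd a = pt p + pt q := by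
  obtain ⟨z, hz1, hz2⟩ := hi (Sum.inl (Sum.inl i)) (Sum.inr (i, j)) ⟨i, j, rfl, Or.inl rfl⟩
  obtain ⟨w, hw1, hw2⟩ := hi (Sum.inl (Sum.inr j)) (Sum.inr (i, j)) ⟨i, j, rfl, Or.inr rfl⟩
  obtain ⟨a1, ha1, hb1⟩ := GConn.chain (hc (Sum.inl (Sum.inl i))) (Finset.mem_coe.2 hp) (Finset.mem_coe.2 hz1)
  obtain ⟨a2, ha2, hb2⟩ := GConn.chain (hc (Sum.inr (i, j))) (Finset.mem_coe.2 hz2) (Finset.mem_coe.2 hw2)
  obtain ⟨a3, ha3, hb3⟩ := GConn.chain (hc (Sum.inl (Sum.inr j))) (Finset.mem_coe.2 hw1) (Finset.mem_coe.2 hq)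
  refine ⟨a1 + a2 + a3, ((ha1.mono ?_).add (ha2.mono ?_)).add (ha3.mono ?_), ?_⟩
  · intro x hx
    exact Or.inl (Finset.mem_coe.1 hx)
  · intro x hx
    exact Or.inr (Or.inl (Finset.mem_coe.1 hx))
  · intro x hx
    exact Or.inr (Or.inr (Finset.mem_coe.1 hx))
  · rw [map_add, map_add, hb1, hb2, hb3]
    calc pt p + pt z + (pt z + pt w) + (pt w + pt q)
        = pt p + pt q + (pt z + pt z) + (pt w + pt w) := by abel
      _ = pt p + pt q := by rw [A6_aux_self, A6_aux_self, add_zero, add_zero]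

private theorem H1c_self (x : C1) : x + x = 0 := by
  ext i
  rw [Finsupp.add_apply, Finsupp.zero_apply]
  exact CharTwo.add_self_eq_zero _

/-- LEAF H1c. `K_{3,3}` is not planar, grid version. Let `v i = P (inl (inl i))`, `w j = P (inl (inr j))`, `e i j = P (inr (i, j))`. Choose points `p i ∈ v i`, `q j ∈ w j`. `v i ∪ e i j ∪ w j` is connected
(the sets meet), so there is a chain `a i j` in it from `p i` to `q j` (`GConn.chain`). `A i = a i 0 + a i 1` has boundary `pt (q 0) + pt (q 1)`; `κ i = A j + A k` (`{i,j,k} = {0,1,2}`) is closed and `Σ_i κ i = 0`.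
`II (a i 2) (κ i) = 0`: the chain `a i 2` lives in `v i ∪ e i 2 ∪ w 2`, `κ i` in the union of `v j, e j 0, w 0, e j 1, w 1` for `j ≠ i`, disjoint (`II_disj`). So `II (a i 0) (κ i) = II (a i 0 + a i 2) (κ i) = II ρ (κ i)` where
`ρ = a 0 0 + a 0 2` (the boundary of `a i 0 + a i 2` is `pt (q 0) + pt (q 2)` for every `i`; `II_congr_left`). Sum over `i`: `Σ_i II (a i 0) (κ i) = II ρ (Σ κ i) = 0`. On the other hand `II (a i 0) (a j 1) = 0` for `i ≠ j` (disjoint sets), so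
`Σ_i II (a i 0) (κ i) = Σ_{i ≠ j} II (a i 0) (a j 0) = 1` by `theta` with `p = q 0`, `y i = p i` (the chain `a i 0` is far from `p j`, so it has no edge there: an edge at `p j` has its other end at distance 1). Contradiction. -/
theorem grid_K33 (P : ML → Finset Pt) (hne : ∀ a, (P a).Nonempty) (hc : ∀ a, GConn (P a : Set Pt))
    (hi : ∀ a b, Inc a b → ∃ z, z ∈ P a ∧ z ∈ P b)
    (hf : ∀ a b, a ≠ b → ¬ Inc a b → ¬ Inc b a → ∀ z ∈ P a, ∀ w ∈ P b, Far z w) : False := by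
  choose p hp using fun i : Fin 3 => hne (Sum.inl (Sum.inl i))
  choose q hq using fun j : Fin 3 => hne (Sum.inl (Sum.inr j))
  choose a ha hb using fun i j : Fin 3 => H1c_chain hc hi i j (hp i) (hq j)
  -- disjoint chains
  have hd : ∀ i j k l : Fin 3, i ≠ j → k ≠ l → II (a i k) (a j l) = 0 := fun i j k l hij hkl =>
    II_disj _ _ _ _ (ha i k) (ha j l) (H1c_UU hf hij hkl)
  -- closed chains
  have hA : ∀ i, bd (a i 0 + a i 1) = pt (q 0) + pt (q 1) := by
    intro i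
    rw [map_add, hb, hb]
    calc pt (p i) + pt (q 0) + (pt (p i) + pt (q 1)) = pt (q 0) + pt (q 1) + (pt (p i) + pt (p i)) := by abel
      _ = pt (q 0) + pt (q 1) := by rw [A6_aux_self, add_zero]
  have hκ : ∀ j k, bd ((a j 0 + a j 1) + (a k 0 + a k 1)) = 0 := by
    intro j k
    rw [map_add, hA, hA, A6_aux_self]
  have hρ : ∀ i, bd (a i 0 + a i 2) = bd (a 0 0 + a 0 2) := by
    have h : ∀ i, bd (a i 0 + a i 2) = pt (q 0) + pt (q 2) := by
      intro i
      rw [map_add, hb, hb]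
      calc pt (p i) + pt (q 0) + (pt (p i) + pt (q 2)) = pt (q 0) + pt (q 2) + (pt (p i) + pt (p i)) := by abel
        _ = pt (q 0) + pt (q 2) := by rw [A6_aux_self, add_zero]
    intro i
    rw [h, h]
  -- the value for one index
  have hone : ∀ i j k : Fin 3, i ≠ j → i ≠ k →
      II (a i 0) (a j 0) + II (a i 0) (a k 0) = II (a 0 0 + a 0 2) ((a j 0 + a j 1) + (a k 0 + a k 1)) := by
    intro i j k hij hik
    rw [← II_congr_left _ _ _ (hρ i) (hκ j k)]
    have e1 := hd i j 0 1 hij (by decide)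
    have e2 := hd i k 0 1 hik (by decide)
    have e3 := hd i j 2 0 hij (by decide)
    have e4 := hd i j 2 1 hij (by decide)
    have e5 := hd i k 2 0 hik (by decide)
    have e6 := hd i k 2 1 hik (by decide)
    simp only [map_add, LinearMap.add_apply, e1, e2, e3, e4, e5, e6, add_zero]
  have h0 := hone 0 1 2 (by decide) (by decide)
  have h1 := hone 1 0 2 (by decide) (by decide)
  have h2 := hone 2 0 1 (by decide) (by decide)
  have hsum : (II (a 0 0) (a 1 0) + II (a 0 0) (a 2 0)) + (II (a 1 0) (a 0 0) + II (a 1 0) (a 2 0)) +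
      (II (a 2 0) (a 0 0) + II (a 2 0) (a 1 0)) = 0 := by
    rw [h0, h1, h2, ← map_add, ← map_add]
    have e : (a 1 0 + a 1 1 + (a 2 0 + a 2 1) + (a 0 0 + a 0 1 + (a 2 0 + a 2 1)) + (a 0 0 + a 0 1 + (a 1 0 + a 1 1))) =
        ((a 0 0 + a 0 1 + (a 1 0 + a 1 1) + (a 2 0 + a 2 1)) + (a 0 0 + a 0 1 + (a 1 0 + a 1 1) + (a 2 0 + a 2 1))) := by
      abel
    rw [e, H1c_self, map_zero]
  -- the theta lemma
  have hth := theta (fun i => a i 0) (q 0) p (fun i => by rw [hb, add_comm])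
    (by
      intro i j hij
      by_contra hne'
      exact H1c_disj hf (a := Sum.inl (Sum.inl i)) (b := Sum.inl (Sum.inl j)) (by simpa using hne')
        (H1c_noinc1 _ _) (H1c_noinc1 _ _) (hp i) (by rw [hij]; exact hp j))
    (by
      intro i h
      exact H1c_disj hf (a := Sum.inl (Sum.inl i)) (b := Sum.inl (Sum.inr 0)) (by simp)
        (H1c_noinc1 _ _) (H1c_noinc1 _ _) (hp i) (by rw [h]; exact hq 0))
    (by
      intro i j hij
      constructor
      · by_contra h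
        have h' := (ha i 0 _ (Finsupp.mem_support_iff.2 h)).1
        exact H1c_vU hf hij (hp j) h'
      · by_contra h
        have h' := (ha i 0 _ (Finsupp.mem_support_iff.2 h)).2
        have e : tgt (((p j).1, (p j).2 - 1), true) = p j := by
          unfold tgt
          ext <;> simp
        rw [e] at h'
        exact H1c_vU hf hij (hp j) h')
  have e2 : II (a 0 0) (a 1 0) + II (a 1 0) (a 0 0) + (II (a 0 0) (a 2 0) + II (a 2 0) (a 0 0)) +
      (II (a 1 0) (a 2 0) + II (a 2 0) (a 1 0)) = 0 := by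
    rw [← hsum]
    abel
  rw [e2] at hth
  exact absurd hth (by decide)

end KPl
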