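import Pool.Agent.Lib.MP_d3a5e5_coK.Defs
import Pool.Agent.Lib.MP_d3a5e5_co.Q2

set_option autoImplicit false

namespace KPl

open QPl

/-- Walks inside a set. -/
private def I1a_R {W : Type} (H : SimpleGraph W) (S : Set W) (p q : W) : Prop :=
  ∃ w : H.Walk p q, ∀ z ∈ w.support, z ∈ S

private theorem I1a_R_trans {W : Type} {H : SimpleGraph W} {S : Set W} {p q r : W} (h1 : I1a_R H S p q)
    (h2 : I1a_R H S q r) : I1a_R H S p r := by
  obtain ⟨w, hw⟩ := h1
  obtain ⟨w', hw'⟩ := h2
  refine ⟨w.append w', fun z hz => ?_⟩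
  rcases (SimpleGraph.Walk.mem_support_append_iff w w').1 hz with h | h
  · exact hw z h
  · exact hw' z h

private theorem I1a_R_symm {W : Type} {H : SimpleGraph W} {S : Set W} {p q : W} (h1 : I1a_R H S p q) :
    I1a_R H S q p := by
  obtain ⟨w, hw⟩ := h1
  refine ⟨w.reverse, fun z hz => hw z ?_⟩
  rw [SimpleGraph.Walk.support_reverse, List.mem_reverse] at hz
  exact hz

private theorem I1a_R_take {W : Type} {H : SimpleGraph W} {S : Set W} {p q : W} (w : H.Walk p q)
    (hw : ∀ z ∈ w.support, z ∈ S) {z : W} (hz : z ∈ w.support) : I1a_R H S p z := by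
  classical
  exact ⟨w.takeUntil z hz, fun y hy => hw y (w.support_takeUntil_subset_support hz hy)⟩

private theorem I1a_dist_take {W : Type} {H : SimpleGraph W} {p q : W} (w : H.Walk p q)
    {z : W} (hz : z ∈ w.support) : H.dist p z ≤ w.length := by
  classical
  exact (SimpleGraph.dist_le (w.takeUntil z hz)).trans (w.length_takeUntil_le_length hz)

/-- LEAF I1a. A model of `K_{3,3}` in a graph by fifteen sets: finite, nonempty, connected, the sets of incident pairs meet, the sets of all other pairs are disjoint. Through a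
quasi-isometry `φ : G → H` (constants `M`, `A`) from a `D`-fat model in `G`, `D > M (2 (M + A) + A)`: `U a` = all vertices on chosen shortest walks of `H` between `φ x` and `φ y` for `x, y ∈ Z a` equal or adjacent; for an edge label `b` also on chosen shortest walks
from `φ y` to `φ x` for the chosen contact `x ∈ Z a`, `y ∈ Z b` (equal or adjacent), for the two incident vertex labels `a`. These walks have length at most `M + A`, so every vertex of `U a` is at distance at most `M + A` from some `φ x`, `x ∈ Z a`; if `U a`, `U b` of a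
pair which is not incident had a common vertex, then `dist (φ x) (φ y) ≤ 2 (M + A)`, hence `dist x y ≤ M (2 (M + A) + A) < D`. Connected: a walk of `G` in `Z a` from `x` to `y` gives a walk of `H` in `U a`. -/
theorem model_push {V W : Type} (G : SimpleGraph V) (H : SimpleGraph W) (hG : G.Connected) (hH : H.Connected) (hq : QIso G H)
    (h : ∀ D, ∃ Z, Mdl G D Z) :
    ∃ U : ML → Set W, (∀ a, (U a).Nonempty) ∧ (∀ a, (U a).Finite) ∧
      (∀ a, ∀ x ∈ U a, ∀ y ∈ U a, ∃ w : H.Walk x y, ∀ z ∈ w.support, z ∈ U a) ∧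
      (∀ a b, Inc a b → (U a ∩ U b).Nonempty) ∧ (∀ a b, a ≠ b → ¬ Inc a b → ¬ Inc b a → Disjoint (U a) (U b)) := by
  obtain ⟨φ, M, A, hM, hA, hφ, -⟩ := hq
  obtain ⟨D, hD⟩ := exists_nat_gt (M * (2 * (M + A) + A))
  obtain ⟨Z, hZ⟩ := h D
  choose cx hcx cy hcy hc using hZ.inc
  choose wk hwk using fun p q : W => hH.exists_walk_length_eq_dist p q
  -- length of the chosen walks
  have hlen : ∀ x y : V, (x = y ∨ G.Adj x y) → ((wk (φ x) (φ y)).length : ℝ) ≤ M + A := by
    intro x y hxy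
    rw [hwk]
    refine (hφ x y).2.trans ?_
    have h1 : (G.dist x y : ℝ) ≤ 1 := by
      rcases hxy with rfl | hxy
      · rw [SimpleGraph.dist_self]
        norm_num
      · rw [SimpleGraph.dist_eq_one_iff_adj.2 hxy]
        norm_num
    have h2 : M * (G.dist x y : ℝ) ≤ M * 1 := mul_le_mul_of_nonneg_left h1 (by linarith)
    linarith
  -- the sets
  obtain ⟨U, hU⟩ : ∃ U : ML → Set W, ∀ b z, z ∈ U b ↔
      (∃ x ∈ Z b, ∃ y ∈ Z b, (x = y ∨ G.Adj x y) ∧ z ∈ (wk (φ x) (φ y)).support) ∨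
      ∃ (a : ML) (hab : Inc a b), z ∈ (wk (φ (cy a b hab)) (φ (cx a b hab))).support :=
    ⟨fun b => {z | (∃ x ∈ Z b, ∃ y ∈ Z b, (x = y ∨ G.Adj x y) ∧ z ∈ (wk (φ x) (φ y)).support) ∨
      ∃ (a : ML) (hab : Inc a b), z ∈ (wk (φ (cy a b hab)) (φ (cx a b hab))).support}, fun b z => Iff.rfl⟩
  have hφU : ∀ b, ∀ x ∈ Z b, φ x ∈ U b := fun b x hx =>
    (hU b _).2 (Or.inl ⟨x, hx, x, hx, Or.inl rfl, SimpleGraph.Walk.start_mem_support _⟩)
  -- every vertex is near
  have hnear : ∀ b, ∀ z ∈ U b, ∃ x ∈ Z b, I1a_R H (U b) (φ x) z ∧ (H.dist (φ x) z : ℝ) ≤ M + A := by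
    intro b z hz
    rcases (hU b z).1 hz with ⟨x, hx, y, hy, hxy, hz'⟩ | ⟨a, hab, hz'⟩
    · refine ⟨x, hx, I1a_R_take (wk (φ x) (φ y)) (fun v hv => (hU b v).2
        (Or.inl ⟨x, hx, y, hy, hxy, hv⟩)) hz', ?_⟩
      exact le_trans (by exact_mod_cast I1a_dist_take (wk (φ x) (φ y)) hz') (hlen x y hxy)
    · refine ⟨cy a b hab, hcy a b hab, I1a_R_take (wk (φ (cy a b hab)) (φ (cx a b hab)))
        (fun v hv => (hU b v).2 (Or.inr ⟨a, hab, hv⟩)) hz', ?_⟩
      refine le_trans (by exact_mod_cast I1a_dist_take (wk (φ (cy a b hab)) (φ (cx a b hab))) hz')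
        (hlen _ _ ?_)
      rcases hc a b hab with h1 | h1
      · exact Or.inl h1.symm
      · exact Or.inr h1.symm
  -- walks between the images
  have hwalk : ∀ b, ∀ x y : V, ∀ w : G.Walk x y, (∀ z ∈ w.support, z ∈ Z b) →
      I1a_R H (U b) (φ x) (φ y) := by
    intro b x y w
    induction w with
    | nil =>
      intro hw
      rename_i u
      refine ⟨SimpleGraph.Walk.nil, fun z hz => ?_⟩
      rw [SimpleGraph.Walk.support_nil, List.mem_singleton] at hz
      rw [hz]
      exact hφU b _ (hw _ (SimpleGraph.Walk.start_mem_support _))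
    | cons hadj w ih =>
      intro hw
      rename_i u v z
      have hu : u ∈ Z b := hw u (SimpleGraph.Walk.start_mem_support _)
      have hv : v ∈ Z b := hw v (by
        rw [SimpleGraph.Walk.support_cons]
        exact List.mem_cons_of_mem _ (SimpleGraph.Walk.start_mem_support _))
      have h1 : I1a_R H (U b) (φ u) (φ v) := ⟨wk (φ u) (φ v), fun z' hz' => (hU b z').2
        (Or.inl ⟨u, hu, v, hv, Or.inr hadj, hz'⟩)⟩
      exact I1a_R_trans h1 (ih fun z' hz' => hw z' (by
        rw [SimpleGraph.Walk.support_cons]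
        exact List.mem_cons_of_mem _ hz'))
  refine ⟨U, ?_, ?_, ?_, ?_, ?_⟩
  · intro a
    obtain ⟨x, hx⟩ := hZ.ne a
    exact ⟨φ x, hφU a x hx⟩
  · intro b
    have h1 : (⋃ x ∈ Z b, ⋃ y ∈ Z b, {z | z ∈ (wk (φ x) (φ y)).support}).Finite :=
      (hZ.fin b).biUnion fun x _ => (hZ.fin b).biUnion fun y _ => List.finite_toSet _
    have h2 : (⋃ a : ML, ⋃ hab : Inc a b, {z | z ∈ (wk (φ (cy a b hab)) (φ (cx a b hab))).support}).Finite :=
      Set.finite_iUnion fun a => Set.finite_iUnion fun hab => List.finite_toSet _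
    refine (h1.union h2).subset fun z hz => ?_
    rcases (hU b z).1 hz with ⟨x, hx, y, hy, hxy, hz'⟩ | ⟨a, hab, hz'⟩
    · left
      simp only [Set.mem_iUnion]
      exact ⟨x, hx, y, hy, hz'⟩
    · right
      simp only [Set.mem_iUnion]
      exact ⟨a, hab, hz'⟩
  · intro a x hx y hy
    obtain ⟨x', hx', h1, -⟩ := hnear a x hx
    obtain ⟨y', hy', h2, -⟩ := hnear a y hy
    obtain ⟨w, hw⟩ := hZ.conn a x' hx' y' hy'
    exact I1a_R_trans (I1a_R_trans (I1a_R_symm h1) (hwalk a x' y' w hw)) h2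
  · intro a b hab
    refine ⟨φ (cx a b hab), hφU a _ (hcx a b hab), (hU b _).2 (Or.inr ⟨a, hab, ?_⟩)⟩
    exact SimpleGraph.Walk.end_mem_support _
  · intro a b hne hab hba
    rw [Set.disjoint_left]
    intro z hza hzb
    obtain ⟨x, hx, -, h1⟩ := hnear a z hza
    obtain ⟨y, hy, -, h2⟩ := hnear b z hzb
    have h3 := hZ.far a b hne hab hba x hx y hy
    have h4 : (H.dist (φ x) (φ y) : ℝ) ≤ 2 * (M + A) := by
      have h5 : H.dist (φ x) (φ y) ≤ H.dist (φ x) z + H.dist z (φ y) := hH.dist_triangle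
      have h6 : (H.dist (φ x) (φ y) : ℝ) ≤ H.dist (φ x) z + H.dist z (φ y) := by exact_mod_cast h5
      rw [SimpleGraph.dist_comm (u := z) (v := φ y)] at h6
      linarith
    have h5 := (hφ x y).1
    have hM0 : 0 < M := by linarith
    have h6 : (G.dist x y : ℝ) / M ≤ 2 * (M + A) + A := by linarith
    rw [div_le_iff₀ hM0] at h6
    have h7 : (D : ℝ) ≤ G.dist x y := by exact_mod_cast h3
    linarith

end KPl
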