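import Pool.Agent.Lib.MP_d3a5e5_coK.K1a

set_option autoImplicit false

namespace KPl

open QPl

variable {V C : Type} {Γ : CGr V C}

private theorem K1b_perm {A B : List (V × C)} {a b l : V × C} :
    l ∈ A ++ b :: a :: B ↔ l ∈ A ++ a :: b :: B := by
  simp only [List.mem_append, List.mem_cons]
  tauto

private theorem K1b_cross {S : Set V} {A B : List (V × C)} {a b : V × C}
    (hw : WF Γ S (A ++ a :: b :: B)) : WF Γ S (A ++ b :: a :: B) := by
  refine ⟨?_, fun l hl => hw.2 l (K1b_perm.1 hl)⟩
  have hp : (A ++ a :: b :: B).Perm (A ++ b :: a :: B) :=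
    List.Perm.append_left A (List.Perm.swap b a B)
  exact hp.nodup_iff.1 hw.1

private theorem K1b_kill {S : Set V} {A B : List (V × C)} {a : V × C}
    (hw : WF Γ S (A ++ a :: B)) : WF Γ S (A ++ B) := by
  have hs : (A ++ B).Sublist (A ++ a :: B) :=
    List.Sublist.append (List.Sublist.refl A) (List.sublist_cons_self a B)
  exact ⟨hw.1.sublist hs, fun l hl => hw.2 l (hs.subset hl)⟩

private theorem K1b_vert {S : Set V} {A B : List (V × C)} {y : V} {Kx Ky : List C} (hy : y ∉ S)
    (hn : (Kx ++ Ky).Nodup) (ha : ∀ k, k ∈ Kx ++ Ky) (hKy : ∀ k ∈ Ky, Γ.nb y k ∉ S)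
    (hw : WF Γ S (A ++ Kx.map (fun k => (Γ.nb y k, k)) ++ B)) :
    WF Γ (insert y S) (A ++ Ky.map (fun k => (y, k)) ++ B) := by
  obtain ⟨hnd, hm⟩ := hw
  have hAX := (List.nodup_append.1 hnd).1
  have hAXB := (List.nodup_append.1 hnd).2.2
  have hBn := (List.nodup_append.1 hnd).2.1
  have hAn := (List.nodup_append.1 hAX).1
  have hAXd := (List.nodup_append.1 hAX).2.2
  have hKyn : Ky.Nodup := (List.nodup_append.1 hn).2.1
  have hA : ∀ l ∈ A, l ∈ A ++ Kx.map (fun k => (Γ.nb y k, k)) ++ B := fun l hl =>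
    List.mem_append_left _ (List.mem_append_left _ hl)
  have hB : ∀ l ∈ B, l ∈ A ++ Kx.map (fun k => (Γ.nb y k, k)) ++ B := fun l hl =>
    List.mem_append_right _ hl
  have hYm : ∀ l ∈ Ky.map (fun k => (y, k)), l.1 = y ∧ l.2 ∈ Ky := by
    intro l hl
    obtain ⟨k, hk, rfl⟩ := List.mem_map.1 hl
    exact ⟨rfl, hk⟩
  have hYn : (Ky.map (fun k => (y, k))).Nodup :=
    hKyn.map fun k k' h => (Prod.mk.injEq _ _ _ _ ▸ h : y = y ∧ k = k').2
  -- the key point
  have key : ∀ l, l ∈ A ∨ l ∈ B → Γ.nb l.1 l.2 ≠ y := by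
    intro l hl he
    have hin : l ∈ A ++ Kx.map (fun k => (Γ.nb y k, k)) ++ B := hl.elim (hA l) (hB l)
    have h1 : Γ.nb y l.2 = l.1 := by rw [← he, Γ.inv]
    have h2 : l.1 ∈ S := (hm l hin).1
    have h3 : l.2 ∈ Kx := by
      rcases List.mem_append.1 (ha l.2) with h | h
      · exact h
      · exact absurd (h1 ▸ h2) (hKy _ h)
    have h4 : l ∈ Kx.map (fun k => (Γ.nb y k, k)) :=
      List.mem_map.2 ⟨l.2, h3, Prod.ext h1 rfl⟩
    rcases hl with h | h
    · exact hAXd l h l h4 rfl
    · exact hAXB l (List.mem_append_right _ h4) l h rfl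
  refine ⟨?_, ?_⟩
  · refine List.nodup_append.2 ⟨List.nodup_append.2 ⟨hAn, hYn, ?_⟩, hBn, ?_⟩
    · rintro l hl l' hl' rfl
      exact hy ((hYm l hl').1 ▸ (hm l (hA l hl)).1)
    · rintro l hl l' hl' rfl
      rcases List.mem_append.1 hl with h | h
      · exact hAXB l (List.mem_append_left _ h) l hl' rfl
      · exact hy ((hYm l h).1 ▸ (hm l (hB l hl')).1)
  · intro l hl
    have hcase : (l ∈ A ∨ l ∈ B) ∨ l ∈ Ky.map (fun k => (y, k)) := by
      rcases List.mem_append.1 hl with h | h
      · rcases List.mem_append.1 h with h | h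
        · exact Or.inl (Or.inl h)
        · exact Or.inr h
      · exact Or.inl (Or.inr h)
    rcases hcase with h | h
    · have hin : l ∈ A ++ Kx.map (fun k => (Γ.nb y k, k)) ++ B := h.elim (hA l) (hB l)
      refine ⟨Set.mem_insert_of_mem _ (hm l hin).1, fun h1 => ?_⟩
      rcases Set.mem_insert_iff.1 h1 with h2 | h2
      · exact key l h h2
      · exact (hm l hin).2 h2
    · obtain ⟨h1, h2⟩ := hYm l h
      rw [h1]
      refine ⟨Set.mem_insert _ _, fun h3 => ?_⟩
      rcases Set.mem_insert_iff.1 h3 with h4 | h4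
      · exact Γ.ne y l.2 h4
      · exact hKy _ h2 h4

/-- Derivations preserve well formed states. In the step `vert`: a dart `(x, k)` of `A` or `B` with `nb x k = y` would be equal to
`(nb y k, k)`, and `k ∈ Kx` because `nb y k = x ∈ S`, so it would occur twice. New darts `(y, k)`, `k ∈ Ky`: `y ∉ S`, so they are
not in `A`, `B`; `nb y k ≠ y`. -/
theorem Dr.wf {S S' : Set V} {L L' : List (V × C)} {cs : List ((V × C) × (V × C))} (h : Dr Γ S L cs S' L')
    (hw : WF Γ S L) : WF Γ S' L' := by
  induction h with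
  | refl S L => exact hw
  | cross A B a b S cs S' L' _ ih => exact ih (K1b_cross hw)
  | kill A B a S cs S' L' _ ih => exact ih (K1b_kill hw)
  | vert A B y Kx Ky S cs S' L' hy hn ha _ hKy _ ih => exact ih (K1b_vert hy hn ha hKy hw)

/-- The darts of the log: alive at the start or with a lower end which is processed later; the lower end is processed at the end, the
upper end is not processed at the start. -/
theorem Dr.log {S S' : Set V} {L L' : List (V × C)} {cs : List ((V × C) × (V × C))} (h : Dr Γ S L cs S' L')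
    (hw : WF Γ S L) {l : V × C} (hl : cnt cs l ≠ 0) : (l ∈ L ∨ l.1 ∉ S) ∧ l.1 ∈ S' ∧ Γ.nb l.1 l.2 ∉ S := by
  induction h with
  | refl S L => exact absurd (cnt_nil l) hl
  | cross A B a b S cs S' L' hd ih =>
    by_cases hab : a = l ∨ b = l
    · have hin : l ∈ A ++ a :: b :: B := by
        rcases hab with h | h
        · rw [← h]; simp
        · rw [← h]; simp
      exact ⟨Or.inl hin, hd.subset (hw.2 l hin).1, (hw.2 l hin).2⟩
    · rw [cnt_cons, if_neg hab, zero_add] at hl
      obtain ⟨h1, h2, h3⟩ := ih (K1b_cross hw) hl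
      exact ⟨h1.imp_left K1b_perm.1, h2, h3⟩
  | kill A B a S cs S' L' _ ih =>
    obtain ⟨h1, h2, h3⟩ := ih (K1b_kill hw) hl
    refine ⟨h1.imp_left fun h => ?_, h2, h3⟩
    rcases List.mem_append.1 h with h | h
    · exact List.mem_append_left _ h
    · exact List.mem_append_right _ (List.mem_cons_of_mem _ h)
  | vert A B y Kx Ky S cs S' L' hy hn ha _ hKy _ ih =>
    obtain ⟨h1, h2, h3⟩ := ih (K1b_vert hy hn ha hKy hw) hl
    refine ⟨?_, h2, fun h => h3 (Set.mem_insert_of_mem _ h)⟩
    rcases h1 with h | h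
    · rcases List.mem_append.1 h with h | h
      · rcases List.mem_append.1 h with h | h
        · exact Or.inl (List.mem_append_left _ (List.mem_append_left _ h))
        · obtain ⟨k, _, rfl⟩ := List.mem_map.1 h
          exact Or.inr hy
      · exact Or.inl (List.mem_append_right _ h)
    · exact Or.inr fun h' => h (Set.mem_insert_of_mem _ h')

/-- A dart which is crossed in two consecutive derivations is alive in the state between them. -/
theorem Dr.both {S0 S1 S2 : Set V} {L0 L1 L2 : List (V × C)} {cs cs' : List ((V × C) × (V × C))}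
    (h : Dr Γ S0 L0 cs S1 L1) (hw : WF Γ S0 L0) (h' : Dr Γ S1 L1 cs' S2 L2) {l : V × C} (h1 : cnt cs l ≠ 0)
    (h2 : cnt cs' l ≠ 0) : l ∈ L1 := by
  have h3 := (h'.log (h.wf hw) h2).1
  have h4 := (h.log hw h1).2.1
  exact h3.resolve_right fun h5 => h5 h4

/-- If `x` is processed now and its neighbour `nb x k` is processed later, then the dart `(x, k)` is alive now. -/
theorem Dr.alive {S S' : Set V} {L L' : List (V × C)} {cs : List ((V × C) × (V × C))} (h : Dr Γ S L cs S' L')
    {x : V} {k : C} (hx : x ∈ S) (hy : Γ.nb x k ∈ S') (hy' : Γ.nb x k ∉ S) : (x, k) ∈ L := by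
  induction h with
  | refl S L => exact absurd hy hy'
  | cross A B a b S cs S' L' _ ih => exact K1b_perm.1 (ih hx hy hy')
  | kill A B a S cs S' L' _ ih =>
    rcases List.mem_append.1 (ih hx hy hy') with h | h
    · exact List.mem_append_left _ h
    · exact List.mem_append_right _ (List.mem_cons_of_mem _ h)
  | vert A B y Kx Ky S cs S' L' hyS hn ha _ hKy _ ih =>
    by_cases he : Γ.nb x k = y
    · have h1 : Γ.nb y k = x := by rw [← he, Γ.inv]
      have h2 : k ∈ Kx := by
        rcases List.mem_append.1 (ha k) with h | h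
        · exact h
        · exact absurd (h1.symm ▸ hx) (hKy _ h)
      exact List.mem_append_left _ (List.mem_append_right _
        (List.mem_map.2 ⟨k, h2, Prod.ext h1 rfl⟩))
    · have h3 : Γ.nb x k ∉ insert y S := fun h => (Set.mem_insert_iff.1 h).elim he hy'
      have h4 := ih (Set.mem_insert_of_mem _ hx) hy h3
      rcases List.mem_append.1 h4 with h | h
      · rcases List.mem_append.1 h with h | h
        · exact List.mem_append_left _ (List.mem_append_left _ h)
        · obtain ⟨k', _, h5⟩ := List.mem_map.1 h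
          have h6 : y = x := congrArg Prod.fst h5
          exact absurd (show y ∈ S by rw [h6]; exact hx) hyS
      · exact List.mem_append_right _ h

end KPl
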