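import Pool.Agent.Lib.MP_d3a5e5_coK.K1a

set_option autoImplicit false

namespace KPl

open QPl

variable {V C : Type} {Γ : CGr V C}

theorem dr_cross1 (S : Set V) (a b : V × C) : Dr Γ S [a, b] [(a, b)] S [b, a] :=
  Dr.cross [] [] a b S [] S [b, a] (Dr.refl S [b, a])

/-- Kill all alive edges. -/
theorem dr_kill (S : Set V) (L : List (V × C)) : Dr Γ S L [] S [] := by
  induction L with
  | nil => exact Dr.refl S []
  | cons a L ih => exact Dr.kill [] L a S [] S [] ih

theorem dr_vert1 (S : Set V) (y : V) (Kx Ky : List C) (hy : y ∉ S) (h1 : (Kx ++ Ky).Nodup) (h2 : ∀ k, k ∈ Kx ++ Ky)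
    (h3 : ∀ k ∈ Kx, Γ.nb y k ∈ S) (h4 : ∀ k ∈ Ky, Γ.nb y k ∉ S) :
    Dr Γ S (Kx.map (fun k => (Γ.nb y k, k))) [] (insert y S) (Ky.map (fun k => (y, k))) := by
  have h := Dr.vert (Γ := Γ) [] [] y Kx Ky S [] (insert y S) ([] ++ Ky.map (fun k => (y, k)) ++ []) hy h1 h2 h3 h4
    (Dr.refl _ _)
  rw [List.append_nil, List.append_nil, List.nil_append, List.nil_append] at h
  exact h

/-- Bring one dart to the front. -/
private theorem K1c_front (S : Set V) (x : V × C) (A B : List (V × C)) :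
    ∃ cs : List ((V × C) × (V × C)), Dr Γ S (A ++ x :: B) cs S (x :: (A ++ B)) ∧ cs.length = A.length ∧
      ∀ c ∈ cs, c.1 ∈ A ∧ c.2 = x := by
  induction A with
  | nil => exact ⟨[], Dr.refl _ _, rfl, fun c hc => absurd hc List.not_mem_nil⟩
  | cons a A ih =>
    obtain ⟨cs, h1, h2, h3⟩ := ih
    have h4 := Dr.frame h1 [a] []
    rw [List.append_nil, List.append_nil] at h4
    have h5 : Dr Γ S (a :: x :: (A ++ B)) [(a, x)] S (x :: a :: (A ++ B)) :=
      Dr.cross [] (A ++ B) a x S [] S _ (Dr.refl _ _)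
    refine ⟨cs ++ [(a, x)], Dr.trans h4 h5, ?_, fun c hc => ?_⟩
    · rw [List.length_append, h2]
      rfl
    · rcases List.mem_append.1 hc with hc | hc
      · exact ⟨List.mem_cons_of_mem a (h3 c hc).1, (h3 c hc).2⟩
      · rw [List.mem_singleton] at hc
        subst hc
        exact ⟨List.mem_cons_self, rfl⟩

/-- Sorting. (Induction on `C'`: bring its first element to the front by at most `C.length` crossings.) -/
theorem perm_dr (S : Set V) {C0 C1 : List (V × C)} (h : C0.Perm C1) :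
    ∃ cs : List ((V × C) × (V × C)), Dr Γ S C0 cs S C1 ∧ cs.length ≤ C0.length ^ 2 ∧
      ∀ c ∈ cs, c.1 ∈ C0 ∧ c.2 ∈ C0 := by
  induction C1 generalizing C0 with
  | nil =>
    have h0 := h.eq_nil
    subst h0
    exact ⟨[], Dr.refl _ _, Nat.zero_le _, fun c hc => absurd hc List.not_mem_nil⟩
  | cons x C1 ih =>
    have hx : x ∈ C0 := h.mem_iff.2 List.mem_cons_self
    obtain ⟨A, B, rfl⟩ := List.append_of_mem hx
    have h1 : (A ++ B).Perm C1 := (List.perm_middle.symm.trans h).cons_inv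
    obtain ⟨cs, h2, h3, h4⟩ := ih h1
    obtain ⟨cs', h5, h6, h7⟩ := K1c_front (Γ := Γ) S x A B
    have h8 := Dr.frame h2 [x] []
    rw [List.append_nil, List.append_nil] at h8
    refine ⟨cs' ++ cs, Dr.trans h5 h8, ?_, fun c hc => ?_⟩
    · rw [List.length_append, h6]
      rw [List.length_append] at h3
      rw [List.length_append, List.length_cons]
      have e : (A.length + (B.length + 1)) ^ 2 = (A.length + B.length) ^ 2 + 2 * (A.length + B.length) + 1 := by
        ring
      rw [e]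
      omega
    · rcases List.mem_append.1 hc with hc | hc
      · obtain ⟨a1, a2⟩ := h7 c hc
        exact ⟨List.mem_append_left _ a1, a2 ▸ List.mem_append_right _ List.mem_cons_self⟩
      · obtain ⟨a1, a2⟩ := h4 c hc
        have a3 : ∀ z ∈ A ++ B, z ∈ A ++ x :: B := by
          intro z hz
          rcases List.mem_append.1 hz with hz | hz
          · exact List.mem_append_left _ hz
          · exact List.mem_append_right _ (List.mem_cons_of_mem x hz)
        exact ⟨a3 _ a1, a3 _ a2⟩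

/-- Bring the darts which end at `y` together and process `y`. (`perm_dr`, then `dr_vert1` with frame.) -/
theorem proc_dr (S : Set V) (L : List (V × C)) (hw : WF Γ S L) (y : V) (Kx Ky : List C) (hy : y ∉ S)
    (h1 : (Kx ++ Ky).Nodup) (h2 : ∀ k, k ∈ Kx ++ Ky) (h3 : ∀ k ∈ Kx, Γ.nb y k ∈ S) (h4 : ∀ k ∈ Ky, Γ.nb y k ∉ S)
    (h5 : ∀ k ∈ Kx, (Γ.nb y k, k) ∈ L) :
    ∃ (cs : List ((V × C) × (V × C))) (L' : List (V × C)),
      Dr Γ S L cs (insert y S) (Ky.map (fun k => (y, k)) ++ L') ∧ cs.length ≤ L.length ^ 2 ∧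
      (∀ c ∈ cs, c.1 ∈ L ∧ c.2 ∈ L) ∧ L.Perm (Kx.map (fun k => (Γ.nb y k, k)) ++ L') := by
  have hX : (Kx.map (fun k => (Γ.nb y k, k))).Nodup := by
    refine List.Nodup.map ?_ (List.nodup_append.1 h1).1
    intro k l e
    exact congrArg Prod.snd e
  have hsub : Kx.map (fun k => (Γ.nb y k, k)) ⊆ L := by
    intro z hz
    obtain ⟨k, hk, rfl⟩ := List.mem_map.1 hz
    exact h5 k hk
  have hle : ((Kx.map (fun k => (Γ.nb y k, k)) : List (V × C)) : Multiset (V × C)) ≤ (L : Multiset (V × C)) :=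
    Multiset.coe_le.2 (List.subperm_of_subset hX hsub)
  obtain ⟨u, hu⟩ := Multiset.le_iff_exists_add.1 hle
  induction u using Quotient.inductionOn with
  | h L' =>
    have hp : L.Perm (Kx.map (fun k => (Γ.nb y k, k)) ++ L') := Multiset.coe_eq_coe.1 hu
    obtain ⟨cs, a1, a2, a3⟩ := perm_dr (Γ := Γ) S hp
    have a4 := Dr.frame (dr_vert1 (Γ := Γ) S y Kx Ky hy h1 h2 h3 h4) [] L'
    have a5 := Dr.trans a1 a4
    rw [List.append_nil] at a5
    exact ⟨cs, L', a5, a2, a3, hp⟩

end KPl
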