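import Pool.Agent.Lib.MP_d3a5e5_coK.Defs

set_option autoImplicit false

namespace KPl

open QPl

variable {V C : Type} {Γ : CGr V C}

theorem cnt_nil (l : V × C) : cnt ([] : List ((V × C) × (V × C))) l = 0 := by
  simp [cnt]

theorem cnt_append (cs cs' : List ((V × C) × (V × C))) (l : V × C) : cnt (cs ++ cs') l = cnt cs l + cnt cs' l := by
  simp [cnt, List.filter_append]

open Classical in
theorem cnt_cons (a b : V × C) (cs : List ((V × C) × (V × C))) (l : V × C) :
    cnt ((a, b) :: cs) l = (if a = l ∨ b = l then 1 else 0) + cnt cs l := by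
  unfold cnt
  rw [List.filter_cons]
  by_cases h : a = l ∨ b = l
  · rw [if_pos h, if_pos (by simpa using h), List.length_cons, Nat.add_comm]
  · rw [if_neg h, if_neg (by simpa using h), Nat.zero_add]

theorem cnt_le_length (cs : List ((V × C) × (V × C))) (l : V × C) : cnt cs l ≤ cs.length :=
  List.length_filter_le _ _

/-- A dart which occurs in no entry has count zero. -/
theorem cnt_eq_zero {cs : List ((V × C) × (V × C))} {l : V × C} (h : ∀ c ∈ cs, c.1 ≠ l ∧ c.2 ≠ l) : cnt cs l = 0 := by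
  classical
  unfold cnt
  rw [List.length_eq_zero_iff, List.filter_eq_nil_iff]
  intro c hc hd
  rcases decide_eq_true_eq.mp hd with h1 | h1
  · exact (h c hc).1 h1
  · exact (h c hc).2 h1

theorem mem_of_cnt {cs : List ((V × C) × (V × C))} {l : V × C} (h : cnt cs l ≠ 0) : ∃ c ∈ cs, c.1 = l ∨ c.2 = l := by
  by_contra hc
  push Not at hc
  exact h (cnt_eq_zero hc)

theorem Dr.trans {S0 S1 S2 : Set V} {L0 L1 L2 : List (V × C)} {cs cs' : List ((V × C) × (V × C))}
    (h : Dr Γ S0 L0 cs S1 L1) (h' : Dr Γ S1 L1 cs' S2 L2) : Dr Γ S0 L0 (cs ++ cs') S2 L2 := by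
  induction h with
  | refl S L => simpa using h'
  | cross A B a b S cs S' L' _ ih => exact Dr.cross A B a b S (cs ++ cs') S2 L2 (ih h')
  | kill A B a S cs S' L' _ ih => exact Dr.kill A B a S (cs ++ cs') S2 L2 (ih h')
  | vert A B y Kx Ky S cs S' L' h1 h2 h3 h4 h5 _ ih =>
    exact Dr.vert A B y Kx Ky S (cs ++ cs') S2 L2 h1 h2 h3 h4 h5 (ih h')

/-- Frame rule. -/
theorem Dr.frame {S S' : Set V} {L L' : List (V × C)} {cs : List ((V × C) × (V × C))} (h : Dr Γ S L cs S' L')
    (A B : List (V × C)) : Dr Γ S (A ++ L ++ B) cs S' (A ++ L' ++ B) := by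
  induction h with
  | refl S L => exact Dr.refl S _
  | cross A' B' a b S cs S' L' _ ih =>
    have e1 : A ++ (A' ++ a :: b :: B') ++ B = (A ++ A') ++ a :: b :: (B' ++ B) := by simp
    have e2 : A ++ (A' ++ b :: a :: B') ++ B = (A ++ A') ++ b :: a :: (B' ++ B) := by simp
    rw [e1]
    rw [e2] at ih
    exact Dr.cross _ _ _ _ _ _ _ _ ih
  | kill A' B' a S cs S' L' _ ih =>
    have e1 : A ++ (A' ++ a :: B') ++ B = (A ++ A') ++ a :: (B' ++ B) := by simp
    have e2 : A ++ (A' ++ B') ++ B = (A ++ A') ++ (B' ++ B) := by simp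
    rw [e1]
    rw [e2] at ih
    exact Dr.kill _ _ _ _ _ _ _ ih
  | vert A' B' y Kx Ky S cs S' L' h1 h2 h3 h4 h5 _ ih =>
    have e1 : A ++ (A' ++ Kx.map (fun k => (Γ.nb y k, k)) ++ B') ++ B =
        (A ++ A') ++ Kx.map (fun k => (Γ.nb y k, k)) ++ (B' ++ B) := by simp
    have e2 : A ++ (A' ++ Ky.map (fun k => (y, k)) ++ B') ++ B =
        (A ++ A') ++ Ky.map (fun k => (y, k)) ++ (B' ++ B) := by simp
    rw [e1]
    rw [e2] at ih
    exact Dr.vert _ _ _ _ _ _ _ _ _ h1 h2 h3 h4 h5 ih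

theorem Dr.subset {S S' : Set V} {L L' : List (V × C)} {cs : List ((V × C) × (V × C))} (h : Dr Γ S L cs S' L') :
    S ⊆ S' := by
  induction h with
  | refl S L => exact subset_rfl
  | cross A B a b S cs S' L' _ ih => exact ih
  | kill A B a S cs S' L' _ ih => exact ih
  | vert A B y Kx Ky S cs S' L' h1 h2 h3 h4 h5 _ ih => exact (Set.subset_insert y S).trans ih

/-- Only finitely many vertices are processed. -/
theorem Dr.finite {S S' : Set V} {L L' : List (V × C)} {cs : List ((V × C) × (V × C))} (h : Dr Γ S L cs S' L') :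
    (S' \ S).Finite := by
  induction h with
  | refl S L => simp
  | cross A B a b S cs S' L' _ ih => exact ih
  | kill A B a S cs S' L' _ ih => exact ih
  | vert A B y Kx Ky S cs S' L' h1 h2 h3 h4 h5 _ ih =>
    refine (ih.insert y).subset fun z hz => ?_
    by_cases hzy : z = y
    · exact Or.inl hzy
    · exact Or.inr ⟨hz.1, fun h => h.elim hzy hz.2⟩

end KPl
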