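import Pool.Agent.Lib.MP_d3a5e5_coK.S1

set_option autoImplicit false

namespace KPl

/-! LEAF S2 (this whole file): the branch coordinate. -/

variable {H : Type} [Group H] {t : ZMod 4 → H}

/-- The branch coordinate: the element `x` of `H` such that `z` is behind the vertex `v * ofb b x` of the block `(v, b)`. -/
noncomputable def br (v : F4 H) (b : ZMod 4) (z : F4 H) : H := hd b (v⁻¹ * z)

private theorem br_tl (v : F4 H) (b : ZMod 4) (z : F4 H) : (v * ofb b (br v b z))⁻¹ * z = tl b (v⁻¹ * z) := by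
  have h := hd_tl b (v⁻¹ * z)
  have e : (v * ofb b (br v b z))⁻¹ * z = (ofb b (hd b (v⁻¹ * z)))⁻¹ * (v⁻¹ * z) := by
    unfold br
    rw [mul_inv_rev, mul_assoc]
  rw [e, inv_mul_eq_iff_eq_mul]
  exact h.symm

theorem br_self (v : F4 H) (b : ZMod 4) : br v b v = 1 := by
  unfold br
  rw [inv_mul_cancel]
  exact hd_one b

theorem br_ofb (v : F4 H) (b : ZMod 4) (x : H) : br v b (v * ofb b x) = x := by
  unfold br
  rw [inv_mul_cancel_left]
  exact hd_ofb b x

/-- `hd_mul_right`. -/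
theorem br_T_ne (v : F4 H) (b : ZMod 4) (z : F4 H) (p : ZMod 16) (hp : blk p ≠ b) :
    br v b (z * T t p) = br v b z := by
  unfold br
  have h1 : v⁻¹ * (z * T t p) = ofb b (hd b (v⁻¹ * z)) * (tl b (v⁻¹ * z) * ofb (blk p) (t (lab p))) := by
    rw [← mul_assoc, ← mul_assoc, hd_tl]
    rfl
  rw [h1, hd_mul, hd_mul_right b (blk p) _ _ (hd_of_tl b _) (Or.inr hp), mul_one]

theorem br_T_eq (v : F4 H) (b : ZMod 4) (x : H) (p : ZMod 16) (hp : blk p = b) :
    br v b (v * ofb b x * T t p) = x * t (lab p) := by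
  subst hp
  unfold br
  have h1 : v⁻¹ * (v * ofb (blk p) x * T t p) = ofb (blk p) (x * t (lab p)) := by
    rw [mul_assoc, inv_mul_cancel_left, map_mul]
    rfl
  rw [h1, hd_ofb]

theorem br_T_far (v : F4 H) (b : ZMod 4) (z : F4 H) (p : ZMod 16) (hz : z ≠ v * ofb b (br v b z)) :
    br v b (z * T t p) = br v b z := by
  have h0 : tl b (v⁻¹ * z) ≠ 1 := by
    intro h
    apply hz
    have h2 := br_tl v b z
    rw [h, inv_mul_eq_one] at h2
    exact h2.symm
  unfold br
  have h1 : v⁻¹ * (z * T t p) = ofb b (hd b (v⁻¹ * z)) * (tl b (v⁻¹ * z) * ofb (blk p) (t (lab p))) := by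
    rw [← mul_assoc, ← mul_assoc, hd_tl]
    rfl
  rw [h1, hd_mul, hd_mul_right b (blk p) _ _ (hd_of_tl b _) (Or.inl h0), mul_one]

/-- What is behind `v * ofb b x` in another block is in the branch of `x`. -/
theorem br_sub (v : F4 H) {b b' : ZMod 4} (hb : b' ≠ b) (x : H) (z : F4 H) (hz : br (v * ofb b x) b' z ≠ 1) :
    br v b z = x := by
  have h1 : hd b ((v * ofb b x)⁻¹ * z) = 1 := hd_ne hb.symm hz
  have h2 : v⁻¹ * z = ofb b x * ((v * ofb b x)⁻¹ * z) := by
    rw [mul_inv_rev, mul_assoc, mul_inv_cancel_left]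
  unfold br
  rw [h2, hd_mul, h1, mul_one]

theorem br_cases (v : F4 H) (b : ZMod 4) (z : F4 H) (hz : z ≠ v * ofb b (br v b z)) :
    ∃ b', b' ≠ b ∧ br (v * ofb b (br v b z)) b' z ≠ 1 := by
  have h0 : (v * ofb b (br v b z))⁻¹ * z ≠ 1 := by
    intro h
    rw [inv_mul_eq_one] at h
    exact hz h.symm
  obtain ⟨b', hb'⟩ := exists_hd h0
  refine ⟨b', ?_, hb'⟩
  rintro rfl
  apply hb'
  rw [br_tl]
  exact hd_of_tl _ _

/-- Every vertex different from `v` is behind exactly one block at `v`. -/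
theorem br_exists (v z : F4 H) (hz : z ≠ v) : ∃ b, br v b z ≠ 1 := by
  refine exists_hd ?_
  intro h
  rw [inv_mul_eq_one] at h
  exact hz h.symm

theorem br_unique (v z : F4 H) {b b' : ZMod 4} (hb : b' ≠ b) (h : br v b z ≠ 1) : br v b' z = 1 := by
  exact hd_ne hb h

/-- The neighbour of `v` with position `p` is behind the block `blk p` at `v` (use `br_T_eq` with `x = 1`). -/
theorem br_nb (v : F4 H) (p : ZMod 16) : br v (blk p) (v * T t p) = t (lab p) := by
  unfold br
  rw [inv_mul_cancel_left]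
  exact hd_ofb _ _

/-- If `z` is behind the block `(v, b)` and its neighbour is not then the neighbour is `v`. -/
theorem br_exit (h : GI t) (v : F4 H) (b : ZMod 4) (z : F4 H) (p : ZMod 16) (h1 : br v b z ≠ 1)
    (h2 : br v b (z * T t p) = 1) : z * T t p = v := by
  by_cases hp : blk p = b
  · by_cases hz : z = v * ofb b (br v b z)
    · obtain ⟨x, hx⟩ : ∃ x : H, x = br v b z := ⟨_, rfl⟩
      rw [← hx] at hz
      have h3 := br_T_eq (t := t) v b x p hp
      rw [← hz, h2] at h3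
      subst hp
      calc z * T t p = v * ofb (blk p) x * ofb (blk p) (t (lab p)) := by
            rw [← hz]
            rfl
        _ = v * ofb (blk p) (x * t (lab p)) := by rw [mul_assoc, ← map_mul]
        _ = v := by rw [← h3, map_one, mul_one]
    · rw [br_T_far v b z p hz] at h2
      exact absurd h2 h1
  · rw [br_T_ne v b z p hp] at h2
    exact absurd h2 h1

theorem Cv_br {A : Set H} {r : ℕ} {v z : F4 H} (h : Cv A (r + 1) (v⁻¹ * z)) (b : ZMod 4) (hb : br v b z ≠ 1) :
    br v b z ∈ A ∧ Cv A r ((v * ofb b (br v b z))⁻¹ * z) := by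
  rw [br_tl]
  exact Cv_hd h b hb

end KPl
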