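import Pool.Agent.Lib.MP_d3a5e5_coK.Defs

set_option autoImplicit false

namespace KPl

variable {H : Type} [Group H]

open Classical in
/-- The first syllable of the reduced word of `x`, if it is in the copy with index `b`, and `1` otherwise. -/
noncomputable def hd (b : ZMod 4) (x : F4 H) : H :=
  (Monoid.CoprodI.Word.equivPair b (Monoid.CoprodI.Word.equiv x)).head

open Classical in
/-- `x` without the first syllable, if it is in the copy with index `b`. -/
noncomputable def tl (b : ZMod 4) (x : F4 H) : F4 H :=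
  (Monoid.CoprodI.Word.equivPair b (Monoid.CoprodI.Word.equiv x)).tail.prod

open Classical in
private lemma W1_equiv_mul (m y : F4 H) :
    (Monoid.CoprodI.Word.equiv (m * y) : Monoid.CoprodI.Word fun _ : ZMod 4 => H) =
      m • Monoid.CoprodI.Word.equiv y := by
  show (m * y) • (Monoid.CoprodI.Word.empty : Monoid.CoprodI.Word fun _ : ZMod 4 => H) =
    m • y • (Monoid.CoprodI.Word.empty : Monoid.CoprodI.Word fun _ : ZMod 4 => H)
  exact mul_smul m y _

open Classical in
private lemma W1_equiv_prod (w : Monoid.CoprodI.Word fun _ : ZMod 4 => H) :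
    Monoid.CoprodI.Word.equiv w.prod = w :=
  Monoid.CoprodI.Word.equiv.apply_symm_apply w

open Classical in
private lemma W1_prod_equiv (x : F4 H) :
    (Monoid.CoprodI.Word.equiv x : Monoid.CoprodI.Word fun _ : ZMod 4 => H).prod = x :=
  Monoid.CoprodI.Word.equiv.symm_apply_apply x

/-- LEAF W1 (this whole file). `rcons (equivPair b w) = w`, `prod_rcons`. -/
theorem hd_tl (b : ZMod 4) (x : F4 H) : ofb b (hd b x) * tl b x = x := by
  classical
  have h1 : Monoid.CoprodI.Word.rcons (Monoid.CoprodI.Word.equivPair b (Monoid.CoprodI.Word.equiv x)) =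
      Monoid.CoprodI.Word.equiv x := by
    rw [← Monoid.CoprodI.Word.equivPair_symm, Equiv.symm_apply_apply]
  have h2 := Monoid.CoprodI.Word.prod_rcons (Monoid.CoprodI.Word.equivPair b (Monoid.CoprodI.Word.equiv x))
  rw [h1, W1_prod_equiv] at h2
  exact h2.symm

theorem hd_of_tl (b : ZMod 4) (x : F4 H) : hd b (tl b x) = 1 := by
  classical
  unfold hd tl
  rw [W1_equiv_prod, Monoid.CoprodI.Word.equivPair_tail]

/-- Uniqueness of the decomposition. (`x = ofb b h * y` with `hd b y = 1`.) -/
theorem hd_mul (b : ZMod 4) (h : H) (y : F4 H) : hd b (ofb b h * y) = h * hd b y := by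
  classical
  unfold hd
  rw [W1_equiv_mul]
  unfold ofb
  rw [Monoid.CoprodI.Word.equivPair_smul_same]

theorem tl_mul (b : ZMod 4) (h : H) (y : F4 H) : tl b (ofb b h * y) = tl b y := by
  classical
  unfold tl
  rw [W1_equiv_mul]
  unfold ofb
  rw [Monoid.CoprodI.Word.equivPair_smul_same]

theorem tl_eq (b : ZMod 4) (y : F4 H) (hy : hd b y = 1) : tl b y = y := by
  have h := hd_tl b y
  rw [hy, map_one, one_mul] at h
  exact h

theorem hd_one (b : ZMod 4) : hd b (1 : F4 H) = 1 := by
  classical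
  have h5 : Monoid.CoprodI.Word.equiv (1 : F4 H) = (Monoid.CoprodI.Word.empty : Monoid.CoprodI.Word fun _ : ZMod 4 => H) := by
    show (1 : F4 H) • (Monoid.CoprodI.Word.empty : Monoid.CoprodI.Word fun _ : ZMod 4 => H) = _
    exact one_smul _ _
  unfold hd
  rw [h5, Monoid.CoprodI.Word.equivPair_eq_of_fstIdx_ne]
  simp [Monoid.CoprodI.Word.fstIdx, Monoid.CoprodI.Word.empty]

theorem hd_ofb (b : ZMod 4) (h : H) : hd b (ofb b h : F4 H) = h := by
  have h1 := hd_mul b h (1 : F4 H)
  rw [mul_one, hd_one, mul_one] at h1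
  exact h1

/-- Only one block can have a nontrivial head. -/
theorem hd_ne {b b' : ZMod 4} (hb : b' ≠ b) {x : F4 H} (hx : hd b x ≠ 1) : hd b' x = 1 := by
  classical
  unfold hd at hx ⊢
  have h1 : Monoid.CoprodI.Word.rcons (Monoid.CoprodI.Word.equivPair b (Monoid.CoprodI.Word.equiv x)) =
      Monoid.CoprodI.Word.equiv x := by
    rw [← Monoid.CoprodI.Word.equivPair_symm, Equiv.symm_apply_apply]
  have h2 : (Monoid.CoprodI.Word.equiv x : Monoid.CoprodI.Word fun _ : ZMod 4 => H).fstIdx = some b := by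
    rw [← h1]
    unfold Monoid.CoprodI.Word.rcons
    rw [dif_neg hx]
    exact Monoid.CoprodI.Word.fstIdx_cons _ _ _ _
  rw [Monoid.CoprodI.Word.equivPair_eq_of_fstIdx_ne]
  rw [h2]
  intro h
  exact hb (Option.some.inj h).symm

/-- Induction over the reduced words. -/
private lemma W1_ind (P : F4 H → Prop) (h1 : P 1)
    (hs : ∀ (b : ZMod 4) (h : H) (y : F4 H), h ≠ 1 → hd b y = 1 → P y → P (ofb b h * y)) (x : F4 H) : P x := by
  classical
  have key : ∀ w : Monoid.CoprodI.Word fun _ : ZMod 4 => H, P w.prod := by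
    intro w
    induction w using Monoid.CoprodI.Word.consRecOn with
    | empty => exact h1
    | cons i m w hw hm ih =>
      rw [Monoid.CoprodI.Word.prod_cons]
      refine hs i m w.prod hm ?_ ih
      unfold hd
      rw [W1_equiv_prod, Monoid.CoprodI.Word.equivPair_eq_of_fstIdx_ne hw]
  have h := key (Monoid.CoprodI.Word.equiv x)
  rw [W1_prod_equiv] at h
  exact h

theorem exists_hd {x : F4 H} (hx : x ≠ 1) : ∃ b, hd b x ≠ 1 := by
  have key : ∀ x : F4 H, x = 1 ∨ ∃ b, hd b x ≠ 1 := by
    refine W1_ind _ (Or.inl rfl) ?_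
    intro b h y hh hy _
    refine Or.inr ⟨b, ?_⟩
    rw [hd_mul, hy, mul_one]
    exact hh
  exact (key x).resolve_left hx

theorem ofb_inj (b : ZMod 4) : Function.Injective (ofb b : H → F4 H) := by
  intro h h' e
  have h1 := congrArg (hd b) e
  rw [hd_ofb, hd_ofb] at h1
  exact h1

private lemma W1_hd_ofb_ne {b c : ZMod 4} (hb : b ≠ c) (h : H) : hd b (ofb c h : F4 H) = 1 := by
  by_cases hh : h = 1
  · rw [hh, map_one, hd_one]
  · refine hd_ne hb (b := c) ?_
    rw [hd_ofb]
    exact hh

/-- Right multiplication by a syllable. Induction on the length of the reduced word of `y` (or `Word` lists): `y = ofb c k * y'` with `c ≠ b`, `k ≠ 1`,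
`hd c y' = 1`. If `y' ≠ 1` or `c' ≠ c` then by induction `hd c (y' * ofb c' h) = 1`, so `hd c (y * ofb c' h) = k ≠ 1` and `hd b = 1` by `hd_ne`. If `y' = 1` and `c' = c`
then `y * ofb c' h = ofb c (k * h)` which has `hd b = 1` because `b ≠ c`. -/
theorem hd_mul_right (b c : ZMod 4) (y : F4 H) (h : H) (hy : hd b y = 1) (hc : y ≠ 1 ∨ c ≠ b) :
    hd b (y * ofb c h) = 1 := by
  have key : ∀ y : F4 H, ∀ b : ZMod 4, hd b y = 1 → (y ≠ 1 ∨ c ≠ b) → hd b (y * ofb c h) = 1 := by
    refine W1_ind _ ?_ ?_
    · intro b _ hc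
      rw [one_mul]
      exact W1_hd_ofb_ne (hc.resolve_left fun h => h rfl).symm h
    · intro d k y' hk hy' ih b hb _
      have hbd : b ≠ d := by
        intro e
        rw [e, hd_mul, hy', mul_one] at hb
        exact hk hb
      by_cases h1 : y' ≠ 1 ∨ c ≠ d
      · have h2 := ih d hy' h1
        refine hd_ne hbd ?_
        rw [mul_assoc, hd_mul, h2, mul_one]
        exact hk
      · rw [not_or, not_not, not_not] at h1
        obtain ⟨h2, h3⟩ := h1
        rw [h2, h3, mul_one, ← map_mul]
        exact W1_hd_ofb_ne hbd _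
  exact key y b hy hc

/-- The elements which are reduced words with at most `r` syllables, all in `A`. -/
inductive Cv (A : Set H) : ℕ → F4 H → Prop
  | one : Cv A 0 1
  | mono (r : ℕ) (x : F4 H) : Cv A r x → Cv A (r + 1) x
  | step (r : ℕ) (b : ZMod 4) (h : H) (y : F4 H) : Cv A r y → hd b y = 1 → h ∈ A → h ≠ 1 → Cv A (r + 1) (ofb b h * y)

theorem Cv_zero {A : Set H} {x : F4 H} (h : Cv A 0 x) : x = 1 := by
  cases h
  rfl

theorem Cv_hd {A : Set H} {r : ℕ} {x : F4 H} (h : Cv A (r + 1) x) (b : ZMod 4) (hb : hd b x ≠ 1) :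
    hd b x ∈ A ∧ Cv A r (tl b x) := by
  induction r with
  | zero =>
    cases h with
    | mono _ _ h' => exact absurd (by rw [Cv_zero h', hd_one]) hb
    | step _ b' h y h1 h2 h3 h4 =>
      have hbb : b' = b := by
        by_contra hne
        exact hb (hd_ne (b := b') (Ne.symm hne) (by rw [hd_mul, h2, mul_one]; exact h4))
      subst hbb
      rw [hd_mul, h2, mul_one, tl_mul, tl_eq _ _ h2]
      exact ⟨h3, h1⟩
  | succ r ih =>
    cases h with
    | mono _ _ h' =>
      obtain ⟨h1, h2⟩ := ih h'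
      exact ⟨h1, Cv.mono _ _ h2⟩
    | step _ b' h y h1 h2 h3 h4 =>
      have hbb : b' = b := by
        by_contra hne
        exact hb (hd_ne (b := b') (Ne.symm hne) (by rw [hd_mul, h2, mul_one]; exact h4))
      subst hbb
      rw [hd_mul, h2, mul_one, tl_mul, tl_eq _ _ h2]
      exact ⟨h3, h1⟩

theorem Cv_le {A A' : Set H} {r r' : ℕ} {x : F4 H} (h : Cv A r x) (hA : A ⊆ A') (hr : r ≤ r') : Cv A' r' x := by
  have h1 : Cv A' r x := by
    induction h with
    | one => exact Cv.one
    | mono r x _ ih => exact Cv.mono r x (ih (by omega))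
    | step r b h y _ h2 h3 h4 ih => exact Cv.step r b h y (ih (by omega)) h2 (hA h3) h4
  induction hr with
  | refl => exact h1
  | step _ ih => exact Cv.mono _ _ ih

/-- Finitely many elements are covered by a finite set and a length. -/
theorem exists_Cv (B : Finset (F4 H)) : ∃ (A : Finset H) (r : ℕ), ∀ x ∈ B, Cv (A : Set H) r x := by
  classical
  have key : ∀ x : F4 H, ∃ (A : Finset H) (r : ℕ), Cv (A : Set H) r x := by
    refine W1_ind _ ⟨∅, 0, Cv.one⟩ ?_
    rintro b h y hh hy ⟨A, r, hA⟩
    refine ⟨insert h A, r + 1, Cv.step r b h y (Cv_le hA ?_ le_rfl) hy ?_ hh⟩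
    · rw [Finset.coe_insert]
      exact Set.subset_insert _ _
    · rw [Finset.coe_insert]
      exact Set.mem_insert _ _
  induction B using Finset.induction_on with
  | empty => exact ⟨∅, 0, fun x hx => absurd hx (Finset.notMem_empty x)⟩
  | insert a B _ ih =>
    obtain ⟨A, r, hA⟩ := ih
    obtain ⟨A', r', hA'⟩ := key a
    refine ⟨A ∪ A', max r r', fun x hx => ?_⟩
    rw [Finset.coe_union]
    rcases Finset.mem_insert.1 hx with h | h
    · rw [h]
      exact Cv_le hA' Set.subset_union_right (le_max_right _ _)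
    · exact Cv_le (hA x h) Set.subset_union_left (le_max_left _ _)

end KPl
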